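import Pool.Agent.NF44.Stmts

/-!
# AKE: the extension step (Zorn, saturation), in an abstract form
-/

namespace Pool.Agent.NF44

open Polynomial

universe u

section Graph

variable {N : Type u} [Field N] {G : Set (N × N)}

theorem IsFieldGraph.zero_mem (h : IsFieldGraph G) : ((0 : N), (0 : N)) ∈ G := by
  have := h.add _ h.one _ (h.neg _ h.one)
  simpa using this

theorem IsFieldGraph.func (h : IsFieldGraph G) {a b b' : N} (h1 : (a, b) ∈ G)
    (h2 : (a, b') ∈ G) : b = b' := by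
  have h3 := h.add _ h1 _ (h.neg _ h2)
  have h4 := (h.zero _ h3).1 (by simp)
  simp only at h4
  rwa [← sub_eq_add_neg, sub_eq_zero] at h4

/-- the domain of a field graph -/
def gdom (h : IsFieldGraph G) : Subfield N where
  carrier := {a | ∃ b, (a, b) ∈ G}
  mul_mem' := by
    rintro a b ⟨a', ha⟩ ⟨b', hb⟩
    exact ⟨a' * b', h.mul _ ha _ hb⟩
  one_mem' := ⟨1, h.one⟩
  add_mem' := by
    rintro a b ⟨a', ha⟩ ⟨b', hb⟩
    exact ⟨a' + b', h.add _ ha _ hb⟩
  zero_mem' := ⟨0, h.zero_mem⟩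
  neg_mem' := by
    rintro a ⟨a', ha⟩
    exact ⟨-a', h.neg _ ha⟩
  inv_mem' := by
    rintro a ⟨a', ha⟩
    exact ⟨a'⁻¹, h.inv _ ha⟩

theorem mem_gdom (h : IsFieldGraph G) (a : N) : a ∈ gdom h ↔ ∃ b, (a, b) ∈ G := Iff.rfl

/-- the isomorphism given by a field graph -/
noncomputable def gmap (h : IsFieldGraph G) : gdom h →+* N where
  toFun a := Classical.choose a.2
  map_one' := h.func (Classical.choose_spec (gdom h).one_mem) h.one
  map_mul' a b := h.func (Classical.choose_spec (a * b).2)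
    (h.mul _ (Classical.choose_spec a.2) _ (Classical.choose_spec b.2))
  map_zero' := h.func (Classical.choose_spec (gdom h).zero_mem) h.zero_mem
  map_add' a b := h.func (Classical.choose_spec (a + b).2)
    (h.add _ (Classical.choose_spec a.2) _ (Classical.choose_spec b.2))

theorem gmap_mem (h : IsFieldGraph G) (a : gdom h) : ((a : N), gmap h a) ∈ G :=
  Classical.choose_spec a.2

theorem gmap_eq (h : IsFieldGraph G) {a b : N} (hab : (a, b) ∈ G) :
    gmap h ⟨a, ⟨b, hab⟩⟩ = b := h.func (gmap_mem h ⟨a, ⟨b, hab⟩⟩) hab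

theorem isFieldGraph_sUnion (c : Set (Set (N × N))) (hc : IsChain (· ⊆ ·) c) (hne : c.Nonempty)
    (h : ∀ s ∈ c, IsFieldGraph s) : IsFieldGraph (⋃₀ c) := by
  obtain ⟨s0, hs0⟩ := hne
  have two : ∀ p ∈ ⋃₀ c, ∀ q ∈ ⋃₀ c, ∃ s ∈ c, p ∈ s ∧ q ∈ s := by
    rintro p ⟨s, hs, hp⟩ q ⟨t, ht, hq⟩
    rcases hc.total hs ht with h1 | h1
    · exact ⟨t, ht, h1 hp, hq⟩
    · exact ⟨s, hs, hp, h1 hq⟩
  refine ⟨⟨s0, hs0, (h s0 hs0).one⟩, ?_, ?_, ?_, ?_, ?_⟩
  · intro p hp q hq
    obtain ⟨s, hs, h1, h2⟩ := two p hp q hq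
    exact ⟨s, hs, (h s hs).add _ h1 _ h2⟩
  · rintro p ⟨s, hs, hp⟩
    exact ⟨s, hs, (h s hs).neg _ hp⟩
  · intro p hp q hq
    obtain ⟨s, hs, h1, h2⟩ := two p hp q hq
    exact ⟨s, hs, (h s hs).mul _ h1 _ h2⟩
  · rintro p ⟨s, hs, hp⟩
    exact ⟨s, hs, (h s hs).inv _ hp⟩
  · rintro p ⟨s, hs, hp⟩
    exact (h s hs).zero _ hp

/-- extension of a field graph by one element, from the evaluation property -/
theorem graph_extend (h : IsFieldGraph G) (x y : N)
    (hev : ∀ p : (gdom h)[X], aeval x p = 0 ↔ eval₂ (gmap h) y p = 0) :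
    ∃ G' : Set (N × N), IsFieldGraph G' ∧ G ⊆ G' ∧ (x, y) ∈ G' ∧
      ∀ q ∈ G', ∃ p k : (gdom h)[X], aeval x k ≠ 0 ∧ q = (aeval x p / aeval x k,
        eval₂ (gmap h) y p / eval₂ (gmap h) y k) := by
  have hev' : ∀ p : (gdom h)[X], aeval x p ≠ 0 → eval₂ (gmap h) y p ≠ 0 :=
    fun p hp hq => hp ((hev p).2 hq)
  refine ⟨{q | ∃ p k : (gdom h)[X], aeval x k ≠ 0 ∧ q = (aeval x p / aeval x k,
        eval₂ (gmap h) y p / eval₂ (gmap h) y k)}, ?_, ?_, ?_, fun q hq => hq⟩
  · constructor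
    · exact ⟨1, 1, by simp, by simp⟩
    · rintro _ ⟨p, k, hk, rfl⟩ _ ⟨p', k', hk', rfl⟩
      refine ⟨p * k' + k * p', k * k', by rw [map_mul]; exact mul_ne_zero hk hk', ?_⟩
      simp only [map_add, map_mul, eval₂_add, eval₂_mul]
      rw [div_add_div _ _ hk hk', div_add_div _ _ (hev' _ hk) (hev' _ hk')]
    · rintro _ ⟨p, k, hk, rfl⟩
      refine ⟨-p, k, hk, ?_⟩
      simp only [map_neg, eval₂_neg, neg_div]
    · rintro _ ⟨p, k, hk, rfl⟩ _ ⟨p', k', hk', rfl⟩
      refine ⟨p * p', k * k', by rw [map_mul]; exact mul_ne_zero hk hk', ?_⟩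
      simp only [map_mul, eval₂_mul]
      rw [div_mul_div_comm, div_mul_div_comm]
    · rintro _ ⟨p, k, hk, rfl⟩
      by_cases hp : aeval x p = 0
      · refine ⟨0, 1, by simp, ?_⟩
        have hp' := (hev p).1 hp
        simp [hp, hp']
      · refine ⟨k, p, hp, ?_⟩
        simp only [inv_div]
    · rintro _ ⟨p, k, hk, rfl⟩
      simp only [div_eq_zero_iff, hk, hev' _ hk, or_false]
      exact hev p
  · rintro ⟨a, b⟩ hab
    refine ⟨C ⟨a, ⟨b, hab⟩⟩, 1, by simp, ?_⟩
    simp only [aeval_C, map_one, div_one, eval₂_C, eval₂_one, gmap_eq h hab]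
    rfl
  · refine ⟨X, 1, by simp, ?_⟩
    simp

end Graph

/-- The induction step of AKE: a countable relatively algebraically closed subfield `M0` of the
ultrapower, all of whose leading terms are in the domain of `L`; every field graph `G` over `M0`
compatible with `L` extends to all of `M0`. -/
theorem ake_core (hSat : SatStmt.{u, 0, u}) (hStep : FieldStepStmt.{u})
    {M : Type u} [Field M] (O : ValuationSubring (UP M)) (hH : Hens O) (hR : Res0 O)
    (ρ : UP M → UP M → Prop) (hρ : RvRel O ρ)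
    (hint : ∀ (r : UP M), (∃ w, ρ r w) → Internal (fun y : Unit → UP M => ρ r (y ())))
    (M0 : Subfield (UP M)) (hM0c : (M0 : Set (UP M)).Countable)
    (hM0a : ∀ q : (UP M)[X], q ≠ 0 → (∀ i, q.coeff i ∈ M0) → ∀ z, q.eval z = 0 → z ∈ M0)
    (hM0r : ∀ z ∈ M0, z ≠ 0 → ∃ w, ρ z w)
    (G : Set (UP M × UP M)) (hG : IsFieldGraph G) (hGM : ∀ p ∈ G, p.1 ∈ M0)
    (hGρ : ∀ p ∈ G, p.1 ≠ 0 → ρ p.1 p.2) :
    ∃ G' : Set (UP M × UP M), G ⊆ G' ∧ IsFieldGraph G' ∧ G'.Countable ∧
      (∀ p ∈ G', p.1 ≠ 0 → ρ p.1 p.2) ∧ ∀ z ∈ M0, ∃ w, (z, w) ∈ G' := by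
  classical
  let S : Set (Set (UP M × UP M)) := {G' | IsFieldGraph G' ∧ (∀ p ∈ G', p.1 ∈ M0) ∧
    ∀ p ∈ G', p.1 ≠ 0 → ρ p.1 p.2}
  obtain ⟨G1, hGG1, hmax⟩ := zorn_subset_nonempty S (by
    intro c hcS hc hne
    refine ⟨⋃₀ c, ⟨isFieldGraph_sUnion c hc hne fun s hs => (hcS hs).1, ?_, ?_⟩,
      fun s hs => Set.subset_sUnion_of_mem hs⟩
    · rintro p ⟨s, hs, hp⟩
      exact (hcS hs).2.1 p hp
    · rintro p ⟨s, hs, hp⟩
      exact (hcS hs).2.2 p hp) G ⟨hG, hGM, hGρ⟩
  obtain ⟨hG1, hG1M, hG1ρ⟩ := hmax.prop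
  have hcount : G1.Countable := by
    have hinj : Set.InjOn Prod.fst G1 := by
      rintro ⟨a, b⟩ h1 ⟨a', b'⟩ h2 h3
      simp only at h3
      subst h3
      rw [hG1.func h1 h2]
    exact Set.MapsTo.countable_of_injOn (t := (M0 : Set (UP M))) (fun p hp => hG1M p hp) hinj hM0c
  refine ⟨G1, hGG1, hG1, hcount, hG1ρ, ?_⟩
  by_contra hcon
  push Not at hcon
  obtain ⟨z0, hz0M, hz0⟩ := hcon
  set A := gdom hG1 with hA
  set f := gmap hG1 with hf
  have hAM : ∀ a ∈ A, a ∈ M0 := by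
    rintro a ⟨b, hb⟩
    exact hG1M _ hb
  have hz0A : z0 ∉ A := by
    rintro ⟨b, hb⟩
    exact hz0 b hb
  have hAρ : ∀ a : A, (a : UP M) ≠ 0 → ρ a (f a) := fun a ha => hG1ρ _ (gmap_mem hG1 a) ha
  -- polynomials over `A` have their zeros in `M0`
  have hzero : ∀ q : A[X], q ≠ 0 → ∀ z : UP M, aeval z q = 0 → z ∈ M0 := by
    intro q hq z hz
    refine hM0a (q.map (algebraMap A (UP M))) ?_ ?_ z ?_
    · rwa [Ne, Polynomial.map_eq_zero]
    · intro i
      rw [coeff_map]
      exact hAM _ (q.coeff i).2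
    · rwa [eval_map_algebraMap]
  have hevM : ∀ x ∈ M0, ∀ q : A[X], aeval x q ∈ M0 := by
    intro x hx q
    rw [aeval_def, eval₂_eq_sum_range]
    exact Subfield.sum_mem _ fun i _ => M0.mul_mem (hAM _ (q.coeff i).2) (M0.pow_mem hx i)
  -- the choice of the new element
  obtain ⟨x1, g, Small, hx1M, hx1A, F1, F2, F3, F4, F5, F6⟩ : ∃ (x1 : UP M) (g : A[X])
      (Small : A[X] → Prop), x1 ∈ M0 ∧ x1 ∉ A ∧
      (∀ h, h ≠ 0 → Small h → aeval x1 h ≠ 0) ∧
      (∀ h, h ≠ 0 → Small h → ∀ z : UP M, aeval z h = 0 → z ∈ A) ∧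
      (∀ h (j : ℕ), Small h → Small (derivative^[j] h)) ∧
      (∀ j : ℕ, 0 < j → g = 0 ∨ Small (derivative^[j] g)) ∧
      (aeval x1 g = 0) ∧
      (∀ h : A[X], ∃ r, Small r ∧ aeval x1 h = aeval x1 r ∧
        ∀ y, eval₂ f y g = 0 → eval₂ f y h = eval₂ f y r) := by
    by_cases halg : ∃ x ∈ M0, x ∉ A ∧ ∃ q : A[X], q ≠ 0 ∧ aeval x q = 0
    · -- algebraic case
      let D : ℕ → Prop := fun d => ∃ x ∈ M0, x ∉ A ∧ ∃ q : A[X], q ≠ 0 ∧ aeval x q = 0 ∧
        q.natDegree = d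
      have hD : ∃ d, D d := by
        obtain ⟨x, hx, hxA, q, hq, hq0⟩ := halg
        exact ⟨_, x, hx, hxA, q, hq, hq0, rfl⟩
      obtain ⟨x1, hx1M, hx1A, q, hq, hq0, hqd⟩ := Nat.find_spec hD
      have hmin : ∀ h : A[X], h ≠ 0 → h.natDegree < Nat.find hD → ∀ z : UP M, aeval z h = 0 →
          z ∈ A := by
        intro h hh hd z hz
        by_contra hzA
        exact Nat.find_min hD hd ⟨z, hzero h hh z hz, hzA, h, hh, hz, rfl⟩
      have hint1 : IsIntegral A x1 := (IsAlgebraic.isIntegral ⟨q, hq, hq0⟩)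
      set g := minpoly A x1 with hg
      have hg0 : g ≠ 0 := minpoly.ne_zero hint1
      have hgd : g.natDegree = Nat.find hD := by
        apply le_antisymm
        · rw [← hqd]
          exact Polynomial.natDegree_le_of_degree_le (le_trans (minpoly.degree_le_of_ne_zero A x1 hq hq0)
            Polynomial.degree_le_natDegree)
        · exact Nat.find_min' hD ⟨x1, hx1M, hx1A, g, hg0, minpoly.aeval A x1, rfl⟩
      have hgpos : 0 < g.natDegree := minpoly.natDegree_pos hint1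
      refine ⟨x1, g, fun h => h.natDegree < g.natDegree, hx1M, hx1A, ?_, ?_, ?_, ?_, ?_, ?_⟩
      · intro h hh hd hz
        exact hx1A (hmin h hh (hgd ▸ hd) x1 hz)
      · intro h hh hd z hz
        exact hmin h hh (hgd ▸ hd) z hz
      · intro h j hd
        exact lt_of_le_of_lt (le_trans (natDegree_iterate_derivative h j) (Nat.sub_le _ _)) hd
      · intro j hj
        right
        have := natDegree_iterate_derivative g j
        omega
      · exact minpoly.aeval A x1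
      · intro h
        refine ⟨h %ₘ g, ?_, ?_, ?_⟩
        · exact natDegree_modByMonic_lt h (minpoly.monic hint1) (by
            intro h1
            rw [h1] at hgpos
            simp at hgpos)
        · rw [aeval_modByMonic_eq_self_of_root (minpoly.aeval A x1)]
        · intro y hy
          have h1 := modByMonic_add_div h g
          conv_lhs => rw [← h1]
          rw [eval₂_add, eval₂_mul, hy, zero_mul, add_zero]
    · -- transcendental case
      push Not at halg
      refine ⟨z0, 0, fun _ => True, hz0M, hz0A, ?_, ?_, ?_, ?_, ?_, ?_⟩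
      · intro h hh _
        exact halg z0 hz0M hz0A h hh
      · intro h hh _ z hz
        by_contra hzA
        exact halg z (hzero h hh z hz) hzA h hh hz
      · intro _ _ _; trivial
      · intro j _; left; rfl
      · simp
      · intro h
        exact ⟨h, trivial, rfl, fun y _ => rfl⟩
  -- the conditions
  have : Countable A := by
    have : (A : Set (UP M)).Countable := hM0c.mono fun a ha => hAM a ha
    exact this.to_subtype
  let J := Option {h : A[X] // h ≠ 0 ∧ Small h}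
  have : Countable A[X] := by
    have : Countable (ℕ →₀ A) := inferInstance
    have : Countable (AddMonoidAlgebra A ℕ) := AddMonoidAlgebra.coeffEquiv.injective.countable
    exact (Polynomial.toFinsuppIso A).toEquiv.injective.countable
  let P : J → (Unit → UP M) → Prop := fun j => match j with
    | none => fun y => eval₂ f (y ()) g = 0
    | some h => fun y => ρ (aeval x1 h.1) (eval₂ f (y ()) h.1)
  -- evaluation is internal
  have hevint : ∀ h : A[X], ∃ F : ℕ → M → M, ∀ y : ℕ → M,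
      eval₂ f ((y : ℕ → M) : UP M) h = ((fun k => F k (y k) : ℕ → M) : UP M) := by
    intro h
    induction h using Polynomial.induction_on' with
    | add p q hp hq =>
      obtain ⟨F, hF⟩ := hp
      obtain ⟨F', hF'⟩ := hq
      refine ⟨fun k m => F k m + F' k m, fun y => ?_⟩
      rw [eval₂_add, hF, hF']
      rfl
    | monomial n a =>
      refine ⟨fun k m => rep (f a) k * m ^ n, fun y => ?_⟩
      rw [eval₂_monomial]
      conv_lhs => rw [← rep_spec (f a)]
      rfl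
  have hInt : ∀ j, Internal (P j) := by
    intro j
    match j with
    | none =>
      obtain ⟨F, hF⟩ := hevint g
      refine ⟨fun k y => F k (y ()) = 0, fun y => ?_⟩
      change eval₂ f ((y () : ℕ → M) : UP M) g = 0 ↔ _
      rw [hF]
      exact Filter.Germ.coe_eq
    | some h =>
      obtain ⟨F, hF⟩ := hevint h.1
      have hne : aeval x1 h.1 ≠ 0 := F1 h.1 h.2.1 h.2.2
      obtain ⟨p, hp⟩ := hint (aeval x1 h.1) (hM0r _ (hevM x1 hx1M _) hne)
      refine ⟨fun k y => p k (fun _ => F k (y ())), fun y => ?_⟩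
      change ρ (aeval x1 h.1) (eval₂ f ((y () : ℕ → M) : UP M) h.1) ↔ _
      rw [hF]
      exact hp fun _ k => F k (y () k)
  -- finite satisfiability
  have hfin : ∀ s : Finset J, ∃ y : Unit → UP M, ∀ j ∈ s, P j y := by
    intro s
    let H : Finset A[X] := s.eraseNone.image Subtype.val
    have hHs : ∀ h ∈ H, h ≠ 0 ∧ Small h := by
      intro h hh
      obtain ⟨h', _, rfl⟩ := Finset.mem_image.1 hh
      exact h'.2
    obtain ⟨y, hy1, hy2⟩ := hStep (UP M) O hH hR ρ hρ A f hAρ x1 hx1A H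
      (fun h hh => (hHs h hh).1)
      (fun h hh j z hne hz => F2 _ hne (F3 h j (hHs h hh).2) z hz)
      (fun h hh => hM0r _ (hevM x1 hx1M _) (F1 h (hHs h hh).1 (hHs h hh).2))
      (fun a ha => hM0r _ (M0.sub_mem hx1M (hAM a ha)) (fun h => hx1A (by
        rw [sub_eq_zero] at h; rw [h]; exact ha)))
      g (by
        by_cases hg : g = 0
        · exact Or.inl hg
        · refine Or.inr ⟨hg, F5, fun j z hj hne hz => ?_⟩
          rcases F4 j hj with h | h
          · exact absurd h hg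
          · exact F2 _ hne h z hz)
    refine ⟨fun _ => y, fun j hj => ?_⟩
    match j with
    | none => exact hy1
    | some h =>
      refine hy2 h.1 (Finset.mem_image.2 ⟨h, ?_, rfl⟩)
      exact Finset.mem_eraseNone.2 hj
  obtain ⟨y, hy⟩ := hSat Unit J M P hInt hfin
  have hyg : eval₂ f (y ()) g = 0 := hy none
  have hyh : ∀ h : A[X], h ≠ 0 → Small h → ρ (aeval x1 h) (eval₂ f (y ()) h) :=
    fun h h1 h2 => hy (some ⟨h, h1, h2⟩)
  have hev : ∀ p : A[X], aeval x1 p = 0 ↔ eval₂ f (y ()) p = 0 := by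
    intro p
    obtain ⟨r, hr1, hr2, hr3⟩ := F6 p
    rw [hr2, hr3 _ hyg]
    by_cases hr : r = 0
    · subst hr; simp
    · have h1 := F1 r hr hr1
      have h2 := (hρ.ne _ _ (hyh r hr hr1)).2
      simp [h1, h2]
  have hevρ : ∀ p : A[X], aeval x1 p ≠ 0 → ρ (aeval x1 p) (eval₂ f (y ()) p) := by
    intro p hp
    obtain ⟨r, hr1, hr2, hr3⟩ := F6 p
    rw [hr2] at hp
    rw [hr2, hr3 _ hyg]
    by_cases hr : r = 0
    · subst hr; simp at hp
    · exact hyh r hr hr1
  obtain ⟨G2, hG2, hG12, hxy, hrep⟩ := graph_extend hG1 x1 (y ()) hev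
  have hG2S : G2 ∈ S := by
    refine ⟨hG2, ?_, ?_⟩
    · intro q hq
      obtain ⟨p, k, _, rfl⟩ := hrep q hq
      exact M0.div_mem (hevM x1 hx1M _) (hevM x1 hx1M _)
    · intro q hq hq0
      obtain ⟨p, k, hk, rfl⟩ := hrep q hq
      simp only at hq0 ⊢
      have hp : aeval x1 p ≠ 0 := fun h => hq0 (by rw [h, zero_div])
      rw [div_eq_mul_inv, div_eq_mul_inv]
      exact hρ.mul _ _ _ _ (hevρ p hp) (hρ.inv _ _ (hevρ k hk))
  have hle := hmax.le_of_ge hG2S hG12
  exact hx1A ⟨y (), hle hxy⟩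

end Pool.Agent.NF44
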