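import Pool.Agent.NF44.Stmts2
import Pool.Agent.NF44.AKECore

/-!
# AKE: forth for the system `Sys`, and its symmetry
-/

namespace Pool.Agent.NF44

open Polynomial

universe u

/-- Good subgroups are functional. -/
theorem Good.func {E C : Type u} [CommGroup E] [CommGroup C] {π : E →* C}
    {PA : Set (UP E × UP E) → Prop} {PC : Set (UP C × UP C) → Prop}
    {L : Subgroup (UP E × UP E)} (hL : Good π PA PC L)
    (hPA : IsTypeProp {e | upHom π e = 1} PA) {e e' e'' : UP E} (h1 : (e, e') ∈ L)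
    (h2 : (e, e'') ∈ L) : e' = e'' := by
  have h3 : ((1 : UP E), e' * e''⁻¹) ∈ L := by
    have := L.mul_mem h1 (L.inv_mem h2)
    simpa using this
  have h4 : ((1 : UP E), (1 : UP E)) ∈ L := L.one_mem
  have h5 : ((1 : UP E), e' * e''⁻¹) ∈ {p | p ∈ L ∧ upHom π p.1 = 1} :=
    ⟨h3, map_one _⟩
  have h6 : ((1 : UP E), (1 : UP E)) ∈ {p | p ∈ L ∧ upHom π p.1 = 1} := ⟨h4, map_one _⟩
  have h7 := hPA.mul _ hL.a 1 (e' * e''⁻¹) 1 1 1 h5 h6 (by rw [one_mul]; exact h6)
  rw [mul_one] at h7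
  rw [← mul_inv_eq_one]
  exact h7.symm

/-- The residue map of the ultrapower as an additive homomorphism. -/
noncomputable def upreskHom {M : Type u} [Field M] (O : ValuationSubring M) :
    (upVS O) →+ UP (IsLocalRing.ResidueField O) where
  toFun x := upMap (resk O) (x : UP M)
  map_zero' := upresk_zero O
  map_add' x y := upresk_add O x.2 y.2

theorem upresk_lin {M : Type u} [Field M] (O : ValuationSubring M) {r : ℕ} (n : Fin r → ℤ)
    (z : Fin r → UP M) (hz : ∀ i, z i ∈ upVS O) :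
    ∑ i, (n i : UP M) * z i ∈ upVS O ∧
      upMap (resk O) (∑ i, (n i : UP M) * z i) = ∑ i, n i • upMap (resk O) (z i) := by
  have h1 : ((∑ i, n i • (⟨z i, hz i⟩ : upVS O) : upVS O) : UP M) = ∑ i, (n i : UP M) * z i := by
    rw [AddSubmonoidClass.coe_finsetSum]
    refine Finset.sum_congr rfl fun i _ => ?_
    rw [zsmul_eq_mul]
    push_cast
    rfl
  constructor
  · rw [← h1]
    exact (∑ i, n i • (⟨z i, hz i⟩ : upVS O) : upVS O).2
  · have h2 : upreskHom O (∑ i, n i • (⟨z i, hz i⟩ : upVS O)) =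
        ∑ i, n i • upreskHom O ⟨z i, hz i⟩ := by
      rw [map_sum]
      exact Finset.sum_congr rfl fun i _ => map_zsmul _ _ _
    rw [← h1]
    exact h2

/-- The relation of leading terms given by a good subgroup. -/
theorem rvRel_of_good {M : Type u} [Field M] (O : ValuationSubring M)
    {PA : Set (UP (RVg O) × UP (RVg O)) → Prop} {PC : Set (UP (VGg O) × UP (VGg O)) → Prop}
    (hlin : PreservesLin O PA) (hord : PreservesOrd O PC)
    {L : Subgroup (UP (RVg O) × UP (RVg O))} (hL : Good (piV O) PA PC L) :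
    RvRel (upVS O) (fun z w => z ≠ 0 ∧ w ≠ 0 ∧ (upMap (rv O) z, upMap (rv O) w) ∈ L) where
  ne := fun z z' h => ⟨h.1, h.2.1⟩
  mul := by
    intro z z' w w' h1 h2
    refine ⟨mul_ne_zero h1.1 h2.1, mul_ne_zero h1.2.1 h2.2.1, ?_⟩
    rw [uprv_mul O h1.1 h2.1, uprv_mul O h1.2.1 h2.2.1]
    exact L.mul_mem h1.2.2 h2.2.2
  inv := by
    intro z z' h
    refine ⟨inv_ne_zero h.1, inv_ne_zero h.2.1, ?_⟩
    rw [uprv_inv, uprv_inv]
    exact L.inv_mem h.2.2
  int := by
    intro z z' h
    have h1 := hord _ hL.c (upHom (piV O) (upMap (rv O) z), upHom (piV O) (upMap (rv O) z'))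
      ⟨_, h.2.2, rfl⟩
    simp only [upHom_piV] at h1
    rwa [upvg_mem le_rfl h.1, upvg_mem le_rfl h.2.1] at h1
  lin := by
    intro r z z' n h hv
    have hv' : ∀ i, (upVS O).valuation (z' i) = 1 := by
      intro i
      have h1 := hL.ker _ (h i).2.2
      simp only [upHom_piV] at h1
      rw [upvg_eq_one O (h i).1, upvg_eq_one O (h i).2.1] at h1
      exact h1.1 (hv i)
    have h1 := hlin _ hL.a r (fun i => (upMap (rv O) (z i), upMap (rv O) (z' i))) n (fun i => by
      refine ⟨(h i).2.2, ?_⟩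
      change upHom (piV O) (upMap (rv O) (z i)) = 1
      rw [upHom_piV, upvg_eq_one O (h i).1]
      exact hv i)
    simp only [uprk_rv O (hv _), uprk_rv O (hv' _)] at h1
    have hz : ∀ i, z i ∈ upVS O := fun i => mem_of_val_one _ (hv i)
    have hz' : ∀ i, z' i ∈ upVS O := fun i => mem_of_val_one _ (hv' i)
    obtain ⟨a1, a2⟩ := upresk_lin O n z hz
    obtain ⟨b1, b2⟩ := upresk_lin O n z' hz'
    rw [← a2, ← b2, upresk_eq_zero O a1, upresk_eq_zero O b1] at h1
    exact h1
  congr := by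
    intro z z' z'' h hv
    have hne : z'' ≠ 0 := by
      rintro rfl
      rw [zero_div, zero_sub, Valuation.map_neg, map_one] at hv
      exact lt_irrefl _ hv
    refine ⟨h.1, hne, ?_⟩
    rw [(uprv_eq O hne h.2.1).2 hv]
    exact h.2.2

/-- The relative algebraic closure of a countable subfield is countable. -/
theorem exists_closure {N : Type u} [Field N] (A : Subfield N) (hA : (A : Set N).Countable)
    (x : N) : ∃ M0 : Subfield N, (M0 : Set N).Countable ∧ A ≤ M0 ∧ x ∈ M0 ∧
      ∀ q : N[X], q ≠ 0 → (∀ i, q.coeff i ∈ M0) → ∀ z, q.eval z = 0 → z ∈ M0 := by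
  classical
  let B : Subfield N := Subfield.closure ((A : Set N) ∪ {x})
  have hB : (B : Set N).Countable := by
    have h1 : ((A : Set N) ∪ {x}).Countable := hA.union (Set.countable_singleton x)
    have h2 : Cardinal.mk B ≤ max (Cardinal.mk ((A : Set N) ∪ {x} : Set N)) Cardinal.aleph0 :=
      Subfield.cardinalMk_closure_le_max _
    have h3 : Cardinal.mk ((A : Set N) ∪ {x} : Set N) ≤ Cardinal.aleph0 :=
      Cardinal.le_aleph0_iff_set_countable.2 h1
    have h4 : Cardinal.mk B ≤ Cardinal.aleph0 := le_trans h2 (max_le h3 le_rfl)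
    exact Cardinal.le_aleph0_iff_set_countable.1 h4
  have : Countable B := hB.to_subtype
  let M1 : IntermediateField B N := algebraicClosure B N
  have hM1c : Countable M1 := by
    have h2 : Cardinal.mk M1 ≤ max (Cardinal.mk B) Cardinal.aleph0 :=
      Algebra.IsAlgebraic.cardinalMk_le_max B M1
    have h3 : Cardinal.mk B ≤ Cardinal.aleph0 := Cardinal.mk_le_aleph0
    exact Cardinal.mk_le_aleph0_iff.1 (le_trans h2 (max_le h3 le_rfl))
  refine ⟨M1.toSubfield, ?_, ?_, ?_, ?_⟩
  · exact Set.countable_coe_iff.1 hM1c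
  · intro a ha
    have haB : a ∈ B := Subfield.subset_closure (Or.inl ha)
    exact M1.algebraMap_mem ⟨a, haB⟩
  · have hxB : x ∈ B := Subfield.subset_closure (Or.inr rfl)
    exact M1.algebraMap_mem ⟨x, hxB⟩
  · intro q hq hqc z hz
    -- lift the polynomial
    have hlift : q ∈ Polynomial.lifts (algebraMap M1 N) := by
      rw [Polynomial.lifts_iff_coeff_lifts]
      intro i
      exact ⟨⟨q.coeff i, hqc i⟩, rfl⟩
    obtain ⟨q', hq'⟩ := (Polynomial.mem_lifts q).1 hlift
    have hq'0 : q' ≠ 0 := by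
      rintro rfl
      rw [Polynomial.map_zero] at hq'
      exact hq hq'.symm
    have halg : IsAlgebraic M1 z := ⟨q', hq'0, by
      rw [← eval_map_algebraMap, hq']; exact hz⟩
    have halg2 : IsAlgebraic B z := halg.restrictScalars B
    exact mem_algebraicClosure_iff.2 halg2

/-- AKE: forth. -/
theorem ake (hSat : SatStmt.{u, 0, u}) (hStep : FieldStepStmt.{u}) (hEx : ExactStmt.{u}) :
    AKEStmt.{u} := by
  classical
  intro M _ O hH hR PA PC hPA hPC hlin hord G hG x
  obtain ⟨hGc, hG1, L, hL, hGL⟩ := hG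
  have hAc : ((gdom hG1 : Subfield (UP M)) : Set (UP M)).Countable := by
    have : ((gdom hG1 : Subfield (UP M)) : Set (UP M)) = Prod.fst '' G := by
      ext a
      constructor
      · rintro ⟨b, hb⟩
        exact ⟨(a, b), hb, rfl⟩
      · rintro ⟨⟨a', b⟩, hb, rfl⟩
        exact ⟨b, hb⟩
    rw [this]
    exact hGc.image _
  obtain ⟨M0, hM0c, hAM0, hxM0, hM0a⟩ := exists_closure (gdom hG1) hAc x
  obtain ⟨L', hLL', hL', hL'S⟩ := hEx (RVg O) (VGg O) (piV O) (piV_surjective O)
    (fun c n hn h => vg_torsion_free O c n hn h) PA PC hPA hPC L hL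
    ((upMap (rv O)) '' (M0 : Set (UP M))) (hM0c.image _)
  set ρ : UP M → UP M → Prop :=
    fun z w => z ≠ 0 ∧ w ≠ 0 ∧ (upMap (rv O) z, upMap (rv O) w) ∈ L' with hρdef
  have hρ : RvRel (upVS O) ρ := rvRel_of_good O hlin hord hL'
  obtain ⟨G', hGG', hG', hG'c, hG'ρ, hG'M⟩ := ake_core hSat hStep (upVS O) (upVS_hens hH)
    (upVS_res0 hR) ρ hρ (by
      rintro r ⟨w, hr, hw, hrw⟩
      induction w using up_ind with | _ wf => ?_
      refine ⟨fun k y => y () ≠ 0 ∧ rv O (y ()) = rv O (wf k), fun f => ?_⟩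
      rw [evt_and]
      constructor
      · rintro ⟨_, h2, h3⟩
        refine ⟨(up_ne_zero _).1 h2, ?_⟩
        have h4 := hL'.func hPA h3 hrw
        rw [upMap_coe, upMap_coe, up_eq] at h4
        exact h4
      · rintro ⟨h1, h2⟩
        refine ⟨hr, (up_ne_zero _).2 h1, ?_⟩
        have h4 : upMap (rv O) ((f () : ℕ → M) : UP M) = upMap (rv O) (wf : UP M) := by
          rw [upMap_coe, upMap_coe, up_eq]
          exact h2
        rw [h4]
        exact hrw) M0 hM0c hM0a (by
      intro z hz hz0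
      obtain ⟨r, hr⟩ := hL'S _ ⟨z, hz, rfl⟩
      obtain ⟨w, hw, rfl⟩ := uprv_surj O r
      exact ⟨w, hz0, hw, hr⟩) G hG1 (fun p hp => hAM0 ⟨p.2, hp⟩) (by
      intro p hp hp0
      exact ⟨hp0, fun h => hp0 ((hG1.zero p hp).2 h), hLL' (hGL p hp hp0)⟩)
  exact ⟨G', hGG', ⟨hG'c, hG', L', hL', fun p hp hp0 => (hG'ρ p hp hp0).2.2⟩, hG'M x hxM0⟩

/-- Good subgroups can be swapped. -/
theorem Good.swap {E C : Type u} [CommGroup E] [CommGroup C] {π : E →* C}
    {PA : Set (UP E × UP E) → Prop} {PC : Set (UP C × UP C) → Prop}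
    {L : Subgroup (UP E × UP E)} (hL : Good π PA PC L)
    (hPA : IsTypeProp {e | upHom π e = 1} PA) (hPC : IsTypeProp Set.univ PC) :
    Good π PA PC (L.comap (MulEquiv.prodComm : UP E × UP E ≃* UP E × UP E).toMonoidHom) where
  countable := by
    have : ((L.comap (MulEquiv.prodComm : UP E × UP E ≃* UP E × UP E).toMonoidHom :
        Subgroup (UP E × UP E)) : Set (UP E × UP E)) = Prod.swap ⁻¹' (L : Set (UP E × UP E)) := rfl
    rw [this]
    exact hL.countable.preimage Prod.swap_injective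
  ker := fun p hp => (hL.ker p.swap hp).symm
  a := by
    have h1 := hPA.swap _ hL.a
    convert h1 using 1
    ext p
    constructor
    · rintro ⟨hp, hp1⟩
      exact ⟨hp, (hL.ker p.swap hp).2 hp1⟩
    · rintro ⟨hp, hp1⟩
      exact ⟨hp, (hL.ker p.swap hp).1 hp1⟩
  c := by
    have h1 := hPC.swap _ hL.c
    convert h1 using 1
    ext q
    constructor
    · rintro ⟨p, hp, rfl⟩
      exact ⟨p.swap, hp, rfl⟩
    · rintro ⟨p, hp, hq⟩
      refine ⟨p.swap, ?_, ?_⟩
      · change p.swap.swap ∈ L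
        rwa [Prod.swap_swap]
      · have := congrArg Prod.swap hq
        rw [Prod.swap_swap] at this
        exact this
  pure1 := by
    intro p hp g n hn hg
    obtain ⟨s, hs, hs2⟩ := hL.pure2 p.swap hp g n hn hg
    refine ⟨s.swap, ?_, hs2⟩
    change s.swap.swap ∈ L
    rwa [Prod.swap_swap]
  pure2 := by
    intro p hp g n hn hg
    obtain ⟨s, hs, hs2⟩ := hL.pure1 p.swap hp g n hn hg
    refine ⟨s.swap, ?_, hs2⟩
    change s.swap.swap ∈ L
    rwa [Prod.swap_swap]

theorem IsFieldGraph.swap {N : Type u} [Field N] {G : Set (N × N)} (h : IsFieldGraph G) :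
    IsFieldGraph (Prod.swap ⁻¹' G) where
  one := h.one
  add := fun p hp q hq => h.add p.swap hp q.swap hq
  neg := fun p hp => h.neg p.swap hp
  mul := fun p hp q hq => h.mul p.swap hp q.swap hq
  inv := fun p hp => h.inv p.swap hp
  zero := fun p hp => (h.zero p.swap hp).symm

/-- `Sys` is symmetric. -/
theorem sysSwap : SysSwapStmt.{u} := by
  intro M _ O PA PC hPA hPC G hG
  obtain ⟨hGc, hG1, L, hL, hGL⟩ := hG
  refine ⟨hGc.preimage Prod.swap_injective, hG1.swap, _, hL.swap hPA hPC, ?_⟩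
  intro p hp hp0
  have h1 : p.swap.1 ≠ 0 := fun h => hp0 ((hG1.zero p.swap hp).1 h)
  exact hGL p.swap hp h1

end Pool.Agent.NF44
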