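import Pool.Agent.NF44.Stmts2

/-!
# Final assembly of MP_fb46bb_lc
-/

namespace Pool.Agent.NF44

universe u

theorem res0_of_charZero {K : Type u} [Field K] (O : ValuationSubring K)
    [CharZero (IsLocalRing.ResidueField O)] : Res0 O := by
  intro n hn
  have h1 : ((n : O) : O) ∉ IsLocalRing.maximalIdeal O := by
    intro h
    rw [← IsLocalRing.residue_eq_zero_iff, map_natCast] at h
    exact hn (by exact_mod_cast h)
  have h2 : IsUnit (n : O) := by
    rw [IsLocalRing.mem_maximalIdeal, mem_nonunits_iff, not_not] at h1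
    exact h1
  have h3 : O.valuation ((n : O) : K) = 1 := (O.valuation_eq_one_iff _).1 h2
  have h4 : (((n : O) : O) : K) = (n : K) := by simp
  rw [h4, veq_one_iff] at h3
  exact ⟨h3.1, h3.2.2⟩

theorem assemble (hA : LangAStmt.{u}) (hB : LangBStmt.{u}) (h0 : Case0Stmt.{u})
    (h1 : Case1Stmt.{u}) (hH : HensOfStmt.{u}) (n : ℕ) (hn : 1 ≤ n) (K : Type u) [Field K]
    (O : ValuationSubring K) [HenselianLocalRing O] [CharZero (IsLocalRing.ResidueField O)]
    (h : FieldNIP n K) : ValuedNIP n K O := by
  have hO : Hens O := hH K O inferInstance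
  have hr : Res0 O := res0_of_charZero O
  have hs : SNIP (pureRS K) n := hA K n hn h
  refine hB K O n hn ?_
  by_cases hc : IsAlgClosed (IsLocalRing.ResidueField O)
  · exact h0 K O hO hr hc n hn hs
  · exact h1 K O hO hr hc n hn hs

end Pool.Agent.NF44
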