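import Pool.Agent.NF44.Stmts2

/-!
# The B-sandwich (helper58)
-/

namespace Pool.Agent.NF44

open Polynomial

universe u

theorem bSand_isUnit_of_residue {K : Type u} [Field K] (O : ValuationSubring K) (y : O)
    (h : IsLocalRing.residue O y ≠ 0) : IsUnit y := by
  by_contra h1
  apply h
  rw [IsLocalRing.residue_eq_zero_iff]
  exact (IsLocalRing.mem_maximalIdeal _).2 h1

theorem bSand_unit {K : Type u} [Field K] (O : ValuationSubring K) (f : O[X])
    (hr : ∀ x : IsLocalRing.ResidueField O, (f.map (IsLocalRing.residue O)).eval x ≠ 0) (x : O) :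
    IsUnit (f.eval x) := by
  apply bSand_isUnit_of_residue
  intro h1
  apply hr (IsLocalRing.residue O x)
  rw [Polynomial.eval_map, Polynomial.eval₂_at_apply]
  exact h1

theorem bSand_eval_coe {K : Type u} [Field K] (O : ValuationSubring K) (f : O[X]) (x : O) :
    (f.map O.subtype).eval (x : K) = ((f.eval x : O) : K) := by
  rw [Polynomial.eval_map]
  exact Polynomial.eval₂_at_apply O.subtype x

theorem bSand_inv_mem {K : Type u} [Field K] (O : ValuationSubring K) {y : O} (h : IsUnit y) :
    ((y : K) ≠ 0) ∧ (y : K)⁻¹ ∈ O := by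
  obtain ⟨u, rfl⟩ := h
  have h1 : ((u : O) : K) * ((u⁻¹ : Oˣ) : O) = 1 := by
    have h2 : (u : O) * ((u⁻¹ : Oˣ) : O) = 1 := u.mul_inv
    have h3 := congrArg (fun z : O => (z : K)) h2
    exact h3
  refine ⟨left_ne_zero_of_mul_eq_one h1, ?_⟩
  rw [inv_eq_of_mul_eq_one_right h1]
  exact ((u⁻¹ : Oˣ) : O).2

theorem bSand_big {K : Type u} [Field K] (O : ValuationSubring K) (f : O[X])
    (hf : f.Monic) (x : K) (hx : x ∉ O) :
    (f.map O.subtype).eval x ≠ 0 ∧ ((f.map O.subtype).eval x)⁻¹ ∈ O := by
  have hx0 : x ≠ 0 := by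
    rintro rfl
    exact hx O.zero_mem
  have hxi : x⁻¹ ∈ O := (O.mem_or_inv_mem x).resolve_left hx
  have hlt : O.valuation x⁻¹ < 1 := by
    rw [map_inv₀]
    have h1 : 1 < O.valuation x := by
      by_contra h
      exact hx ((O.valuation_le_one_iff x).1 (not_lt.1 h))
    exact inv_lt_one_of_one_lt₀ h1
  -- the reversed polynomial
  have hrev : (f.map O.subtype).eval x =
      ((f.reverse.eval (⟨x⁻¹, hxi⟩ : O) : O) : K) * x ^ f.natDegree := by
    let _ : Invertible x := invertibleOfNonzero hx0
    have h := Polynomial.eval₂_reverse_mul_pow O.subtype x f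
    rw [Polynomial.eval_map, ← h]
    congr 1
    have h2 := Polynomial.eval₂_at_apply (p := f.reverse) O.subtype (⟨x⁻¹, hxi⟩ : O)
    rw [invOf_eq_inv]
    exact h2
  have hu : IsUnit (f.reverse.eval (⟨x⁻¹, hxi⟩ : O)) := by
    apply bSand_isUnit_of_residue
    have h0 : IsLocalRing.residue O (⟨x⁻¹, hxi⟩ : O) = 0 := by
      rw [IsLocalRing.residue_eq_zero_iff, ValuationSubring.valuation_lt_one_iff]
      exact hlt
    rw [← Polynomial.eval₂_at_apply (IsLocalRing.residue O), h0, Polynomial.eval₂_at_zero,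
      Polynomial.coeff_zero_reverse, hf.leadingCoeff, map_one]
    exact one_ne_zero
  obtain ⟨h1, h2⟩ := bSand_inv_mem O hu
  rw [hrev]
  refine ⟨mul_ne_zero h1 (pow_ne_zero _ hx0), ?_⟩
  rw [mul_inv, ← inv_pow]
  exact O.mul_mem _ _ h2 (pow_mem hxi _)

theorem bSand (hL : HensLiftStmt.{u}) : BSandStmt.{u} := by
  intro K _ O hH hR hk
  -- an irreducible monic polynomial without zeros
  have h1 : ∃ p : (IsLocalRing.ResidueField O)[X], p.Monic ∧ Irreducible p ∧
      ∀ x, p.eval x ≠ 0 := by
    by_contra hcon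
    push Not at hcon
    exact hk (IsAlgClosed.of_exists_root _ fun p hp1 hp2 => hcon p hp1 hp2)
  obtain ⟨p, hpm, hpi, hp0⟩ := h1
  -- characteristic zero
  have hchar : CharZero (IsLocalRing.ResidueField O) := by
    refine charZero_of_inj_zero ?_
    intro n hn
    by_contra hn0
    obtain ⟨h2, h3⟩ := hR n hn0
    have h4 : IsLocalRing.residue O (n : O) ≠ 0 := by
      rw [Ne, IsLocalRing.residue_eq_zero_iff, ValuationSubring.valuation_lt_one_iff]
      intro h5
      have h6 : O.valuation ((n : K))⁻¹ ≤ 1 := (O.valuation_le_one_iff _).2 h3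
      rw [map_inv₀] at h6
      have h7 : O.valuation (n : K) < 1 := by simpa using h5
      have h8 : 0 < O.valuation (n : K) := by
        rw [zero_lt_iff]
        exact (Valuation.ne_zero_iff _).2 h2
      exact absurd h6 (not_le.2 ((one_lt_inv₀ h8).2 h7))
    apply h4
    rw [map_natCast]
    exact hn
  have : Infinite (IsLocalRing.ResidueField O) := inferInstance
  obtain ⟨f, hfp, -, hfm⟩ := Polynomial.lifts_and_natDegree_eq_and_monic
    (f := IsLocalRing.residue O) (p := p)
    ((Polynomial.mem_lifts p).2 (Polynomial.map_surjective _ IsLocalRing.residue_surjective p)) hpm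
  have hr : ∀ x : IsLocalRing.ResidueField O, (f.map (IsLocalRing.residue O)).eval x ≠ 0 := by
    rw [hfp]; exact hp0
  have hall : ∀ x, (f.map O.subtype).eval x ≠ 0 ∧ ((f.map O.subtype).eval x)⁻¹ ∈ O := by
    intro x
    by_cases hx : x ∈ O
    · have h2 := bSand_inv_mem O (bSand_unit O f hr ⟨x, hx⟩)
      rw [← bSand_eval_coe] at h2
      exact h2
    · exact bSand_big O f hfm x hx
  refine ⟨f.map O.subtype, fun x => (hall x).1, fun x => (hall x).2, ?_⟩
  intro μ hμ
  -- a point where the derivative is a unit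
  have hder : p.derivative ≠ 0 := by
    intro h2
    have h3 := Polynomial.derivative_eq_zero.1 h2
    have h4 := hpi.natDegree_pos
    omega
  obtain ⟨t, ht⟩ : ∃ t, p.derivative.eval t ≠ 0 := by
    by_contra hcon
    push Not at hcon
    apply hder
    apply Polynomial.funext
    intro x
    rw [hcon x, Polynomial.eval_zero]
  obtain ⟨x0, hx0⟩ := IsLocalRing.residue_surjective t
  have hdu : IsUnit (f.derivative.eval x0) := by
    apply bSand_isUnit_of_residue
    rw [← Polynomial.eval₂_at_apply (IsLocalRing.residue O), hx0, ← Polynomial.eval_map,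
      ← Polynomial.derivative_map, hfp]
    exact ht
  have hfu : IsUnit (f.eval x0) := bSand_unit O f hr x0
  obtain ⟨hf1, hf2⟩ := bSand_inv_mem O hfu
  set a : K := ((f.eval x0 : O) : K)⁻¹ with ha
  have hva : O.valuation a = 1 := by
    rw [ha, map_inv₀]
    have h5 : O.valuation ((f.eval x0 : O) : K) = 1 := by
      have := ValuationSubring.valuation_eq_one_iff O (f.eval x0)
      exact this.1 hfu
    rw [h5, inv_one]
  have ha0 : a ≠ 0 := inv_ne_zero hf1
  have hvam : O.valuation (a + μ) = 1 := by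
    rw [Valuation.map_add_eq_of_lt_left]
    · exact hva
    · rw [hva]; exact hμ
  have ham0 : a + μ ≠ 0 := by
    intro h6
    rw [h6] at hvam
    simp at hvam
  have haO : (a + μ)⁻¹ ∈ O := by
    rw [← O.valuation_le_one_iff, map_inv₀, hvam, inv_one]
  -- the polynomial
  obtain ⟨z, -, hz⟩ := hL K O hH (f.map O.subtype - C (a + μ)⁻¹) (x0 : K) (by
      intro i
      rw [Polynomial.coeff_sub, Polynomial.coeff_map, Polynomial.coeff_C]
      refine O.sub_mem (f.coeff i).2 ?_
      split_ifs
      · exact haO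
      · exact O.zero_mem) x0.2 (by
      rw [Polynomial.eval_sub, Polynomial.eval_C, bSand_eval_coe]
      have h7 : ((f.eval x0 : O) : K) - (a + μ)⁻¹ = μ * (a⁻¹ * (a + μ)⁻¹) := by
        have h8 : ((f.eval x0 : O) : K) = a⁻¹ := by rw [ha, inv_inv]
        rw [h8]
        field_simp
        ring
      have h9 : O.valuation (a⁻¹ * (a + μ)⁻¹) = 1 := by
        rw [Valuation.map_mul, map_inv₀ O.valuation a, map_inv₀ O.valuation (a + μ), hva, hvam,
          inv_one, one_mul]
      rw [h7, Valuation.map_mul, h9, mul_one]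
      exact hμ) (by
      rw [Polynomial.derivative_sub, Polynomial.derivative_C, sub_zero, Polynomial.derivative_map,
        bSand_eval_coe]
      exact (ValuationSubring.valuation_eq_one_iff O _).1 hdu)
  refine ⟨z, (x0 : K), ?_⟩
  rw [Polynomial.eval_sub, Polynomial.eval_C, sub_eq_zero] at hz
  rw [hz, inv_inv, bSand_eval_coe]
  rw [← ha]
  ring

end Pool.Agent.NF44
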