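import Pool.Agent.NF44.Decomp

/-!
The ball rings `Ball f c`.
-/

namespace Pool.Agent.NF44

open Polynomial

universe u

theorem ballRing : BallRingStmt.{u} := by
  intro M _ O f hf hB c hc hvc
  have hcO : c ∈ O := (O.valuation_le_one_iff c).1 hvc.le
  have hcn : ∀ n : ℕ, c ^ n ∈ O := fun n => pow_mem hcO n
  let O₂ : ValuationSubring M :=
    { carrier := {z | ∃ n : ℕ, z * c ^ n ∈ O}
      mul_mem' := by
        rintro x y ⟨n, hn⟩ ⟨m, hm⟩
        refine ⟨n + m, ?_⟩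
        have e : x * y * c ^ (n + m) = (x * c ^ n) * (y * c ^ m) := by
          rw [pow_add]; ring
        rw [e]
        exact O.mul_mem _ _ hn hm
      one_mem' := ⟨0, by simp⟩
      add_mem' := by
        rintro x y ⟨n, hn⟩ ⟨m, hm⟩
        refine ⟨n + m, ?_⟩
        have e : (x + y) * c ^ (n + m) = (x * c ^ n) * c ^ m + (y * c ^ m) * c ^ n := by
          rw [pow_add]; ring
        rw [e]
        exact O.add_mem _ _ (O.mul_mem _ _ hn (hcn m)) (O.mul_mem _ _ hm (hcn n))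
      zero_mem' := ⟨0, by simp⟩
      neg_mem' := by
        rintro x ⟨n, hn⟩
        refine ⟨n, ?_⟩
        have e : -x * c ^ n = -(x * c ^ n) := by ring
        rw [e]
        exact O.neg_mem _ hn
      mem_or_inv_mem' := by
        intro x
        rcases O.mem_or_inv_mem x with h | h
        · exact Or.inl ⟨0, by simpa using h⟩
        · exact Or.inr ⟨0, by simpa using h⟩ }
  have hmem : ∀ z, z ∈ O₂ ↔ ∃ n : ℕ, z * c ^ n ∈ O := fun z => Iff.rfl
  refine ⟨O₂, ?_, ?_, hmem⟩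
  · ext z
    constructor
    · rintro ⟨n, hn⟩
      have h1 : O.valuation (z * c ^ (n + 1)) < 1 := by
        have e : z * c ^ (n + 1) = (z * c ^ n) * c := by rw [pow_succ]; ring
        rw [e, map_mul]
        calc O.valuation (z * c ^ n) * O.valuation c ≤ 1 * O.valuation c :=
              mul_le_mul' ((O.valuation_le_one_iff _).2 hn) le_rfl
          _ < 1 := by rw [one_mul]; exact hvc
      obtain ⟨x, y, hxy⟩ := hB _ h1
      exact ⟨n + 1, x, y, hxy⟩
    · rintro ⟨n, x, y, hxy⟩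
      refine ⟨n, ?_⟩
      rw [hxy]
      exact sub_mem (hf x) (hf y)
  · intro z hz
    exact ⟨0, by simpa using hz⟩

namespace H40Ball

theorem graph_zero {K : Type u} [Field K] {T : Set (K × K)} (h : IsFieldGraph T) :
    ((0 : K), (0 : K)) ∈ T := by
  have := h.add _ h.one _ (h.neg _ h.one)
  simpa using this

theorem graph_sum {K : Type u} [Field K] {T : Set (K × K)} (h : IsFieldGraph T) {ι : Type*}
    (s : Finset ι) (g : ι → K × K) (hg : ∀ i ∈ s, g i ∈ T) :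
    (∑ i ∈ s, (g i).1, ∑ i ∈ s, (g i).2) ∈ T := by
  classical
  induction s using Finset.induction_on with
  | empty => simpa using graph_zero h
  | insert a s ha ih =>
    rw [Finset.sum_insert ha, Finset.sum_insert ha]
    exact h.add _ (hg a (Finset.mem_insert_self _ _)) _
      (ih fun i hi => hg i (Finset.mem_insert_of_mem hi))

theorem graph_eval {K : Type u} [Field K] {T : Set (K × K)} (h : IsFieldGraph T) (f : K[X])
    (hf : ∀ i, (f.coeff i, f.coeff i) ∈ T) {p : K × K} (hp : p ∈ T) :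
    (f.eval p.1, f.eval p.2) ∈ T := by
  rw [eval_eq_sum_range, eval_eq_sum_range]
  exact graph_sum h _ (fun i => (f.coeff i * p.1 ^ i, f.coeff i * p.2 ^ i))
    fun i _ => h.mul _ (hf i) _ (H40D.graph_pow h hp i)

theorem ball_dir (hF : TpForthStmt.{u}) (hC : FieldCloseStmt.{u}) {K : Type u} [Field K]
    (f : (UP K)[X]) {T : Set (UP K × UP K)} (hTc : T.Countable)
    (hT : Tp (pureRS K).up (pureRS K).up T) (hf : ∀ i, (f.coeff i, f.coeff i) ∈ T)
    {c c' : UP K} (hc : (c, c') ∈ T) {p : UP K × UP K} (hp : p ∈ T) (h1 : p.1 ∈ Ball f c) :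
    p.2 ∈ Ball f c' := by
  obtain ⟨n, u, v, huv⟩ := h1
  obtain ⟨T1, s1, c1, g1, t1, u', hu⟩ := H40D.ext_fst hF hC hTc hT u
  obtain ⟨T2, s2, c2, g2, t2, v', hv⟩ := H40D.ext_fst hF hC c1 t1 v
  refine ⟨n, u', v', ?_⟩
  have hf2 : ∀ i, (f.coeff i, f.coeff i) ∈ T2 := fun i => s2 (s1 (hf i))
  have e1 := g2.inv _ (graph_eval g2 f hf2 (s2 hu))
  have e2 := g2.inv _ (graph_eval g2 f hf2 hv)
  have e3 := g2.mul _ (s2 (s1 hp)) _ (H40D.graph_pow g2 (s2 (s1 hc)) n)
  exact (H40D.graph_eq g2 e3 (H40D.graph_sub g2 e1 e2)).1 huv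

end H40Ball

theorem ballTp (hF : TpForthStmt.{u}) (hC : FieldCloseStmt.{u}) : BallTpStmt.{u} := by
  intro K _ f T hTc hT hf c c' hc p hp
  exact ⟨H40Ball.ball_dir hF hC f hTc hT hf hc hp,
    H40Ball.ball_dir hF hC f (H40D.swap_countable hTc) hT.swap (fun i => hf i)
      (c := c') (c' := c) hc (p := p.swap) (by simpa using hp)⟩

theorem ballTransfer (hF : TpForthStmt.{u}) (hC : FieldCloseStmt.{u}) :
    BallTransferStmt.{u} := by
  intro K _ f T hTc hT hf c c' hc O₂ hO₂ hens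
  have key : ∀ T' : Set (UP K × UP K), T ⊆ T' → T'.Countable →
      Tp (pureRS K).up (pureRS K).up T' → ∀ p ∈ T', (p.1 ∈ Ball f c ↔ p.2 ∈ O₂) := by
    intro T' h1 h2 h3 p hp
    rw [ballTp hF hC K f T' h2 h3 (fun i => h1 (hf i)) c c' (h1 hc) p hp, ← hO₂]
    exact Iff.rfl
  let O₁ : ValuationSubring (UP K) :=
    { carrier := Ball f c
      mul_mem' := by
        intro x y hx hy
        obtain ⟨T1, s1, c1, g1, t1, x', hxx⟩ := H40D.ext_fst hF hC hTc hT x
        obtain ⟨T2, s2, c2, g2, t2, y', hyy⟩ := H40D.ext_fst hF hC c1 t1 y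
        have k := key T2 (s1.trans s2) c2 t2
        exact (k _ (g2.mul _ (s2 hxx) _ hyy)).2
          (O₂.mul_mem _ _ ((k _ (s2 hxx)).1 hx) ((k _ hyy).1 hy))
      one_mem' := by
        obtain ⟨T1, s1, c1, g1, t1, x', hxx⟩ := H40D.ext_fst hF hC hTc hT 1
        exact (key T1 s1 c1 t1 _ g1.one).2 O₂.one_mem
      add_mem' := by
        intro x y hx hy
        obtain ⟨T1, s1, c1, g1, t1, x', hxx⟩ := H40D.ext_fst hF hC hTc hT x
        obtain ⟨T2, s2, c2, g2, t2, y', hyy⟩ := H40D.ext_fst hF hC c1 t1 y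
        have k := key T2 (s1.trans s2) c2 t2
        exact (k _ (g2.add _ (s2 hxx) _ hyy)).2
          (O₂.add_mem _ _ ((k _ (s2 hxx)).1 hx) ((k _ hyy).1 hy))
      zero_mem' := by
        obtain ⟨T1, s1, c1, g1, t1, x', hxx⟩ := H40D.ext_fst hF hC hTc hT 1
        exact (key T1 s1 c1 t1 _ (H40Ball.graph_zero g1)).2 O₂.zero_mem
      neg_mem' := by
        intro x hx
        obtain ⟨T1, s1, c1, g1, t1, x', hxx⟩ := H40D.ext_fst hF hC hTc hT x
        have k := key T1 s1 c1 t1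
        exact (k _ (g1.neg _ hxx)).2 (O₂.neg_mem _ ((k _ hxx).1 hx))
      mem_or_inv_mem' := by
        intro x
        obtain ⟨T1, s1, c1, g1, t1, x', hxx⟩ := H40D.ext_fst hF hC hTc hT x
        have k := key T1 s1 c1 t1
        rcases O₂.mem_or_inv_mem x' with h | h
        · exact Or.inl ((k _ hxx).2 h)
        · exact Or.inr ((k _ (g1.inv _ hxx)).2 h) }
  have hmem : ∀ z, z ∈ O₁ ↔ z ∈ Ball f c := fun z => Iff.rfl
  refine ⟨O₁, rfl, ?_⟩
  intro d a ha
  obtain ⟨T1, s1, c1, t1, h1⟩ := hF _ _ _ _ _ T hT hTc (Set.range a) (Set.countable_range a)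
  obtain ⟨T2, s2, c2, g2, t2⟩ := hC K 0 _ T1 c1 t1
  choose a' ha' using fun i : Fin d => h1 (a i) ⟨i, rfl⟩
  have k2 := key T2 (s1.trans s2) c2 t2
  have hlt : ∀ T' : Set (UP K × UP K), T ⊆ T' → T'.Countable → IsFieldGraph T' →
      Tp (pureRS K).up (pureRS K).up T' → ∀ p ∈ T',
      (O₁.valuation p.1 < 1 ↔ O₂.valuation p.2 < 1) := by
    intro T' h1 h2 h3 h4 p hp
    rw [vlt_iff, vlt_iff, h3.zero p hp, hmem, key T' h1 h2 h4 _ (h3.inv _ hp)]
  obtain ⟨z', hz1, hz2⟩ := hens d a' (fun i => (hlt T2 (s1.trans s2) c2 g2 t2 _ (s2 (ha' i))).1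
    (ha i))
  obtain ⟨T3, s3, c3, g3, t3, z, hzz⟩ := H40D.ext_snd hF hC c2 t2 z'
  refine ⟨z, ?_, ?_⟩
  · exact (hlt T3 ((s1.trans s2).trans s3) c3 g3 t3 _ (g3.add _ hzz _ g3.one)).2 hz1
  · have e1 := H40Ball.graph_sum g3 (Finset.univ : Finset (Fin d))
      (fun i => (a i * z ^ (i : ℕ), a' i * z' ^ (i : ℕ)))
      (fun i _ => g3.mul _ (s3 (s2 (ha' i))) _ (H40D.graph_pow g3 hzz i))
    have e2 := g3.add _ (g3.add _ (H40D.graph_pow g3 hzz (d + 1)) _ (H40D.graph_pow g3 hzz d)) _ e1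
    exact (g3.zero _ e2).2 hz2

end Pool.Agent.NF44
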