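import Pool.Agent.NF44.Stmts

/-!
Erdos' box lemma (dense subsets of a grid contain boxes).
-/

namespace Pool.Agent.NF44.H40

open Finset

/-- splitting off the first coordinate, with a cyclic block of `m` values -/
theorem exists_block {n N m : ℕ} [NeZero N] (S : Finset (Fin (n + 1) → Fin N)) :
    ∃ a : Fin N, m * S.card ≤ N * ((univ : Finset ((Fin m) × (Fin n → Fin N))).filter
      fun p => (Fin.cons (a + Fin.ofNat N p.1.val) p.2 : Fin (n + 1) → Fin N) ∈ S).card := by
  classical
  by_contra hcon
  push Not at hcon
  have hsum : ∑ a : Fin N, ((univ : Finset ((Fin m) × (Fin n → Fin N))).filter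
      fun p => (Fin.cons (a + Fin.ofNat N p.1.val) p.2 : Fin (n + 1) → Fin N) ∈ S).card =
      m * S.card := by
    simp only [Finset.card_filter]
    rw [Finset.sum_comm]
    rw [Fintype.sum_prod_type]
    have : ∀ j : Fin m, ∑ y : Fin n → Fin N, ∑ a : Fin N,
        (if (Fin.cons (a + Fin.ofNat N j.val) y : Fin (n + 1) → Fin N) ∈ S then 1 else 0) =
        S.card := by
      intro j
      have h1 : ∀ y : Fin n → Fin N, ∑ a : Fin N,
        (if (Fin.cons (a + Fin.ofNat N j.val) y : Fin (n + 1) → Fin N) ∈ S then 1 else 0) =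
        ∑ a : Fin N, (if (Fin.cons a y : Fin (n + 1) → Fin N) ∈ S then 1 else 0) := by
        intro y
        exact Fintype.sum_equiv (Equiv.addRight (Fin.ofNat N j.val)) _ _ (fun a => rfl)
      rw [Finset.sum_congr rfl (fun y _ => h1 y), Finset.sum_comm]
      rw [← Fintype.sum_prod_type']
      rw [← Finset.card_filter]
      refine Finset.card_bij (fun p _ => (Fin.cons p.1 p.2 : Fin (n + 1) → Fin N)) ?_ ?_ ?_
      · intro p hp
        simpa using hp
      · rintro ⟨a, y⟩ _ ⟨b, z⟩ _ h
        have := Fin.cons_injective2 h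
        exact Prod.ext this.1 this.2
      · intro x hx
        refine ⟨(x 0, Fin.tail x), ?_, ?_⟩
        · simpa using hx
        · simp
    rw [Finset.sum_congr rfl (fun j _ => this j)]
    simp
  have hlt : ∑ a : Fin N, N * ((univ : Finset ((Fin m) × (Fin n → Fin N))).filter
      fun p => (Fin.cons (a + Fin.ofNat N p.1.val) p.2 : Fin (n + 1) → Fin N) ∈ S).card <
      ∑ a : Fin N, m * S.card :=
    Finset.sum_lt_sum_of_nonempty ⟨0, mem_univ _⟩ (fun a _ => hcon a)
  rw [← Finset.mul_sum, hsum] at hlt
  simp at hlt

theorem box (n k : ℕ) : ∀ q : ℕ, ∃ N0, ∀ N ≥ N0, ∀ S : Finset (Fin n → Fin N),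
    N ^ n ≤ q * S.card → ∃ I : Fin n → Fin k ↪ Fin N, ∀ i : Fin n → Fin k,
      (fun j => I j (i j)) ∈ S := by
  classical
  induction n with
  | zero =>
    intro q
    refine ⟨0, fun N _ S hS => ?_⟩
    have : S.Nonempty := by
      rw [nonempty_iff_ne_empty]
      rintro rfl
      simp at hS
    obtain ⟨x, hx⟩ := this
    refine ⟨fun j => j.elim0, fun i => ?_⟩
    have hxe : (fun j : Fin 0 => ((j.elim0 : Fin k ↪ Fin N)) (i j)) = x := funext fun j => j.elim0
    rw [← hxe] at hx
    exact hx
  | succ n ih =>
    intro q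
    set m := 2 * q * k + 1 with hm
    obtain ⟨N1, hN1⟩ := ih (2 * q * 2 ^ m)
    refine ⟨max N1 (m + 1), fun N hN S hS => ?_⟩
    have hNm : m < N := by
      have := (le_max_right N1 (m + 1)).trans hN
      omega
    have hNN1 : N1 ≤ N := (le_max_left N1 (m + 1)).trans hN
    have : NeZero N := ⟨by omega⟩
    have hNpos : 0 < N := by omega
    obtain ⟨a, ha⟩ := exists_block (m := m) S
    set T : (Fin n → Fin N) → Finset (Fin m) := fun y => univ.filter fun j : Fin m =>
      (Fin.cons (a + Fin.ofNat N j.val) y : Fin (n + 1) → Fin N) ∈ S with hT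
    have hsumT : ((univ : Finset ((Fin m) × (Fin n → Fin N))).filter
      fun p => (Fin.cons (a + Fin.ofNat N p.1.val) p.2 : Fin (n + 1) → Fin N) ∈ S).card =
      ∑ y, (T y).card := by
      simp only [hT, Finset.card_filter]
      rw [Fintype.sum_prod_type, Finset.sum_comm]
    rw [hsumT] at ha
    -- m * N^n ≤ q * sum
    have h1 : m * N ^ n ≤ q * ∑ y, (T y).card := by
      have h2 : N * (m * N ^ n) ≤ N * (q * ∑ y, (T y).card) := by
        calc N * (m * N ^ n) = m * N ^ (n + 1) := by ring
          _ ≤ m * (q * S.card) := Nat.mul_le_mul_left _ hS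
          _ = q * (m * S.card) := by ring
          _ ≤ q * (N * ∑ y, (T y).card) := Nat.mul_le_mul_left _ ha
          _ = N * (q * ∑ y, (T y).card) := by ring
      exact Nat.le_of_mul_le_mul_left h2 hNpos
    set Good : Finset (Fin n → Fin N) := univ.filter fun y => k ≤ (T y).card with hGood
    have h3 : ∑ y, (T y).card ≤ m * Good.card + k * N ^ n := by
      calc ∑ y, (T y).card ≤ ∑ y : Fin n → Fin N, ((if k ≤ (T y).card then m else 0) + k) := by
            refine Finset.sum_le_sum fun y _ => ?_
            split_ifs with h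
            · have : (T y).card ≤ m := by
                simpa using Finset.card_le_univ (T y)
              omega
            · omega
        _ = m * Good.card + k * N ^ n := by
            rw [Finset.sum_add_distrib, ← Finset.sum_filter, ← hGood]
            simp
            ring
    have h4 : N ^ n ≤ 2 * q * Good.card := by
      have h5 : m * N ^ n ≤ q * (m * Good.card + k * N ^ n) := h1.trans (Nat.mul_le_mul_left _ h3)
      have h6 : m * N ^ n ≤ m * (2 * q * Good.card) := by
        have h7 : 2 * (m * N ^ n) ≤ 2 * q * m * Good.card + (2 * q * k) * N ^ n := by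
          calc 2 * (m * N ^ n) ≤ 2 * (q * (m * Good.card + k * N ^ n)) :=
                Nat.mul_le_mul_left _ h5
            _ = _ := by ring
        have h8 : 2 * q * k ≤ m := by omega
        have h9 : (2 * q * k) * N ^ n ≤ m * N ^ n := Nat.mul_le_mul_right _ h8
        have h10 : 2 * q * m * Good.card = m * (2 * q * Good.card) := by ring
        omega
      exact Nat.le_of_mul_le_mul_left h6 (by omega)
    -- pigeonhole
    obtain ⟨T0, hT0, hcard⟩ : ∃ T0 ∈ (univ : Finset (Finset (Fin m))),
        Good.card ≤ 2 ^ m * (Good.filter fun y => T y = T0).card := by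
      have := Finset.exists_le_card_fiber_of_mul_le_card_of_maps_to (s := Good)
        (t := (univ : Finset (Finset (Fin m)))) (f := T) (n := Good.card / 2 ^ m)
      by_contra hcon
      push Not at hcon
      have hs : Good.card = ∑ T0 : Finset (Fin m), (Good.filter fun y => T y = T0).card :=
        Finset.card_eq_sum_card_fiberwise (fun _ _ => mem_univ _)
      have : 2 ^ m * Good.card < 2 ^ m * Good.card := by
        conv_lhs => rw [hs]
        rw [Finset.mul_sum]
        calc ∑ T0 : Finset (Fin m), 2 ^ m * (Good.filter fun y => T y = T0).card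
            < ∑ T0 : Finset (Fin m), Good.card :=
              Finset.sum_lt_sum_of_nonempty ⟨∅, mem_univ _⟩ (fun T0 h => hcon T0 h)
          _ = 2 ^ m * Good.card := by simp
      exact lt_irrefl _ this
    obtain ⟨I, hI⟩ := hN1 N hNN1 (Good.filter fun y => T y = T0) (by
      calc N ^ n ≤ 2 * q * Good.card := h4
        _ ≤ 2 * q * (2 ^ m * (Good.filter fun y => T y = T0).card) := Nat.mul_le_mul_left _ hcard
        _ = _ := by ring)
    by_cases hk : k = 0
    · subst hk
      refine ⟨fun j => ⟨fun x => x.elim0, fun x => x.elim0⟩, fun i => (i 0).elim0⟩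
    have hkT : k ≤ T0.card := by
      have := hI (fun _ => ⟨0, by omega⟩)
      simp only [hGood, mem_filter, mem_univ, true_and] at this
      rw [← this.2]
      exact this.1
    obtain ⟨J⟩ : Nonempty (Fin k ↪ T0) := by
      rw [Function.Embedding.nonempty_iff_card_le]
      simpa using hkT
    have hinj : Function.Injective (fun j : Fin m => a + Fin.ofNat N j.val) := by
      intro x y hxy
      have h : Fin.ofNat N x.val = Fin.ofNat N y.val := add_left_cancel hxy
      have h' := congrArg Fin.val h
      simp only [Fin.ofNat] at h'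
      rw [Nat.mod_eq_of_lt (by omega), Nat.mod_eq_of_lt (by omega)] at h'
      exact Fin.ext h'
    refine ⟨Fin.cons ⟨fun x => a + Fin.ofNat N (J x).1.val, ?_⟩ I, fun i => ?_⟩
    · intro x y hxy
      exact J.injective (Subtype.ext (hinj hxy))
    · have h5 := hI (fun j => i j.succ)
      simp only [hGood, mem_filter, mem_univ, true_and] at h5
      have h6 : (J (i 0)).1 ∈ T (fun j => I j (i j.succ)) := by
        rw [h5.2]
        exact (J (i 0)).2
      simp only [hT, mem_filter, mem_univ, true_and] at h6
      convert h6 using 1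
      ext j
      refine Fin.cases ?_ (fun j => ?_) j
      · rfl
      · rfl

end Pool.Agent.NF44.H40

namespace Pool.Agent.NF44

theorem boxLemma : BoxStmt := by
  classical
  intro n k c
  obtain ⟨N₀, hN₀⟩ := H40.box n k c
  refine ⟨N₀, fun N hN S hS => ?_⟩
  obtain ⟨I, hI⟩ := hN₀ N hN S hS
  refine ⟨fun i => Finset.univ.map (I i), fun i => by simp, fun p hp => ?_⟩
  have h : ∀ i, ∃ x, I i x = p i := by
    intro i
    have := hp i
    simpa using this
  choose x hx using h
  have := hI x
  have e : (fun j => I j (x j)) = p := funext hx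
  rwa [e] at this

end Pool.Agent.NF44
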