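import Pool.Agent.NF44.Box

/-!
Sauer-Shelah and boxes.
-/

namespace Pool.Agent.NF44.H40

open Finset

/-- large families shatter large sets -/
theorem shatter_large {α : Type*} [Fintype α] [DecidableEq α] (F : Finset (Finset α)) (Q : ℕ)
    (hQ : Q ^ 8 < 4 ^ Fintype.card α) (hF : 2 ^ Fintype.card α ≤ Q * F.card) :
    ∃ S : Finset α, F.Shatters S ∧ Fintype.card α ≤ 8 * S.card := by
  classical
  set m := Fintype.card α with hm
  set d := F.vcDim with hd
  have hmem : ∃ S : Finset α, F.Shatters S ∧ S.card = d := by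
    have hne : F.shatterer.Nonempty := by
      refine ⟨∅, ?_⟩
      rw [Finset.mem_shatterer]
      have : F.Nonempty := by
        rw [nonempty_iff_ne_empty]
        rintro rfl
        simp at hF
      exact Finset.shatters_empty.2 this
    obtain ⟨S, hS, hS2⟩ := Finset.exists_mem_eq_sup _ hne Finset.card
    exact ⟨S, Finset.mem_shatterer.1 hS, hS2.symm⟩
  obtain ⟨S, hS, hSd⟩ := hmem
  refine ⟨S, hS, ?_⟩
  by_contra hcon
  push Not at hcon
  rw [hSd] at hcon
  have h1 : F.card ≤ ∑ i ∈ Finset.Iic d, m.choose i :=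
    (Finset.card_le_card_shatterer F).trans (Finset.card_shatterer_le_sum_vcDim)
  have hdm : d ≤ m := by omega
  have h2 : 2 ^ (m - d) * ∑ i ∈ Finset.Iic d, m.choose i ≤ 3 ^ m := by
    have e : (3 : ℕ) ^ m = ∑ i ∈ range (m + 1), 2 ^ (m - i) * m.choose i := by
      have := add_pow 1 2 m
      norm_num at this
      rw [this]
    rw [e, Finset.mul_sum]
    calc ∑ i ∈ Finset.Iic d, 2 ^ (m - d) * m.choose i
        ≤ ∑ i ∈ Finset.Iic d, 2 ^ (m - i) * m.choose i := by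
          refine Finset.sum_le_sum fun i hi => ?_
          rw [Finset.mem_Iic] at hi
          exact Nat.mul_le_mul_right _ (Nat.pow_le_pow_right (by norm_num) (by omega))
      _ ≤ _ := by
          refine Finset.sum_le_sum_of_subset ?_
          intro i hi
          rw [Finset.mem_Iic] at hi
          rw [Finset.mem_range]
          omega
  -- 4^m ≤ Q * 3^m * 2^d
  have h3 : 4 ^ m ≤ Q * 3 ^ m * 2 ^ d := by
    calc 4 ^ m = 2 ^ m * 2 ^ m := by rw [← mul_pow]; norm_num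
      _ = 2 ^ m * (2 ^ (m - d) * 2 ^ d) := by rw [← pow_add 2 (m - d) d, Nat.sub_add_cancel hdm]
      _ ≤ (Q * F.card) * (2 ^ (m - d) * 2 ^ d) := Nat.mul_le_mul_right _ hF
      _ ≤ (Q * ∑ i ∈ Finset.Iic d, m.choose i) * (2 ^ (m - d) * 2 ^ d) := by gcongr
      _ = Q * (2 ^ (m - d) * ∑ i ∈ Finset.Iic d, m.choose i) * 2 ^ d := by ring
      _ ≤ Q * 3 ^ m * 2 ^ d := by gcongr
  have h4 : (4 ^ 8) ^ m ≤ Q ^ 8 * (3 ^ 8 * 2) ^ m := by
    calc (4 ^ 8) ^ m = (4 ^ m) ^ 8 := by rw [← pow_mul, ← pow_mul, mul_comm]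
      _ ≤ (Q * 3 ^ m * 2 ^ d) ^ 8 := Nat.pow_le_pow_left h3 _
      _ = Q ^ 8 * ((3 ^ 8) ^ m * 2 ^ (8 * d)) := by
        rw [mul_pow, mul_pow, ← pow_mul, ← pow_mul, ← pow_mul, mul_comm m 8, mul_comm d 8,
          mul_assoc]
      _ ≤ Q ^ 8 * ((3 ^ 8) ^ m * 2 ^ m) := by
        gcongr
        · norm_num
      _ = _ := by rw [← mul_pow]
  have h5 : (4 * (3 ^ 8 * 2)) ^ m ≤ (4 ^ 8 : ℕ) ^ m := Nat.pow_le_pow_left (by norm_num) _
  have h6 : 4 ^ m * (3 ^ 8 * 2) ^ m ≤ Q ^ 8 * (3 ^ 8 * 2) ^ m := by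
    rw [← mul_pow]
    exact h5.trans h4
  have h7 : 4 ^ m ≤ Q ^ 8 := Nat.le_of_mul_le_mul_right h6 (by positivity)
  omega

theorem eventually_poly_lt (C E : ℕ) : ∃ N0, ∀ N ≥ N0, (C * (N + 1) ^ E) ^ 8 < 4 ^ N := by
  have h : Filter.Tendsto (fun N : ℕ => ((N : ℝ)) ^ (8 * E) / (4 : ℝ) ^ N) Filter.atTop (nhds 0) :=
    tendsto_pow_const_div_const_pow_of_one_lt _ (by norm_num)
  have h1 : Filter.Tendsto (fun N : ℕ => (((N + 1 : ℕ) : ℝ)) ^ (8 * E) / (4 : ℝ) ^ (N + 1))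
      Filter.atTop (nhds 0) := (Filter.tendsto_add_atTop_iff_nat 1).2 h
  have h2 := h1.eventually (gt_mem_nhds (show (0 : ℝ) < 1 / (4 * ((C : ℝ) ^ 8 + 1)) by positivity))
  obtain ⟨N0, hN0⟩ := Filter.eventually_atTop.1 h2
  refine ⟨N0, fun N hN => ?_⟩
  have h3 := hN0 N hN
  have h4 : ((C : ℝ) * (N + 1) ^ E) ^ 8 < 4 ^ N := by
    rw [div_lt_div_iff₀ (by positivity) (by positivity)] at h3
    have h5 : ((C : ℝ) * (N + 1) ^ E) ^ 8 = (C : ℝ) ^ 8 * ((N + 1 : ℕ) : ℝ) ^ (8 * E) := by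
      push_cast
      rw [mul_pow, ← pow_mul, mul_comm E 8]
    rw [h5]
    have h6 : 0 ≤ ((N + 1 : ℕ) : ℝ) ^ (8 * E) := by positivity
    have h7 : (4 : ℝ) ^ (N + 1) = 4 * 4 ^ N := by ring
    rw [h7] at h3
    nlinarith
  exact_mod_cast h4

end Pool.Agent.NF44.H40

namespace Pool.Agent.NF44

open Finset

theorem shatter : ShatterStmt := by
  classical
  intro C E n l k hn hl
  obtain ⟨N1, hN1⟩ := boxLemma n k (8 * l)
  obtain ⟨N2, hN2⟩ := H40.eventually_poly_lt C E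
  refine ⟨max N1 N2, fun N hN F hF cls => ?_⟩
  have hNN1 : N1 ≤ N := (le_max_left _ _).trans hN
  have hNN2 : N2 ≤ N := (le_max_right _ _).trans hN
  have hcardX : Fintype.card (Fin n → Fin N) = N ^ n := by simp
  have hNn : N ≤ N ^ n := Nat.le_self_pow (by omega) _
  obtain ⟨S, hS, hScard⟩ := H40.shatter_large F (C * (N + 1) ^ E) (by
    calc (C * (N + 1) ^ E) ^ 8 < 4 ^ N := hN2 N hNN2
      _ ≤ 4 ^ Fintype.card (Fin n → Fin N) := Nat.pow_le_pow_right (by norm_num) (by omega))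
      (by rw [hcardX]; exact hF)
  obtain ⟨c, hc⟩ : ∃ c : Fin l, S.card ≤ l * (S.filter fun x => cls x = c).card := by
    by_contra hcon
    push Not at hcon
    have hs : S.card = ∑ c : Fin l, (S.filter fun x => cls x = c).card :=
      Finset.card_eq_sum_card_fiberwise (fun _ _ => mem_univ _)
    have : l * S.card < l * S.card := by
      conv_lhs => rw [hs]
      rw [Finset.mul_sum]
      calc ∑ c : Fin l, l * (S.filter fun x => cls x = c).card
          < ∑ c : Fin l, S.card := Finset.sum_lt_sum_of_nonempty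
            ⟨⟨0, hl⟩, mem_univ _⟩ (fun T0 _ => hcon T0)
        _ = l * S.card := by simp
    exact lt_irrefl _ this
  obtain ⟨B, hBk, hB⟩ := hN1 N hNN1 (S.filter fun x => cls x = c) (by
    calc N ^ n = Fintype.card (Fin n → Fin N) := hcardX.symm
      _ ≤ 8 * S.card := hScard
      _ ≤ 8 * (l * (S.filter fun x => cls x = c).card) := Nat.mul_le_mul_left _ hc
      _ = _ := by ring)
  refine ⟨B, c, hBk, fun p hp => (mem_filter.1 (hB p hp)).2, fun T => ?_⟩
  set U : Finset (Fin n → Fin N) := S.filter fun p => p ∈ T with hU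
  obtain ⟨s, hs, hsU⟩ := hS (t := U) (filter_subset _ _)
  refine ⟨s, hs, fun p hp => ?_⟩
  have hpS : p ∈ S := (mem_filter.1 (hB p hp)).1
  constructor
  · intro hps
    have : p ∈ U := by
      rw [← hsU]
      exact mem_inter.2 ⟨hpS, hps⟩
    exact (mem_filter.1 this).2
  · intro hpT
    have : p ∈ U := mem_filter.2 ⟨hpS, hpT⟩
    rw [← hsU] at this
    exact (mem_inter.1 this).2

end Pool.Agent.NF44
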