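import Pool.Agent.NF44.Trace
import Pool.Agent.NF44.Shatter

/-!
Case 0, final assembly: counting.
-/

namespace Pool.Agent.NF44

open Finset

universe u

theorem HasPattern.mono {X : Type u} {n a b N N' : ℕ} {S : Set X}
    {D : Set (Fin (a + n * b) → X)} (h : HasPattern n a b N S D) (hN : N' ≤ N) :
    HasPattern n a b N' S D := by
  obtain ⟨y, x, hy, hx, hD⟩ := h
  refine ⟨fun k i => y k (Fin.castLE hN i),
    fun s => x ((fun (i : Fin n → Fin N') (j : Fin n) => Fin.castLE hN (i j)) '' s),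
    fun k i j => hy _ _ _, fun s j => hx _ _, fun s i => ?_⟩
  rw [hD _ (fun j => Fin.castLE hN (i j))]
  constructor
  · rintro ⟨i', hi', he⟩
    have : i' = i := by
      funext j
      have := congrFun he j
      exact Fin.castLE_injective hN this
    rwa [← this]
  · intro hi
    exact ⟨i, hi, rfl⟩

theorem case0 (hDecomp : DecompStmt.{u}) : Case0Stmt.{u} := by
  classical
  intro K _ O hO hR hac n hn hS a b t D hD
  by_contra hcon
  push Not at hcon
  obtain ⟨m, L, hL⟩ := hDecomp K O hO hR hac (a + n * b) t D hD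
  -- the pattern of comparisons
  let lp : (Fin (a + n * b) → K) → Set L := fun z => {gh |
    O.valuation (MvPolynomial.aeval z gh.1.1) ≤ O.valuation (MvPolynomial.aeval z gh.1.2)}
  have hL' : ∀ z w, EF (pureRS K) (pureRS K) m (a + n * b) z w → lp z = lp w →
      (z ∈ D ↔ w ∈ D) := by
    intro z w h1 h2
    refine hL z w h1 fun gh hgh => ?_
    have : (⟨gh, hgh⟩ : L) ∈ lp z ↔ (⟨gh, hgh⟩ : L) ∈ lp w := by rw [h2]
    exact this
  let Dp : Set L → Set (Fin (a + n * b) → K) := fun π =>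
    {z | ∃ w ∈ D, EF (pureRS K) (pureRS K) m (a + n * b) z w ∧ lp w = π}
  have hDp : ∀ π, ∃ N, ¬ HasPattern n a b N Set.univ (Dp π) := by
    intro π
    refine hS a b m (Dp π) fun z w hzw => ?_
    constructor
    · rintro ⟨u, hu, h1, h2⟩
      exact ⟨u, hu, hzw.symm.trans h1, h2⟩
    · rintro ⟨u, hu, h1, h2⟩
      exact ⟨u, hu, hzw.trans h1, h2⟩
  choose Np hNp using hDp
  set k := Finset.univ.sup Np with hk
  have hNk : ∀ π, Np π ≤ k := fun π => Finset.le_sup (mem_univ π)
  obtain ⟨C, E, hCE⟩ := trace a b n L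
  obtain ⟨N, hN⟩ := shatter C E n (Fintype.card (Set L)) k hn Fintype.card_pos
  replace hN := hN N le_rfl
  obtain ⟨y, x, -, -, hxy⟩ := hcon N
  -- traces
  let tr : Finset (Fin n → Fin N) → Set (L × (Fin n → Fin N)) := fun s => {p |
    O.valuation (MvPolynomial.aeval (tup (x ↑s) (fun k => y k (p.2 k))) p.1.1.1) ≤
    O.valuation (MvPolynomial.aeval (tup (x ↑s) (fun k => y k (p.2 k))) p.1.1.2)}
  set Q := C * (N + 1) ^ E with hQ
  have himg : (univ.image tr).card ≤ Q := by
    refine le_trans ?_ (hCE K O N y)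
    rw [← Set.ncard_coe_finset]
    refine Set.ncard_le_ncard ?_ (Set.toFinite _)
    intro S hS
    simp only [coe_image, coe_univ, Set.image_univ, Set.mem_range] at hS
    obtain ⟨s, rfl⟩ := hS
    exact ⟨x ↑s, rfl⟩
  obtain ⟨S0, -, hbig⟩ : ∃ S0 ∈ univ.image tr,
      2 ^ (N ^ n) ≤ Q * (univ.filter fun s => tr s = S0).card := by
    by_contra hcon
    push Not at hcon
    have hs : (univ : Finset (Finset (Fin n → Fin N))).card =
        ∑ t0 ∈ univ.image tr, (univ.filter fun s => tr s = t0).card :=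
      Finset.card_eq_sum_card_fiberwise (fun s hs => mem_image_of_mem _ hs)
    have hne : (univ.image tr).Nonempty := ⟨tr ∅, mem_image_of_mem _ (mem_univ _)⟩
    have : Q * 2 ^ (N ^ n) < Q * 2 ^ (N ^ n) := by
      calc Q * 2 ^ (N ^ n) = Q * (univ : Finset (Finset (Fin n → Fin N))).card := by simp
        _ = ∑ t0 ∈ univ.image tr, Q * (univ.filter fun s => tr s = t0).card := by
          rw [hs, Finset.mul_sum]
        _ < ∑ t0 ∈ univ.image tr, 2 ^ (N ^ n) :=
          Finset.sum_lt_sum_of_nonempty hne (fun t h => hcon t h)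
        _ = (univ.image tr).card * 2 ^ (N ^ n) := by simp
        _ ≤ Q * 2 ^ (N ^ n) := Nat.mul_le_mul_right _ himg
    exact lt_irrefl _ this
  let e : Set L ≃ Fin (Fintype.card (Set L)) := Fintype.equivFin (Set L)
  obtain ⟨B, c, hBk, hBc, hB⟩ := hN (univ.filter fun s => tr s = S0) hbig
    (fun p => e {gh | (gh, p) ∈ S0})
  set π : Set L := e.symm c with hπ
  -- the box
  let I' : ∀ j, Fin k ≃ B j := fun j => ((B j).equivFinOfCardEq (hBk j)).symm
  let pt : (Fin n → Fin k) → (Fin n → Fin N) := fun i j => (I' j (i j)).1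
  have hptB : ∀ i j, pt i j ∈ B j := fun i j => (I' j (i j)).2
  have hptinj : Function.Injective pt := by
    intro i i' h
    funext j
    have := congrFun h j
    exact (I' j).injective (Subtype.ext this)
  choose sT hsT hsT2 using fun T : Set (Fin n → Fin N) => hB T
  refine hNp π (HasPattern.mono ?_ (hNk π))
  refine ⟨fun j i => y j (I' j i).1, fun s' => x ↑(sT (pt '' s')), fun _ _ _ => Set.mem_univ _,
    fun _ _ => Set.mem_univ _, fun s' i => ?_⟩
  show tup (x ↑(sT (pt '' s'))) (fun j => y j (pt i j)) ∈ Dp π ↔ i ∈ s'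
  have h1 : tup (x ↑(sT (pt '' s'))) (fun j => y j (pt i j)) ∈ D ↔ i ∈ s' := by
    rw [hxy _ (pt i), mem_coe, hsT2 _ (pt i) (hptB i)]
    exact hptinj.mem_set_image
  rw [← h1]
  have h2 : lp (tup (x ↑(sT (pt '' s'))) (fun j => y j (pt i j))) = π := by
    have h3 : tr (sT (pt '' s')) = S0 := (mem_filter.1 (hsT (pt '' s'))).2
    have h4 : e {gh | (gh, pt i) ∈ S0} = c := hBc (pt i) (hptB i)
    rw [hπ, ← h4, Equiv.symm_apply_apply, ← h3]
    rfl
  constructor
  · rintro ⟨w, hw, h5, h6⟩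
    exact (hL' _ w h5 (h2.trans h6.symm)).2 hw
  · intro h5
    exact ⟨_, h5, EF.refl _ _ _, h2⟩

end Pool.Agent.NF44
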