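import Pool.Agent.NF44.Stmts

/-!
# `OinfStmt`: the pure definable coarsening `O_inf` (module of helper21)

`oinf : HensLiftStmt → OinfStmt`.
-/

namespace Pool.Agent.NF44

open Polynomial

universe u

namespace OinfAux

variable {K : Type u} [Field K]

/-- `z` is a `q`-th power. -/
def PowQ (q : ℕ) (z : K) : Prop := ∃ w, z = w ^ q

/-- `T_a = {x : (x^q - a)/a is a q-th power}`. -/
def Tset (q : ℕ) (a : K) : Set K := {x | PowQ q ((x ^ q - a) / a)}

/-- every unit of `O` is a `q`-th power, for every `q ≥ 1`. -/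
def UnitsDiv (O : ValuationSubring K) : Prop :=
  ∀ q : ℕ, 0 < q → ∀ u : K, O.valuation u = 1 → PowQ q u

lemma mem_Oq_iff' (q : ℕ) (y : K) :
    y ∈ Oq K q ↔ ∀ a : K, ¬ PowQ q a → ∀ x ∈ Tset q a, y * x ∈ Tset q a := Iff.rfl

lemma powQ_mul {q : ℕ} {a b : K} (ha : PowQ q a) (hb : PowQ q b) : PowQ q (a * b) := by
  obtain ⟨u, rfl⟩ := ha
  obtain ⟨w, rfl⟩ := hb
  exact ⟨u * w, by rw [mul_pow]⟩

lemma powQ_inv {q : ℕ} {a : K} (ha : PowQ q a) : PowQ q a⁻¹ := by
  obtain ⟨u, rfl⟩ := ha
  exact ⟨u⁻¹, by rw [inv_pow]⟩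

lemma powQ_zero {q : ℕ} (hq : 0 < q) : PowQ q (0 : K) := ⟨0, by simp [hq.ne']⟩

lemma powQ_congr {O : ValuationSubring K} (hO : UnitsDiv O) {q : ℕ} (hq : 0 < q) {a b : K}
    (hab : O.valuation a = O.valuation b) (ha : PowQ q a) : PowQ q b := by
  by_cases hb0 : b = 0
  · subst hb0; exact powQ_zero hq
  have ha0 : a ≠ 0 := by
    intro h
    rw [h, map_zero] at hab
    exact hb0 ((map_eq_zero _).1 hab.symm)
  have : O.valuation (b / a) = 1 := by
    rw [map_div₀, hab, div_self]
    rw [Ne, map_eq_zero]; exact hb0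
  have h2 := powQ_mul (hO q hq _ this) ha
  rwa [div_mul_cancel₀ _ ha0] at h2

/-- description of `T_a` by the valuation. -/
lemma mem_Tset_iff {O : ValuationSubring K} (hO : UnitsDiv O) {q : ℕ} (hq : 0 < q) {a : K}
    (ha : ¬ PowQ q a) (x : K) :
    x ∈ Tset q a ↔ O.valuation x ^ q < O.valuation a := by
  have ha0 : a ≠ 0 := by
    rintro rfl
    exact ha (powQ_zero hq)
  have hva0 : O.valuation a ≠ 0 := by rw [Ne, map_eq_zero]; exact ha0
  rw [← map_pow]
  constructor
  · intro hx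
    by_contra hlt
    rw [not_lt] at hlt
    rcases hlt.lt_or_eq with h | h
    · -- val a < val x^q
      have h1 : O.valuation ((x ^ q - a)) = O.valuation (x ^ q) := by
        rw [Valuation.map_sub_swap]; exact Valuation.map_sub_eq_of_lt_right _ h
      have h2 : PowQ q (x ^ q / a) := by
        refine powQ_congr hO hq ?_ hx
        rw [map_div₀, map_div₀, h1]
      have hx0 : x ^ q ≠ 0 := by
        intro h0
        rw [h0, map_zero] at h
        exact absurd h (not_lt.2 zero_le)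
      apply ha
      have h3 := powQ_mul (powQ_inv h2) (⟨x, rfl⟩ : PowQ q (x ^ q))
      rwa [inv_div, div_mul_cancel₀ _ hx0] at h3
    · exact ha (powQ_congr hO hq h.symm ⟨x, rfl⟩)
  · intro hlt
    have h1 : O.valuation ((x ^ q - a)) = O.valuation a := by
      rw [Valuation.map_sub_swap]; exact Valuation.map_sub_eq_of_lt_left _ hlt
    apply hO q hq
    rw [map_div₀, h1, div_self hva0]

lemma mem_Oq_iff {O : ValuationSubring K} (hO : UnitsDiv O) {q : ℕ} (hq : 0 < q) (y : K) :
    y ∈ Oq K q ↔ ∀ a : K, ¬ PowQ q a → ∀ x, O.valuation x ^ q < O.valuation a →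
      O.valuation (y * x) ^ q < O.valuation a := by
  rw [mem_Oq_iff']
  constructor
  · intro h a ha x hx
    rw [← mem_Tset_iff hO hq ha] at hx ⊢
    exact h a ha x hx
  · intro h a ha x hx
    rw [mem_Tset_iff hO hq ha] at hx ⊢
    exact h a ha x hx

lemma subset_Oq {O : ValuationSubring K} (hO : UnitsDiv O) {q : ℕ} (hq : 0 < q) {y : K}
    (hy : y ∈ O) : y ∈ Oq K q := by
  rw [mem_Oq_iff hO hq]
  intro c hc x hx
  rw [map_mul]
  refine lt_of_le_of_lt (pow_le_pow_left₀ zero_le ?_ q) hx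
  exact mul_le_of_le_one_left zero_le ((O.valuation_le_one_iff y).2 hy)

lemma mul_Oq {q : ℕ} {a b : K} (ha : a ∈ Oq K q) (hb : b ∈ Oq K q) : a * b ∈ Oq K q := by
  rw [mem_Oq_iff'] at ha hb ⊢
  intro c hc x hx
  rw [mul_assoc]
  exact ha c hc _ (hb c hc x hx)

lemma add_Oq {O : ValuationSubring K} (hO : UnitsDiv O) {q : ℕ} (hq : 0 < q) {a b : K}
    (ha : a ∈ Oq K q) (hb : b ∈ Oq K q) : a + b ∈ Oq K q := by
  rw [mem_Oq_iff hO hq] at ha hb ⊢
  intro c hc x hx
  rw [add_mul]
  rcases le_total (O.valuation (a * x)) (O.valuation (b * x)) with h | h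
  · exact lt_of_le_of_lt (pow_le_pow_left₀ zero_le
      ((O.valuation.map_add _ _).trans (max_le h le_rfl)) q) (hb c hc x hx)
  · exact lt_of_le_of_lt (pow_le_pow_left₀ zero_le
      ((O.valuation.map_add _ _).trans (max_le le_rfl h)) q) (ha c hc x hx)

/-- a unit of `O_q` is a `q`-th power. -/
lemma powQ_of_unit_Oq {O : ValuationSubring K} (hO : UnitsDiv O) {q : ℕ} (hq : 0 < q) {y : K}
    (hy : y ∈ Oq K q) (hy' : y⁻¹ ∈ Oq K q) : PowQ q y := by
  -- first the case `val y > 1`
  have main : ∀ z : K, z ∈ Oq K q → 1 < O.valuation z → PowQ q z := by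
    intro z hz h1
    by_contra hn
    rw [mem_Oq_iff hO hq] at hz
    have h2 := hz z hn 1 (by rw [map_one, one_pow]; exact h1)
    rw [mul_one] at h2
    have h3 : O.valuation z ^ 1 ≤ O.valuation z ^ q := pow_le_pow_right₀ h1.le hq
    rw [pow_one] at h3
    exact absurd h2 (not_lt.2 h3)
  rcases lt_trichotomy (O.valuation y) 1 with h | h | h
  · by_cases hy0 : y = 0
    · subst hy0; exact powQ_zero hq
    · have : 1 < O.valuation y⁻¹ := by
        rw [map_inv₀]
        exact (one_lt_inv₀ (zero_lt_iff.2 ((_root_.map_ne_zero _).2 hy0))).2 h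
      have h2 := powQ_inv (main _ hy' this)
      rwa [inv_inv] at h2
  · exact hO q hq y h
  · exact main y hy h

/-- `O_inf` as a valuation ring. -/
noncomputable def Oinf (O : ValuationSubring K) (hO : UnitsDiv O) : ValuationSubring K where
  carrier := {y | ∀ q : ℕ, q.Prime → y ∈ Oq K q}
  mul_mem' := by
    intro a b ha hb q hq
    exact mul_Oq (ha q hq) (hb q hq)
  one_mem' := by
    intro q hq
    exact subset_Oq hO hq.pos O.one_mem
  add_mem' := by
    intro a b ha hb q hq
    exact add_Oq hO hq.pos (ha q hq) (hb q hq)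
  zero_mem' := by
    intro q hq
    exact subset_Oq hO hq.pos O.zero_mem
  neg_mem' := by
    intro a ha q hq
    have := mul_Oq (subset_Oq hO hq.pos (O.neg_mem _ O.one_mem)) (ha q hq)
    simpa using this
  mem_or_inv_mem' := by
    intro y
    rcases O.mem_or_inv_mem y with h | h
    · exact Or.inl fun q hq => subset_Oq hO hq.pos h
    · exact Or.inr fun q hq => subset_Oq hO hq.pos h

lemma mem_Oinf {O : ValuationSubring K} (hO : UnitsDiv O) (y : K) :
    y ∈ Oinf O hO ↔ ∀ q : ℕ, q.Prime → y ∈ Oq K q := Iff.rfl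

/-- units of `O_inf` are `q`-th powers of units of `O_inf`, for all primes `q`. -/
lemma unit_Oinf_root {O : ValuationSubring K} (hO : UnitsDiv O) {q : ℕ} (hq : q.Prime) {y : K}
    (hy : (Oinf O hO).valuation y = 1) :
    ∃ w : K, (Oinf O hO).valuation w = 1 ∧ y = w ^ q := by
  have h1 : y ∈ Oinf O hO := ((Oinf O hO).valuation_le_one_iff y).1 hy.le
  have h2 : y⁻¹ ∈ Oinf O hO := by
    refine ((Oinf O hO).valuation_le_one_iff _).1 ?_
    rw [map_inv₀, hy, inv_one]
  obtain ⟨w, hw⟩ := powQ_of_unit_Oq hO hq.pos (h1 q hq) (h2 q hq)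
  refine ⟨w, ?_, hw⟩
  have h3 : (Oinf O hO).valuation w ^ q = 1 := by rw [← map_pow, ← hw, hy]
  exact (pow_eq_one_iff_of_nonneg zero_le hq.pos.ne').1 h3

/-- the same for all exponents. -/
lemma unit_Oinf_root' {O : ValuationSubring K} (hO : UnitsDiv O) (n : ℕ) : 0 < n → ∀ y : K,
    (Oinf O hO).valuation y = 1 → ∃ w : K, (Oinf O hO).valuation w = 1 ∧ y = w ^ n := by
  induction n using Nat.recOnMul with
  | zero => intro h; exact absurd h (lt_irrefl 0)
  | one => intro _ y hy; exact ⟨y, hy, by simp⟩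
  | prime q hq => intro _ y hy; exact unit_Oinf_root hO hq hy
  | mul a b ha hb =>
    intro hab y hy
    obtain ⟨w, hw, hw'⟩ := ha (Nat.pos_of_ne_zero (by rintro rfl; simp at hab)) y hy
    obtain ⟨z, hz, hz'⟩ := hb (Nat.pos_of_ne_zero (by rintro rfl; simp at hab)) w hw
    exact ⟨z, hz, by rw [hw', hz', ← pow_mul, mul_comm]⟩

/-- units of a henselian ring with algebraically closed residue field of characteristic zero are
`q`-th powers. -/
lemma unitsDiv (hL : HensLiftStmt.{u}) {O : ValuationSubring K} (hH : Hens O) (h0 : Res0 O)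
    (hA : IsAlgClosed (IsLocalRing.ResidueField O)) : UnitsDiv O := by
  intro q hq u hu
  have huO : u ∈ O := (O.valuation_le_one_iff u).1 hu.le
  have hu0 : u ≠ 0 := by
    rintro rfl
    simp at hu
  obtain ⟨t, ht⟩ := IsAlgClosed.exists_pow_nat_eq (IsLocalRing.residue O ⟨u, huO⟩) hq
  obtain ⟨z₀, rfl⟩ := IsLocalRing.residue_surjective t
  rw [← map_pow, ← sub_eq_zero, ← map_sub, IsLocalRing.residue_eq_zero_iff,
    ValuationSubring.valuation_lt_one_iff] at ht
  have hz1 : O.valuation ((z₀ : K) ^ q) = 1 := by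
    have e1 : ((z₀ : K) ^ q) = (((z₀ ^ q - ⟨u, huO⟩ : O)) : K) + u := by push_cast; ring
    rw [e1, add_comm, Valuation.map_add_eq_of_lt_left _ (by rw [hu]; exact ht), hu]
  have hz0 : O.valuation (z₀ : K) = 1 := by
    rw [map_pow] at hz1
    exact (pow_eq_one_iff_of_nonneg zero_le hq.ne').1 hz1
  have hqv : O.valuation (q : K) = 1 := by
    obtain ⟨h1, h2⟩ := h0 q hq.ne'
    apply le_antisymm
    · refine (O.valuation_le_one_iff _).2 ?_
      exact natCast_mem O q
    · have h3 := (O.valuation_le_one_iff _).2 h2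
      rw [map_inv₀] at h3
      exact (inv_le_one₀ (zero_lt_iff.2 ((_root_.map_ne_zero _).2 h1))).1 h3
  obtain ⟨z, _, hz⟩ := hL K O hH (X ^ q - C u) z₀ (by
      intro i
      rw [coeff_sub, coeff_X_pow, coeff_C]
      apply O.sub_mem
      · split_ifs
        · exact O.one_mem
        · exact O.zero_mem
      · split_ifs
        · exact huO
        · exact O.zero_mem) z₀.2 (by
      have e2 : (X ^ q - C u : K[X]).eval (z₀ : K) = ((z₀ ^ q - ⟨u, huO⟩ : O) : K) := by
        simp
      rw [e2]; exact ht) (by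
      simp only [derivative_sub, derivative_X_pow, derivative_C, sub_zero, eval_mul, eval_C,
        eval_pow, eval_X, map_mul, map_pow, hz0, one_pow, mul_one]
      simpa using hqv)
  refine ⟨z, ?_⟩
  have : z ^ q - u = 0 := by simpa using hz
  exact (sub_eq_zero.1 this).symm

end OinfAux

/-- `OinfStmt`. -/
theorem oinf (hL : HensLiftStmt.{u}) : OinfStmt.{u} := by
  intro M _ O hH h0 hA
  have hO := OinfAux.unitsDiv hL hH h0 hA
  refine ⟨OinfAux.Oinf O hO, rfl, ?_, ?_⟩
  · intro y hy q hq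
    exact OinfAux.subset_Oq hO hq.pos hy
  · intro z n hn hz
    obtain ⟨w, hw, hw'⟩ := OinfAux.unit_Oinf_root' hO n hn z hz
    exact ⟨w, hw, by rw [hw']⟩

end Pool.Agent.NF44
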