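import Pool.Agent.NF44.Stmts

/-!
# `PAdivStmt` (module of helper21): divisible ordered groups, countable forth

`pAdiv : SatStmt.{u,0,u} → PAdivStmt.{u}`.
-/

namespace Pool.Agent.NF44

universe u

namespace H21

/-! ## An abstract forth lemma -/

/-- From one element to countably many. -/
theorem forth_of_step {G : Type u} (D : Set G) (P : Set (G × G) → Prop)
    (chain : ∀ f : ℕ → Set (G × G), Monotone f → (∀ n, P (f n)) → P (⋃ n, f n))
    (step : ∀ L, P L → L.Countable → ∀ x ∈ D, ∃ y, P (insert (x, y) L)) :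
    ∀ L, P L → L.Countable → ∀ S : Set G, S ⊆ D → S.Countable →
      ∃ L', L ⊆ L' ∧ L'.Countable ∧ P L' ∧ ∀ x ∈ S, ∃ y, (x, y) ∈ L' := by
  intro L hL hLc S hSD hSc
  rcases S.eq_empty_or_nonempty with rfl | hne
  · exact ⟨L, subset_rfl, hLc, hL, fun x hx => absurd hx (Set.notMem_empty x)⟩
  obtain ⟨e, rfl⟩ := hSc.exists_eq_range hne
  have hstep : ∀ (n : ℕ) (q : {L : Set (G × G) // P L ∧ L.Countable}),
      ∃ y, P (insert (e n, y) q.1) :=
    fun n q => step q.1 q.2.1 q.2.2 (e n) (hSD ⟨n, rfl⟩)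
  choose g hg using hstep
  let F : ℕ → {L : Set (G × G) // P L ∧ L.Countable} := fun n =>
    Nat.rec ⟨L, hL, hLc⟩ (fun n q => ⟨insert (e n, g n q) q.1, hg n q, q.2.2.insert _⟩) n
  have hF0 : F 0 = ⟨L, hL, hLc⟩ := rfl
  have hFs : ∀ n, (F (n + 1)).1 = insert (e n, g n (F n)) (F n).1 := fun n => rfl
  have hmono : Monotone fun n => (F n).1 := by
    refine monotone_nat_of_le_succ fun n => ?_
    rw [hFs]
    exact Set.subset_insert _ _
  refine ⟨⋃ n, (F n).1, ?_, Set.countable_iUnion fun n => (F n).2.2, chain _ hmono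
    fun n => (F n).2.1, ?_⟩
  · exact Set.subset_iUnion (fun n => (F n).1) 0
  · rintro _ ⟨n, rfl⟩
    refine ⟨g n (F n), Set.mem_iUnion.2 ⟨n + 1, ?_⟩⟩
    rw [hFs]
    exact Set.mem_insert _ _

/-! ## Internal predicates -/

theorem internal_const {ι : Type*} {X : Type u} (C : Prop) :
    Internal (fun _ : ι → UP X => C) :=
  ⟨fun _ _ => C, fun f => by simp [Filter.eventually_const]⟩

theorem int_and {ι : Type*} {X : Type u} {P Q : (ι → UP X) → Prop} (hP : Internal P)
    (hQ : Internal Q) : Internal (fun y => P y ∧ Q y) := by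
  obtain ⟨p, hp⟩ := hP
  obtain ⟨q, hq⟩ := hQ
  refine ⟨fun k y => p k y ∧ q k y, fun f => ?_⟩
  exact (and_congr (hp f) (hq f)).trans Filter.eventually_and.symm

theorem int_not {ι : Type*} {X : Type u} {P : (ι → UP X) → Prop} (hP : Internal P) :
    Internal (fun y => ¬ P y) := by
  obtain ⟨p, hp⟩ := hP
  refine ⟨fun k y => ¬ p k y, fun f => ?_⟩
  exact (not_congr (hp f)).trans Ultrafilter.eventually_not.symm

theorem int_congr {ι : Type*} {X : Type u} {P Q : (ι → UP X) → Prop} (hP : Internal P)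
    (h : ∀ y, P y ↔ Q y) : Internal Q := by
  have : P = Q := by
    funext y
    exact propext (h y)
  rwa [← this]

theorem int_imp {ι : Type*} {X : Type u} {P Q : (ι → UP X) → Prop} (hP : Internal P)
    (hQ : Internal Q) : Internal (fun y => P y → Q y) :=
  int_congr (int_not (int_and hP (int_not hQ))) fun y => by tauto

theorem int_iff {ι : Type*} {X : Type u} {P Q : (ι → UP X) → Prop} (hP : Internal P)
    (hQ : Internal Q) : Internal (fun y => (P y ↔ Q y)) :=
  int_congr (int_and (int_imp hP hQ) (int_imp hQ hP)) fun y => by tauto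

/-! ## Cones -/

/-- The non-negative cone (elements `≤ 1` in multiplicative notation of valuations) of a linear
order on a commutative group. -/
structure Cone {G : Type u} [CommGroup G] (N : Set G) : Prop where
  one : 1 ∈ N
  mul : ∀ a ∈ N, ∀ b ∈ N, a * b ∈ N
  tot : ∀ a, a ∈ N ∨ a⁻¹ ∈ N
  anti : ∀ a ∈ N, a⁻¹ ∈ N → a = 1

variable {G : Type u} [CommGroup G] {N : Set G}

theorem Cone.pow (hN : Cone N) {a : G} (ha : a ∈ N) (n : ℕ) : a ^ n ∈ N := by
  induction n with
  | zero => rw [pow_zero]; exact hN.one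
  | succ n ih => rw [pow_succ]; exact hN.mul _ ih _ ha

theorem Cone.pow_iff (hN : Cone N) {a : G} {n : ℕ} (hn : 0 < n) : a ^ n ∈ N ↔ a ∈ N := by
  refine ⟨fun h => ?_, fun h => hN.pow h n⟩
  rcases hN.tot a with h1 | h1
  · exact h1
  · -- a⁻¹ ∈ N so `a⁻¹ ^ (n-1) ∈ N`, hence `a = a^n * a⁻¹^(n-1) ∈ N`
    have h2 := hN.mul _ h _ (hN.pow h1 (n - 1))
    have h3 : a ^ n * a⁻¹ ^ (n - 1) = a := by
      obtain ⟨m, rfl⟩ : ∃ m, n = m + 1 := ⟨n - 1, by omega⟩
      rw [Nat.add_sub_cancel, pow_succ, mul_comm (a ^ m) a, mul_assoc, inv_pow, mul_inv_cancel,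
        mul_one]
    rwa [h3] at h2

/-- The torsion-freeness. -/
theorem Cone.torsion (hN : Cone N) {a : G} {n : ℕ} (hn : 0 < n) (h : a ^ n = 1) : a = 1 := by
  apply hN.anti
  · rw [← hN.pow_iff hn, h]; exact hN.one
  · rw [← hN.pow_iff hn, inv_pow, h, inv_one]; exact hN.one

open scoped Classical in
/-- The linear order of a cone: `a ≤ b` iff `a * b⁻¹ ∈ N`. -/
@[instance_reducible] noncomputable def Cone.order (hN : Cone N) : LinearOrder G where
  le a b := a * b⁻¹ ∈ N
  le_refl a := by rw [mul_inv_cancel]; exact hN.one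
  le_trans a b c h1 h2 := by
    have := hN.mul _ h1 _ h2
    rwa [mul_assoc, inv_mul_cancel_left] at this
  le_antisymm a b h1 h2 := by
    have := hN.anti _ h1 (by rwa [mul_inv, inv_inv, mul_comm])
    rwa [mul_inv_eq_one] at this
  le_total a b := by
    rcases hN.tot (a * b⁻¹) with h | h
    · exact Or.inl h
    · right
      rwa [mul_inv, inv_inv, mul_comm] at h
  toDecidableLE := fun _ _ => Classical.dec _

/-- Thresholds: the target point. -/
theorem threshold (hN : Cone N) (D : Subgroup G)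
    (hdiv : ∀ d ∈ D, ∃ e ∈ D, e ^ 2 = d) (hnt : ∃ d ∈ D, d ≠ 1) (X : G) (T : Finset (G × G))
    (hD : ∀ t ∈ T, t.2 ∈ D) (hX : ∀ t ∈ T, t.1 ≠ X)
    (hord : ∀ s ∈ T, ∀ t ∈ T, (s.1 * t.1⁻¹ ∈ N ↔ s.2 * t.2⁻¹ ∈ N)) :
    ∃ Y ∈ D, ∀ t ∈ T, (t.1 * X⁻¹ ∈ N ↔ t.2 * Y⁻¹ ∈ N) ∧ t.2 ≠ Y := by
  let _ := hN.order
  have le_def : ∀ a b : G, a ≤ b ↔ a * b⁻¹ ∈ N := fun a b => Iff.rfl
  have mul_le : ∀ a b c : G, a ≤ b → a * c ≤ b * c := by
    intro a b c h
    rw [le_def] at h ⊢
    rwa [mul_inv, mul_mul_mul_comm, mul_inv_cancel, mul_one]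
  have : IsOrderedMonoid G := ⟨fun a b h c => mul_le a b c h, fun a b h c => by
    rw [mul_comm c, mul_comm c]; exact mul_le a b c h⟩
  simp only [← le_def] at hord ⊢
  have hord' : ∀ s ∈ T, ∀ t ∈ T, (s.1 < t.1 ↔ s.2 < t.2) := by
    intro s hs t ht
    rw [← not_le, ← not_le, hord t ht s hs]
  -- square root between two elements of D
  have mid : ∀ a ∈ D, ∀ b ∈ D, a < b → ∃ Y ∈ D, a < Y ∧ Y < b := by
    intro a ha b hb hab
    obtain ⟨Y, hY, hY2⟩ := hdiv (a * b) (D.mul_mem ha hb)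
    refine ⟨Y, hY, ?_, ?_⟩
    · have : a ^ 2 < Y ^ 2 := by
        rw [hY2, pow_two]
        exact mul_lt_mul_right hab a
      exact lt_of_pow_lt_pow_left' 2 this
    · have : Y ^ 2 < b ^ 2 := by
        rw [hY2, pow_two]
        exact mul_lt_mul_left hab b
      exact lt_of_pow_lt_pow_left' 2 this
  obtain ⟨d, hdD, hd1⟩ : ∃ d ∈ D, d < 1 := by
    obtain ⟨d, hd, hd1⟩ := hnt
    rcases lt_or_gt_of_ne hd1 with h | h
    · exact ⟨d, hd, h⟩
    · exact ⟨d⁻¹, D.inv_mem hd, inv_lt_one'.2 h⟩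
  -- lower part and upper part
  let A := T.filter fun t => t.1 < X
  let B := T.filter fun t => X < t.1
  have hAB : ∀ t ∈ T, t ∈ A ∨ t ∈ B := by
    intro t ht
    rcases lt_or_gt_of_ne (hX t ht) with h | h
    · exact Or.inl (Finset.mem_filter.2 ⟨ht, h⟩)
    · exact Or.inr (Finset.mem_filter.2 ⟨ht, h⟩)
  have key : ∃ Y ∈ D, (∀ t ∈ A, t.2 < Y) ∧ (∀ t ∈ B, Y < t.2) := by
    rcases A.eq_empty_or_nonempty with hA | hA
    · rcases B.eq_empty_or_nonempty with hB | hB
      · exact ⟨1, D.one_mem, by simp [hA], by simp [hB]⟩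
      · obtain ⟨b, hb, hbmin⟩ := B.exists_min_image (fun t => t.2) hB
        have hbT := (Finset.mem_filter.1 hb).1
        refine ⟨b.2 * d, D.mul_mem (hD b hbT) hdD, by simp [hA], fun t ht => ?_⟩
        exact lt_of_lt_of_le (mul_lt_of_lt_one_right' _ hd1) (hbmin t ht)
    · obtain ⟨a, ha, hamax⟩ := A.exists_max_image (fun t => t.2) hA
      have haT := (Finset.mem_filter.1 ha).1
      rcases B.eq_empty_or_nonempty with hB | hB
      · refine ⟨a.2 * d⁻¹, D.mul_mem (hD a haT) (D.inv_mem hdD), fun t ht => ?_, by simp [hB]⟩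
        exact lt_of_le_of_lt (hamax t ht) (lt_mul_of_one_lt_right' _ (one_lt_inv'.2 hd1))
      · obtain ⟨b, hb, hbmin⟩ := B.exists_min_image (fun t => t.2) hB
        have hbT := (Finset.mem_filter.1 hb).1
        have hab : a.2 < b.2 := by
          rw [← hord' a haT b hbT]
          exact (Finset.mem_filter.1 ha).2.trans (Finset.mem_filter.1 hb).2
        obtain ⟨Y, hY, h1, h2⟩ := mid _ (hD a haT) _ (hD b hbT) hab
        exact ⟨Y, hY, fun t ht => lt_of_le_of_lt (hamax t ht) h1,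
          fun t ht => lt_of_lt_of_le h2 (hbmin t ht)⟩
  obtain ⟨Y, hY, hYA, hYB⟩ := key
  refine ⟨Y, hY, fun t ht => ?_⟩
  rcases hAB t ht with h | h
  · have h1 := (Finset.mem_filter.1 h).2
    have h2 := hYA t h
    exact ⟨⟨fun _ => h2.le, fun _ => h1.le⟩, h2.ne⟩
  · have h1 := (Finset.mem_filter.1 h).2
    have h2 := hYB t h
    exact ⟨⟨fun h3 => absurd h3 (not_le.2 h1), fun h3 => absurd h3 (not_le.2 h2)⟩, h2.ne'⟩

/-- The one step extension, finitely many conditions. -/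
theorem stepCone (hN : Cone N) (D : Subgroup G) (hdiv : ∀ d ∈ D, ∀ n : ℕ, 0 < n → ∃ e ∈ D, e ^ n = d)
    (Λ : Subgroup (G × G)) (hD : ∀ p ∈ Λ, p.1 ∈ D ∧ p.2 ∈ D) (hΛ : ∀ p ∈ Λ, (p.1 ∈ N ↔ p.2 ∈ N))
    (x : G) (hx : x ∈ D) (s : Finset (ℤ × (G × G))) (hs : ∀ j ∈ s, j.2 ∈ Λ) :
    ∃ y ∈ D, ∀ j ∈ s, (j.2.1 * x ^ j.1 ∈ N ↔ j.2.2 * y ^ j.1 ∈ N) := by
  classical
  by_cases hcase : ∃ n : ℕ, 0 < n ∧ ∃ p ∈ Λ, x ^ n = p.1
  · obtain ⟨n, hn, p, hp, hxp⟩ := hcase
    obtain ⟨y, hy, hyp⟩ := hdiv p.2 (hD p hp).2 n hn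
    refine ⟨y, hy, fun j hj => ?_⟩
    have e1 : (j.2.1 * x ^ j.1) ^ n = (j.2 ^ n * p ^ j.1).1 := by
      rw [mul_pow, ← zpow_natCast (x ^ j.1) n, ← zpow_mul, mul_comm j.1, zpow_mul, zpow_natCast,
        hxp]
      rfl
    have e2 : (j.2.2 * y ^ j.1) ^ n = (j.2 ^ n * p ^ j.1).2 := by
      rw [mul_pow, ← zpow_natCast (y ^ j.1) n, ← zpow_mul, mul_comm j.1, zpow_mul, zpow_natCast,
        hyp]
      rfl
    rw [← hN.pow_iff hn, ← hN.pow_iff (a := j.2.2 * y ^ j.1) hn, e1, e2]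
    exact hΛ _ (Λ.mul_mem (Λ.pow_mem (hs j hj) n) (Λ.zpow_mem hp _))
  · push Not at hcase
    let T : ℕ := ∏ j ∈ s, if j.1 = 0 then 1 else j.1.natAbs
    have hT : 0 < T := by
      refine Finset.prod_pos fun j _ => ?_
      split_ifs with h
      · exact one_pos
      · exact Int.natAbs_pos.2 h
    have hdvd : ∀ j ∈ s, j.1 ≠ 0 → j.1 ∣ (T : ℤ) := by
      intro j hj h0
      have h1 : (if j.1 = 0 then 1 else j.1.natAbs) ∣ T :=
        Finset.dvd_prod_of_mem (fun j : ℤ × (G × G) => if j.1 = 0 then 1 else j.1.natAbs) hj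
      rw [if_neg h0] at h1
      exact Int.natAbs_dvd.1 (Int.natCast_dvd_natCast.2 h1)
    let th : ℤ × (G × G) → G × G := fun j => j.2 ^ (-((T : ℤ) / j.1))
    have hth : ∀ j ∈ s, th j ∈ Λ := fun j hj => Λ.zpow_mem (hs j hj) _
    obtain ⟨Y, hY, hYT⟩ := threshold hN D (fun d hd => hdiv d hd 2 two_pos)
      ⟨x, hx, fun h => hcase 1 one_pos 1 Λ.one_mem (by rw [h]; simp)⟩ (x ^ T)
      ((s.filter fun j => j.1 ≠ 0).image th)
      (by
        intro t ht
        obtain ⟨j, hj, rfl⟩ := Finset.mem_image.1 ht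
        exact (hD _ (hth j (Finset.mem_filter.1 hj).1)).2)
      (by
        intro t ht h
        obtain ⟨j, hj, rfl⟩ := Finset.mem_image.1 ht
        exact hcase T hT _ (hth j (Finset.mem_filter.1 hj).1) h.symm)
      (by
        intro t ht t' ht'
        obtain ⟨j, hj, rfl⟩ := Finset.mem_image.1 ht
        obtain ⟨j', hj', rfl⟩ := Finset.mem_image.1 ht'
        exact hΛ _ (Λ.mul_mem (hth j (Finset.mem_filter.1 hj).1)
          (Λ.inv_mem (hth j' (Finset.mem_filter.1 hj').1))))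
    obtain ⟨y, hy, hyY⟩ := hdiv Y hY T hT
    refine ⟨y, hy, fun j hj => ?_⟩
    by_cases h0 : j.1 = 0
    · rw [h0, zpow_zero, zpow_zero, mul_one, mul_one]
      exact hΛ _ (hs j hj)
    have hTj := hYT (th j) (Finset.mem_image.2 ⟨j, Finset.mem_filter.2 ⟨hj, h0⟩, rfl⟩)
    have hTX : (th j).1 ≠ x ^ T := fun h => hcase T hT _ (hth j hj) h.symm
    obtain ⟨q, hq⟩ := hdvd j hj h0
    have hq' : (T : ℤ) / j.1 = q := by rw [hq]; exact Int.mul_ediv_cancel_left q h0
    have hthq : th j = j.2 ^ (-q) := by simp only [th]; rw [hq']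
    have hqpos : (0 : ℤ) < T := by exact_mod_cast hT
    rcases lt_or_gt_of_ne h0 with hneg | hpos
    · -- j.1 < 0
      have hqn : q < 0 := by
        by_contra hc
        have := mul_nonpos_of_nonpos_of_nonneg hneg.le (not_lt.1 hc)
        omega
      obtain ⟨m, hm⟩ : ∃ m : ℕ, -q = (m : ℤ) := ⟨(-q).toNat, by omega⟩
      have hm0 : 0 < m := by omega
      have e : ∀ a z : G, (a * z ^ j.1) ^ m = a ^ (-q) * (z ^ T)⁻¹ := by
        intro a z
        rw [mul_pow, ← zpow_natCast a m, ← zpow_natCast (z ^ j.1) m, ← zpow_mul, ← hm,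
          ← zpow_natCast z T, hq, ← zpow_neg]
        congr 2
        ring
      rw [← hN.pow_iff hm0, ← hN.pow_iff (a := j.2.2 * y ^ j.1) hm0, e, e, hyY]
      rw [hthq] at hTj
      exact hTj.1
    · have hqn : 0 < q := by
        by_contra hc
        have := mul_nonpos_of_nonneg_of_nonpos hpos.le (not_lt.1 hc)
        omega
      obtain ⟨m, hm⟩ : ∃ m : ℕ, q = (m : ℤ) := ⟨q.toNat, by omega⟩
      have hm0 : 0 < m := by omega
      have e : ∀ a z : G, ((a * z ^ j.1) ^ m)⁻¹ = a ^ (-q) * (z ^ T)⁻¹ := by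
        intro a z
        rw [mul_pow, ← zpow_natCast a m, ← zpow_natCast (z ^ j.1) m, ← zpow_mul, ← hm,
          ← zpow_natCast z T, hq, mul_inv, ← zpow_neg]
      -- `a ∈ N ↔ a⁻¹ ∉ N` for `a ≠ 1`
      have hneg : ∀ a : G, a⁻¹ ≠ 1 → (a ∈ N ↔ ¬ a⁻¹ ∈ N) := by
        intro a ha
        constructor
        · intro h1 h2
          exact ha (by rw [hN.anti a h1 h2, inv_one])
        · intro h1
          exact (hN.tot a).resolve_right h1
      rw [← hN.pow_iff hm0, ← hN.pow_iff (a := j.2.2 * y ^ j.1) hm0, hneg, hneg (_ ^ m), e, e, hyY]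
      · rw [hthq] at hTj
        exact not_congr hTj.1
      · rw [e, hyY, Ne, mul_inv_eq_one]
        rw [hthq] at hTj
        exact hTj.2
      · rw [e, Ne, mul_inv_eq_one]
        rw [hthq] at hTX
        exact hTX

/-! ## Cones in ultrapowers -/

theorem mem_upSet_coe {X : Type u} {S : Set X} {f : ℕ → X} :
    ((f : UP X) ∈ upSet S) ↔ evt fun k => f k ∈ S := Iff.rfl

theorem Cone.up {G : Type u} [CommGroup G] {N : Set G} (hN : Cone N) : Cone (upSet N) where
  one := Filter.Eventually.of_forall fun _ => hN.one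
  mul := by
    intro a ha b hb
    induction a using Filter.Germ.inductionOn with
    | _ a =>
    induction b using Filter.Germ.inductionOn with
    | _ b =>
    rw [← Filter.Germ.coe_mul]
    rw [mem_upSet_coe] at ha hb ⊢
    filter_upwards [ha, hb] with k h1 h2
    exact hN.mul _ h1 _ h2
  tot := by
    intro a
    induction a using Filter.Germ.inductionOn with
    | _ a =>
    rw [← Filter.Germ.coe_inv, mem_upSet_coe, mem_upSet_coe]
    rw [evt, evt, ← Ultrafilter.eventually_or]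
    exact Filter.Eventually.of_forall fun k => hN.tot (a k)
  anti := by
    intro a ha hb
    induction a using Filter.Germ.inductionOn with
    | _ a =>
    rw [← Filter.Germ.coe_inv] at hb
    rw [mem_upSet_coe] at ha hb
    rw [← Filter.Germ.coe_one, Filter.Germ.coe_eq]
    filter_upwards [ha, hb] with k h1 h2
    exact hN.anti _ h1 h2

variable {M : Type u} [Field M]

theorem mk_mem_vset (O : ValuationSubring M) (x : Mˣ) : vgMk O x ∈ vset O O ↔ (x : M) ∈ O := by
  rw [← vg_unit, vg_mem_vset le_rfl x.ne_zero]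

theorem cone_vset (O : ValuationSubring M) : Cone (vset O O) where
  one := by
    rw [← map_one (vgMk O), mk_mem_vset]
    exact O.one_mem
  mul := by
    intro a ha b hb
    obtain ⟨x, rfl⟩ := vgMk_surjective O a
    obtain ⟨y, rfl⟩ := vgMk_surjective O b
    rw [mk_mem_vset] at ha hb
    rw [← map_mul, mk_mem_vset]
    exact O.mul_mem _ _ ha hb
  tot := by
    intro a
    obtain ⟨x, rfl⟩ := vgMk_surjective O a
    rw [← map_inv, mk_mem_vset, mk_mem_vset, Units.val_inv_eq_inv_val]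
    exact O.mem_or_inv_mem _
  anti := by
    intro a ha hb
    obtain ⟨x, rfl⟩ := vgMk_surjective O a
    rw [← map_inv] at hb
    rw [mk_mem_vset] at ha hb
    rw [Units.val_inv_eq_inv_val] at hb
    rw [vgMk_eq_one]
    apply le_antisymm ((O.valuation_le_one_iff _).2 ha)
    have h3 := (O.valuation_le_one_iff _).2 hb
    rw [map_inv₀] at h3
    exact (inv_le_one₀ (zero_lt_iff.2 ((Valuation.ne_zero_iff _).2 x.ne_zero))).1 h3

/-! ## `PAdiv` and the closure -/

section closure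

variable {O O' : ValuationSubring M} (h : O ≤ O')

/-- Products of powers. -/
theorem exists_prod_of_mem_closure {G : Type u} [CommGroup G] {L : Set G} {q : G}
    (hq : q ∈ Subgroup.closure L) :
    ∃ (r : ℕ) (p : Fin r → G) (z : Fin r → ℤ), (∀ i, p i ∈ L) ∧ q = ∏ i, p i ^ z i := by
  induction hq using Subgroup.closure_induction with
  | mem x hx => exact ⟨1, fun _ => x, fun _ => 1, fun _ => hx, by simp⟩
  | one => exact ⟨0, Fin.elim0, Fin.elim0, fun i => i.elim0, by simp⟩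
  | mul x y _ _ hx hy =>
    obtain ⟨r, p, z, hp, rfl⟩ := hx
    obtain ⟨r', p', z', hp', rfl⟩ := hy
    refine ⟨r + r', Fin.append p p', Fin.append z z', fun i => ?_, ?_⟩
    · refine Fin.addCases (fun i => ?_) (fun i => ?_) i
      · rw [Fin.append_left]; exact hp i
      · rw [Fin.append_right]; exact hp' i
    · rw [Fin.prod_univ_add]
      simp only [Fin.append_left, Fin.append_right]
  | inv x _ hx =>
    obtain ⟨r, p, z, hp, rfl⟩ := hx
    refine ⟨r, p, fun i => - z i, hp, ?_⟩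
    rw [← Finset.prod_inv_distrib]
    simp only [zpow_neg]

theorem prod_mem_closure {G : Type u} [CommGroup G] {L : Set G} {r : ℕ} (p : Fin r → G)
    (z : Fin r → ℤ) (hp : ∀ i, p i ∈ L) : (∏ i, p i ^ z i) ∈ Subgroup.closure L :=
  Subgroup.prod_mem _ fun i _ => Subgroup.zpow_mem _ (Subgroup.subset_closure (hp i)) _

theorem fst_prod' {G : Type u} [CommGroup G] {r : ℕ} (p : Fin r → G × G) (z : Fin r → ℤ) :
    (∏ i, p i ^ z i).1 = ∏ i, (p i).1 ^ z i := by
  rw [Prod.fst_prod]; rfl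

theorem snd_prod' {G : Type u} [CommGroup G] {r : ℕ} (p : Fin r → G × G) (z : Fin r → ℤ) :
    (∏ i, p i ^ z i).2 = ∏ i, (p i).2 ^ z i := by
  rw [Prod.snd_prod]; rfl

theorem pAdiv_iff (L : Set (UP (VGg O) × UP (VGg O))) : PAdiv h L ↔
    (∀ p ∈ L, upHom (vmap h) p.1 = 1 ∧ upHom (vmap h) p.2 = 1) ∧
      ∀ p ∈ Subgroup.closure L, (p.1 ∈ upSet (vset O O) ↔ p.2 ∈ upSet (vset O O)) := by
  unfold PAdiv
  refine and_congr Iff.rfl ⟨fun H q hq => ?_, fun H r p z hp => ?_⟩
  · obtain ⟨r, p, z, hp, rfl⟩ := exists_prod_of_mem_closure hq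
    rw [fst_prod', snd_prod']
    exact H r p z hp
  · rw [← fst_prod', ← snd_prod']
    exact H _ (prod_mem_closure p z hp)

theorem countable_closure {G : Type u} [CommGroup G] {L : Set G} (hL : L.Countable) :
    (Subgroup.closure L : Set G).Countable := by
  have : Countable L := hL.to_subtype
  have h1 : (Subgroup.closure L : Set G) ⊆ Set.range
      (fun q : (Σ r : ℕ, (Fin r → L) × (Fin r → ℤ)) => ∏ i, ((q.2.1 i : L) : G) ^ (q.2.2 i)) := by
    intro q hq
    obtain ⟨r, p, z, hp, rfl⟩ := exists_prod_of_mem_closure hq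
    exact ⟨⟨r, fun i => ⟨p i, hp i⟩, z⟩, rfl⟩
  exact (Set.countable_range _).mono h1

end closure

/-- Divisibility in the ultrapower. -/
theorem div_up {G C : Type u} [CommGroup G] [CommGroup C] (φ : G →* C)
    (hdiv : ∀ g : G, φ g = 1 → ∀ n : ℕ, 0 < n → ∃ e, φ e = 1 ∧ e ^ n = g) :
    ∀ d ∈ (upHom φ).ker, ∀ n : ℕ, 0 < n → ∃ e ∈ (upHom φ).ker, e ^ n = d := by
  intro d hd n hn
  rw [MonoidHom.mem_ker] at hd
  induction d using Filter.Germ.inductionOn with
  | _ d =>
  have h1 : evt fun k => φ (d k) = 1 := Filter.Germ.coe_eq.1 (hd : ((φ ∘ d : ℕ → C) : UP C) = _)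
  have h2 : evt fun k => ∃ e, φ e = 1 ∧ e ^ n = d k := h1.mono fun k hk => hdiv _ hk n hn
  choose! e he using (fun (k : ℕ) (hk : ∃ e, φ e = 1 ∧ e ^ n = d k) => hk)
  refine ⟨(e : UP G), ?_, ?_⟩
  · rw [MonoidHom.mem_ker]
    exact Filter.Germ.coe_eq.2 (h2.mono fun k hk => (he k hk).1)
  · rw [← Filter.Germ.coe_pow]
    exact Filter.Germ.coe_eq.2 (h2.mono fun k hk => (he k hk).2)

end H21

open H21 in
/-- `PAdivStmt`. -/
theorem pAdiv (hSat : SatStmt.{u, 0, u}) : PAdivStmt.{u} := by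
  intro M _ O O' h hdiv
  have hN : Cone (upSet (vset O O)) := (cone_vset O).up
  have hdiv0 : ∀ g : VGg O, vmap h g = 1 → ∀ n : ℕ, 0 < n → ∃ e, vmap h e = 1 ∧ e ^ n = g := by
    intro g hg n hn
    obtain ⟨x, rfl⟩ := vgMk_surjective O g
    rw [vmap_mk, vgMk_eq_one] at hg
    obtain ⟨w, hw1, hw2⟩ := hdiv _ n hn hg
    have hw0 : w ≠ 0 := by
      rintro rfl
      simp at hw1
    refine ⟨vgMk O (Units.mk0 w hw0), ?_, ?_⟩
    · rw [vmap_mk, vgMk_eq_one]
      exact hw1
    · rw [← map_pow, vgMk_eq]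
      simpa using hw2.symm
  have hD := div_up (vmap h) hdiv0
  have mono : ∀ L L' : Set (UP (VGg O) × UP (VGg O)), PAdiv h L → L' ⊆ L → PAdiv h L' :=
    fun L L' hL hLL' => ⟨fun p hp => hL.1 p (hLL' hp), fun r p z hp =>
      hL.2 r p z fun i => hLL' (hp i)⟩
  refine ⟨fun L hL p hp => hL.1 p hp, mono, ?_, ?_, ?_⟩
  · -- swap
    intro L hL
    exact ⟨fun p hp => (hL.1 _ hp).symm, fun r p z hp => (hL.2 r (fun i => (p i).swap) z hp).symm⟩
  · -- forth
    apply forth_of_step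
    · -- chains
      intro f hf hP
      refine ⟨fun p hp => ?_, fun r p z hp => ?_⟩
      · obtain ⟨n, hn⟩ := Set.mem_iUnion.1 hp
        exact (hP n).1 p hn
      · choose n hn using fun i => Set.mem_iUnion.1 (hp i)
        refine (hP (Finset.univ.sup n)).2 r p z fun i => ?_
        exact hf (Finset.le_sup (Finset.mem_univ i)) (hn i)
    · -- step
      intro L hL hLc x hx
      rw [pAdiv_iff] at hL
      have hΛc : Countable (Subgroup.closure L : Set (UP (VGg O) × UP (VGg O))) :=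
        (countable_closure hLc).to_subtype
      have hΛD : ∀ p ∈ Subgroup.closure L, p.1 ∈ (upHom (vmap h)).ker ∧
          p.2 ∈ (upHom (vmap h)).ker := by
        have : Subgroup.closure L ≤ ((upHom (vmap h)).ker).prod ((upHom (vmap h)).ker) := by
          rw [Subgroup.closure_le]
          intro p hp
          exact Subgroup.mem_prod.2 (hL.1 p hp)
        intro p hp
        exact Subgroup.mem_prod.1 (this hp)
      let Pj : ℤ × (Subgroup.closure L : Set (UP (VGg O) × UP (VGg O))) →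
          (Unit → UP (VGg O)) → Prop := fun j y =>
        upHom (vmap h) (y ()) = 1 ∧ (j.2.1.1 * x ^ j.1 ∈ upSet (vset O O) ↔
          j.2.1.2 * (y ()) ^ j.1 ∈ upSet (vset O O))
      obtain ⟨y, hy⟩ := hSat Unit _ (VGg O) Pj (by
        intro j
        refine int_and ?_ (int_iff (internal_const _) ?_)
        · refine ⟨fun k y => vmap h (y ()) = 1, fun f => ?_⟩
          exact Filter.Germ.coe_eq
        · refine ⟨fun k y => rep j.2.1.2 k * (y ()) ^ j.1 ∈ vset O O, fun f => ?_⟩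
          have e : j.2.1.2 * (f () : UP (VGg O)) ^ j.1 =
              ((fun k => rep j.2.1.2 k * (f () k) ^ j.1 : ℕ → VGg O) : UP (VGg O)) := by
            conv_lhs => rw [← rep_spec j.2.1.2]
            rfl
          change (j.2.1.2 * (f () : UP (VGg O)) ^ j.1 ∈ upSet (vset O O)) ↔ _
          rw [e]
          exact Iff.rfl) (by
        intro s
        classical
        obtain ⟨y, hy, hys⟩ := stepCone hN _ hD (Subgroup.closure L) hΛD hL.2 x hx
          (s.image fun j => (j.1, j.2.1)) (by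
            intro j hj
            obtain ⟨i, _, rfl⟩ := Finset.mem_image.1 hj
            exact i.2.2)
        refine ⟨fun _ => y, fun j hj => ⟨hy, ?_⟩⟩
        exact hys (j.1, j.2.1) (Finset.mem_image.2 ⟨j, hj, rfl⟩))
      refine ⟨y (), ?_⟩
      rw [pAdiv_iff]
      constructor
      · intro p hp
        rcases Set.mem_insert_iff.1 hp with rfl | hp
        · exact ⟨hx, (hy (0, ⟨1, Subgroup.one_mem _⟩)).1⟩
        · exact hL.1 p hp
      · intro p hp
        rw [Set.insert_eq, Subgroup.closure_union, Subgroup.mem_sup] at hp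
        obtain ⟨a, ha, b, hb, rfl⟩ := hp
        rw [← Subgroup.zpowers_eq_closure] at ha
        obtain ⟨n, rfl⟩ := Subgroup.mem_zpowers_iff.1 ha
        have := (hy (n, ⟨b, hb⟩)).2
        rw [mul_comm]
        exact this
  · -- mul
    intro L hL a a' b b' c' h1 h2 h3
    rw [pAdiv_iff] at hL
    have hmem : (a, a') * (b, b') * (a * b, c')⁻¹ ∈ Subgroup.closure L :=
      Subgroup.mul_mem _ (Subgroup.mul_mem _ (Subgroup.subset_closure h1)
        (Subgroup.subset_closure h2)) (Subgroup.inv_mem _ (Subgroup.subset_closure h3))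
    have e1 : ((a, a') * (b, b') * (a * b, c')⁻¹).1 = 1 := by
      change a * b * (a * b)⁻¹ = 1
      exact mul_inv_cancel _
    have e2 : ((a, a') * (b, b') * (a * b, c')⁻¹).2 = a' * b' * c'⁻¹ := rfl
    have k1 := hL.2 _ hmem
    have k2 := hL.2 _ (Subgroup.inv_mem _ hmem)
    rw [Prod.fst_inv, Prod.snd_inv] at k2
    rw [e1, e2] at k1 k2
    rw [inv_one] at k2
    have := hN.anti _ (k1.1 hN.one) (k2.1 hN.one)
    exact (mul_inv_eq_one.1 this).symm

end Pool.Agent.NF44
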