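import Pool.Agent.NF44.Stmts2
import Pool.Agent.NF44.Oinf
import Pool.Agent.NF44.PAdiv

/-!
# `Case0LemmaStmt` (module of helper21)

The extension at the level of leading terms is done by a maximal subgroup of pairs whose
intersection with the kernel does not grow (no divisible hull of the residue part is needed).
-/

namespace Pool.Agent.NF44

universe u

namespace H21C

open H21 (Cone)

/-! ## The extension at the level of leading terms: abstract form -/

/-- `V → C` with divisible kernel; `R ≤ V × V`, `Lg ≤ C × C` in the hull of the image of `R`.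
There is `L ≥ R` with image `Lg`, whose intersection with the kernel is that of `R`. -/
theorem liftHull {V C : Type u} [CommGroup V] [CommGroup C] (π : V →* C)
    (hsurj : Function.Surjective π)
    (hdiv : ∀ v : V, π v = 1 → ∀ n : ℕ, 0 < n → ∃ e, π e = 1 ∧ e ^ n = v)
    (R : Subgroup (V × V)) (Lg : Subgroup (C × C))
    (h1 : ∀ p ∈ R, (π p.1, π p.2) ∈ Lg)
    (h2 : ∀ q ∈ Lg, ∃ n : ℕ, 0 < n ∧ ∃ p ∈ R, (π p.1, π p.2) = q ^ n) :
    ∃ L : Subgroup (V × V), R ≤ L ∧ (∀ p ∈ L, (π p.1, π p.2) ∈ Lg) ∧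
      (∀ q ∈ Lg, ∃ p ∈ L, (π p.1, π p.2) = q) ∧ ∀ p ∈ L, π p.1 = 1 → π p.2 = 1 → p ∈ R := by
  classical
  let S : Set (Subgroup (V × V)) := {L | R ≤ L ∧ (∀ p ∈ L, (π p.1, π p.2) ∈ Lg) ∧
    ∀ p ∈ L, π p.1 = 1 → π p.2 = 1 → p ∈ R}
  have hRS : R ∈ S := ⟨le_rfl, h1, fun p hp _ _ => hp⟩
  obtain ⟨L, hRL, hL⟩ : ∃ L, R ≤ L ∧ Maximal (fun L => L ∈ S) L := by
    refine zorn_le_nonempty₀ S ?_ R hRS
    intro c hc hchain L₀ hL₀
    have hne : c.Nonempty := ⟨L₀, hL₀⟩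
    have hdir : DirectedOn (· ≤ ·) c := hchain.directedOn
    refine ⟨sSup c, ⟨(hc hL₀).1.trans (le_sSup hL₀), ?_, ?_⟩, fun z hz => le_sSup hz⟩
    · intro p hp
      rw [Subgroup.mem_sSup_of_directedOn hne hdir] at hp
      obtain ⟨L, hLc, hpL⟩ := hp
      exact (hc hLc).2.1 p hpL
    · intro p hp
      rw [Subgroup.mem_sSup_of_directedOn hne hdir] at hp
      obtain ⟨L, hLc, hpL⟩ := hp
      exact (hc hLc).2.2 p hpL
  refine ⟨L, hRL, hL.prop.2.1, ?_, hL.prop.2.2⟩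
  by_contra hcon
  push Not at hcon
  obtain ⟨q, hq, hqL⟩ := hcon
  let PI : V × V →* C × C := π.prodMap π
  have hPI : ∀ p : V × V, PI p = (π p.1, π p.2) := fun p => rfl
  -- the least `n`
  have hex : ∃ n : ℕ, 0 < n ∧ ∃ p ∈ L, PI p = q ^ n := by
    obtain ⟨n, hn, p, hp, hpq⟩ := h2 q hq
    exact ⟨n, hn, p, hRL hp, hpq⟩
  obtain ⟨hn, l, hl, hlq⟩ := Nat.find_spec hex
  have hmin := fun m => Nat.find_min hex (m := m)
  generalize Nat.find hex = n at hn hlq hmin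
  -- integers `j` with `q ^ j ∈ PI L` are multiples of `n`
  have hdvd : ∀ j : ℤ, (∃ p ∈ L, PI p = q ^ j) → (n : ℤ) ∣ j := by
    rintro j ⟨p, hp, hpj⟩
    by_contra hnd
    have hr := Int.emod_nonneg j (by omega : (n : ℤ) ≠ 0)
    have hr2 := Int.emod_lt_of_pos j (by omega : (0 : ℤ) < n)
    have hr3 : j % n ≠ 0 := fun h => hnd (Int.dvd_of_emod_eq_zero h)
    obtain ⟨m, hm⟩ : ∃ m : ℕ, j % n = m := ⟨(j % n).toNat, by omega⟩
    refine hmin m (by omega) ⟨by omega, p * (l ^ (j / n))⁻¹,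
      L.mul_mem hp (L.inv_mem (L.zpow_mem hl _)), ?_⟩
    rw [map_mul, map_inv, map_zpow, hpj, hlq, ← zpow_natCast q m, ← hm, ← zpow_natCast q n,
      ← zpow_mul, ← zpow_neg, ← zpow_add]
    congr 1
    have := Int.emod_add_mul_ediv j n
    linarith
  -- a lift `s` of `q` with `s ^ n = l`
  obtain ⟨s, hsq, hsl⟩ : ∃ s : V × V, PI s = q ∧ s ^ n = l := by
    obtain ⟨a, ha⟩ := hsurj q.1
    obtain ⟨b, hb⟩ := hsurj q.2
    have e1 : π (a ^ n * l.1⁻¹) = 1 := by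
      have : π l.1 = (q ^ n).1 := congrArg Prod.fst hlq
      rw [map_mul, map_pow, map_inv, ha, this]
      simp
    have e2 : π (b ^ n * l.2⁻¹) = 1 := by
      have : π l.2 = (q ^ n).2 := congrArg Prod.snd hlq
      rw [map_mul, map_pow, map_inv, hb, this]
      simp
    obtain ⟨c, hc, hcn⟩ := hdiv _ e1 n hn
    obtain ⟨d, hd, hdn⟩ := hdiv _ e2 n hn
    refine ⟨(a * c⁻¹, b * d⁻¹), ?_, ?_⟩
    · rw [hPI]
      refine Prod.ext ?_ ?_
      · simp [hc, ha]
      · simp [hd, hb]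
    · refine Prod.ext ?_ ?_
      · simp only [Prod.pow_fst, mul_pow, inv_pow, hcn]
        simp
      · simp only [Prod.pow_snd, mul_pow, inv_pow, hdn]
        simp
  have hsL : s ∉ L := fun h => hqL s h hsq
  -- the larger group
  have hmem : ∀ p, p ∈ L ⊔ Subgroup.zpowers s → ∃ a ∈ L, ∃ j : ℤ, a * s ^ j = p := by
    intro p hp
    obtain ⟨a, ha, b, hb, rfl⟩ := Subgroup.mem_sup.1 hp
    obtain ⟨j, rfl⟩ := Subgroup.mem_zpowers_iff.1 hb
    exact ⟨a, ha, j, rfl⟩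
  have hnew : L ⊔ Subgroup.zpowers s ∈ S := by
    refine ⟨hRL.trans le_sup_left, ?_, ?_⟩
    · intro p hp
      obtain ⟨a, ha, j, rfl⟩ := hmem p hp
      rw [← hPI, map_mul, map_zpow, hsq]
      exact Lg.mul_mem (hL.prop.2.1 a ha) (Lg.zpow_mem hq j)
    · intro p hp k1 k2
      obtain ⟨a, ha, j, rfl⟩ := hmem p hp
      have e : PI (a * s ^ j) = 1 := by
        rw [hPI]; exact Prod.ext k1 k2
      obtain ⟨i, rfl⟩ := hdvd j ⟨a⁻¹, L.inv_mem ha, by
        rw [map_mul, map_zpow, hsq] at e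
        rw [map_inv]
        exact (eq_inv_of_mul_eq_one_right e).symm⟩
      refine hL.prop.2.2 _ (L.mul_mem ha ?_) k1 k2
      rw [zpow_mul, zpow_natCast, hsl]
      exact L.zpow_mem hl i
  have hle : L ⊔ Subgroup.zpowers s ≤ L := hL.2 hnew le_sup_left
  exact hsL (hle ((le_sup_right : Subgroup.zpowers s ≤ _) (Subgroup.mem_zpowers s)))

/-! ## Field graphs -/

section fg

variable {M : Type u} [Field M] {G : Set (M × M)}

theorem fg_zero (hG : IsFieldGraph G) : ((0 : M), (0 : M)) ∈ G := by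
  have := hG.add _ hG.one _ (hG.neg _ hG.one)
  simpa using this

theorem fg_sub (hG : IsFieldGraph G) {p q : M × M} (hp : p ∈ G) (hq : q ∈ G) :
    (p.1 - q.1, p.2 - q.2) ∈ G := by
  have := hG.add _ hp _ (hG.neg _ hq)
  simpa [sub_eq_add_neg] using this

theorem fg_div (hG : IsFieldGraph G) {p q : M × M} (hp : p ∈ G) (hq : q ∈ G) :
    (p.1 / q.1, p.2 / q.2) ∈ G := by
  have := hG.mul _ hp _ (hG.inv _ hq)
  simpa [div_eq_mul_inv] using this

theorem fg_pow (hG : IsFieldGraph G) {p : M × M} (hp : p ∈ G) (n : ℕ) :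
    (p.1 ^ n, p.2 ^ n) ∈ G := by
  induction n with
  | zero => simpa using hG.one
  | succ n ih =>
    have := hG.mul _ ih _ hp
    simpa [pow_succ] using this

theorem fg_nat (hG : IsFieldGraph G) (n : ℕ) : ((n : M), (n : M)) ∈ G := by
  induction n with
  | zero => simpa using fg_zero hG
  | succ n ih =>
    have := hG.add _ ih _ hG.one
    simpa using this

theorem fg_int (hG : IsFieldGraph G) (n : ℤ) : ((n : M), (n : M)) ∈ G := by
  cases n with
  | ofNat n => simpa using fg_nat hG n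
  | negSucc n =>
    have := hG.neg _ (fg_nat hG (n + 1))
    simpa using this

theorem fg_unique (hG : IsFieldGraph G) {a b b' : M} (h : (a, b) ∈ G) (h' : (a, b') ∈ G) :
    b = b' := by
  have h1 := fg_sub hG h h'
  have h2 := (hG.zero _ h1).1 (by simp)
  simpa [sub_eq_zero] using h2

theorem fg_aeval (hG : IsFieldGraph G) {r : ℕ} (p : Fin r → M × M) (hp : ∀ i, p i ∈ G)
    (f : MvPolynomial (Fin r) ℤ) :
    (MvPolynomial.aeval (fun i => (p i).1) f, MvPolynomial.aeval (fun i => (p i).2) f) ∈ G := by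
  induction f using MvPolynomial.induction_on with
  | C n => simpa using fg_int hG n
  | add f g hf hg =>
    have := hG.add _ hf _ hg
    simpa using this
  | mul_X f i hf =>
    have := hG.mul _ hf _ (hp i)
    simpa using this

theorem fg_swap (hG : IsFieldGraph G) : IsFieldGraph (Prod.swap ⁻¹' G) where
  one := hG.one
  add := fun _ hp _ hq => hG.add _ hp _ hq
  neg := fun _ hp => hG.neg _ hp
  mul := fun _ hp _ hq => hG.mul _ hp _ hq
  inv := fun _ hp => hG.inv _ hp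
  zero := fun _ hp => (hG.zero _ hp).symm

theorem fg_ne (hG : IsFieldGraph G) {p : M × M} (hp : p ∈ G) : p.1 ≠ 0 ↔ p.2 ≠ 0 :=
  not_congr (hG.zero p hp)

end fg

/-! ## The data -/

section data

variable {M : Type u} [Field M]

/-- A countable isomorphism of subfields of the ultrapower which is a partial elementary map of
`(M, O')` and preserves `O`. -/
structure Dat (O O' : ValuationSubring M) (G : Set (UP M × UP M)) : Prop where
  countable : G.Countable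
  fg : IsFieldGraph G
  tp : Tp (fieldRS ![(O' : Set M)]).up (fieldRS ![(O' : Set M)]).up G
  val : ∀ p ∈ G, (p.1 ∈ upVS O ↔ p.2 ∈ upVS O)

variable {O O' : ValuationSubring M} {G : Set (UP M × UP M)}

theorem Dat.swap (hD : Dat O O' G) : Dat O O' (Prod.swap ⁻¹' G) where
  countable := hD.countable.preimage_of_injOn Prod.swap_injective.injOn
  fg := fg_swap hD.fg
  tp := hD.tp.swap
  val := fun _ hp => (hD.val _ hp).symm

theorem Dat.val' (hD : Dat O O' G) {p : UP M × UP M} (hp : p ∈ G) :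
    p.1 ∈ upVS O' ↔ p.2 ∈ upVS O' := by
  have h := hD.tp.atomic
  rw [fieldRS_up] at h
  exact h (FJ.pr 0) (fun _ => p) (fun _ => hp)

theorem eqOne_of {R : ValuationSubring (UP M)} {G : Set (UP M × UP M)} (hG : IsFieldGraph G)
    (hR : ∀ p ∈ G, (p.1 ∈ R ↔ p.2 ∈ R)) {p : UP M × UP M} (hp : p ∈ G) :
    R.valuation p.1 = 1 ↔ R.valuation p.2 = 1 := by
  rw [veq_one_iff, veq_one_iff, fg_ne hG hp, hR _ hp, hR _ (hG.inv _ hp)]

theorem ltOne_of {R : ValuationSubring (UP M)} {G : Set (UP M × UP M)} (hG : IsFieldGraph G)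
    (hR : ∀ p ∈ G, (p.1 ∈ R ↔ p.2 ∈ R)) {p : UP M × UP M} (hp : p ∈ G) :
    R.valuation p.1 < 1 ↔ R.valuation p.2 < 1 := by
  rw [vlt_iff, vlt_iff, hG.zero _ hp, hR _ (hG.inv _ hp)]

/-- torsion freeness of the value group of the ultrapower -/
theorem upvg_torsion (O : ValuationSubring M) {c : UP (VGg O)} {n : ℕ} (hn : 0 < n)
    (h : c ^ n = 1) : c = 1 :=
  (H21.cone_vset O).up.torsion hn h

theorem upvg_pow_inj (O : ValuationSubring M) {c d : UP (VGg O)} {n : ℕ} (hn : 0 < n)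
    (h : c ^ n = d ^ n) : c = d := by
  rw [← mul_inv_eq_one]
  apply upvg_torsion O hn
  rw [mul_pow, inv_pow, h, mul_inv_cancel]

theorem upvg_pow (O : ValuationSubring M) {w : UP M} (hw : w ≠ 0) (n : ℕ) :
    upMap (vg O) (w ^ n) = upMap (vg O) w ^ n := by
  induction n with
  | zero => rw [pow_zero, pow_zero, upvg_one]
  | succ n ih => rw [pow_succ, pow_succ, upvg_mul O (pow_ne_zero n hw) hw, ih]

theorem unitRoot (hU : OinfAux.UnitsDiv O) {u : UP M} (hu : (upVS O).valuation u = 1) {n : ℕ}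
    (hn : 0 < n) : ∃ w, u = w ^ n := by
  induction u using up_ind with | _ f => ?_
  rw [upVS_eq_one] at hu
  have h2 : evt fun k => ∃ w, f k = w ^ n := hu.mono fun k hk => hU n hn _ hk
  rw [evt_exists] at h2
  obtain ⟨w, hw⟩ := h2
  exact ⟨(w : UP M), (up_eq _ _).2 hw⟩

/-- Roots are transferred. -/
theorem rootTransfer (hTF : TpForthStmt.{u}) (hFC : FieldCloseStmt.{u}) (hD : Dat O O' G)
    {p : UP M × UP M} (hp : p ∈ G) {n : ℕ} {w : UP M} (hw : p.1 = w ^ n) :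
    ∃ w', p.2 = w' ^ n := by
  obtain ⟨L, hL1, hL2, hL3, hL4⟩ := hTF _ _ _ _ _ G hD.tp hD.countable {w}
    (Set.countable_singleton w)
  obtain ⟨w', hw'⟩ := hL4 w rfl
  obtain ⟨T, hT1, hT2, hT3, hT4⟩ := hFC M 1 _ L hL2 hL3
  have h1 := fg_pow hT3 (hT1 hw') n
  have h2 := hT1 (hL1 hp)
  refine ⟨w', ?_⟩
  have h3 : (w ^ n, p.2) ∈ T := by
    rw [← hw]
    exact h2
  exact fg_unique hT3 h3 h1

theorem valRoot (hTF : TpForthStmt.{u}) (hFC : FieldCloseStmt.{u}) (hU : OinfAux.UnitsDiv O)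
    (hD : Dat O O' G) {p : UP M × UP M} (hp : p ∈ G) (hp0 : p.1 ≠ 0) {n : ℕ} (hn : 0 < n)
    {σ : UP (VGg O)} (hσ : σ ^ n = upMap (vg O) p.1) : ∃ σ', σ' ^ n = upMap (vg O) p.2 := by
  obtain ⟨w, hw, rfl⟩ := upvg_surj O σ
  have hwn : w ^ n ≠ 0 := pow_ne_zero n hw
  rw [← upvg_pow O hw, upvg_eq O hwn hp0] at hσ
  have h1 : (upVS O).valuation (p.1 / w ^ n) = 1 := by
    rw [map_div₀, ← hσ]
    exact div_self ((Valuation.ne_zero_iff _).2 hwn)
  obtain ⟨u, hu⟩ := unitRoot hU h1 hn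
  have h2 : p.1 = (u * w) ^ n := by
    rw [mul_pow, ← hu, div_mul_cancel₀ _ hwn]
  obtain ⟨w', hw'⟩ := rootTransfer hTF hFC hD hp h2
  have hw'0 : w' ≠ 0 := by
    rintro rfl
    rw [zero_pow hn.ne'] at hw'
    exact ((fg_ne hD.fg hp).1 hp0) hw'
  exact ⟨upMap (vg O) w', by rw [← upvg_pow O hw'0, hw']⟩

/-- The image in the value group. -/
def vG (O : ValuationSubring M) (hG : IsFieldGraph G) : Subgroup (UP (VGg O) × UP (VGg O)) where
  carrier := {q | ∃ p ∈ G, p.1 ≠ 0 ∧ q = (upMap (vg O) p.1, upMap (vg O) p.2)}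
  mul_mem' := by
    rintro _ _ ⟨p, hp, hp0, rfl⟩ ⟨q, hq, hq0, rfl⟩
    refine ⟨_, hG.mul _ hp _ hq, mul_ne_zero hp0 hq0, ?_⟩
    rw [upvg_mul O hp0 hq0, upvg_mul O ((fg_ne hG hp).1 hp0) ((fg_ne hG hq).1 hq0)]
    rfl
  one_mem' := ⟨_, hG.one, one_ne_zero, by rw [upvg_one]; rfl⟩
  inv_mem' := by
    rintro _ ⟨p, hp, hp0, rfl⟩
    refine ⟨_, hG.inv _ hp, inv_ne_zero hp0, ?_⟩
    rw [upvg_inv, upvg_inv]
    rfl

/-- The hull. -/
def Lg (O : ValuationSubring M) (hG : IsFieldGraph G) : Subgroup (UP (VGg O) × UP (VGg O)) where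
  carrier := {q | ∃ n : ℕ, 0 < n ∧ q ^ n ∈ vG O hG}
  mul_mem' := by
    rintro a b ⟨n, hn, ha⟩ ⟨m, hm, hb⟩
    refine ⟨n * m, Nat.mul_pos hn hm, ?_⟩
    rw [mul_pow, pow_mul, mul_comm n m, pow_mul b]
    exact Subgroup.mul_mem _ (Subgroup.pow_mem _ ha m) (Subgroup.pow_mem _ hb n)
  one_mem' := ⟨1, one_pos, by rw [one_pow]; exact Subgroup.one_mem _⟩
  inv_mem' := by
    rintro a ⟨n, hn, ha⟩
    exact ⟨n, hn, by rw [inv_pow]; exact Subgroup.inv_mem _ ha⟩

theorem vG_le (hG : IsFieldGraph G) : vG O hG ≤ Lg O hG :=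
  fun q hq => ⟨1, one_pos, by rwa [pow_one]⟩

theorem mem_Lg (hG : IsFieldGraph G) {q : UP (VGg O) × UP (VGg O)} : q ∈ Lg O hG ↔
    ∃ n : ℕ, 0 < n ∧ ∃ p ∈ G, p.1 ≠ 0 ∧ q.1 ^ n = upMap (vg O) p.1 ∧ q.2 ^ n = upMap (vg O) p.2 := by
  constructor
  · rintro ⟨n, hn, p, hp, hp0, h⟩
    exact ⟨n, hn, p, hp, hp0, congrArg Prod.fst h, congrArg Prod.snd h⟩
  · rintro ⟨n, hn, p, hp, hp0, h, h'⟩
    exact ⟨n, hn, p, hp, hp0, Prod.ext h h'⟩

theorem Lg_swap (hG : IsFieldGraph G) {q : UP (VGg O) × UP (VGg O)} :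
    q.swap ∈ Lg O (fg_swap hG) ↔ q ∈ Lg O hG := by
  rw [mem_Lg, mem_Lg]
  constructor
  · rintro ⟨n, hn, p, hp, hp0, h, h'⟩
    exact ⟨n, hn, p.swap, hp, (fg_ne (fg_swap hG) hp).1 hp0, h', h⟩
  · rintro ⟨n, hn, p, hp, hp0, h, h'⟩
    exact ⟨n, hn, p.swap, by simpa using hp, (fg_ne hG hp).1 hp0, h', h⟩

/-- the purity of `Lg` -/
theorem Lg_pure (hTF : TpForthStmt.{u}) (hFC : FieldCloseStmt.{u}) (hU : OinfAux.UnitsDiv O)
    (hD : Dat O O' G) {q : UP (VGg O) × UP (VGg O)} (hq : q ∈ Lg O hD.fg) {n : ℕ} (hn : 0 < n)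
    {σ : UP (VGg O)} (hσ : σ ^ n = q.1) : ∃ σ', (σ, σ') ∈ Lg O hD.fg := by
  obtain ⟨m, hm, p, hp, hp0, h1, h2⟩ := (mem_Lg hD.fg).1 hq
  have h3 : σ ^ (n * m) = upMap (vg O) p.1 := by rw [pow_mul, hσ, h1]
  obtain ⟨σ', hσ'⟩ := valRoot hTF hFC hU hD hp hp0 (Nat.mul_pos hn hm) h3
  exact ⟨σ', (mem_Lg hD.fg).2 ⟨n * m, Nat.mul_pos hn hm, p, hp, hp0, h3, hσ'⟩⟩

theorem Lg_ord (hD : Dat O O' G) {q : UP (VGg O) × UP (VGg O)} (hq : q ∈ Lg O hD.fg) :
    q.1 ∈ upSet (vset O O) ↔ q.2 ∈ upSet (vset O O) := by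
  obtain ⟨m, hm, p, hp, hp0, h1, h2⟩ := (mem_Lg hD.fg).1 hq
  have hN : Cone (upSet (vset O O)) := (H21.cone_vset O).up
  rw [← hN.pow_iff hm, ← hN.pow_iff (a := q.2) hm, h1, h2, upvg_mem le_rfl hp0,
    upvg_mem le_rfl ((fg_ne hD.fg hp).1 hp0), hD.val p hp]

/-- `Lg` is a graph. -/
theorem Lg_one (hD : Dat O O' G) {q : UP (VGg O) × UP (VGg O)} (hq : q ∈ Lg O hD.fg) :
    q.1 = 1 ↔ q.2 = 1 := by
  have hN : Cone (upSet (vset O O)) := (H21.cone_vset O).up
  have h1 := Lg_ord hD hq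
  have h2 := Lg_ord hD ((Lg O hD.fg).inv_mem hq)
  rw [Prod.fst_inv, Prod.snd_inv] at h2
  constructor
  · intro h
    rw [h] at h1
    rw [h, inv_one] at h2
    exact hN.anti _ (h1.1 hN.one) (h2.1 hN.one)
  · intro h
    rw [h] at h1
    rw [h, inv_one] at h2
    exact hN.anti _ (h1.2 hN.one) (h2.2 hN.one)

theorem Lg_countable (hD : Dat O O' G) :
    (Lg O hD.fg : Set (UP (VGg O) × UP (VGg O))).Countable := by
  have h1 : (vG O hD.fg : Set (UP (VGg O) × UP (VGg O))).Countable := by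
    refine (hD.countable.image (fun p => (upMap (vg O) p.1, upMap (vg O) p.2))).mono ?_
    rintro _ ⟨p, hp, _, rfl⟩
    exact ⟨p, hp, rfl⟩
  have h2 : (Lg O hD.fg : Set (UP (VGg O) × UP (VGg O))) ⊆
      ⋃ n : ℕ, (fun q : UP (VGg O) × UP (VGg O) => q ^ (n + 1)) ⁻¹' (vG O hD.fg) := by
    rintro q ⟨n, hn, hq⟩
    refine Set.mem_iUnion.2 ⟨n - 1, ?_⟩
    have : n - 1 + 1 = n := by omega
    simpa [this] using hq
  refine (Set.countable_iUnion fun n => ?_).mono h2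
  refine h1.preimage_of_injOn ?_
  intro a _ b _ hab
  have h3 : a.1 ^ (n + 1) = b.1 ^ (n + 1) := congrArg Prod.fst hab
  have h4 : a.2 ^ (n + 1) = b.2 ^ (n + 1) := congrArg Prod.snd hab
  exact Prod.ext (upvg_pow_inj O n.succ_pos h3) (upvg_pow_inj O n.succ_pos h4)

/-- the kernel of `vmap` is divisible in the ultrapower -/
theorem vmap_div (h : O ≤ O') (hdiv : ∀ (z : M) (n : ℕ), 0 < n → O'.valuation z = 1 →
      ∃ w, O'.valuation w = 1 ∧ O.valuation z = O.valuation (w ^ n)) :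
    ∀ d : UP (VGg O), upHom (vmap h) d = 1 → ∀ n : ℕ, 0 < n →
      ∃ e, upHom (vmap h) e = 1 ∧ e ^ n = d := by
  have hdiv0 : ∀ g : VGg O, vmap h g = 1 → ∀ n : ℕ, 0 < n → ∃ e, vmap h e = 1 ∧ e ^ n = g := by
    intro g hg n hn
    obtain ⟨x, rfl⟩ := vgMk_surjective O g
    rw [vmap_mk, vgMk_eq_one] at hg
    obtain ⟨w, hw1, hw2⟩ := hdiv _ n hn hg
    have hw0 : w ≠ 0 := by
      rintro rfl
      simp at hw1
    refine ⟨vgMk O (Units.mk0 w hw0), ?_, ?_⟩
    · rw [vmap_mk, vgMk_eq_one]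
      exact hw1
    · rw [← map_pow, vgMk_eq]
      simpa using hw2.symm
  intro d hd n hn
  obtain ⟨e, he, he'⟩ := H21.div_up (vmap h) hdiv0 d hd n hn
  exact ⟨e, he, he'⟩

/-- The value group level. -/
theorem goodLg (hTF : TpForthStmt.{u}) (hFC : FieldCloseStmt.{u}) (hVT : VgTpStmt.{u})
    (hHull : HullStmt.{u}) (hU : OinfAux.UnitsDiv O) (h : O ≤ O')
    (hdiv : ∀ (z : M) (n : ℕ), 0 < n → O'.valuation z = 1 →
      ∃ w, O'.valuation w = 1 ∧ O.valuation z = O.valuation (w ^ n)) (hD : Dat O O' G) :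
    Good (vmap h) (PAdiv h) (fun L => Tp (vgRS O' ![O']).up (vgRS O' ![O']).up L)
      (Lg O hD.fg) := by
  have hker : ∀ p ∈ Lg O hD.fg, (upHom (vmap h) p.1 = 1 ↔ upHom (vmap h) p.2 = 1) := by
    intro q hq
    obtain ⟨m, hm, p, hp, hp0, h1, h2⟩ := (mem_Lg hD.fg).1 hq
    have key : ∀ (c : UP (VGg O)) (z : UP M), z ≠ 0 → c ^ m = upMap (vg O) z →
        (upHom (vmap h) c = 1 ↔ (upVS O').valuation z = 1) := by
      intro c z hz hc
      have e1 : (upHom (vmap h) c) ^ m = upMap (vg O') z := by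
        rw [← map_pow, hc, upHom_vmap]
      rw [← upvg_eq_one O' hz, ← e1]
      constructor
      · intro h3; rw [h3, one_pow]
      · intro h3; exact upvg_torsion O' hm h3
    rw [key _ _ hp0 h1, key _ _ ((fg_ne hD.fg hp).1 hp0) h2]
    exact eqOne_of hD.fg (fun p hp => hD.val' hp) hp
  have hpure : ∀ {G' : Set (UP M × UP M)} (hD' : Dat O O' G'), ∀ p ∈ Lg O hD'.fg,
      ∀ (g : UP (VGg O')) (n : ℕ), 0 < n → g ^ n = upHom (vmap h) p.1 →
        ∃ s ∈ Lg O hD'.fg, upHom (vmap h) s.1 = g := by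
    intro G' hD' p hp g n hn hg
    obtain ⟨γ, rfl⟩ := upHom_surjective (vmap h) (vmap_surjective h) g
    have e1 : upHom (vmap h) (γ ^ n * p.1⁻¹) = 1 := by
      rw [map_mul, map_pow, hg, map_inv, mul_inv_cancel]
    obtain ⟨e, he, he'⟩ := vmap_div h hdiv _ e1 n hn
    have e2 : (γ * e⁻¹) ^ n = p.1 := by
      rw [mul_pow, inv_pow, he', mul_inv, inv_inv, mul_inv_cancel_left]
    obtain ⟨σ', hσ'⟩ := Lg_pure hTF hFC hU hD' hp hn e2
    refine ⟨_, hσ', ?_⟩
    rw [map_mul, map_inv, he, inv_one, mul_one]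
  refine ⟨Lg_countable hD, hker, ?_, ?_, hpure hD, ?_⟩
  · refine ⟨fun p hp => ⟨hp.2, (hker p hp.1).1 hp.2⟩, fun r p z hp => ?_⟩
    have h1 : (∏ i, p i ^ z i) ∈ Lg O hD.fg :=
      Subgroup.prod_mem _ fun i _ => Subgroup.zpow_mem _ (hp i).1 _
    have h2 := Lg_ord hD h1
    rwa [H21.fst_prod', H21.snd_prod'] at h2
  · -- the `C` part
    have ht : Tp (vgRS O' ![O']).up (vgRS O' ![O']).up
        (imPair (upMap (vg O')) {p | p ∈ G ∧ p.1 ≠ 0 ∧ p.2 ≠ 0}) :=
      hVT M 1 ![(O' : Set M)] O' 0 rfl G hD.tp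
    refine hHull (VGg O') 1 (fun i => vset O' (![O'] i)) (vg_torsion_free O') _
      ((hD.countable.mono (fun p hp => hp.1)).image _) ht _ ?_ ?_
    · have : {q | ∃ p ∈ Lg O hD.fg, q = (upHom (vmap h) p.1, upHom (vmap h) p.2)} =
          (fun p : UP (VGg O) × UP (VGg O) => (upHom (vmap h) p.1, upHom (vmap h) p.2)) ''
            (Lg O hD.fg : Set (UP (VGg O) × UP (VGg O))) := by
        ext q
        constructor
        · rintro ⟨p, hp, rfl⟩
          exact ⟨p, hp, rfl⟩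
        · rintro ⟨p, hp, rfl⟩
          exact ⟨p, hp, rfl⟩
      rw [this]
      exact (Lg_countable hD).image _
    · rintro _ ⟨q, hq, rfl⟩
      obtain ⟨m, hm, p, hp, hp0, h1, h2⟩ := (mem_Lg hD.fg).1 hq
      refine ⟨m, hm, p, ⟨hp, hp0, (fg_ne hD.fg hp).1 hp0⟩, ?_⟩
      rw [← map_pow, ← map_pow, h1, h2, upHom_vmap, upHom_vmap]
  · intro p hp g n hn hg
    have h1 : p.swap ∈ Lg O hD.swap.fg := (Lg_swap hD.fg).2 hp
    obtain ⟨s, hs, hs'⟩ := hpure hD.swap p.swap h1 g n hn hg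
    refine ⟨s.swap, (Lg_swap hD.fg).1 (by simpa using hs), hs'⟩

/-- The image in the group of leading terms. -/
def rG (O : ValuationSubring M) (hG : IsFieldGraph G) : Subgroup (UP (RVg O) × UP (RVg O)) where
  carrier := {q | ∃ p ∈ G, p.1 ≠ 0 ∧ q = (upMap (rv O) p.1, upMap (rv O) p.2)}
  mul_mem' := by
    rintro _ _ ⟨p, hp, hp0, rfl⟩ ⟨q, hq, hq0, rfl⟩
    refine ⟨_, hG.mul _ hp _ hq, mul_ne_zero hp0 hq0, ?_⟩
    rw [uprv_mul O hp0 hq0, uprv_mul O ((fg_ne hG hp).1 hp0) ((fg_ne hG hq).1 hq0)]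
    rfl
  one_mem' := ⟨_, hG.one, one_ne_zero, by rw [uprv_one]; rfl⟩
  inv_mem' := by
    rintro _ ⟨p, hp, hp0, rfl⟩
    refine ⟨_, hG.inv _ hp, inv_ne_zero hp0, ?_⟩
    rw [uprv_inv, uprv_inv]
    rfl

/-- the residue map on polynomial expressions -/
theorem resk_aeval (O : ValuationSubring M) {r : ℕ} (a : Fin r → UP M) (ha : ∀ i, a i ∈ upVS O)
    (f : MvPolynomial (Fin r) ℤ) : MvPolynomial.aeval a f ∈ upVS O ∧
      upMap (resk O) (MvPolynomial.aeval a f) =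
        MvPolynomial.aeval (fun i => upMap (resk O) (a i)) f := by
  induction f using MvPolynomial.induction_on with
  | C n =>
    have hn : ∀ n : ℕ, ((n : UP M) ∈ upVS O) ∧
        upMap (resk O) (n : UP M) = (n : UP (IsLocalRing.ResidueField O)) := by
      intro n
      induction n with
      | zero => exact ⟨by simp, by rw [Nat.cast_zero, upresk_zero, Nat.cast_zero]⟩
      | succ n ih =>
        rw [Nat.cast_succ, Nat.cast_succ]
        exact ⟨(upVS O).add_mem _ _ ih.1 (upVS O).one_mem, by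
          rw [upresk_add O ih.1 (upVS O).one_mem, ih.2, upresk_one]⟩
    have hz : ∀ n : ℤ, ((n : UP M) ∈ upVS O) ∧
        upMap (resk O) (n : UP M) = (n : UP (IsLocalRing.ResidueField O)) := by
      intro n
      cases n with
      | ofNat n => simpa using hn n
      | negSucc n =>
        have h1 := hn (n + 1)
        rw [Int.cast_negSucc, Int.cast_negSucc]
        exact ⟨(upVS O).neg_mem _ h1.1, by rw [upresk_neg O h1.1, h1.2]⟩
    have e1 : MvPolynomial.aeval a (MvPolynomial.C n : MvPolynomial (Fin r) ℤ) = (n : UP M) := by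
      rw [MvPolynomial.aeval_C]; exact algebraMap_int_eq (UP M) ▸ rfl
    have e2 : MvPolynomial.aeval (fun i => upMap (resk O) (a i))
        (MvPolynomial.C n : MvPolynomial (Fin r) ℤ) = (n : UP (IsLocalRing.ResidueField O)) := by
      rw [MvPolynomial.aeval_C]; exact algebraMap_int_eq (UP (IsLocalRing.ResidueField O)) ▸ rfl
    rw [e1, e2]
    exact hz n
  | add f g hf hg =>
    rw [map_add, map_add]
    exact ⟨(upVS O).add_mem _ _ hf.1 hg.1, by rw [upresk_add O hf.1 hg.1, hf.2, hg.2]⟩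
  | mul_X f i hf =>
    rw [map_mul, map_mul, MvPolynomial.aeval_X, MvPolynomial.aeval_X]
    exact ⟨(upVS O).mul_mem _ _ hf.1 (ha i), by rw [upresk_mul O hf.1 (ha i), hf.2]⟩

theorem rG_residue (hD : Dat O O' G) :
    PAac O {p | p ∈ rG O hD.fg ∧ upHom (piV O) p.1 = 1 ∧ upHom (piV O) p.2 = 1} := by
  refine ⟨fun p hp => hp.2, fun r p f hp => ?_⟩
  have hp' : ∀ i, ∃ q ∈ G, (upVS O).valuation q.1 = 1 ∧ (upVS O).valuation q.2 = 1 ∧
      p i = (upMap (rv O) q.1, upMap (rv O) q.2) := by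
    intro i
    obtain ⟨⟨q, hq, hq0, he⟩, h1, h2⟩ := hp i
    rw [he] at h1 h2
    rw [upHom_piV, upvg_eq_one O hq0] at h1
    rw [upHom_piV, upvg_eq_one O ((fg_ne hD.fg hq).1 hq0)] at h2
    exact ⟨q, hq, h1, h2, he⟩
  choose q hq h1 h2 he using hp'
  have e1 : (fun i => upMap (rk O) (p i).1) = fun i => upMap (resk O) (q i).1 := by
    funext i
    rw [he i]
    exact uprk_rv O (h1 i)
  have e2 : (fun i => upMap (rk O) (p i).2) = fun i => upMap (resk O) (q i).2 := by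
    funext i
    rw [he i]
    exact uprk_rv O (h2 i)
  have m1 : ∀ i, (q i).1 ∈ upVS O := fun i => mem_of_val_one _ (h1 i)
  have m2 : ∀ i, (q i).2 ∈ upVS O := fun i => mem_of_val_one _ (h2 i)
  obtain ⟨k1, k1'⟩ := resk_aeval O (fun i => (q i).1) m1 f
  obtain ⟨k2, k2'⟩ := resk_aeval O (fun i => (q i).2) m2 f
  rw [e1, e2, ← k1', ← k2', upresk_eq_zero O k1, upresk_eq_zero O k2]
  exact ltOne_of hD.fg hD.val (fg_aeval hD.fg q hq f)

/-- the kernel of `piV` is divisible in the ultrapower -/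
theorem piV_div (hU : OinfAux.UnitsDiv O) : ∀ d : UP (RVg O), upHom (piV O) d = 1 →
    ∀ n : ℕ, 0 < n → ∃ e, upHom (piV O) e = 1 ∧ e ^ n = d := by
  have hdiv0 : ∀ g : RVg O, piV O g = 1 → ∀ n : ℕ, 0 < n → ∃ e, piV O e = 1 ∧ e ^ n = g := by
    intro g hg n hn
    obtain ⟨x, hx, rfl⟩ := rvker_ind O g hg
    obtain ⟨w, hw⟩ := hU n hn x hx
    have hx0 : x ≠ 0 := ((veq_one_iff O x).1 hx).1
    have hw0 : w ≠ 0 := by
      rintro rfl
      rw [zero_pow hn.ne'] at hw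
      exact hx0 hw
    have hw1 : O.valuation w = 1 := by
      have : O.valuation w ^ n = 1 := by rw [← map_pow, ← hw, hx]
      exact (pow_eq_one_iff_of_nonneg zero_le hn.ne').1 this
    refine ⟨rv O w, (piV_eq_one O hw0).2 hw1, ?_⟩
    have hp : ∀ m : ℕ, rv O (w ^ m) = rv O w ^ m := by
      intro m
      induction m with
      | zero => rw [pow_zero, pow_zero, rv_one]
      | succ m ih => rw [pow_succ, pow_succ, rv_mul O (pow_ne_zero m hw0) hw0, ih]
    rw [← hp, hw]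
  intro d hd n hn
  obtain ⟨e, he, he'⟩ := H21.div_up (piV O) hdiv0 d hd n hn
  exact ⟨e, he, he'⟩

/-- The leading term level. -/
theorem sysG (hTF : TpForthStmt.{u}) (hFC : FieldCloseStmt.{u}) (hVT : VgTpStmt.{u})
    (hHull : HullStmt.{u}) (hU : OinfAux.UnitsDiv O) (h : O ≤ O')
    (hdiv : ∀ (z : M) (n : ℕ), 0 < n → O'.valuation z = 1 →
      ∃ w, O'.valuation w = 1 ∧ O.valuation z = O.valuation (w ^ n)) (hD : Dat O O' G) :
    Sys O (PAac O) (GoodP (vmap h) (PAdiv h)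
      (fun L => Tp (vgRS O' ![O']).up (vgRS O' ![O']).up L)) G := by
  refine ⟨hD.countable, hD.fg, ?_⟩
  have hmap : ∀ p ∈ rG O hD.fg, (upHom (piV O) p.1, upHom (piV O) p.2) ∈ vG O hD.fg := by
    rintro _ ⟨q, hq, hq0, rfl⟩
    exact ⟨q, hq, hq0, by rw [upHom_piV, upHom_piV]⟩
  obtain ⟨L, hL1, hL2, hL3, hL4⟩ := liftHull (upHom (piV O))
    (upHom_surjective (piV O) (piV_surjective O)) (piV_div hU) (rG O hD.fg) (Lg O hD.fg)
    (fun p hp => vG_le hD.fg (hmap p hp)) (by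
      intro q hq
      obtain ⟨m, hm, p, hp, hp0, h1, h2⟩ := (mem_Lg hD.fg).1 hq
      refine ⟨m, hm, _, ⟨p, hp, hp0, rfl⟩, ?_⟩
      rw [upHom_piV, upHom_piV, ← h1, ← h2]
      rfl)
  have hker : ∀ p ∈ L, (upHom (piV O) p.1 = 1 ↔ upHom (piV O) p.2 = 1) :=
    fun p hp => Lg_one hD (hL2 p hp)
  refine ⟨L, ⟨?_, hker, ?_, ?_, ?_, ?_⟩, ?_⟩
  · -- countable
    choose! l hl hlq using hL3
    have hsub : (L : Set (UP (RVg O) × UP (RVg O))) ⊆
        (fun x : (UP (RVg O) × UP (RVg O)) × (UP (VGg O) × UP (VGg O)) => x.1 * l x.2) ''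
          ((rG O hD.fg : Set (UP (RVg O) × UP (RVg O))) ×ˢ
            (Lg O hD.fg : Set (UP (VGg O) × UP (VGg O)))) := by
      intro p hp
      have h1 := hL2 p hp
      refine ⟨(p * (l (upHom (piV O) p.1, upHom (piV O) p.2))⁻¹, _), ⟨?_, h1⟩, by
        simp only [inv_mul_cancel_right]⟩
      have h2 := hlq _ h1
      have h3 : upHom (piV O) (l (upHom (piV O) p.1, upHom (piV O) p.2)).1 =
        upHom (piV O) p.1 := congrArg Prod.fst h2
      have h4 : upHom (piV O) (l (upHom (piV O) p.1, upHom (piV O) p.2)).2 =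
        upHom (piV O) p.2 := congrArg Prod.snd h2
      refine hL4 _ (L.mul_mem hp (L.inv_mem (hl _ h1))) ?_ ?_
      · rw [Prod.fst_mul, Prod.fst_inv, map_mul, map_inv, h3, mul_inv_cancel]
      · rw [Prod.snd_mul, Prod.snd_inv, map_mul, map_inv, h4, mul_inv_cancel]
    refine (((?_ : Set.Countable _).prod (Lg_countable hD)).image _).mono hsub
    refine (hD.countable.image (fun p => (upMap (rv O) p.1, upMap (rv O) p.2))).mono ?_
    rintro _ ⟨p, hp, _, rfl⟩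
    exact ⟨p, hp, rfl⟩
  · -- residues
    have h1 := rG_residue hD
    refine ⟨fun p hp => ⟨hp.2, (hker p hp.1).1 hp.2⟩, fun r p f hp => h1.2 r p f fun i => ?_⟩
    have h2 := (hker _ (hp i).1).1 (hp i).2
    exact ⟨hL4 _ (hp i).1 (hp i).2 h2, (hp i).2, h2⟩
  · -- values
    refine ⟨Lg O hD.fg, goodLg hTF hFC hVT hHull hU h hdiv hD, ?_⟩
    rintro _ ⟨p, hp, rfl⟩
    exact hL2 p hp
  · -- purity
    intro p hp g n hn hg
    obtain ⟨g', hg'⟩ := Lg_pure hTF hFC hU hD (hL2 p hp) hn hg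
    obtain ⟨s, hs, hs'⟩ := hL3 _ hg'
    exact ⟨s, hs, congrArg Prod.fst hs'⟩
  · intro p hp g n hn hg
    have h1 : (upHom (piV O) p.1, upHom (piV O) p.2).swap ∈ Lg O hD.swap.fg :=
      (Lg_swap hD.fg).2 (hL2 p hp)
    obtain ⟨g', hg'⟩ := Lg_pure hTF hFC hU hD.swap h1 hn hg
    have h2 : (g', g) ∈ Lg O hD.fg := (Lg_swap hD.fg).1 hg'
    obtain ⟨s, hs, hs'⟩ := hL3 _ h2
    exact ⟨s, hs, congrArg Prod.snd hs'⟩
  · intro p hp hp0
    exact hL1 ⟨p, hp, hp0, rfl⟩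

end data

/-! ## Constants -/

section const

variable {M : Type u} [Field M]

/-- the constant embedding -/
noncomputable def cst (a : M) : UP M := ((fun _ => a : ℕ → M) : UP M)

theorem cst_zero_iff (a : M) : cst a = 0 ↔ a = 0 := by
  change ((fun _ => a : ℕ → M) : UP M) = ((fun _ => 0 : ℕ → M) : UP M) ↔ a = 0
  rw [up_eq]
  exact evt_const

theorem cst_mem (O : ValuationSubring M) (a : M) : cst a ∈ upVS O ↔ a ∈ O := by
  rw [cst, mem_upVS]
  exact evt_const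

theorem cst_graph {G : Set (M × M)} (hG : IsFieldGraph G) :
    IsFieldGraph ((fun p : M × M => (cst p.1, cst p.2)) '' G) where
  one := ⟨_, hG.one, rfl⟩
  add := by
    rintro _ ⟨p, hp, rfl⟩ _ ⟨q, hq, rfl⟩
    exact ⟨_, hG.add _ hp _ hq, rfl⟩
  neg := by
    rintro _ ⟨p, hp, rfl⟩
    exact ⟨_, hG.neg _ hp, rfl⟩
  mul := by
    rintro _ ⟨p, hp, rfl⟩ _ ⟨q, hq, rfl⟩
    exact ⟨_, hG.mul _ hp _ hq, rfl⟩
  inv := by
    rintro _ ⟨p, hp, rfl⟩
    exact ⟨_, hG.inv _ hp, rfl⟩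
  zero := by
    rintro _ ⟨p, hp, rfl⟩
    change cst p.1 = 0 ↔ cst p.2 = 0
    rw [cst_zero_iff, cst_zero_iff]
    exact hG.zero p hp

/-- the field graph generated by two tuples -/
def genG {r : ℕ} (x y : Fin r → M) : Set (M × M) :=
  {p | ∃ g h : MvPolynomial (Fin r) ℤ, MvPolynomial.aeval x h ≠ 0 ∧ MvPolynomial.aeval y h ≠ 0 ∧
    p = (MvPolynomial.aeval x g / MvPolynomial.aeval x h,
      MvPolynomial.aeval y g / MvPolynomial.aeval y h)}

theorem genG_graph {r : ℕ} (x y : Fin r → M)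
    (hz : ∀ g : MvPolynomial (Fin r) ℤ, MvPolynomial.aeval x g = 0 ↔ MvPolynomial.aeval y g = 0) :
    IsFieldGraph (genG x y) where
  one := ⟨1, 1, by simp, by simp, by simp⟩
  add := by
    rintro _ ⟨g, h, hx, hy, rfl⟩ _ ⟨g', h', hx', hy', rfl⟩
    refine ⟨g * h' + h * g', h * h', by simp [hx, hx'], by simp [hy, hy'], ?_⟩
    simp only [map_add, map_mul]
    rw [div_add_div _ _ hx hx', div_add_div _ _ hy hy']
  neg := by
    rintro _ ⟨g, h, hx, hy, rfl⟩
    exact ⟨-g, h, hx, hy, by simp [neg_div]⟩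
  mul := by
    rintro _ ⟨g, h, hx, hy, rfl⟩ _ ⟨g', h', hx', hy', rfl⟩
    refine ⟨g * g', h * h', by simp [hx, hx'], by simp [hy, hy'], ?_⟩
    simp only [map_mul]
    rw [div_mul_div_comm, div_mul_div_comm]
  inv := by
    rintro _ ⟨g, h, hx, hy, rfl⟩
    by_cases h0 : MvPolynomial.aeval x g = 0
    · have h1 := (hz g).1 h0
      exact ⟨0, 1, by simp, by simp, by simp [h0, h1]⟩
    · have h1 : MvPolynomial.aeval y g ≠ 0 := fun h => h0 ((hz g).2 h)
      exact ⟨h, g, h0, h1, by simp⟩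
  zero := by
    rintro _ ⟨g, h, hx, hy, rfl⟩
    simp [hx, hy, hz g]

theorem genG_countable {r : ℕ} (x y : Fin r → M) : (genG x y).Countable := by
  have h1 : Countable (MvPolynomial (Fin r) ℤ) := by
    rw [← Cardinal.mk_le_aleph0_iff]
    refine (MvPolynomial.cardinalMk_le_max_lift (σ := Fin r) (R := ℤ)).trans ?_
    simp
  refine (Set.countable_range (fun q : MvPolynomial (Fin r) ℤ × MvPolynomial (Fin r) ℤ =>
    (MvPolynomial.aeval x q.1 / MvPolynomial.aeval x q.2,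
      MvPolynomial.aeval y q.1 / MvPolynomial.aeval y q.2))).mono ?_
  rintro _ ⟨g, h, _, _, rfl⟩
  exact ⟨(g, h), rfl⟩

end const

end H21C

open H21C in
/-- `Case0LemmaStmt`. -/
theorem case0Lemma (hLos : LosStmt.{u, u}) (hTF : TpForthStmt.{u}) (hFC : FieldCloseStmt.{u})
    (hGT : GoodTypeStmt.{u}) (hOG : OrdGoodStmt.{u}) (hST : SysTpStmt.{u}) (hPAac : PAacStmt.{u})
    (hPAdiv : PAdivStmt.{u}) (hGrp : GrpTypeStmt.{u}) (hVT : VgTpStmt.{u}) (hHull : HullStmt.{u})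
    (hL : HensLiftStmt.{u}) : Case0LemmaStmt.{u} := by
  intro M _ O O' h hH h0 hA hdiv r x y hEF hqf
  have hU := OinfAux.unitsDiv hL hH h0 hA
  have hz : ∀ g : MvPolynomial (Fin r) ℤ,
      MvPolynomial.aeval x g = 0 ↔ MvPolynomial.aeval y g = 0 := by
    intro g
    have h1 := hqf g 0
    simpa using h1
  have hGM := genG_graph x y hz
  have hG := cst_graph hGM
  -- the constants
  have hT0 : Tp (fieldRS ![(O' : Set M)]).up (fieldRS ![(O' : Set M)]).up
      (Set.range fun i => (cst (x i), cst (y i))) := by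
    refine Tp.of_forall fun n => ?_
    exact (hLos _ _ _ _ _ n r (fun i _ => x i) (fun i _ => y i)).2 (evt_const.2 (hEF n))
  obtain ⟨T, hT1, hT2, hT3, hT4⟩ := hFC M 1 _ _ (Set.countable_range _) hT0
  have hpoly : ∀ g : MvPolynomial (Fin r) ℤ,
      (cst (MvPolynomial.aeval x g), cst (MvPolynomial.aeval y g)) ∈ T := by
    intro g
    have hxi : ∀ i, (cst (x i), cst (y i)) ∈ T := fun i => hT1 ⟨i, rfl⟩
    induction g using MvPolynomial.induction_on with
    | C n =>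
      have e : ∀ z : Fin r → M, cst (MvPolynomial.aeval z (MvPolynomial.C n :
          MvPolynomial (Fin r) ℤ)) = ((n : ℤ) : UP M) := by
        intro z
        rw [MvPolynomial.aeval_C, UP.int_def]
        exact algebraMap_int_eq M ▸ rfl
      rw [e, e]
      exact fg_int hT3 n
    | add f g hf hg =>
      rw [map_add, map_add]
      exact hT3.add _ hf _ hg
    | mul_X f i hf =>
      rw [map_mul, map_mul, MvPolynomial.aeval_X, MvPolynomial.aeval_X]
      exact hT3.mul _ hf _ (hxi i)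
  have hGT' : (fun p : M × M => (cst p.1, cst p.2)) '' (genG x y) ⊆ T := by
    rintro _ ⟨_, ⟨g, k, hx, hy, rfl⟩, rfl⟩
    have := hT3.mul _ (hpoly g) _ (hT3.inv _ (hpoly k))
    have e : ∀ a b : M, cst (a / b) = cst a * (cst b)⁻¹ := by
      intro a b
      rw [div_eq_mul_inv]
      rfl
    change (cst (_ / _), cst (_ / _)) ∈ T
    rw [e, e]
    exact this
  have hD : Dat O O' ((fun p : M × M => (cst p.1, cst p.2)) '' (genG x y)) := by
    refine ⟨(genG_countable x y).image _, hG, hT4.mono hGT', ?_⟩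
    rintro _ ⟨_, ⟨g, k, hx, hy, rfl⟩, rfl⟩
    change cst (_ / _) ∈ upVS O ↔ cst (_ / _) ∈ upVS O
    rw [cst_mem, cst_mem, ← O.valuation_le_one_iff, ← O.valuation_le_one_iff, map_div₀, map_div₀,
      div_le_one₀ (zero_lt_iff.2 ((Valuation.ne_zero_iff _).2 hx)),
      div_le_one₀ (zero_lt_iff.2 ((Valuation.ne_zero_iff _).2 hy))]
    exact hqf g k
  have hsys := sysG hTF hFC hVT hHull hU h hdiv hD
  obtain ⟨hA1, hA2⟩ := hPAac M O h0 hA
  have hPC0 : IsTypeProp Set.univ (fun L => Tp (vgRS O' ![O']).up (vgRS O' ![O']).up L) :=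
    hGrp (VGg O') 1 (fun i => vset O' (![O'] i))
  have hPC : IsTypeProp Set.univ (GoodP (vmap h) (PAdiv h)
      (fun L => Tp (vgRS O' ![O']).up (vgRS O' ![O']).up L)) :=
    hGT _ _ (vmap h) (vmap_surjective h) (vg_torsion_free O') _ _ (hPAdiv M O O' h hdiv) hPC0
  have hord' : PreservesOrd O' (fun L => Tp (vgRS O' ![O']).up (vgRS O' ![O']).up L) := by
    intro L hLt p hp
    have h1 := hLt.atomic
    rw [vgRS, grpRS_up] at h1
    exact h1 (GJ.pr 0) (fun _ => p) (fun _ => hp)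
  have hord : ∀ L, GoodP (vmap h) (PAdiv h)
      (fun L => Tp (vgRS O' ![O']).up (vgRS O' ![O']).up L) L → ∀ p ∈ L,
        (p.1 ∈ upSet (vset O O) ↔ p.2 ∈ upSet (vset O O)) := by
    rintro L ⟨L', hL', hLL'⟩ p hp
    refine hOG M O O O' le_rfl h (PAdiv h) _ ?_ hord' L' hL' p (hLL' hp)
    intro L hL p hp
    have := hL.2 1 (fun _ => p) (fun _ => 1) (fun _ => hp)
    simpa using this
  have hfin := hST M O O le_rfl hH h0 _ _ hA1 hPC hA2 hord hord _ hsys
  intro n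
  have hfin' := hfin n r (fun i => (cst (x i), cst (y i))) (fun i =>
    ⟨(x i, y i), ⟨MvPolynomial.X i, 1, by simp, by simp, by simp⟩, rfl⟩)
  exact evt_const.1 ((hLos _ _ _ _ _ n r (fun i _ => x i) (fun i _ => y i)).1 hfin')

end Pool.Agent.NF44
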