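import Pool.Agent.NF44.Stmts2

/-!
# Case 1: the residue field is not algebraically closed (module NF_Case1, helper83)
-/

namespace Pool.Agent.NF44

open Polynomial

universe u

namespace C1H83

theorem evt_ge (n : ℕ) : evt fun k => n ≤ k := by
  have h : ∀ᶠ k in Filter.atTop, n ≤ k := Filter.eventually_ge_atTop n
  rw [← Nat.cofinite_eq_atTop] at h
  exact Filter.hyperfilter_le_cofinite h

/-- The diagonal embedding. -/
noncomputable def kap (K : Type u) [Field K] : K →+* UP K :=
  (Filter.Germ.coeRingHom (Filter.hyperfilter ℕ : Filter ℕ) (R := K)).comp (Pi.constRingHom ℕ K)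

theorem kap_apply {K : Type u} [Field K] (a : K) :
    kap K a = ((fun _ => a : ℕ → K) : UP K) := rfl

theorem kap_inj {K : Type u} [Field K] : Function.Injective (kap K) := (kap K).injective

theorem eval_up {K : Type u} [Field K] (f : K[X]) (g : ℕ → K) :
    (f.map (kap K)).eval (g : UP K) = ((fun k => f.eval (g k) : ℕ → K) : UP K) := by
  have h1 : (f.map (kap K)).eval (g : UP K) =
      Filter.Germ.coeRingHom (Filter.hyperfilter ℕ : Filter ℕ) (R := K)
        (f.eval₂ (Pi.constRingHom ℕ K) g) := by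
    rw [Polynomial.eval_map, Polynomial.hom_eval₂]
    rfl
  have h2 : f.eval₂ (Pi.constRingHom ℕ K) g = fun k => f.eval (g k) := by
    funext k
    have h3 : (f.eval₂ (Pi.constRingHom ℕ K) g) k =
        Pi.evalRingHom (fun _ : ℕ => K) k (f.eval₂ (Pi.constRingHom ℕ K) g) := rfl
    rw [h3, Polynomial.hom_eval₂]
    have h4 : (Pi.evalRingHom (fun _ : ℕ => K) k).comp (Pi.constRingHom ℕ K) = RingHom.id K := by
      ext x
      rfl
    rw [h4]
    rfl
  rw [h1, h2]
  rfl

/-- The subfield of constants. -/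
noncomputable def cst {K : Type u} [Field K] (F : Subfield K) : Subfield (UP K) := F.map (kap K)

theorem mem_cst {K : Type u} [Field K] {F : Subfield K} {z : UP K} :
    z ∈ cst F ↔ ∃ x ∈ F, kap K x = z := Subfield.mem_map

theorem up_inv_mem {K : Type u} [Field K] (O : ValuationSubring K) (f : K[X])
    (hf : ∀ x, (f.eval x)⁻¹ ∈ O) (x : UP K) : ((f.map (kap K)).eval x)⁻¹ ∈ upVS O := by
  induction x using up_ind with | _ g => ?_
  rw [eval_up, UP.inv_coe, mem_upVS]
  exact Filter.Eventually.of_forall fun k => hf _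

theorem up_eval_ne {K : Type u} [Field K] (f : K[X])
    (hf : ∀ x, f.eval x ≠ 0) (x : UP K) : (f.map (kap K)).eval x ≠ 0 := by
  induction x using up_ind with | _ g => ?_
  rw [eval_up, up_ne_zero]
  exact Filter.Eventually.of_forall fun k => hf _

theorem up_ball {K : Type u} [Field K] (O : ValuationSubring K) (f : K[X])
    (hf : ∀ μ, O.valuation μ < 1 → ∃ x y, μ = (f.eval x)⁻¹ - (f.eval y)⁻¹) (μ : UP K)
    (hμ : (upVS O).valuation μ < 1) :
    ∃ x y : UP K, μ = ((f.map (kap K)).eval x)⁻¹ - ((f.map (kap K)).eval y)⁻¹ := by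
  induction μ using up_ind with | _ g => ?_
  rw [upVS_lt] at hμ
  have h1 : evt fun k => ∃ p : K × K, g k = (f.eval p.1)⁻¹ - (f.eval p.2)⁻¹ := by
    refine hμ.mono fun k hk => ?_
    obtain ⟨x, y, h⟩ := hf _ hk
    exact ⟨(x, y), h⟩
  rw [evt_exists] at h1
  obtain ⟨p, hp⟩ := h1
  refine ⟨((fun k => (p k).1 : ℕ → K) : UP K), ((fun k => (p k).2 : ℕ → K) : UP K), ?_⟩
  rw [eval_up, eval_up, UP.inv_coe, UP.inv_coe, UP.sub_coe, up_eq]
  exact hp

theorem up_pure {K : Type u} [Field K] (O : ValuationSubring K) (F : Subfield K)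
    (hF : ∀ z ∈ F, z ≠ 0 → ∀ n : ℕ, 0 < n → ∀ w : K, O.valuation z = O.valuation (w ^ n) →
      ∃ s ∈ F, O.valuation z = O.valuation (s ^ n)) :
    ∀ z ∈ cst F, z ≠ 0 → ∀ n : ℕ, 0 < n → ∀ w : UP K,
      (upVS O).valuation z = (upVS O).valuation (w ^ n) →
      ∃ s ∈ cst F, (upVS O).valuation z = (upVS O).valuation (s ^ n) := by
  intro z hz hz0 n hn w hw
  obtain ⟨x, hx, rfl⟩ := mem_cst.1 hz
  induction w using up_ind with | _ g => ?_
  rw [kap_apply, UP.pow_coe, upVS_eq] at hw
  obtain ⟨k, hk⟩ := hw.exists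
  have hx0 : x ≠ 0 := by
    rintro rfl
    exact hz0 (map_zero _)
  obtain ⟨s, hs, hs1⟩ := hF x hx hx0 n hn (g k) hk
  refine ⟨kap K s, mem_cst.2 ⟨s, hs, rfl⟩, ?_⟩
  rw [kap_apply, kap_apply, UP.pow_coe, upVS_eq]
  exact Filter.Eventually.of_forall fun _ => hs1

/-- The tuple of parameters. -/
theorem params {K : Type u} [Field K] (f : K[X]) (c c' : K) : ∃ (l : ℕ) (p : Fin l → K),
    (∃ i, p i = c) ∧ (∃ i, p i = c') ∧ ∀ j, ∃ i, p i = f.coeff j := by
  refine ⟨f.natDegree + 2 + 1 + 1, Fin.cons c (Fin.cons c'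
    (fun i : Fin (f.natDegree + 2) => f.coeff i)), ⟨0, by simp⟩, ⟨Fin.succ 0, by simp⟩, ?_⟩
  intro j
  by_cases hj : j < f.natDegree + 2
  · exact ⟨Fin.succ (Fin.succ ⟨j, hj⟩), by rw [Fin.cons_succ, Fin.cons_succ]⟩
  · refine ⟨Fin.succ (Fin.succ ⟨f.natDegree + 1, by omega⟩), ?_⟩
    rw [Fin.cons_succ, Fin.cons_succ]
    rw [Polynomial.coeff_eq_zero_of_natDegree_lt (by simp),
      Polynomial.coeff_eq_zero_of_natDegree_lt (by omega)]

/-- The set of pairs given by `(a, b)` and the diagonal of the constants is a partial elementary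
map. -/
theorem tp_ab (hLos : LosStmt.{u, u}) {K : Type u} [Field K] (e al be : ℕ → K)
    (h : ∀ m, EF (pureRS K) (pureRS K) m (m + 1 + 1) (Fin.cons (al m) (fun i : Fin (m + 1) => e i))
      (Fin.cons (be m) (fun i : Fin (m + 1) => e i))) :
    Tp (pureRS K).up (pureRS K).up (insert ((al : UP K), (be : UP K))
      (Set.range fun k => (kap K (e k), kap K (e k)))) := by
  classical
  intro n r t ht
  have hk : ∀ i, ∃ k, t i = ((al : UP K), (be : UP K)) ∨ t i = (kap K (e k), kap K (e k)) := by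
    intro i
    rcases ht i with h1 | ⟨k, hk⟩
    · exact ⟨0, Or.inl h1⟩
    · exact ⟨k, Or.inr hk.symm⟩
  choose k hk using hk
  have h1 : EF (pureRS K).up (pureRS K).up n (r + 1)
      (fun i => ((Fin.cons al (fun i : Fin r => fun _ : ℕ => e (k i)) : Fin (r + 1) → ℕ → K) i : UP K))
      (fun i => ((Fin.cons be (fun i : Fin r => fun _ : ℕ => e (k i)) : Fin (r + 1) → ℕ → K) i : UP K)) := by
    rw [hLos]
    refine (evt_ge (max n (Finset.univ.sup k))).mono fun j hj => ?_
    have hj1 : n ≤ j := (le_max_left _ _).trans hj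
    have hj2 : ∀ i, k i ≤ j := fun i =>
      (Finset.le_sup (Finset.mem_univ i)).trans ((le_max_right _ _).trans hj)
    have h2 := ((h j).mono hj1).reindex
      (Fin.cons 0 (Fin.succ ∘ fun i : Fin r => (⟨k i, Nat.lt_succ_of_le (hj2 i)⟩ : Fin (j + 1))) :
        Fin (r + 1) → Fin (j + 1 + 1))
    rw [cons_comp_cons, cons_comp_cons] at h2
    convert h2 using 1
    · funext i
      refine Fin.cases ?_ (fun i => ?_) i <;> simp
    · funext i
      refine Fin.cases ?_ (fun i => ?_) i <;> simp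
  have h3 := h1.reindex (fun i : Fin r =>
    if t i = ((al : UP K), (be : UP K)) then (0 : Fin (r + 1)) else Fin.succ i)
  convert h3 using 1
  · funext i
    by_cases hi : t i = ((al : UP K), (be : UP K))
    · simp [hi]
    · have h4 := (hk i).resolve_left hi
      simp only [Function.comp, hi, if_false, Fin.cons_succ]
      rw [h4]
      rfl
  · funext i
    by_cases hi : t i = ((al : UP K), (be : UP K))
    · simp [hi]
    · have h4 := (hk i).resolve_left hi
      simp only [Function.comp, hi, if_false, Fin.cons_succ]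
      rw [h4]
      rfl

/-- The pair `c`, `c'`. -/
theorem exists_cc (hLos : LosStmt.{u, u}) (hC : FieldCloseStmt.{u}) {K : Type u} [Field K]
    (O : ValuationSubring K) (e al be : ℕ → K) (hal : ∀ m, al m ∈ O) (hbe : ∀ m, be m ∉ O)
    (h : ∀ m, EF (pureRS K) (pureRS K) m (m + 1 + 1) (Fin.cons (al m) (fun i : Fin (m + 1) => e i))
      (Fin.cons (be m) (fun i : Fin (m + 1) => e i))) :
    ∃ c c' : UP K, (upVS O).valuation c = 1 ∧ c' ≠ 0 ∧ (upVS O).valuation c' < 1 ∧
      ∀ (m r : ℕ) (z : Fin r → UP K), (∀ i, z i ∈ Set.range fun k => kap K (e k)) →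
        EF (pureRS (UP K)) (pureRS (UP K)) m (r + 1) (Fin.cons c z) (Fin.cons c' z) := by
  classical
  have hT := tp_ab hLos e al be h
  obtain ⟨L, hL1, -, hL2, hL3⟩ := hC K 0 (fun i : Fin 0 => i.elim0) _
    ((Set.countable_range _).insert _) hT
  set A : UP K := (al : UP K) with hA
  set B : UP K := (be : UP K) with hB
  have hAO : A ∈ upVS O := Filter.Eventually.of_forall hal
  have hBO : B ∉ upVS O := by
    intro hB'
    obtain ⟨k, hk⟩ := Filter.Eventually.exists hB'
    exact hbe k hk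
  have hAB : (A, B) ∈ L := hL1 (Set.mem_insert _ _)
  have hdiag : ∀ z ∈ Set.range (fun k => kap K (e k)), (z, z) ∈ L := by
    rintro z ⟨k, rfl⟩
    exact hL1 (Set.mem_insert_of_mem _ ⟨k, rfl⟩)
  have hBv : 1 < (upVS O).valuation B := by
    rw [← not_le, (upVS O).valuation_le_one_iff]
    exact hBO
  -- it is enough to find a pair of units
  have key : ∀ a b : UP K, (a, b) ∈ L → (upVS O).valuation a = 1 → 1 < (upVS O).valuation b →
      ∃ c c' : UP K, (upVS O).valuation c = 1 ∧ c' ≠ 0 ∧ (upVS O).valuation c' < 1 ∧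
      ∀ (m r : ℕ) (z : Fin r → UP K), (∀ i, z i ∈ Set.range fun k => kap K (e k)) →
        EF (pureRS (UP K)) (pureRS (UP K)) m (r + 1) (Fin.cons c z) (Fin.cons c' z) := by
    intro a b hab ha hb
    have hb0 : b ≠ 0 := by
      rintro rfl
      rw [map_zero] at hb
      exact absurd hb (not_lt.2 zero_le_one)
    refine ⟨a⁻¹, b⁻¹, by rw [map_inv₀, ha, inv_one], inv_ne_zero hb0, ?_, ?_⟩
    · rw [map_inv₀]
      exact inv_lt_one_of_one_lt₀ hb
    · intro m r z hz
      have h1 := hL3 m (r + 1) (Fin.cons (a⁻¹, b⁻¹) (fun i => (z i, z i))) (by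
        intro i
        refine Fin.cases ?_ (fun i => ?_) i
        · simpa using hL2.inv _ hab
        · simpa using hdiag _ (hz i))
      rw [← cons_fst a⁻¹ b⁻¹ (fun i => (z i, z i)), ← cons_snd a⁻¹ b⁻¹ (fun i => (z i, z i))] at h1
      rw [← pureRS_up]
      exact h1
  by_cases hA1 : (upVS O).valuation A = 1
  · exact key A B hAB hA1 hBv
  · have hA2 : (upVS O).valuation A < 1 :=
      lt_of_le_of_ne (((upVS O).valuation_le_one_iff A).2 hAO) hA1
    refine key (1 + A) (1 + B) (hL2.add _ hL2.one _ hAB) ?_ ?_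
    · rw [Valuation.map_add_eq_of_lt_left _ (by simpa using hA2)]
      simp
    · rw [Valuation.map_add_eq_of_lt_right _ (by simpa using hBv)]
      exact hBv

end C1H83

open C1H83

theorem case1 (hLos : LosStmt.{u, u}) (hC : FieldCloseStmt.{u}) (hCC : CountCloseStmt.{u})
    (hBS : BSandStmt.{u}) (hEFD : EFDefinableStmt.{u}) (hPar : SNIPParamStmt.{u})
    (hUp : SNIPUpStmt.{u}) (hCore : Case1CoreStmt.{u}) : Case1Stmt.{u} := by
  classical
  intro K _ O hO hR hac n hn hS a b t D hD
  by_contra hcon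
  push Not at hcon
  obtain ⟨f, hf1, hf2, hf3⟩ := hBS K O hO hR hac
  choose y x hy hx hyx using hcon
  -- the countable set of all elements of the patterns and the coefficients
  set S₀ : Set K := (⋃ N, Set.range fun q : Fin n × Fin N × Fin b => y N q.1 q.2.1 q.2.2) ∪
    (⋃ N, Set.range fun q : Set (Fin n → Fin N) × Fin a => x N q.1 q.2) ∪
    Set.range f.coeff with hS₀
  have hS₀c : S₀.Countable := by
    refine Set.Countable.union (Set.Countable.union ?_ ?_) (Set.countable_range _)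
    · exact Set.countable_iUnion fun N => Set.countable_range _
    · exact Set.countable_iUnion fun N => (Set.finite_range _).countable
  -- closing functions
  let cl : ℕ → K → K := fun m z =>
    if h : ∃ w : K, O.valuation z = O.valuation (w ^ (m + 1)) then h.choose else 0
  obtain ⟨F, hFc, hSF, -, hFcl⟩ := hCC K ⊤ S₀ hS₀c (Set.subset_univ _) cl (fun _ _ _ => trivial)
  have hP0 : ∀ z ∈ F, z ≠ 0 → ∀ n : ℕ, 0 < n → ∀ w : K, O.valuation z = O.valuation (w ^ n) →
      ∃ s ∈ F, O.valuation z = O.valuation (s ^ n) := by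
    intro z hz _ m hm w hw
    obtain ⟨m, rfl⟩ : ∃ m', m = m' + 1 := ⟨m - 1, by omega⟩
    have h1 : ∃ w : K, O.valuation z = O.valuation (w ^ (m + 1)) := ⟨w, hw⟩
    refine ⟨cl m z, hFcl m z hz, ?_⟩
    have h2 : cl m z = h1.choose := dif_pos h1
    rw [h2]
    exact h1.choose_spec
  obtain ⟨e, he⟩ : ∃ e : ℕ → K, Set.range e = (F : Set K) := by
    obtain ⟨e, he⟩ := hFc.exists_eq_range ⟨0, F.zero_mem⟩
    exact ⟨e, he.symm⟩
  by_cases h2a : ∃ m : ℕ, ∀ a' b' : K, EF (pureRS K) (pureRS K) m (m + 1 + 1)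
      (Fin.cons a' (fun i : Fin (m + 1) => e i)) (Fin.cons b' (fun i : Fin (m + 1) => e i)) →
      (a' ∈ (O : Set K) ↔ b' ∈ (O : Set K))
  · obtain ⟨m, hm⟩ := h2a
    have h1 := hEFD K (O : Set K) m (m + 1) (fun i : Fin (m + 1) => e i) hm
    obtain ⟨N, hN⟩ := hPar (fieldSig 0) K (pureRS K) n hS a b (t + m) (m + 1)
      (fun i : Fin (m + 1) => e i) Set.univ D (fun z w _ _ hzw => hD z w (h1 t _ z w hzw))
    exact hN ⟨y N, x N, hy N, hx N, hyx N⟩
  · push Not at h2a
    have h2b : ∀ m : ℕ, ∃ a' b' : K, a' ∈ O ∧ b' ∉ O ∧ EF (pureRS K) (pureRS K) m (m + 1 + 1)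
        (Fin.cons a' (fun i : Fin (m + 1) => e i)) (Fin.cons b' (fun i : Fin (m + 1) => e i)) := by
      intro m
      obtain ⟨a', b', h1, h2⟩ := h2a m
      rcases h2 with ⟨h3, h4⟩ | ⟨h3, h4⟩
      · exact ⟨a', b', h3, h4, h1⟩
      · exact ⟨b', a', h4, h3, h1.symm⟩
    choose al be hal hbe hEF using h2b
    obtain ⟨c, c', hc1, hc2, hc3, hc4⟩ := exists_cc hLos hC O e al be hal hbe hEF
    obtain ⟨l, p, hp1, hp2, hp3⟩ := params (f.map (kap K)) c c'
    have hcstF : ∀ z : UP K, z ∈ cst F → z ∈ Set.range fun k => kap K (e k) := by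
      intro z hz
      obtain ⟨w, hw, rfl⟩ := mem_cst.1 hz
      have : w ∈ Set.range e := by rw [he]; exact hw
      obtain ⟨k, rfl⟩ := this
      exact ⟨k, rfl⟩
    obtain ⟨m, hm⟩ := hCore (UP K) (upVS O) (upVS_hens hO) (upVS_res0 hR) (f.map (kap K))
      (up_eval_ne f hf1) (up_inv_mem O f hf2) (up_ball O f hf3) (cst F)
      (fun i => by
        rw [Polynomial.coeff_map]
        exact mem_cst.2 ⟨_, hSF (Or.inr ⟨i, rfl⟩), rfl⟩)
      (up_pure O F hP0) c c' hc1 hc2 hc3
      (fun m r z hz => hc4 m r z fun i => hcstF _ (hz i)) l p hp1 hp2 hp3 (a + n * b) t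
    have hfs : (fieldRS ![(O : Set K)]).up =
        fieldRS ![((upVS O : ValuationSubring (UP K)) : Set (UP K))] := by
      rw [fieldRS_up]
      refine congrArg fieldRS ?_
      funext i
      have hi : i = 0 := Subsingleton.elim _ _
      subst hi
      rfl
    set D' : Set (Fin (a + n * b) → UP K) := {z' | ∃ z ∈ D, z' = fun i => kap K (z i)} with hD'
    have hDD' : ∀ z : Fin (a + n * b) → K, (fun i => kap K (z i)) ∈ D' ↔ z ∈ D := by
      intro z
      constructor
      · rintro ⟨w, hw, hzw⟩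
        have : z = w := by
          funext i
          exact kap_inj (congrFun hzw i)
        rwa [this]
      · intro hz
        exact ⟨z, hz, rfl⟩
    have hSup : SNIP (pureRS (UP K)) n := by
      rw [← pureRS_up]
      exact hUp (fieldSig 0) K (pureRS K) n hS
    obtain ⟨N, hN⟩ := hPar (fieldSig 0) (UP K) (pureRS (UP K)) n hSup a b m l p
      (cst F : Set (UP K)) D' (by
        intro z w hz hw hzw
        have h1 := hm z w hz hw hzw
        have hz' : ∀ i, ∃ s, s ∈ F ∧ kap K s = z i := fun i => mem_cst.1 (hz i)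
        have hw' : ∀ i, ∃ s, s ∈ F ∧ kap K s = w i := fun i => mem_cst.1 (hw i)
        choose z0 hz0 hz1 using hz'
        choose w0 hw0 hw1 using hw'
        obtain rfl : (fun i => kap K (z0 i)) = z := funext hz1
        obtain rfl : (fun i => kap K (w0 i)) = w := funext hw1
        rw [hDD', hDD']
        apply hD
        rw [← hfs] at h1
        have h2 := (hLos (fieldSig 1) K K (fieldRS ![(O : Set K)]) (fieldRS ![(O : Set K)]) t
          (a + n * b) (fun i _ => z0 i) (fun i _ => w0 i)).1 h1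
        exact evt_const.1 h2)
    refine hN ⟨fun k i j => kap K (y N k i j), fun s j => kap K (x N s j), ?_, ?_, ?_⟩
    · intro k i j
      exact mem_cst.2 ⟨_, hSF (Or.inl (Or.inl (Set.mem_iUnion.2 ⟨N, ⟨(k, i, j), rfl⟩⟩))), rfl⟩
    · intro s j
      exact mem_cst.2 ⟨_, hSF (Or.inl (Or.inr (Set.mem_iUnion.2 ⟨N, ⟨(s, j), rfl⟩⟩))), rfl⟩
    · intro s i
      rw [← hyx N s i, ← hDD']
      have h1 : tup (fun j => kap K (x N s j)) (fun k j => kap K (y N k (i k) j)) =
          fun q => kap K (tup (x N s) (fun k => y N k (i k)) q) := by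
        funext q
        unfold tup
        refine Fin.addCases (fun q => ?_) (fun q => ?_) q
        · simp
        · simp
      rw [← h1]

end Pool.Agent.NF44
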