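import Pool.Agent.NF44.Stmts2

/-!
# The system `Sys` consists of partial elementary maps
-/

namespace Pool.Agent.NF44

universe u

theorem fieldGraph_atomic {M : Type u} [Field M] {G : Set (M × M)} (hG : IsFieldGraph G) :
    (∀ a ∈ G, ∀ b ∈ G, ∀ c ∈ G, (a.1 + b.1 = c.1 ↔ a.2 + b.2 = c.2)) ∧
    (∀ a ∈ G, ∀ b ∈ G, ∀ c ∈ G, (a.1 * b.1 = c.1 ↔ a.2 * b.2 = c.2)) ∧
    (∀ a ∈ G, ∀ b ∈ G, (a.1 = b.1 ↔ a.2 = b.2)) := by
  have hsub : ∀ a ∈ G, ∀ b ∈ G, (a.1 - b.1, a.2 - b.2) ∈ G := by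
    intro a ha b hb
    have := hG.add a ha _ (hG.neg b hb)
    simpa [sub_eq_add_neg] using this
  refine ⟨?_, ?_, ?_⟩
  · intro a ha b hb c hc
    have h1 := hG.zero _ (hsub _ (hG.add a ha b hb) c hc)
    simpa [sub_eq_zero] using h1
  · intro a ha b hb c hc
    have h1 := hG.zero _ (hsub _ (hG.mul a ha b hb) c hc)
    simpa [sub_eq_zero] using h1
  · intro a ha b hb
    have h1 := hG.zero _ (hsub a ha b hb)
    simpa [sub_eq_zero] using h1

/-- Field graphs which preserve the predicates preserve all basic relations. -/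
theorem fieldRS_atomic {M : Type u} [Field M] {m : ℕ} (P : Fin m → Set M) {G : Set (M × M)}
    (hG : IsFieldGraph G) (hP : ∀ i, ∀ p ∈ G, (p.1 ∈ P i ↔ p.2 ∈ P i)) :
    Atomic (fieldRS P) (fieldRS P) G := by
  obtain ⟨h1, h2, h3⟩ := fieldGraph_atomic hG
  intro j t ht
  cases j with
  | add => exact h1 _ (ht (0 : Fin 3)) _ (ht (1 : Fin 3)) _ (ht (2 : Fin 3))
  | mul => exact h2 _ (ht (0 : Fin 3)) _ (ht (1 : Fin 3)) _ (ht (2 : Fin 3))
  | eq => exact h3 _ (ht (0 : Fin 2)) _ (ht (1 : Fin 2))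
  | pr i => exact hP i _ (ht (0 : Fin 1))

theorem sysTp (hAKE : AKEStmt.{u}) (hSwap : SysSwapStmt.{u}) : SysTpStmt.{u} := by
  intro M _ O O' hOO' hH hR PA PC hPA hPC hlin hord hpred
  have hatom : ∀ G, Sys O PA PC G →
      Atomic (fieldRS ![(O' : Set M)]).up (fieldRS ![(O' : Set M)]).up G := by
    intro G hG
    rw [fieldRS_up]
    refine fieldRS_atomic _ hG.2.1 ?_
    intro i p hp
    obtain ⟨L, hL, hLG⟩ := hG.2.2
    have hi : i = 0 := Subsingleton.elim _ _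
    subst hi
    change p.1 ∈ upVS O' ↔ p.2 ∈ upVS O'
    by_cases h0 : p.1 = 0
    · have h1 : p.2 = 0 := (hG.2.1.zero p hp).1 h0
      rw [h0, h1]
    · have h1 : p.2 ≠ 0 := fun h => h0 ((hG.2.1.zero p hp).2 h)
      have h2 := hLG p hp h0
      have h3 := hpred _ hL.c (upHom (piV O) (upMap (rv O) p.1), upHom (piV O) (upMap (rv O) p.2))
        ⟨_, h2, rfl⟩
      simp only [upHom_piV] at h3
      rw [upvg_mem hOO' h0, upvg_mem hOO' h1] at h3
      exact h3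
  refine karp (Sys O PA PC) hatom ?_ ?_
  · intro G hG c
    obtain ⟨G', h1, h2, y, h3⟩ := hAKE M O hH hR PA PC hPA hPC hlin hord G hG c
    exact ⟨y, G', h2, h1, h3⟩
  · intro G hG d
    have hG2 := hSwap M O PA PC hPA hPC G hG
    obtain ⟨G', h1, h2, y, h3⟩ := hAKE M O hH hR PA PC hPA hPC hlin hord _ hG2 d
    refine ⟨y, Prod.swap ⁻¹' G', hSwap M O PA PC hPA hPC G' h2, ?_, h3⟩
    intro p hp
    exact h1 (by simpa using hp)

end Pool.Agent.NF44
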