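import Pool.Agent.NF44.Stmts2
import Pool.Agent.NF44.SysTp

/-!
# Field graphs which are partial elementary maps: valuations, subgroups of leading terms
-/

namespace Pool.Agent.NF44

universe u

section

variable {M : Type u} [Field M] {m : ℕ} {P : Fin m → Set M} {G : Set (UP M × UP M)}

theorem ftp_pred (hT : Tp (fieldRS P).up (fieldRS P).up G) (i : Fin m) {p : UP M × UP M}
    (hp : p ∈ G) : p.1 ∈ upSet (P i) ↔ p.2 ∈ upSet (P i) := by
  have h := hT.atomic
  rw [fieldRS_up] at h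
  exact h (FJ.pr i) (fun _ => p) (fun _ => hp)

theorem ftp_mem (hT : Tp (fieldRS P).up (fieldRS P).up G) (O : ValuationSubring M) (i : Fin m)
    (hi : P i = (O : Set M)) {p : UP M × UP M} (hp : p ∈ G) : p.1 ∈ upVS O ↔ p.2 ∈ upVS O := by
  have h := ftp_pred hT i hp
  rw [hi] at h
  exact h

/-- The field graph `G` preserves the valuation ring `O`. -/
def PresV {M : Type u} [Field M] (O : ValuationSubring M) (G : Set (M × M)) : Prop :=
  ∀ p ∈ G, (p.1 ∈ O ↔ p.2 ∈ O)

end

section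

variable {M : Type u} [Field M] {O : ValuationSubring M} {G : Set (M × M)}

theorem IsFieldGraph.ftp_div (hG : IsFieldGraph G) {p q : M × M} (hp : p ∈ G) (hq : q ∈ G) :
    (p.1 / q.1, p.2 / q.2) ∈ G := by
  have := hG.mul p hp _ (hG.inv q hq)
  simpa [div_eq_mul_inv] using this

theorem IsFieldGraph.ftp_sub (hG : IsFieldGraph G) {p q : M × M} (hp : p ∈ G) (hq : q ∈ G) :
    (p.1 - q.1, p.2 - q.2) ∈ G := by
  have := hG.add p hp _ (hG.neg q hq)
  simpa [sub_eq_add_neg] using this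

theorem IsFieldGraph.ftp_pow (hG : IsFieldGraph G) {p : M × M} (hp : p ∈ G) (n : ℕ) :
    (p.1 ^ n, p.2 ^ n) ∈ G := by
  induction n with
  | zero => simpa using hG.one
  | succ n ih => simpa [pow_succ] using hG.mul _ ih p hp

theorem IsFieldGraph.ftp_zero_mem (hG : IsFieldGraph G) : ((0 : M), (0 : M)) ∈ G := by
  have := hG.ftp_sub hG.one hG.one
  simpa using this

theorem IsFieldGraph.ftp_ne (hG : IsFieldGraph G) {p : M × M} (hp : p ∈ G) (h : p.1 ≠ 0) :
    p.2 ≠ 0 := fun h2 => h ((hG.zero p hp).2 h2)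

theorem PresV.le_one (hV : PresV O G) {p : M × M} (hp : p ∈ G) :
    O.valuation p.1 ≤ 1 ↔ O.valuation p.2 ≤ 1 := by
  rw [O.valuation_le_one_iff, O.valuation_le_one_iff]
  exact hV p hp

theorem PresV.eq_one (hV : PresV O G) (hG : IsFieldGraph G) {p : M × M} (hp : p ∈ G) :
    O.valuation p.1 = 1 ↔ O.valuation p.2 = 1 := by
  rw [veq_one_iff, veq_one_iff, hV p hp, hV _ (hG.inv p hp), Ne, Ne, hG.zero p hp]

theorem PresV.eq (hV : PresV O G) (hG : IsFieldGraph G) {p q : M × M} (hp : p ∈ G) (hq : q ∈ G) :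
    O.valuation p.1 = O.valuation q.1 ↔ O.valuation p.2 = O.valuation q.2 := by
  by_cases h : q.1 = 0
  · have h2 := (hG.zero q hq).1 h
    rw [h, h2, map_zero, Valuation.zero_iff, Valuation.zero_iff]
    exact hG.zero p hp
  · have h2 := hG.ftp_ne hq h
    have e1 : O.valuation p.1 = O.valuation q.1 ↔ O.valuation (p.1 / q.1) = 1 := by
      rw [map_div₀, div_eq_one_iff_eq ((Valuation.ne_zero_iff _).2 h)]
    have e2 : O.valuation p.2 = O.valuation q.2 ↔ O.valuation (p.2 / q.2) = 1 := by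
      rw [map_div₀, div_eq_one_iff_eq ((Valuation.ne_zero_iff _).2 h2)]
    rw [e1, e2]
    exact hV.eq_one hG (hG.ftp_div hp hq)

theorem PresV.eq_pow (hV : PresV O G) (hG : IsFieldGraph G) {p q : M × M} (hp : p ∈ G)
    (hq : q ∈ G) (n : ℕ) :
    O.valuation p.1 = O.valuation (q.1 ^ n) ↔ O.valuation p.2 = O.valuation (q.2 ^ n) :=
  hV.eq hG hp (hG.ftp_pow hq n)

/-- n-th roots of values are unique. -/
theorem val_pow_inj (O : ValuationSubring M) {z w : M} {n : ℕ} (hn : 0 < n)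
    (h : O.valuation (z ^ n) = O.valuation (w ^ n)) : O.valuation z = O.valuation w := by
  rw [map_pow, map_pow] at h
  rcases lt_trichotomy (O.valuation z) (O.valuation w) with h1 | h1 | h1
  · exact absurd h (pow_lt_pow_left₀ h1 zero_le hn.ne').ne
  · exact h1
  · exact absurd h.symm (pow_lt_pow_left₀ h1 zero_le hn.ne').ne

end

section

variable {M : Type u} [Field M] {G : Set (UP M × UP M)}

/-- The values of a field graph. -/
def vgSub (O : ValuationSubring M) (hG : IsFieldGraph G) :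
    Subgroup (UP (VGg O) × UP (VGg O)) where
  carrier := {q | ∃ p ∈ G, p.1 ≠ 0 ∧ q = (upMap (vg O) p.1, upMap (vg O) p.2)}
  one_mem' := ⟨_, hG.one, one_ne_zero, by rw [upvg_one]; rfl⟩
  mul_mem' := by
    rintro _ _ ⟨p, hp, hp0, rfl⟩ ⟨q, hq, hq0, rfl⟩
    refine ⟨_, hG.mul p hp q hq, mul_ne_zero hp0 hq0, ?_⟩
    rw [upvg_mul O hp0 hq0, upvg_mul O (hG.ftp_ne hp hp0) (hG.ftp_ne hq hq0)]
    rfl
  inv_mem' := by
    rintro _ ⟨p, hp, hp0, rfl⟩
    refine ⟨_, hG.inv p hp, inv_ne_zero hp0, ?_⟩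
    rw [upvg_inv, upvg_inv]
    rfl

theorem mem_vgSub (O : ValuationSubring M) (hG : IsFieldGraph G)
    (q : UP (VGg O) × UP (VGg O)) : q ∈ vgSub O hG ↔
      ∃ p ∈ G, p.1 ≠ 0 ∧ q = (upMap (vg O) p.1, upMap (vg O) p.2) := Iff.rfl

/-- The leading terms of a field graph. -/
def rvSub (O : ValuationSubring M) (hG : IsFieldGraph G) :
    Subgroup (UP (RVg O) × UP (RVg O)) where
  carrier := {q | ∃ p ∈ G, p.1 ≠ 0 ∧ q = (upMap (rv O) p.1, upMap (rv O) p.2)}
  one_mem' := ⟨_, hG.one, one_ne_zero, by rw [uprv_one]; rfl⟩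
  mul_mem' := by
    rintro _ _ ⟨p, hp, hp0, rfl⟩ ⟨q, hq, hq0, rfl⟩
    refine ⟨_, hG.mul p hp q hq, mul_ne_zero hp0 hq0, ?_⟩
    rw [uprv_mul O hp0 hq0, uprv_mul O (hG.ftp_ne hp hp0) (hG.ftp_ne hq hq0)]
    rfl
  inv_mem' := by
    rintro _ ⟨p, hp, hp0, rfl⟩
    refine ⟨_, hG.inv p hp, inv_ne_zero hp0, ?_⟩
    rw [uprv_inv, uprv_inv]
    rfl

theorem mem_rvSub (O : ValuationSubring M) (hG : IsFieldGraph G)
    (q : UP (RVg O) × UP (RVg O)) : q ∈ rvSub O hG ↔
      ∃ p ∈ G, p.1 ≠ 0 ∧ q = (upMap (rv O) p.1, upMap (rv O) p.2) := Iff.rfl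

theorem vgSub_countable (O : ValuationSubring M) (hG : IsFieldGraph G) (hc : G.Countable) :
    ((vgSub O hG : Subgroup _) : Set (UP (VGg O) × UP (VGg O))).Countable := by
  refine (hc.image fun p : UP M × UP M => (upMap (vg O) p.1, upMap (vg O) p.2)).mono ?_
  rintro _ ⟨p, hp, -, rfl⟩
  exact ⟨p, hp, rfl⟩

theorem rvSub_countable (O : ValuationSubring M) (hG : IsFieldGraph G) (hc : G.Countable) :
    ((rvSub O hG : Subgroup _) : Set (UP (RVg O) × UP (RVg O))).Countable := by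
  refine (hc.image fun p : UP M × UP M => (upMap (rv O) p.1, upMap (rv O) p.2)).mono ?_
  rintro _ ⟨p, hp, -, rfl⟩
  exact ⟨p, hp, rfl⟩

theorem upvg_pow (O : ValuationSubring M) {x : UP M} (hx : x ≠ 0) (n : ℕ) :
    upMap (vg O) (x ^ n) = upMap (vg O) x ^ n := by
  induction n with
  | zero => simp [upvg_one]
  | succ n ih => rw [pow_succ, pow_succ, upvg_mul O (pow_ne_zero n hx) hx, ih]

theorem uprv_pow (O : ValuationSubring M) {x : UP M} (hx : x ≠ 0) (n : ℕ) :
    upMap (rv O) (x ^ n) = upMap (rv O) x ^ n := by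
  induction n with
  | zero => simp [uprv_one]
  | succ n ih => rw [pow_succ, pow_succ, uprv_mul O (pow_ne_zero n hx) hx, ih]

theorem upVS_val_mono {O₁ O₂ : ValuationSubring M} (h : O₁ ≤ O₂) {x y : M}
    (hxy : O₁.valuation x = O₁.valuation y) : O₂.valuation x = O₂.valuation y := by
  by_cases hy : y = 0
  · subst hy
    rw [map_zero, Valuation.zero_iff] at hxy
    rw [hxy]
  · have h1 : O₁.valuation (x / y) = 1 := by
      rw [map_div₀, hxy, div_self ((Valuation.ne_zero_iff _).2 hy)]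
    rw [veq_one_iff] at h1
    have h2 : O₂.valuation (x / y) = 1 := (veq_one_iff O₂ _).2 ⟨h1.1, h h1.2.1, h h1.2.2⟩
    rw [map_div₀, div_eq_one_iff_eq ((Valuation.ne_zero_iff _).2 hy)] at h2
    exact h2

/-- The ultrapower of a subfield. -/
def upSub (F : Subfield M) : Subfield (UP M) where
  carrier := upSet (F : Set M)
  mul_mem' := by
    intro x y hx hy
    induction x using up_ind with | _ f => ?_
    induction y using up_ind with | _ g => ?_
    exact (evt_and.2 ⟨hx, hy⟩).mono fun k hk => F.mul_mem hk.1 hk.2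
  one_mem' := Filter.Eventually.of_forall fun k => F.one_mem
  add_mem' := by
    intro x y hx hy
    induction x using up_ind with | _ f => ?_
    induction y using up_ind with | _ g => ?_
    exact (evt_and.2 ⟨hx, hy⟩).mono fun k hk => F.add_mem hk.1 hk.2
  zero_mem' := Filter.Eventually.of_forall fun k => F.zero_mem
  neg_mem' := by
    intro x hx
    induction x using up_ind with | _ f => ?_
    exact Filter.Eventually.mono hx fun k hk => F.neg_mem hk
  inv_mem' := by
    intro x hx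
    induction x using up_ind with | _ f => ?_
    exact Filter.Eventually.mono hx fun k hk => F.inv_mem hk

theorem mem_upSub (F : Subfield M) (f : ℕ → M) : (f : UP M) ∈ upSub F ↔ evt fun k => f k ∈ F :=
  Iff.rfl

end

end Pool.Agent.NF44
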