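import Pool.Agent.NF44.Ball
import Pool.Agent.NF44.FieldTp

/-!
# Case 1, the core (helper79)

Steps (4) and (5) of the text: the relations of `(K, O)` on the subfield `F` are controlled by the
pure type over `c`, `c'` and the coefficients of `f`.
-/

namespace Pool.Agent.NF44

open Polynomial

universe u

namespace H79C

section const

variable {K : Type u} [Field K]

/-- The diagonal embedding. -/
noncomputable def cst (K : Type u) [Field K] : K →+* UP K :=
  (Filter.Germ.coeRingHom (Filter.hyperfilter ℕ : Filter ℕ)).comp (Pi.constRingHom ℕ K)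

theorem cst_apply (a : K) : cst K a = ((fun _ => a : ℕ → K) : UP K) := rfl

theorem eval_cst (f : K[X]) (g : ℕ → K) :
    (f.map (cst K)).eval (g : UP K) = ((fun k => f.eval (g k) : ℕ → K) : UP K) := by
  induction f using Polynomial.induction_on' with
  | add p q hp hq =>
    rw [Polynomial.map_add, eval_add, hp, hq, UP.add_coe]
    simp only [eval_add]
  | monomial n a =>
    rw [Polynomial.map_monomial, eval_monomial, cst_apply, UP.pow_coe, UP.mul_coe]
    simp only [eval_monomial]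

theorem up_inv (f : K[X]) (O : ValuationSubring K) (h : ∀ x, (f.eval x)⁻¹ ∈ O) (x : UP K) :
    ((f.map (cst K)).eval x)⁻¹ ∈ upVS O := by
  induction x using up_ind with | _ g => ?_
  rw [eval_cst, UP.inv_coe, mem_upVS]
  exact Filter.Eventually.of_forall fun k => h _

theorem up_small (f : K[X]) (O : ValuationSubring K)
    (h : ∀ μ, O.valuation μ < 1 → ∃ x y, μ = (f.eval x)⁻¹ - (f.eval y)⁻¹) (μ : UP K)
    (hμ : (upVS O).valuation μ < 1) :
    ∃ x y, μ = ((f.map (cst K)).eval x)⁻¹ - ((f.map (cst K)).eval y)⁻¹ := by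
  classical
  induction μ using up_ind with | _ g => ?_
  rw [upVS_lt] at hμ
  have h' : ∀ k, ∃ x y, O.valuation (g k) < 1 → g k = (f.eval x)⁻¹ - (f.eval y)⁻¹ := by
    intro k
    by_cases hk : O.valuation (g k) < 1
    · obtain ⟨x, y, hxy⟩ := h _ hk
      exact ⟨x, y, fun _ => hxy⟩
    · exact ⟨0, 0, fun hk' => absurd hk' hk⟩
  choose x y hxy using h'
  refine ⟨(x : UP K), (y : UP K), ?_⟩
  rw [eval_cst, eval_cst, UP.inv_coe, UP.inv_coe, UP.sub_coe, up_eq]
  exact hμ.mono fun k hk => hxy k hk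

/-- `c` and `c'` have the same type over `F` in the ultrapower. -/
theorem tpF (hLos : LosStmt.{u, u}) (F : Subfield K) (c c' : K)
    (htp : ∀ (m r : ℕ) (z : Fin r → K), (∀ i, z i ∈ F) →
      EF (pureRS K) (pureRS K) m (r + 1) (Fin.cons c z) (Fin.cons c' z)) :
    Tp (pureRS K).up (pureRS K).up
      {p : UP K × UP K | p = (cst K c, cst K c') ∨ (p.1 = p.2 ∧ p.1 ∈ upSub F)} := by
  classical
  intro n r t ht
  have hrep : ∀ i, ∃ g g' : ℕ → K, (t i).1 = (g : UP K) ∧ (t i).2 = (g' : UP K) ∧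
      ((∀ k, g k = c ∧ g' k = c') ∨ ∀ k, g k = g' k ∧ g k ∈ F) := by
    intro i
    rcases ht i with h | ⟨h1, h2⟩
    · refine ⟨fun _ => c, fun _ => c', ?_, ?_, Or.inl fun k => ⟨rfl, rfl⟩⟩
      · rw [h]; rfl
      · rw [h]; rfl
    · have h3 : ∃ g : ℕ → K, (t i).1 = (g : UP K) ∧ ∀ k, g k ∈ F := by
        revert h2
        generalize (t i).1 = x
        intro h2
        induction x using up_ind with | _ g => ?_
        rw [mem_upSub] at h2
        refine ⟨fun k => if g k ∈ F then g k else 0, ?_, ?_⟩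
        · rw [up_eq]
          refine h2.mono fun k hk => ?_
          rw [if_pos hk]
        · intro k
          dsimp only
          split_ifs with hk
          · exact hk
          · exact F.zero_mem
      obtain ⟨g, hg, hgF⟩ := h3
      exact ⟨g, g, hg, h1.symm.trans hg, Or.inr fun k => ⟨rfl, hgF k⟩⟩
  choose g g' hg hg' hgg using hrep
  have e1 : (fun i => (t i).1) = fun i => (g i : UP K) := funext hg
  have e2 : (fun i => (t i).2) = fun i => (g' i : UP K) := funext hg'
  rw [e1, e2, hLos]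
  refine Filter.Eventually.of_forall fun k => ?_
  -- at every index
  let z : Fin r → K := fun i => if (∀ k, g i k = c ∧ g' i k = c') then 0 else g i k
  have hz : ∀ i, z i ∈ F := by
    intro i
    dsimp only [z]
    split_ifs with h
    · exact F.zero_mem
    · rcases hgg i with h' | h'
      · exact absurd h' h
      · exact (h' k).2
  let q : Fin r → Fin (r + 1) := fun i => if (∀ k, g i k = c ∧ g' i k = c') then 0 else i.succ
  have h1 := (htp n r z hz).reindex q
  have e3 : (Fin.cons c z : Fin (r + 1) → K) ∘ q = fun i => g i k := by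
    funext i
    dsimp only [Function.comp_apply, q, z]
    by_cases h : ∀ k, g i k = c ∧ g' i k = c'
    · rw [if_pos h, Fin.cons_zero, (h k).1]
    · rw [if_neg h, Fin.cons_succ, if_neg h]
  have e4 : (Fin.cons c' z : Fin (r + 1) → K) ∘ q = fun i => g' i k := by
    funext i
    dsimp only [Function.comp_apply, q, z]
    by_cases h : ∀ k, g i k = c ∧ g' i k = c'
    · rw [if_pos h, Fin.cons_zero, (h k).2]
    · rw [if_neg h, Fin.cons_succ, if_neg h]
      rcases hgg i with h' | h'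
      · exact absurd h' h
      · exact (h' k).1
  rw [e3, e4] at h1
  exact h1

end const

/-- Karp for the pure field with two preserved predicates. -/
theorem tp_pred2 (hF : TpForthStmt.{u}) (hC : FieldCloseStmt.{u}) {K : Type u} [Field K]
    (P Q : Set (UP K)) (T₀ : Set (UP K × UP K))
    (hP : ∀ T : Set (UP K × UP K), T₀ ⊆ T → T.Countable → Tp (pureRS K).up (pureRS K).up T →
      ∀ p ∈ T, ((p.1 ∈ P ↔ p.2 ∈ P) ∧ (p.1 ∈ Q ↔ p.2 ∈ Q))) (hT₀ : T₀.Countable)
    (hT : Tp (pureRS K).up (pureRS K).up T₀) : Tp (fieldRS ![P, Q]) (fieldRS ![P, Q]) T₀ := by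
  refine karp (fun L => T₀ ⊆ L ∧ L.Countable ∧ Tp (pureRS K).up (pureRS K).up L) ?_ ?_ ?_ T₀
    ⟨Set.Subset.refl _, hT₀, hT⟩
  · rintro L ⟨hL0, hLc, hL⟩
    have hat := hL
    rw [pureRS_up] at hat
    replace hat := hat.atomic
    intro j t ht
    cases j with
    | add => exact hat FJ.add t ht
    | mul => exact hat FJ.mul t ht
    | eq => exact hat FJ.eq t ht
    | pr i =>
      have h1 := hP L hL0 hLc hL _ (ht (0 : Fin 1))
      revert t
      refine Fin.cases ?_ (fun i => ?_) i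
      · intro t ht h1
        exact h1.1
      · have hi : i = 0 := Subsingleton.elim _ _
        subst hi
        intro t ht h1
        exact h1.2
  · rintro L ⟨hL0, hLc, hL⟩ c
    obtain ⟨T', h1, h2, h3, h4, y, hy⟩ := H40D.ext_fst hF hC hLc hL c
    exact ⟨y, T', ⟨hL0.trans h1, h2, h4⟩, h1, hy⟩
  · rintro L ⟨hL0, hLc, hL⟩ c
    obtain ⟨T', h1, h2, h3, h4, y, hy⟩ := H40D.ext_snd hF hC hLc hL c
    exact ⟨y, T', ⟨hL0.trans h1, h2, h4⟩, h1, hy⟩

theorem append_up {K : Type u} [Field K] {r l : ℕ} (x : ℕ → Fin r → K) (p : Fin l → K) :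
    (Fin.append (fun i => ((fun k => x k i : ℕ → K) : UP K)) (fun i => cst K (p i)) :
      Fin (r + l) → UP K) =
      fun i => ((fun k => Fin.append (x k) p i : ℕ → K) : UP K) := by
  funext i
  refine Fin.addCases (fun i => ?_) (fun i => ?_) i
  · simp only [Fin.append_left]
  · simp only [Fin.append_right]
    rfl

end H79C

open H79C in
theorem case1Core (hMain : MainLemmaStmt.{u}) (hHC : HensCoarsenStmt.{u})
    (hLos : LosStmt.{u, u}) (hF : TpForthStmt.{u}) (hC : FieldCloseStmt.{u}) :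
    Case1CoreStmt.{u} := by
  classical
  intro K _ O hO hR f hf0 hfO hfB F hFf hP0 c c' hc hc'0 hc' htp l p hpc hpc' hpf r t
  by_contra hcon
  push Not at hcon
  choose x y hx hy hEF hne using hcon
  -- the objects in the ultrapower
  set C : UP K := cst K c with hCdef
  set C' : UP K := cst K c' with hC'def
  set f' : (UP K)[X] := f.map (cst K) with hf'
  have hC0 : C' ≠ 0 := by
    rw [hC'def]
    exact (map_ne_zero (cst K)).2 hc'0
  have hCv : (upVS O).valuation C = 1 := by
    rw [hCdef, cst_apply, upVS_eq_one]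
    exact Filter.Eventually.of_forall fun _ => hc
  have hC'v : (upVS O).valuation C' < 1 := by
    rw [hC'def, cst_apply, upVS_lt]
    exact Filter.Eventually.of_forall fun _ => hc'
  have hA := up_inv f O hfO
  have hB := up_small f O hfB
  have hOu : Hens (upVS O) := upVS_hens hO
  have hRu : Res0 (upVS O) := upVS_res0 hR
  obtain ⟨O₂, hO₂, hle₂, -⟩ := ballRing (UP K) (upVS O) f' hA hB C' hC0 hC'v
  have hens₂ : Hens O₂ := hHC (UP K) (upVS O) O₂ hle₂ hOu
  -- the types over `F`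
  have hTF := tpF hLos F c c' htp
  set TF : Set (UP K × UP K) :=
    {p : UP K × UP K | p = (cst K c, cst K c') ∨ (p.1 = p.2 ∧ p.1 ∈ upSub F)} with hTFdef
  set T₁ : Set (UP K × UP K) := {(C, C')} ∪ Set.range fun i => (f'.coeff i, f'.coeff i) with hT₁
  have hcoef : ∀ i, f'.coeff i ∈ upSub F := by
    intro i
    rw [hf', coeff_map, cst_apply, mem_upSub]
    exact Filter.Eventually.of_forall fun _ => hFf i
  have hT₁F : T₁ ⊆ TF := by
    rintro q (rfl | ⟨i, rfl⟩)
    · exact Or.inl rfl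
    · exact Or.inr ⟨rfl, hcoef i⟩
  have hT₁c : T₁.Countable := (Set.countable_singleton _).union (Set.countable_range _)
  have hTpF : ∀ z ∈ upSub F, Tp (pureRS K).up (pureRS K).up (T₁ ∪ {(z, z)}) := by
    intro z hz
    refine hTF.mono ?_
    rintro q (hq | rfl)
    · exact hT₁F hq
    · exact Or.inr ⟨rfl, hz⟩
  have hcf : ∀ i, (f'.coeff i, f'.coeff i) ∈ T₁ := fun i => Or.inr ⟨i, rfl⟩
  have hcc : (C, C') ∈ T₁ := Or.inl rfl
  obtain ⟨O₁, hO₁, hens₁⟩ := ballTransfer hF hC K f' T₁ hT₁c (hTF.mono hT₁F) hcf C C' hcc O₂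
    hO₂ hens₂
  have hm₁ : ∀ z, z ∈ O₁ ↔ z ∈ Ball f' C := fun z => by rw [← hO₁]; rfl
  have hm₂ : ∀ z, z ∈ O₂ ↔ z ∈ Ball f' C' := fun z => by rw [← hO₂]; rfl
  -- `O₁ ≤ O`
  have hle₁ : O₁ ≤ upVS O := by
    intro z hz
    rw [hm₁] at hz
    obtain ⟨n, u, v, huv⟩ := hz
    have h1 : z * C ^ n ∈ upVS O := by
      rw [huv]
      exact sub_mem (hA u) (hA v)
    rw [← ValuationSubring.valuation_le_one_iff, map_mul, map_pow, hCv, one_pow, mul_one,
      ValuationSubring.valuation_le_one_iff] at h1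
    exact h1
  -- on `F` the three rings agree
  have hF21 : ∀ z ∈ upSub F, z ∈ O₂ → z ∈ O₁ := by
    intro z hz hz2
    have h1 := ballTp hF hC K f' (T₁ ∪ {(z, z)}) (hT₁c.union (Set.countable_singleton _))
      (hTpF z hz) (fun i => Or.inl (hcf i)) C C' (Or.inl hcc) (z, z) (Or.inr rfl)
    rw [hm₁, h1, ← hm₂]
    exact hz2
  have hR₁ : Res0 O₁ := by
    intro n hn
    obtain ⟨h1, h2⟩ := hRu n hn
    refine ⟨h1, hF21 _ ?_ (hle₂ h2)⟩
    exact inv_mem (natCast_mem (upSub F) n)
  -- purity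
  have hpure : ∀ z ∈ upSub F, z ≠ 0 → ∀ n : ℕ, 0 < n → ∀ w : UP K,
      O₂.valuation z = O₂.valuation (w ^ n) → ∃ s ∈ upSub F, O₂.valuation z = O₂.valuation (s ^ n) := by
    intro z hz hz0 n hn w hw
    have hw0 : w ^ n ≠ 0 := by
      intro h0
      rw [h0, map_zero, Valuation.zero_iff] at hw
      exact hz0 hw
    have hquot : ∀ (Q : ValuationSubring (UP K)) (w : UP K), w ^ n ≠ 0 →
        (Q.valuation z = Q.valuation (w ^ n) ↔ z / w ^ n ∈ Q ∧ (z / w ^ n)⁻¹ ∈ Q) := by
      intro Q w hw0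
      have h1 : Q.valuation z = Q.valuation (w ^ n) ↔ Q.valuation (z / w ^ n) = 1 := by
        rw [map_div₀, div_eq_one_iff_eq ((Valuation.ne_zero_iff _).2 hw0)]
      rw [h1, veq_one_iff]
      exact ⟨fun h => h.2, fun h => ⟨div_ne_zero hz0 hw0, h⟩⟩
    have h2 := (hquot O₂ w hw0).1 hw
    obtain ⟨T', s1, c1, g1, t1, w', hw'⟩ := H40D.ext_snd hF hC
      (hT₁c.union (Set.countable_singleton _)) (hTpF z hz) w
    have hzz : (z, z) ∈ T' := s1 (Or.inr rfl)
    have hww : (w' ^ n, w ^ n) ∈ T' := H40D.graph_pow g1 hw' n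
    have hdd : (z / w' ^ n, z / w ^ n) ∈ T' := H40D.graph_div g1 hzz hww
    have hw'0 : w' ^ n ≠ 0 := fun h0 => hw0 ((g1.zero _ hww).1 h0)
    have key : ∀ q ∈ T', (q.1 ∈ O₁ ↔ q.2 ∈ O₂) := by
      intro q hq
      rw [hm₁, hm₂]
      exact ballTp hF hC K f' T' c1 t1 (fun i => s1 (Or.inl (hcf i))) C C' (s1 (Or.inl hcc)) q hq
    have h3 : O₁.valuation z = O₁.valuation (w' ^ n) :=
      (hquot O₁ w' hw'0).2 ⟨(key _ hdd).2 h2.1, (key _ (g1.inv _ hdd)).2 h2.2⟩
    have h4 : (upVS O).valuation z = (upVS O).valuation (w' ^ n) :=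
      upVS_val_mono hle₁ h3
    -- take a witness in `F`
    have h5 : ∃ s ∈ upSub F, (upVS O).valuation z = (upVS O).valuation (s ^ n) := by
      clear h3 hdd hww hzz hquot h2 hw hTpF
      induction z using up_ind with | _ a => ?_
      induction w' using up_ind with | _ b => ?_
      rw [UP.pow_coe, upVS_eq] at h4
      rw [mem_upSub] at hz
      rw [up_ne_zero] at hz0
      have h6 : ∀ k, ∃ s ∈ F, (a k ∈ F → a k ≠ 0 → O.valuation (a k) = O.valuation (b k ^ n) →
          O.valuation (a k) = O.valuation (s ^ n)) := by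
        intro k
        by_cases h7 : a k ∈ F ∧ a k ≠ 0 ∧ O.valuation (a k) = O.valuation (b k ^ n)
        · obtain ⟨s, hs, hs'⟩ := hP0 (a k) h7.1 h7.2.1 n hn (b k) h7.2.2
          exact ⟨s, hs, fun _ _ _ => hs'⟩
        · refine ⟨0, F.zero_mem, fun h8 h9 h10 => ?_⟩
          exact absurd ⟨h8, h9, h10⟩ h7
      choose s hs hs' using h6
      refine ⟨(s : UP K), ?_, ?_⟩
      · rw [mem_upSub]
        exact Filter.Eventually.of_forall hs
      · rw [UP.pow_coe, upVS_eq]
        exact (evt_and.2 ⟨evt_and.2 ⟨hz, hz0⟩, h4⟩).mono fun k hk => hs' k hk.1.1 hk.1.2 hk.2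
    obtain ⟨s, hs, hs'⟩ := h5
    refine ⟨s, hs, ?_⟩
    exact upVS_val_mono hle₂ hs'
  -- the tuples
  set X : Fin r → UP K := fun i => ((fun k => x k i : ℕ → K) : UP K) with hX
  set Y : Fin r → UP K := fun i => ((fun k => y k i : ℕ → K) : UP K) with hY
  have hXF : ∀ i, X i ∈ upSub F := by
    intro i
    rw [hX, mem_upSub]
    exact Filter.Eventually.of_forall fun k => hx k i
  have hXY : ∀ n, EF (pureRS K).up (pureRS K).up n (r + l)
      (Fin.append X fun i => cst K (p i)) (Fin.append Y fun i => cst K (p i)) := by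
    intro n
    rw [hX, hY, append_up, append_up, hLos]
    exact (H40D.evt_ge n).mono fun k hk => (hEF k).mono hk
  have hT₃ := Tp.of_forall hXY
  set T₃ : Set (UP K × UP K) := Set.range fun i =>
    ((Fin.append X fun i => cst K (p i)) i, (Fin.append Y fun i => cst K (p i)) i) with hT₃def
  have hpin : ∀ i, (cst K (p i), cst K (p i)) ∈ T₃ := by
    intro i
    refine ⟨Fin.natAdd r i, ?_⟩
    simp only [Fin.append_right]
  have hCC : (C, C) ∈ T₃ := by
    obtain ⟨i, hi⟩ := hpc
    rw [hCdef, ← hi]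
    exact hpin i
  have hCC' : (C', C') ∈ T₃ := by
    obtain ⟨i, hi⟩ := hpc'
    rw [hC'def, ← hi]
    exact hpin i
  have hcf₃ : ∀ j, (f'.coeff j, f'.coeff j) ∈ T₃ := by
    intro j
    obtain ⟨i, hi⟩ := hpf j
    rw [hf', coeff_map, ← hi]
    exact hpin i
  have hT₃' : Tp (fieldRS ![(O₁ : Set (UP K)), (O₂ : Set (UP K))])
      (fieldRS ![(O₁ : Set (UP K)), (O₂ : Set (UP K))]) T₃ := by
    refine tp_pred2 hF hC _ _ T₃ ?_ (Set.countable_range _) hT₃
    intro T h1 h2 h3 q hq
    rw [hO₁, hO₂]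
    exact ⟨ballTp hF hC K f' T h2 h3 (fun i => h1 (hcf₃ i)) C C (h1 hCC) q hq,
      ballTp hF hC K f' T h2 h3 (fun i => h1 (hcf₃ i)) C' C' (h1 hCC') q hq⟩
  have hEF12 : ∀ n, EF (fieldRS ![(O₁ : Set (UP K)), (O₂ : Set (UP K))])
      (fieldRS ![(O₁ : Set (UP K)), (O₂ : Set (UP K))]) n r X Y := by
    intro n
    refine hT₃' n r (fun i => (X i, Y i)) fun i => ⟨Fin.castAdd l i, ?_⟩
    simp only [Fin.append_left]
  have hfin := hMain (UP K) O₁ (upVS O) O₂ hle₁ hle₂ hens₁ hR₁ (upSub F) hF21 hpure r X Y hXF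
    hEF12 t
  have h7 : (fieldRS ![(O : Set K)]).up =
      fieldRS ![((upVS O : ValuationSubring (UP K)) : Set (UP K))] := by
    rw [fieldRS_up]
    refine congrArg fieldRS ?_
    funext i
    have hi : i = 0 := Subsingleton.elim _ _
    subst hi
    rfl
  rw [← h7, hX, hY, hLos] at hfin
  obtain ⟨k, hk⟩ := hfin.exists
  exact hne k hk

end Pool.Agent.NF44
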