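import Pool.Agent.NF44.Stmts2

/-!
# Countable subfields closed under countably many functions
-/

namespace Pool.Agent.NF44

universe u

theorem closure_countable' {M : Type u} [Field M] (S : Set M) (hS : S.Countable) :
    ((Subfield.closure S : Subfield M) : Set M).Countable := by
  have : Countable S := hS
  have h1 : Cardinal.mk (Subfield.closure S) ≤ max (Cardinal.mk S) Cardinal.aleph0 :=
    Subfield.cardinalMk_closure_le_max S
  have h2 : Cardinal.mk S ≤ Cardinal.aleph0 := Cardinal.mk_le_aleph0
  rw [max_eq_right h2] at h1
  exact Cardinal.le_aleph0_iff_set_countable.1 h1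

theorem countClose : CountCloseStmt.{u} := by
  intro M _ F S hS hSF c hc
  let T : ℕ → Set M := fun k => Nat.rec S
    (fun _ U => (Subfield.closure U : Set M) ∪ ⋃ n, c n '' (Subfield.closure U : Set M)) k
  have hT0 : T 0 = S := rfl
  have hTs : ∀ k, T (k + 1) = (Subfield.closure (T k) : Set M) ∪
      ⋃ n, c n '' (Subfield.closure (T k) : Set M) := fun k => rfl
  have hcount : ∀ k, (T k).Countable := by
    intro k
    induction k with
    | zero => exact hS
    | succ k ih =>
      rw [hTs]
      have h1 := closure_countable' (T k) ih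
      exact h1.union (Set.countable_iUnion fun n => h1.image _)
  have hF : ∀ k, T k ⊆ F := by
    intro k
    induction k with
    | zero => exact hSF
    | succ k ih =>
      rw [hTs]
      have h1 : (Subfield.closure (T k) : Set M) ⊆ F := Subfield.closure_le.2 ih
      refine Set.union_subset h1 (Set.iUnion_subset fun n => ?_)
      rintro _ ⟨z, hz, rfl⟩
      exact hc n z (h1 hz)
  have hsucc : ∀ k, (Subfield.closure (T k) : Set M) ⊆ T (k + 1) := fun k => by
    rw [hTs]; exact Set.subset_union_left
  have hstep : ∀ k, T k ⊆ T (k + 1) := fun k => Subfield.subset_closure.trans (hsucc k)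
  have hmono : Monotone T := monotone_nat_of_le_succ hstep
  have hmonoC : Monotone fun k => Subfield.closure (T k) := fun i j hij =>
    Subfield.closure_mono (hmono hij)
  refine ⟨⨆ k, Subfield.closure (T k), ?_, ?_, ?_, ?_⟩
  · rw [Subfield.coe_iSup_of_directed hmonoC.directed_le]
    exact Set.countable_iUnion fun k => closure_countable' _ (hcount k)
  · intro x hx
    exact (le_iSup (fun k => Subfield.closure (T k)) 0) (Subfield.subset_closure hx)
  · exact iSup_le fun k => Subfield.closure_le.2 (hF k)
  · intro n z hz
    rw [Subfield.mem_iSup_of_directed hmonoC.directed_le] at hz ⊢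
    obtain ⟨k, hk⟩ := hz
    refine ⟨k + 1, Subfield.subset_closure ?_⟩
    rw [hTs]
    exact Or.inr (Set.mem_iUnion.2 ⟨n, z, hk, rfl⟩)

end Pool.Agent.NF44
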