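import Pool.Agent.NF44.Stmts2

/-!
Case 0: the rings `Oq` are preserved by partial elementary maps of the pure field, the residue
field of the ultrapower is algebraically closed, and the decomposition.
-/

namespace Pool.Agent.NF44

open Polynomial

universe u

namespace H40D

/-! ### Extension of countable partial elementary maps -/

theorem ext_fst (hF : TpForthStmt.{u}) (hC : FieldCloseStmt.{u}) {K : Type u} [Field K]
    {T : Set (UP K × UP K)} (hTc : T.Countable) (hT : Tp (pureRS K).up (pureRS K).up T)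
    (x : UP K) : ∃ T', T ⊆ T' ∧ T'.Countable ∧ IsFieldGraph T' ∧
      Tp (pureRS K).up (pureRS K).up T' ∧ ∃ y, (x, y) ∈ T' := by
  obtain ⟨T1, h1, h2, h3, h4⟩ := hF _ _ _ _ _ T hT hTc {x} (Set.countable_singleton x)
  obtain ⟨y, hy⟩ := h4 x rfl
  obtain ⟨T2, h5, h6, h7, h8⟩ := hC K 0 _ T1 h2 h3
  exact ⟨T2, h1.trans h5, h6, h7, h8, y, h5 hy⟩

theorem swap_countable {X Y : Type*} {T : Set (X × Y)} (h : T.Countable) :
    (Prod.swap ⁻¹' T : Set (Y × X)).Countable :=
  h.preimage_of_injOn (Prod.swap_injective.injOn)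

theorem swap_graph {K : Type u} [Field K] {T : Set (K × K)} (h : IsFieldGraph T) :
    IsFieldGraph (Prod.swap ⁻¹' T) where
  one := h.one
  add := fun _ hp _ hq => h.add _ hp _ hq
  neg := fun _ hp => h.neg _ hp
  mul := fun _ hp _ hq => h.mul _ hp _ hq
  inv := fun _ hp => h.inv _ hp
  zero := fun _ hp => (h.zero _ hp).symm

theorem ext_snd (hF : TpForthStmt.{u}) (hC : FieldCloseStmt.{u}) {K : Type u} [Field K]
    {T : Set (UP K × UP K)} (hTc : T.Countable) (hT : Tp (pureRS K).up (pureRS K).up T)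
    (x : UP K) : ∃ T', T ⊆ T' ∧ T'.Countable ∧ IsFieldGraph T' ∧
      Tp (pureRS K).up (pureRS K).up T' ∧ ∃ y, (y, x) ∈ T' := by
  obtain ⟨T', h1, h2, h3, h4, y, hy⟩ := ext_fst hF hC (swap_countable hTc) hT.swap x
  refine ⟨Prod.swap ⁻¹' T', fun p hp => h1 (show Prod.swap p ∈ Prod.swap ⁻¹' T from hp),
    swap_countable h2, swap_graph h3, h4.swap, y, hy⟩

theorem graph_pow {K : Type u} [Field K] {T : Set (K × K)} (h : IsFieldGraph T) {p : K × K}
    (hp : p ∈ T) (n : ℕ) : (p.1 ^ n, p.2 ^ n) ∈ T := by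
  induction n with
  | zero => simpa using h.one
  | succ n ih => simpa [pow_succ] using h.mul _ ih _ hp

theorem graph_sub {K : Type u} [Field K] {T : Set (K × K)} (h : IsFieldGraph T) {p q : K × K}
    (hp : p ∈ T) (hq : q ∈ T) : (p.1 - q.1, p.2 - q.2) ∈ T := by
  have := h.add _ hp _ (h.neg _ hq)
  simpa [sub_eq_add_neg] using this

theorem graph_div {K : Type u} [Field K] {T : Set (K × K)} (h : IsFieldGraph T) {p q : K × K}
    (hp : p ∈ T) (hq : q ∈ T) : (p.1 / q.1, p.2 / q.2) ∈ T := by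
  have := h.mul _ hp _ (h.inv _ hq)
  simpa [div_eq_mul_inv] using this

theorem graph_eq {K : Type u} [Field K] {T : Set (K × K)} (h : IsFieldGraph T) {p q : K × K}
    (hp : p ∈ T) (hq : q ∈ T) : p.1 = q.1 ↔ p.2 = q.2 := by
  have := h.zero _ (graph_sub h hp hq)
  simpa [sub_eq_zero] using this

/-- the expression `(x^q - a)/a`. -/
theorem graph_expr {K : Type u} [Field K] {T : Set (K × K)} (h : IsFieldGraph T) {x a w : K × K}
    (hx : x ∈ T) (ha : a ∈ T) (hw : w ∈ T) (q : ℕ) :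
    (x.1 ^ q - a.1) / a.1 = w.1 ^ q ↔ (x.2 ^ q - a.2) / a.2 = w.2 ^ q :=
  graph_eq h (graph_div h (graph_sub h (graph_pow h hx q) ha) ha) (graph_pow h hw q)

theorem oq_dir (hF : TpForthStmt.{u}) (hC : FieldCloseStmt.{u}) {K : Type u} [Field K] (q : ℕ)
    {T : Set (UP K × UP K)} (hTc : T.Countable) (hT : Tp (pureRS K).up (pureRS K).up T)
    (p : UP K × UP K) (hp : p ∈ T) (h1 : p.1 ∈ Oq (UP K) q) : p.2 ∈ Oq (UP K) q := by
  intro a' ha' x' hx'
  obtain ⟨w', hw'⟩ := hx'
  obtain ⟨T1, s1, c1, g1, t1, a, haa⟩ := ext_snd hF hC hTc hT a'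
  obtain ⟨T2, s2, c2, g2, t2, x, hxx⟩ := ext_snd hF hC c1 t1 x'
  obtain ⟨T3, s3, c3, g3, t3, w, hww⟩ := ext_snd hF hC c2 t2 w'
  have haT : (a, a') ∈ T3 := s3 (s2 haa)
  have hxT : (x, x') ∈ T3 := s3 hxx
  have hna : ¬ ∃ w, a = w ^ q := by
    rintro ⟨u, hu⟩
    obtain ⟨T4, s4, c4, g4, t4, u', huu⟩ := ext_fst hF hC c3 t3 u
    exact ha' ⟨u', (graph_eq g4 (s4 haT) (graph_pow g4 huu q)).1 hu⟩
  have hxw : ∃ w, (x ^ q - a) / a = w ^ q := ⟨w, (graph_expr g3 hxT haT hww q).2 hw'⟩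
  obtain ⟨v, hv⟩ := h1 a hna x hxw
  obtain ⟨T4, s4, c4, g4, t4, v', hvv⟩ := ext_fst hF hC c3 t3 v
  refine ⟨v', ?_⟩
  have hpx : (p.1 * x, p.2 * x') ∈ T4 := g4.mul p (s4 (s3 (s2 (s1 hp)))) _ (s4 hxT)
  exact (graph_expr g4 hpx (s4 haT) hvv q).1 hv

end H40D

theorem oqTp (hF : TpForthStmt.{u}) (hC : FieldCloseStmt.{u}) : OqTpStmt.{u} := by
  intro K _ q T hTc hT p hp
  exact ⟨H40D.oq_dir hF hC q hTc hT p hp,
    H40D.oq_dir hF hC q (H40D.swap_countable hTc) hT.swap p.swap (by simpa using hp)⟩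

namespace H40D

/-! ### The residue field of the ultrapower -/

theorem root_of_algClosed {M : Type u} [Field M] (O : ValuationSubring M)
    (hac : IsAlgClosed (IsLocalRing.ResidueField O)) (d : ℕ) (hd : 0 < d) (a : Fin d → M)
    (ha : ∀ i, a i ∈ O) : ∃ z ∈ O, O.valuation (z ^ d + ∑ i, a i * z ^ (i : ℕ)) < 1 := by
  set a' : Fin d → O := fun i => ⟨a i, ha i⟩ with ha'
  set s : (IsLocalRing.ResidueField O)[X] :=
    ∑ i : Fin d, C (IsLocalRing.residue O (a' i)) * X ^ (i : ℕ) with hs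
  have hsdeg : s.degree < (d : ℕ) := by
    apply lt_of_le_of_lt (degree_sum_le _ _)
    rw [Finset.sup_lt_iff (by exact_mod_cast WithBot.bot_lt_coe _)]
    intro j _
    apply lt_of_le_of_lt (degree_C_mul_X_pow_le _ _)
    exact_mod_cast j.2
  have hdeg : (X ^ d + s).degree = ((d : ℕ) : WithBot ℕ) := by
    rw [degree_add_eq_left_of_degree_lt] <;> rw [degree_X_pow]
    exact hsdeg
  obtain ⟨x, hx⟩ := IsAlgClosed.exists_root (X ^ d + s) (by
    rw [hdeg]
    exact_mod_cast hd.ne')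
  obtain ⟨z, rfl⟩ := IsLocalRing.residue_surjective x
  refine ⟨z, z.2, ?_⟩
  have h1 : IsLocalRing.residue O (z ^ d + ∑ i, a' i * z ^ (i : ℕ)) = 0 := by
    rw [IsRoot.def, hs] at hx
    simp only [eval_add, eval_pow, eval_X, eval_finsetSum, eval_mul, eval_C] at hx
    simp only [map_add, map_pow, map_sum, map_mul]
    exact hx
  rw [IsLocalRing.residue_eq_zero_iff, ValuationSubring.valuation_lt_one_iff] at h1
  convert h1 using 2
  push_cast
  rfl

theorem algClosed_of_root {M : Type u} [Field M] (O : ValuationSubring M)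
    (h : ∀ d : ℕ, 0 < d → ∀ a : Fin d → M, (∀ i, a i ∈ O) →
      ∃ z ∈ O, O.valuation (z ^ d + ∑ i, a i * z ^ (i : ℕ)) < 1) :
    IsAlgClosed (IsLocalRing.ResidueField O) := by
  refine IsAlgClosed.of_exists_root _ fun p hp hirr => ?_
  have hd : 0 < p.natDegree := hirr.natDegree_pos
  choose a' ha' using fun i : Fin p.natDegree => IsLocalRing.residue_surjective (R := O) (p.coeff i)
  obtain ⟨z, hz, hv⟩ := h p.natDegree hd (fun i => (a' i : M)) (fun i => (a' i).2)
  refine ⟨IsLocalRing.residue O ⟨z, hz⟩, ?_⟩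
  have h1 : IsLocalRing.residue O ((⟨z, hz⟩ : O) ^ p.natDegree +
      ∑ i, a' i * (⟨z, hz⟩ : O) ^ (i : ℕ)) = 0 := by
    rw [IsLocalRing.residue_eq_zero_iff, ValuationSubring.valuation_lt_one_iff]
    convert hv using 2
    push_cast
    rfl
  rw [eval_eq_sum_range, Finset.sum_range_succ, hp.coeff_natDegree, one_mul, add_comm,
    Finset.sum_range]
  simp only [map_add, map_pow, map_sum, map_mul, ha'] at h1
  exact h1

theorem up_algClosed {M : Type u} [Field M] (O : ValuationSubring M)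
    (hac : IsAlgClosed (IsLocalRing.ResidueField O)) :
    IsAlgClosed (IsLocalRing.ResidueField (upVS O)) := by
  refine algClosed_of_root _ fun d hd a ha => ?_
  have hf : ∀ i, ∃ f : ℕ → M, a i = (f : UP M) := fun i => ⟨rep (a i), (rep_spec _).symm⟩
  choose f hf using hf
  have ha2 : evt fun k => ∀ i, f i k ∈ O := by
    rw [evt_fin]
    intro i
    rw [← mem_upVS, ← hf]
    exact ha i
  have h3 : evt fun k => ∃ z : M, z ∈ O ∧ O.valuation (z ^ d + ∑ i : Fin d, f i k * z ^ (i : ℕ)) < 1 :=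
    ha2.mono fun k hk => root_of_algClosed O hac d hd _ hk
  rw [evt_exists] at h3
  obtain ⟨z, hz⟩ := h3
  rw [evt_and] at hz
  refine ⟨(z : UP M), hz.1, ?_⟩
  have e : ∀ i : Fin d, a i * (z : UP M) ^ (i : ℕ)
      = ((fun k => f i k * z k ^ (i : ℕ) : ℕ → M) : UP M) := by
    intro i
    rw [hf, UP.pow_coe, UP.mul_coe]
  rw [Finset.sum_congr rfl fun i _ => e i, UP.sum_coe, UP.pow_coe, UP.add_coe, upVS_lt]
  exact hz.2

/-! ### Polynomials in the ultrapower -/

theorem aeval_up {K : Type u} [Field K] {r : ℕ} (f : Fin r → ℕ → K) (g : MvPolynomial (Fin r) ℤ) :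
    MvPolynomial.aeval (fun i => ((f i : ℕ → K) : UP K)) g =
      (((fun k => MvPolynomial.aeval (fun i => f i k) g) : ℕ → K) : UP K) := by
  have h1 : MvPolynomial.aeval (fun i => ((f i : ℕ → K) : UP K)) g =
      Filter.Germ.coeRingHom (Filter.hyperfilter ℕ : Filter ℕ) (R := K)
        (MvPolynomial.aeval f g) := by
    rw [MvPolynomial.aeval_def, MvPolynomial.aeval_def, MvPolynomial.hom_eval₂]
    congr 1
  have h2 : MvPolynomial.aeval f g = fun k => MvPolynomial.aeval (fun i => f i k) g := by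
    funext k
    have : (MvPolynomial.aeval f g) k = Pi.evalRingHom (fun _ : ℕ => K) k (MvPolynomial.aeval f g) := rfl
    rw [this, MvPolynomial.aeval_def, MvPolynomial.aeval_def, MvPolynomial.hom_eval₂]
    congr 1
  rw [h1, h2]
  rfl

theorem evt_ge (n : ℕ) : evt fun k => n ≤ k := by
  have h : ∀ᶠ k in Filter.atTop, n ≤ k := Filter.eventually_ge_atTop n
  rw [← Nat.cofinite_eq_atTop] at h
  exact Filter.hyperfilter_le_cofinite h

/-- Partial elementary maps of the pure field are partial elementary maps for a field with an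
additional preserved predicate. -/
theorem tp_pred (hF : TpForthStmt.{u}) (hC : FieldCloseStmt.{u}) {K : Type u} [Field K]
    (P : Set (UP K))
    (hP : ∀ T : Set (UP K × UP K), T.Countable → Tp (pureRS K).up (pureRS K).up T →
      ∀ p ∈ T, (p.1 ∈ P ↔ p.2 ∈ P)) (T : Set (UP K × UP K)) (hTc : T.Countable)
    (hT : Tp (pureRS K).up (pureRS K).up T) : Tp (fieldRS ![P]) (fieldRS ![P]) T := by
  refine karp (fun L => L.Countable ∧ Tp (pureRS K).up (pureRS K).up L) ?_ ?_ ?_ T ⟨hTc, hT⟩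
  · rintro L ⟨hLc, hL⟩
    have hat := hL
    rw [pureRS_up] at hat
    replace hat := hat.atomic
    intro j t ht
    cases j with
    | add => exact hat FJ.add t ht
    | mul => exact hat FJ.mul t ht
    | eq => exact hat FJ.eq t ht
    | pr i =>
      have hi : i = 0 := Subsingleton.elim _ _
      subst hi
      exact hP L hLc hL _ (ht (0 : Fin 1))
  · rintro L ⟨hLc, hL⟩ c
    obtain ⟨T', h1, h2, h3, h4, y, hy⟩ := ext_fst hF hC hLc hL c
    exact ⟨y, T', ⟨h2, h4⟩, h1, hy⟩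
  · rintro L ⟨hLc, hL⟩ c
    obtain ⟨T', h1, h2, h3, h4, y, hy⟩ := ext_snd hF hC hLc hL c
    exact ⟨y, T', ⟨h2, h4⟩, h1, hy⟩

end H40D

theorem decomp (hLos : LosStmt.{u, u}) (hF : TpForthStmt.{u}) (hC : FieldCloseStmt.{u})
    (hOinf : OinfStmt.{u}) (hCase0 : Case0LemmaStmt.{u}) : DecompStmt.{u} := by
  classical
  intro K _ O hO hR hac r t D hD
  by_contra hcon
  push Not at hcon
  have hcount : Countable (MvPolynomial (Fin r) ℤ) := by
    rw [← Cardinal.mk_le_aleph0_iff]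
    exact (MvPolynomial.cardinalMk_le_max).trans (by simp)
  obtain ⟨e, he⟩ := exists_surjective_nat (MvPolynomial (Fin r) ℤ × MvPolynomial (Fin r) ℤ)
  choose z w hEF hL hne using fun m : ℕ => hcon m ((Finset.range m).image e)
  set x : Fin r → UP K := fun i => ((fun k => z k i : ℕ → K) : UP K) with hx
  set y : Fin r → UP K := fun i => ((fun k => w k i : ℕ → K) : UP K) with hy
  have h1 : ∀ n, EF (pureRS K).up (pureRS K).up n r x y := by
    intro n
    rw [hx, hy, hLos]
    exact (H40D.evt_ge n).mono fun k hk => (hEF k).mono hk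
  have h2 : ∀ g h : MvPolynomial (Fin r) ℤ,
      ((upVS O).valuation (MvPolynomial.aeval x g) ≤ (upVS O).valuation (MvPolynomial.aeval x h) ↔
      (upVS O).valuation (MvPolynomial.aeval y g) ≤ (upVS O).valuation (MvPolynomial.aeval y h)) := by
    intro g h
    obtain ⟨n, hn⟩ := he (g, h)
    rw [hx, hy, H40D.aeval_up, H40D.aeval_up, H40D.aeval_up, H40D.aeval_up, upVS_le, upVS_le,
      ← evt_iff]
    refine (H40D.evt_ge (n + 1)).mono fun k hk => ?_
    have := hL k (g, h) (Finset.mem_image.2 ⟨n, Finset.mem_range.2 hk, hn⟩)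
    exact this
  obtain ⟨O', hO'1, hO'2, hO'3⟩ := hOinf (UP K) (upVS O) (upVS_hens hO) (upVS_res0 hR)
    (H40D.up_algClosed O hac)
  have h3 : Tp (pureRS K).up (pureRS K).up (Set.range fun i => (x i, y i)) := Tp.of_forall h1
  have h4 : Tp (fieldRS ![(O' : Set (UP K))]) (fieldRS ![(O' : Set (UP K))])
      (Set.range fun i => (x i, y i)) := by
    refine H40D.tp_pred hF hC _ ?_ _ (Set.countable_range _) h3
    intro T hTc hT p hp
    rw [hO'1]
    constructor
    · intro h q hq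
      exact (oqTp hF hC K q T hTc hT p hp).1 (h q hq)
    · intro h q hq
      exact (oqTp hF hC K q T hTc hT p hp).2 (h q hq)
  have h5 : ∀ n, EF (fieldRS ![(O' : Set (UP K))]) (fieldRS ![(O' : Set (UP K))]) n r x y :=
    fun n => h4 n r (fun i => (x i, y i)) fun i => ⟨i, rfl⟩
  have h6 := hCase0 (UP K) (upVS O) O' hO'2 (upVS_hens hO) (upVS_res0 hR)
    (H40D.up_algClosed O hac) hO'3 r x y h5 h2 t
  have h7 : (fieldRS ![(O : Set K)]).up = fieldRS ![((upVS O : ValuationSubring (UP K)) : Set (UP K))] := by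
    rw [fieldRS_up]
    refine congrArg fieldRS ?_
    funext i
    have hi : i = 0 := Subsingleton.elim _ _
    subst hi
    rfl
  rw [← h7, hx, hy, hLos] at h6
  obtain ⟨k, hk⟩ := h6.exists
  have := hD _ _ hk
  have hne' := hne k
  tauto

end Pool.Agent.NF44
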