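import Pool.Agent.NF44.EF

/-!
# Definitions for MP_fb46bb_lc (architect: helper44)

Text of the proof: /team-store/MP_fb46bb_proof44.md.  All ultrapowers are over the hyperfilter on
the natural numbers: `UP X`.
-/

namespace Pool.Agent.NF44

universe u v

/-! ## Signatures: fields and groups with `m` unary predicates -/

inductive FJ (m : ℕ) : Type
  | add : FJ m
  | mul : FJ m
  | eq : FJ m
  | pr : Fin m → FJ m

def FJ.ar {m : ℕ} : FJ m → ℕ
  | .add => 3
  | .mul => 3
  | .eq => 2
  | .pr _ => 1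

theorem FJ.finite (m : ℕ) : Finite (FJ m) := by
  let g : Fin 3 ⊕ Fin m → FJ m := Sum.elim ![FJ.add, FJ.mul, FJ.eq] FJ.pr
  refine Finite.of_surjective g ?_
  intro j
  cases j with
  | add => exact ⟨Sum.inl 0, rfl⟩
  | mul => exact ⟨Sum.inl 1, rfl⟩
  | eq => exact ⟨Sum.inl 2, rfl⟩
  | pr i => exact ⟨Sum.inr i, rfl⟩

/-- Fields with `m` unary predicates. -/
def fieldSig (m : ℕ) : Sig := ⟨FJ m, FJ.ar, FJ.finite m⟩

/-- The field `M` with unary predicates `P i`. -/
def fieldRS {M : Type u} [Field M] {m : ℕ} (P : Fin m → Set M) : RS (fieldSig m) M where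
  R := fun j => match j with
    | .add => fun (x : Fin 3 → M) => x 0 + x 1 = x 2
    | .mul => fun (x : Fin 3 → M) => x 0 * x 1 = x 2
    | .eq => fun (x : Fin 2 → M) => x 0 = x 1
    | .pr i => fun (x : Fin 1 → M) => x 0 ∈ P i

/-- The pure field. -/
abbrev pureRS (M : Type u) [Field M] : RS (fieldSig 0) M := fieldRS (fun i : Fin 0 => i.elim0)

inductive GJ (m : ℕ) : Type
  | mul : GJ m
  | eq : GJ m
  | pr : Fin m → GJ m

def GJ.ar {m : ℕ} : GJ m → ℕ
  | .mul => 3
  | .eq => 2
  | .pr _ => 1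

theorem GJ.finite (m : ℕ) : Finite (GJ m) := by
  let g : Fin 2 ⊕ Fin m → GJ m := Sum.elim ![GJ.mul, GJ.eq] GJ.pr
  refine Finite.of_surjective g ?_
  intro j
  cases j with
  | mul => exact ⟨Sum.inl 0, rfl⟩
  | eq => exact ⟨Sum.inl 1, rfl⟩
  | pr i => exact ⟨Sum.inr i, rfl⟩

/-- Groups with `m` unary predicates. -/
def grpSig (m : ℕ) : Sig := ⟨GJ m, GJ.ar, GJ.finite m⟩

/-- The group `G` with unary predicates `P i`. -/
def grpRS {G : Type u} [Group G] {m : ℕ} (P : Fin m → Set G) : RS (grpSig m) G where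
  R := fun j => match j with
    | .mul => fun (x : Fin 3 → G) => x 0 * x 1 = x 2
    | .eq => fun (x : Fin 2 → G) => x 0 = x 1
    | .pr i => fun (x : Fin 1 → G) => x 0 ∈ P i

/-- All basic relations restricted to tuples from the subset `S` (elements outside `S` become
indistinguishable junk). -/
def RS.restr {σ : Sig} {X : Type u} (A : RS σ X) (S : Set X) : RS σ X where
  R := fun j x => (∀ i, x i ∈ S) ∧ A.R j x

/-! ## Ultrapowers -/

/-- The ultrapower over the natural numbers. -/
abbrev UP (X : Type u) : Type u := (Filter.hyperfilter ℕ : Filter ℕ).Germ X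

/-- Eventually, with respect to the hyperfilter. -/
abbrev evt (p : ℕ → Prop) : Prop := ∀ᶠ k in (Filter.hyperfilter ℕ : Filter ℕ), p k

/-- A representative. -/
noncomputable def rep {X : Type u} (x : UP X) : ℕ → X :=
  Quotient.out (s := Filter.germSetoid (Filter.hyperfilter ℕ : Filter ℕ) X) x

theorem rep_spec {X : Type u} (x : UP X) : ((rep x : ℕ → X) : UP X) = x :=
  Quotient.out_eq (s := Filter.germSetoid (Filter.hyperfilter ℕ : Filter ℕ) X) x

/-- The ultrapower of a relational structure. -/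
noncomputable def RS.up {σ : Sig} {X : Type u} (A : RS σ X) : RS σ (UP X) where
  R := fun j x => evt fun k => A.R j (fun i => rep (x i) k)

/-- The ultrapower of a subset. -/
def upSet {X : Type u} (S : Set X) : Set (UP X) := {x | Filter.Germ.LiftPred (· ∈ S) x}

/-- The ultrapower of a map. -/
noncomputable def upMap {X : Type u} {Y : Type v} (f : X → Y) : UP X → UP Y := Filter.Germ.map f

/-- The ultrapower of a group homomorphism. -/
noncomputable def upHom {E : Type u} {C : Type v} [CommGroup E] [CommGroup C] (f : E →* C) : UP E →* UP C where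
  toFun := upMap f
  map_one' := by
    change Filter.Germ.map f ((fun _ => 1 : ℕ → E) : UP E) = _
    rw [Filter.Germ.map_coe]
    refine congrArg _ ?_
    funext k
    simp
  map_mul' := by
    intro x y
    induction x using Filter.Germ.inductionOn with
    | _ x =>
    induction y using Filter.Germ.inductionOn with
    | _ y =>
    change Filter.Germ.map f ((x * y : ℕ → E) : UP E) =
      Filter.Germ.map f (x : UP E) * Filter.Germ.map f (y : UP E)
    rw [Filter.Germ.map_coe, Filter.Germ.map_coe, Filter.Germ.map_coe, ← Filter.Germ.coe_mul]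
    refine congrArg _ ?_
    funext k
    simp

/-- Internal predicates on families of elements of an ultrapower. -/
def Internal {ι : Type*} {X : Type u} (P : (ι → UP X) → Prop) : Prop :=
  ∃ p : ℕ → (ι → X) → Prop, ∀ f : ι → ℕ → X,
    P (fun i => (f i : UP X)) ↔ evt fun k => p k (fun i => f i k)

/-! ## Notions of type for commutative groups -/

/-- `P` is a notion of `same type` for (countable) sets of pairs of elements of `D ⊆ G`. -/
structure IsTypeProp {G : Type u} [CommGroup G] (D : Set G) (P : Set (G × G) → Prop) : Prop where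
  sub : ∀ L, P L → ∀ p ∈ L, p.1 ∈ D ∧ p.2 ∈ D
  mono : ∀ L L', P L → L' ⊆ L → P L'
  swap : ∀ L, P L → P (Prod.swap ⁻¹' L)
  forth : ∀ L, P L → L.Countable → ∀ S : Set G, S ⊆ D → S.Countable →
    ∃ L', L ⊆ L' ∧ L'.Countable ∧ P L' ∧ ∀ x ∈ S, ∃ y, (x, y) ∈ L'
  mul : ∀ L, P L → ∀ a a' b b' c' : G, (a, a') ∈ L → (b, b') ∈ L → (a * b, c') ∈ L → c' = a' * b'

/-- Good countable groups of pairs for an exact sequence `ker π → E → C` (in the ultrapower). -/
structure Good {E C : Type u} [CommGroup E] [CommGroup C] (π : E →* C)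
    (PA : Set (UP E × UP E) → Prop) (PC : Set (UP C × UP C) → Prop)
    (L : Subgroup (UP E × UP E)) : Prop where
  countable : (L : Set (UP E × UP E)).Countable
  ker : ∀ p ∈ L, (upHom π p.1 = 1 ↔ upHom π p.2 = 1)
  a : PA {p | p ∈ L ∧ upHom π p.1 = 1}
  c : PC {q | ∃ p ∈ L, q = (upHom π p.1, upHom π p.2)}
  pure1 : ∀ p ∈ L, ∀ (g : UP C) (n : ℕ), 0 < n → g ^ n = upHom π p.1 → ∃ s ∈ L, upHom π s.1 = g
  pure2 : ∀ p ∈ L, ∀ (g : UP C) (n : ℕ), 0 < n → g ^ n = upHom π p.2 → ∃ s ∈ L, upHom π s.2 = g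

/-! ## Valuations -/

/-- Henselian, in the form with special polynomials `X^(d+1) + X^d + ∑ a_i X^i`. -/
def Hens {M : Type u} [Field M] (O : ValuationSubring M) : Prop :=
  ∀ (d : ℕ) (a : Fin d → M), (∀ i, O.valuation (a i) < 1) →
    ∃ z : M, O.valuation (z + 1) < 1 ∧ z ^ (d + 1) + z ^ d + ∑ i : Fin d, a i * z ^ (i : ℕ) = 0

/-- Residue characteristic zero. -/
def Res0 {M : Type u} [Field M] (O : ValuationSubring M) : Prop :=
  ∀ n : ℕ, n ≠ 0 → (n : M) ≠ 0 ∧ ((n : M))⁻¹ ∈ O

/-- The leading term group `M^* / (1 + m)`. -/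
def RVg {M : Type u} [Field M] (O : ValuationSubring M) : Type u := Mˣ ⧸ O.principalUnitGroup

noncomputable instance {M : Type u} [Field M] (O : ValuationSubring M) : CommGroup (RVg O) :=
  inferInstanceAs (CommGroup (Mˣ ⧸ O.principalUnitGroup))

/-- The value group `M^* / O^*` (written multiplicatively). -/
def VGg {M : Type u} [Field M] (O : ValuationSubring M) : Type u := Mˣ ⧸ O.unitGroup

noncomputable instance {M : Type u} [Field M] (O : ValuationSubring M) : CommGroup (VGg O) :=
  inferInstanceAs (CommGroup (Mˣ ⧸ O.unitGroup))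

/-- The leading term of a unit of `M`. -/
noncomputable def rvMk {M : Type u} [Field M] (O : ValuationSubring M) : Mˣ →* RVg O :=
  QuotientGroup.mk' O.principalUnitGroup

/-- The value of a unit of `M`. -/
noncomputable def vgMk {M : Type u} [Field M] (O : ValuationSubring M) : Mˣ →* VGg O :=
  QuotientGroup.mk' O.unitGroup

theorem rvMk_surjective {M : Type u} [Field M] (O : ValuationSubring M) :
    Function.Surjective (rvMk O) :=
  QuotientGroup.mk'_surjective O.principalUnitGroup

theorem vgMk_surjective {M : Type u} [Field M] (O : ValuationSubring M) :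
    Function.Surjective (vgMk O) :=
  QuotientGroup.mk'_surjective O.unitGroup

theorem rvMk_eq_one {M : Type u} [Field M] (O : ValuationSubring M) (x : Mˣ) :
    rvMk O x = 1 ↔ O.valuation ((x : M) - 1) < 1 := by
  have h : rvMk O x = 1 ↔ x ∈ O.principalUnitGroup :=
    QuotientGroup.eq_one_iff (N := O.principalUnitGroup) x
  rw [h, ValuationSubring.mem_principalUnitGroup_iff]

theorem rvMk_eq {M : Type u} [Field M] (O : ValuationSubring M) (x y : Mˣ) :
    rvMk O x = rvMk O y ↔ O.valuation ((x : M) / (y : M) - 1) < 1 := by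
  have h : rvMk O x = rvMk O y ↔ rvMk O (x / y) = 1 := by
    rw [map_div, div_eq_one]
  rw [h, rvMk_eq_one, Units.val_div_eq_div_val]

theorem vgMk_eq_one {M : Type u} [Field M] (O : ValuationSubring M) (x : Mˣ) :
    vgMk O x = 1 ↔ O.valuation (x : M) = 1 := by
  have h : vgMk O x = 1 ↔ x ∈ O.unitGroup := QuotientGroup.eq_one_iff (N := O.unitGroup) x
  rw [h, ValuationSubring.mem_unitGroup_iff]

theorem vgMk_eq {M : Type u} [Field M] (O : ValuationSubring M) (x y : Mˣ) :
    vgMk O x = vgMk O y ↔ O.valuation (x : M) = O.valuation (y : M) := by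
  have h : vgMk O x = vgMk O y ↔ vgMk O (x / y) = 1 := by
    rw [map_div, div_eq_one]
  rw [h, vgMk_eq_one, Units.val_div_eq_div_val, map_div₀, div_eq_one_iff_eq]
  exact (Valuation.ne_zero_iff _).2 y.ne_zero

open scoped Classical in
/-- The leading term (junk value 1 at 0). -/
noncomputable def rv {M : Type u} [Field M] (O : ValuationSubring M) (x : M) : RVg O :=
  if h : x = 0 then 1 else rvMk O (Units.mk0 x h)

open scoped Classical in
/-- The value (junk value 1 at 0). -/
noncomputable def vg {M : Type u} [Field M] (O : ValuationSubring M) (x : M) : VGg O :=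
  if h : x = 0 then 1 else vgMk O (Units.mk0 x h)

theorem rv_of_ne {M : Type u} [Field M] (O : ValuationSubring M) {x : M} (h : x ≠ 0) :
    rv O x = rvMk O (Units.mk0 x h) := dif_neg h

theorem vg_of_ne {M : Type u} [Field M] (O : ValuationSubring M) {x : M} (h : x ≠ 0) :
    vg O x = vgMk O (Units.mk0 x h) := dif_neg h

theorem rv_unit {M : Type u} [Field M] (O : ValuationSubring M) (x : Mˣ) :
    rv O (x : M) = rvMk O x := by
  rw [rv_of_ne O x.ne_zero]; congr 1; ext; rfl

theorem vg_unit {M : Type u} [Field M] (O : ValuationSubring M) (x : Mˣ) :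
    vg O (x : M) = vgMk O x := by
  rw [vg_of_ne O x.ne_zero]; congr 1; ext; rfl

theorem rv_mul {M : Type u} [Field M] (O : ValuationSubring M) {x y : M} (hx : x ≠ 0)
    (hy : y ≠ 0) : rv O (x * y) = rv O x * rv O y := by
  rw [rv_of_ne O hx, rv_of_ne O hy, rv_of_ne O (mul_ne_zero hx hy), ← map_mul]
  congr 1; ext; rfl

theorem vg_mul {M : Type u} [Field M] (O : ValuationSubring M) {x y : M} (hx : x ≠ 0)
    (hy : y ≠ 0) : vg O (x * y) = vg O x * vg O y := by
  rw [vg_of_ne O hx, vg_of_ne O hy, vg_of_ne O (mul_ne_zero hx hy), ← map_mul]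
  congr 1; ext; rfl

theorem rv_inv {M : Type u} [Field M] (O : ValuationSubring M) (x : M) :
    rv O x⁻¹ = (rv O x)⁻¹ := by
  by_cases hx : x = 0
  · subst hx; simp [rv]
  · rw [rv_of_ne O hx, rv_of_ne O (inv_ne_zero hx), ← map_inv]
    congr 1; ext; simp

theorem vg_inv {M : Type u} [Field M] (O : ValuationSubring M) (x : M) :
    vg O x⁻¹ = (vg O x)⁻¹ := by
  by_cases hx : x = 0
  · subst hx; simp [vg]
  · rw [vg_of_ne O hx, vg_of_ne O (inv_ne_zero hx), ← map_inv]
    congr 1; ext; simp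

theorem rv_eq_iff {M : Type u} [Field M] (O : ValuationSubring M) {x y : M} (hx : x ≠ 0)
    (hy : y ≠ 0) : rv O x = rv O y ↔ O.valuation (x / y - 1) < 1 := by
  rw [rv_of_ne O hx, rv_of_ne O hy, rvMk_eq]; rfl

theorem vg_eq_iff {M : Type u} [Field M] (O : ValuationSubring M) {x y : M} (hx : x ≠ 0)
    (hy : y ≠ 0) : vg O x = vg O y ↔ O.valuation x = O.valuation y := by
  rw [vg_of_ne O hx, vg_of_ne O hy, vgMk_eq]; rfl

theorem rv_surj {M : Type u} [Field M] (O : ValuationSubring M) (r : RVg O) :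
    ∃ x : M, x ≠ 0 ∧ rv O x = r := by
  obtain ⟨x, rfl⟩ := rvMk_surjective O r
  exact ⟨x, x.ne_zero, rv_unit O x⟩

theorem vg_surj {M : Type u} [Field M] (O : ValuationSubring M) (r : VGg O) :
    ∃ x : M, x ≠ 0 ∧ vg O x = r := by
  obtain ⟨x, rfl⟩ := vgMk_surjective O r
  exact ⟨x, x.ne_zero, vg_unit O x⟩

/-- `RVg O → VGg O`. -/
noncomputable def piV {M : Type u} [Field M] (O : ValuationSubring M) : RVg O →* VGg O :=
  QuotientGroup.map O.principalUnitGroup O.unitGroup (MonoidHom.id _)
    (fun _ hx => O.principal_units_le_units hx)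

/-- `VGg O₁ → VGg O₂` for `O₁ ≤ O₂`. -/
noncomputable def vmap {M : Type u} [Field M] {O₁ O₂ : ValuationSubring M} (h : O₁ ≤ O₂) : VGg O₁ →* VGg O₂ :=
  QuotientGroup.map O₁.unitGroup O₂.unitGroup (MonoidHom.id _)
    (fun _ hx => ValuationSubring.unitGroup_le_unitGroup.2 h hx)

theorem piV_mk {M : Type u} [Field M] (O : ValuationSubring M) (x : Mˣ) :
    piV O (rvMk O x) = vgMk O x := rfl

theorem vmap_mk {M : Type u} [Field M] {O₁ O₂ : ValuationSubring M} (h : O₁ ≤ O₂) (x : Mˣ) :
    vmap h (vgMk O₁ x) = vgMk O₂ x := rfl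

theorem piV_rv {M : Type u} [Field M] (O : ValuationSubring M) (x : M) :
    piV O (rv O x) = vg O x := by
  by_cases hx : x = 0
  · subst hx; simp [rv, vg]
  · rw [rv_of_ne O hx, vg_of_ne O hx, piV_mk]

theorem vmap_vg {M : Type u} [Field M] {O₁ O₂ : ValuationSubring M} (h : O₁ ≤ O₂) (x : M) :
    vmap h (vg O₁ x) = vg O₂ x := by
  by_cases hx : x = 0
  · subst hx; simp [vg]
  · rw [vg_of_ne O₁ hx, vg_of_ne O₂ hx, vmap_mk]

/-- The residue of a leading term of value 0 (junk value 0 otherwise). -/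
noncomputable def resk {M : Type u} [Field M] (O : ValuationSubring M) (x : M) :
    IsLocalRing.ResidueField O :=
  open scoped Classical in
  if h : x ∈ O then IsLocalRing.residue O ⟨x, h⟩ else 0

open scoped Classical in
/-- The residue of a leading term of value 0 (junk value 0 otherwise). -/
noncomputable def rk {M : Type u} [Field M] (O : ValuationSubring M) (r : RVg O) :
    IsLocalRing.ResidueField O :=
  if piV O r = 1 then resk O (Classical.choose (rv_surj O r)) else 0

theorem resk_congr {M : Type u} [Field M] (O : ValuationSubring M) {x y : M} (hx : x ≠ 0)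
    (hy : y ≠ 0) (h : rv O x = rv O y) (hx1 : O.valuation x = 1) : resk O x = resk O y := by
  rw [rv_eq_iff O hx hy] at h
  have hyv : O.valuation y = 1 := by
    rw [← hx1]
    have h1 : O.valuation (x / y) = 1 := by
      have h2 : x / y = (x / y - 1) + 1 := by ring
      rw [h2, add_comm]
      rw [Valuation.map_add_eq_of_lt_left _ (by simpa using h)]
      simp
    rw [map_div₀, div_eq_one_iff_eq ((Valuation.ne_zero_iff _).2 hy)] at h1
    exact h1.symm
  have hxO : x ∈ O := (O.valuation_le_one_iff x).1 hx1.le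
  have hyO : y ∈ O := (O.valuation_le_one_iff y).1 hyv.le
  rw [resk, resk, dif_pos hxO, dif_pos hyO]
  rw [← sub_eq_zero, ← map_sub, IsLocalRing.residue_eq_zero_iff,
    ValuationSubring.valuation_lt_one_iff]
  have h3 : (((⟨x, hxO⟩ : O) - ⟨y, hyO⟩ : O) : M) = (x / y - 1) * y := by
    push_cast
    field_simp
  rw [h3, map_mul, hyv, mul_one]
  exact h

theorem rk_rv {M : Type u} [Field M] (O : ValuationSubring M) {x : M}
    (hx : O.valuation x = 1) : rk O (rv O x) = resk O x := by
  have hx0 : x ≠ 0 := by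
    rintro rfl
    simp at hx
  have h1 : piV O (rv O x) = 1 := by
    rw [piV_rv, vg_of_ne O hx0, vgMk_eq_one]
    exact hx
  rw [rk, if_pos h1]
  have hc := Classical.choose_spec (rv_surj O (rv O x))
  exact (resk_congr O hx0 hc.1 hc.2.symm hx).symm

/-- The elements of `VGg O` represented by elements of `O'`. -/
def vset {M : Type u} [Field M] (O O' : ValuationSubring M) : Set (VGg O) :=
  {g | ∃ x : Mˣ, (x : M) ∈ O' ∧ vgMk O x = g}

theorem vg_mem_vset {M : Type u} [Field M] {O O' : ValuationSubring M} (h : O ≤ O') {x : M}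
    (hx : x ≠ 0) : vg O x ∈ vset O O' ↔ x ∈ O' := by
  constructor
  · rintro ⟨y, hy, hyx⟩
    rw [vg_of_ne O hx, vgMk_eq] at hyx
    have h1 : x / (y : M) ∈ O := by
      rw [← O.valuation_le_one_iff, map_div₀, hyx]
      exact le_of_eq (div_self ((Valuation.ne_zero_iff _).2 hx))
    have h2 : x = x / (y : M) * y := by
      field_simp
    rw [h2]
    exact O'.mul_mem _ _ (h h1) hy
  · intro hxO
    exact ⟨Units.mk0 x hx, hxO, (vg_of_ne O hx).symm⟩

/-- The value group with the predicates given by the valuation rings `Os i` (all containing `O`). -/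
noncomputable def vgRS {M : Type u} [Field M] (O : ValuationSubring M) {m : ℕ}
    (Os : Fin m → ValuationSubring M) : RS (grpSig m) (VGg O) :=
  grpRS (fun i => vset O (Os i))

/-- Graph of an isomorphism between subfields. -/
structure IsFieldGraph {M : Type u} [Field M] (G : Set (M × M)) : Prop where
  one : ((1 : M), (1 : M)) ∈ G
  add : ∀ p ∈ G, ∀ q ∈ G, (p.1 + q.1, p.2 + q.2) ∈ G
  neg : ∀ p ∈ G, (-p.1, -p.2) ∈ G
  mul : ∀ p ∈ G, ∀ q ∈ G, (p.1 * q.1, p.2 * q.2) ∈ G
  inv : ∀ p ∈ G, (p.1⁻¹, p.2⁻¹) ∈ G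
  zero : ∀ p ∈ G, (p.1 = 0 ↔ p.2 = 0)

/-- The back-and-forth system of the AKE theorem. -/
def Sys {M : Type u} [Field M] (O : ValuationSubring M)
    (PA : Set (UP (RVg O) × UP (RVg O)) → Prop) (PC : Set (UP (VGg O) × UP (VGg O)) → Prop)
    (G : Set (UP M × UP M)) : Prop :=
  G.Countable ∧ IsFieldGraph G ∧ ∃ L : Subgroup (UP (RVg O) × UP (RVg O)),
    Good (piV O) PA PC L ∧
    ∀ p ∈ G, p.1 ≠ 0 → (upMap (rv O) p.1, upMap (rv O) p.2) ∈ L

/-- An abstract relation `ρ z z'`: the leading term of `z` is mapped to the leading term of `z'`. -/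
structure RvRel {M : Type u} [Field M] (O : ValuationSubring M) (ρ : M → M → Prop) : Prop where
  ne : ∀ z z', ρ z z' → z ≠ 0 ∧ z' ≠ 0
  mul : ∀ z z' w w', ρ z z' → ρ w w' → ρ (z * w) (z' * w')
  inv : ∀ z z', ρ z z' → ρ z⁻¹ z'⁻¹
  int : ∀ z z', ρ z z' → (z ∈ O ↔ z' ∈ O)
  lin : ∀ (r : ℕ) (z z' : Fin r → M) (n : Fin r → ℤ), (∀ i, ρ (z i) (z' i)) →
    (∀ i, O.valuation (z i) = 1) →
    (O.valuation (∑ i, (n i : M) * z i) < 1 ↔ O.valuation (∑ i, (n i : M) * z' i) < 1)
  congr : ∀ z z' z'', ρ z z' → O.valuation (z'' / z' - 1) < 1 → ρ z z''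

/-! ## Semantic NIP_n -/

/-- The tuple `(x, y_1, ..., y_n)`. -/
def tup {X : Type u} {a b n : ℕ} (x : Fin a → X) (y : Fin n → Fin b → X) : Fin (a + n * b) → X :=
  Fin.append x (fun i => y (finProdFinEquiv.symm i).1 (finProdFinEquiv.symm i).2)

/-- The relation `D` (on tuples of length `a + n b`) has an `N`-pattern with all elements in `S`. -/
def HasPattern {X : Type u} (n a b N : ℕ) (S : Set X) (D : Set (Fin (a + n * b) → X)) : Prop :=
  ∃ (y : Fin n → Fin N → Fin b → X) (x : Set (Fin n → Fin N) → Fin a → X),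
    (∀ k i j, y k i j ∈ S) ∧ (∀ s j, x s j ∈ S) ∧
    ∀ (s : Set (Fin n → Fin N)) (i : Fin n → Fin N), tup (x s) (fun k => y k (i k)) ∈ D ↔ i ∈ s

/-- Semantic form of NIP_n for a relational structure: relations that are unions of `EF t` classes
have bounded patterns. -/
def SNIP {σ : Sig} {X : Type u} (A : RS σ X) (n : ℕ) : Prop :=
  ∀ (a b t : ℕ) (D : Set (Fin (a + n * b) → X)),
    (∀ z w, EF A A t (a + n * b) z w → (z ∈ D ↔ w ∈ D)) →
    ∃ N, ¬ HasPattern n a b N Set.univ D

end Pool.Agent.NF44
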