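import Pool.Agent.NF44.Stmts2

/-!
# Extension of homomorphisms over a divisible kernel; divisible hulls
-/

namespace Pool.Agent.NF44

universe u

theorem divExt : DivExtStmt.{u} := by
  classical
  intro U V C _ _ _ π hdiv R φ G hG hφ
  let S : Set (Subgroup (U × V)) := {Γ | (∀ p ∈ Γ, π p.2 = G p.1) ∧ ∀ p ∈ Γ, p.1 = 1 → p.2 = 1}
  have h0 : (R.subtype.prod φ).range ∈ S := by
    constructor
    · rintro _ ⟨r, rfl⟩
      exact hφ r
    · rintro _ ⟨r, rfl⟩ hr
      have : r = 1 := Subtype.ext hr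
      subst this
      exact map_one φ
  obtain ⟨Γ, hle, hmax⟩ := zorn_le_nonempty₀ S (by
    intro c hc hchain y hy
    refine ⟨sSup c, ⟨?_, ?_⟩, fun z hz => le_sSup hz⟩
    · intro p hp
      obtain ⟨Δ, hΔ, hpΔ⟩ := (Subgroup.mem_sSup_of_directedOn ⟨y, hy⟩ hchain.directedOn).1 hp
      exact (hc hΔ).1 p hpΔ
    · intro p hp
      obtain ⟨Δ, hΔ, hpΔ⟩ := (Subgroup.mem_sSup_of_directedOn ⟨y, hy⟩ hchain.directedOn).1 hp
      exact (hc hΔ).2 p hpΔ) _ h0
  have hΓ1 : ∀ p ∈ Γ, π p.2 = G p.1 := hmax.prop.1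
  have hΓ2 : ∀ p ∈ Γ, p.1 = 1 → p.2 = 1 := hmax.prop.2
  have huniq : ∀ u v w, (u, v) ∈ Γ → (u, w) ∈ Γ → v = w := by
    intro u v w hv hw
    have h1 : (u, v) / (u, w) ∈ Γ := Γ.div_mem hv hw
    have h2 := hΓ2 _ h1 (by simp)
    simpa [div_eq_one] using h2
  have hdom : ∀ u, ∃ v, (u, v) ∈ Γ := by
    intro u
    by_contra hu
    have hext : ∀ v, π v = G u → (∀ (k : ℤ) (b : V), (u ^ k, b) ∈ Γ → b = v ^ k) → False := by
      intro v hv hk
      have hS : Γ ⊔ Subgroup.zpowers (u, v) ∈ S := by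
        constructor
        · intro p hp
          obtain ⟨a, ha, b, hb, rfl⟩ := Subgroup.mem_sup.1 hp
          obtain ⟨k, rfl⟩ := Subgroup.mem_zpowers_iff.1 hb
          simp [hΓ1 a ha, hv]
        · intro p hp h1
          obtain ⟨a, ha, b, hb, rfl⟩ := Subgroup.mem_sup.1 hp
          obtain ⟨k, rfl⟩ := Subgroup.mem_zpowers_iff.1 hb
          have h2 : a.1 * u ^ k = 1 := by simpa using h1
          have h3 : (u ^ k, a.2⁻¹) ∈ Γ := by
            have h4 : a⁻¹ ∈ Γ := Γ.inv_mem ha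
            have h5 : a⁻¹ = (u ^ k, a.2⁻¹) := by
              ext
              · change a.1⁻¹ = u ^ k
                exact inv_eq_of_mul_eq_one_right h2
              · rfl
            rwa [h5] at h4
          have h6 := hk k _ h3
          change a.2 * v ^ k = 1
          rw [← h6]
          simp
      have hlt := hmax.le_of_ge hS le_sup_left
      exact hu ⟨v, hlt ((le_sup_right : Subgroup.zpowers (u, v) ≤ _)
        (Subgroup.mem_zpowers (u, v)))⟩
    obtain ⟨v, hv⟩ := hG u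
    by_cases hn : ∃ n : ℕ, 0 < n ∧ ∃ b, (u ^ n, b) ∈ Γ
    · obtain ⟨hn0, b, hb⟩ := Nat.find_spec hn
      set n := Nat.find hn with hndef
      have hmin : ∀ m < n, 0 < m → ∀ b', (u ^ m, b') ∉ Γ := by
        intro m hm hm0 b' hb'
        exact Nat.find_min hn hm ⟨hm0, b', hb'⟩
      have h1 : π (b / v ^ n) = 1 := by
        rw [map_div, map_pow, hv, hΓ1 _ hb, map_pow, div_self']
      obtain ⟨w, hw1, hw2⟩ := hdiv (b / v ^ n) n hn0 h1
      refine hext (v * w) (by rw [map_mul, hv, hw1, mul_one]) ?_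
      have hvw : (v * w) ^ n = b := by
        rw [mul_pow, hw2, mul_div_cancel]
      intro k b' hb'
      have hr0 : (k % (n : ℤ)) = 0 := by
        have hn' : (0 : ℤ) < n := by exact_mod_cast hn0
        have h2 := Int.emod_nonneg k hn'.ne'
        have h3 := Int.emod_lt_of_pos k hn'
        by_contra hne
        obtain ⟨m, hm⟩ := Int.eq_ofNat_of_zero_le h2
        have hm1 : m < n := by
          have : (m : ℤ) < n := by rw [← hm]; exact h3
          exact_mod_cast this
        have hm0 : 0 < m := by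
          rcases Nat.eq_zero_or_pos m with h | h
          · exact absurd (by rw [hm, h]; rfl) hne
          · exact h
        have h4 : (u ^ k, b') * ((u ^ n, b) ^ (k / (n : ℤ)))⁻¹ ∈ Γ :=
          Γ.mul_mem hb' (Γ.inv_mem (Γ.zpow_mem hb _))
        have h5 : (u ^ k, b') * ((u ^ n, b) ^ (k / (n : ℤ)))⁻¹ =
            (u ^ m, b' * (b ^ (k / (n : ℤ)))⁻¹) := by
          ext
          · change u ^ k * ((u ^ n) ^ (k / (n : ℤ)))⁻¹ = u ^ m
            rw [← zpow_natCast u n, ← zpow_mul, ← zpow_neg, ← zpow_add, ← zpow_natCast u m]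
            congr 1
            have := Int.emod_add_mul_ediv k n
            have h9 : ((m : ℕ) : ℤ) = k % (n : ℤ) := hm.symm
            rw [h9]
            omega
          · rfl
        rw [h5] at h4
        exact hmin m hm1 hm0 _ h4
      obtain ⟨q, hq⟩ := Int.dvd_of_emod_eq_zero hr0
      refine huniq (u ^ k) _ _ hb' ?_
      have h6 : (u ^ n, b) ^ q ∈ Γ := Γ.zpow_mem hb q
      have h7 : (u ^ n, b) ^ q = (u ^ k, (v * w) ^ k) := by
        ext
        · change (u ^ n) ^ q = u ^ k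
          rw [hq, zpow_mul, zpow_natCast]
        · change b ^ q = (v * w) ^ k
          rw [hq, zpow_mul, zpow_natCast, hvw]
      rwa [h7] at h6
    · refine hext v hv ?_
      intro k b hb
      have hk : k = 0 := by
        by_contra hk
        rcases lt_or_gt_of_ne hk with h | h
        · obtain ⟨m, hm⟩ := Int.eq_ofNat_of_zero_le (show 0 ≤ -k by omega)
          refine hn ⟨m, by omega, b⁻¹, ?_⟩
          have h1 := Γ.inv_mem hb
          have h2 : ((u ^ k, b) : U × V)⁻¹ = (u ^ m, b⁻¹) := by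
            ext
            · change (u ^ k)⁻¹ = u ^ m
              rw [← zpow_neg, hm, zpow_natCast]
            · rfl
          rwa [h2] at h1
        · obtain ⟨m, hm⟩ := Int.eq_ofNat_of_zero_le (show 0 ≤ k by omega)
          refine hn ⟨m, by omega, b, ?_⟩
          rw [hm, zpow_natCast] at hb
          exact hb
      subst hk
      rw [zpow_zero] at hb ⊢
      exact hΓ2 _ hb rfl
  choose ψ hψ using hdom
  refine ⟨MonoidHom.mk' ψ ?_, ?_, ?_⟩
  · intro a b
    exact huniq _ _ _ (hψ (a * b)) (Γ.mul_mem (hψ a) (hψ b))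
  · intro r
    exact huniq _ _ _ (hψ r) (hle ⟨r, rfl⟩)
  · intro u
    exact hΓ1 _ (hψ u)

theorem de_grp_rel {G : Type u} [CommGroup G] {m : ℕ} {P : Fin m → Set G}
    {L : Set (UP G × UP G)} (h : Tp (grpRS P).up (grpRS P).up L) :
    (∀ a ∈ L, ∀ b ∈ L, ∀ c ∈ L, (a.1 * b.1 = c.1 ↔ a.2 * b.2 = c.2)) ∧
    (∀ a ∈ L, ∀ b ∈ L, (a.1 = b.1 ↔ a.2 = b.2)) := by
  rw [grpRS_up] at h
  have h1 := h.atomic
  refine ⟨?_, ?_⟩
  · intro a ha b hb c hc
    have := h1 GJ.mul (![a, b, c] : Fin 3 → UP G × UP G) (by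
      intro i
      refine Fin.cases ?_ (fun i => Fin.cases ?_ (fun i => Fin.cases ?_ (fun i => i.elim0) i) i) i
      · exact ha
      · exact hb
      · exact hc)
    exact this
  · intro a ha b hb
    have := h1 GJ.eq (![a, b] : Fin 2 → UP G × UP G) (by
      intro i
      refine Fin.cases ?_ (fun i => Fin.cases ?_ (fun i => i.elim0) i) i
      · exact ha
      · exact hb)
    exact this

theorem de_up_torsion_free {G : Type u} [CommGroup G]
    (ht : ∀ (c : G) (n : ℕ), 0 < n → c ^ n = 1 → c = 1) (c : UP G) (n : ℕ) (hn : 0 < n)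
    (h : c ^ n = 1) : c = 1 := by
  induction c using up_ind with | _ f => ?_
  have h1 : evt fun k => f k ^ n = 1 := (up_eq _ _).1 h
  exact (up_eq _ _).2 (h1.mono fun k hk => ht _ n hn hk)

theorem hull (hF : TpForthStmt.{u}) : HullStmt.{u} := by
  intro G _ m P ht L hLc hL L' hL'c hL'
  obtain ⟨L₁, h1, h2, h3, h4⟩ := hF _ G G _ _ L hL hLc
    (⋃ i : ℕ, (fun p : UP G × UP G => p.1 ^ i) '' L')
    (Set.countable_iUnion fun i => hL'c.image _)
  obtain ⟨rmul, req⟩ := de_grp_rel h3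
  refine h3.mono ?_
  intro p hp
  have hpow : ∀ i : ℕ, ∃ y, (p.1 ^ i, y) ∈ L₁ := by
    intro i
    exact h4 _ (Set.mem_iUnion.2 ⟨i, p, hp, rfl⟩)
  obtain ⟨y, hy⟩ := hpow 1
  rw [pow_one] at hy
  have hyi : ∀ i : ℕ, (p.1 ^ i, y ^ i) ∈ L₁ := by
    intro i
    induction i with
    | zero =>
      obtain ⟨z, hz⟩ := hpow 0
      have h5 := (rmul _ hz _ hz _ hz).1 (by simp)
      simp only at h5
      have h6 : z = 1 := by simpa using h5
      rw [h6] at hz
      simpa using hz
    | succ i ih =>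
      obtain ⟨z, hz⟩ := hpow (i + 1)
      have h5 := (rmul _ ih _ hy _ hz).1 (pow_succ _ _).symm
      simp only at h5
      rw [← h5, ← pow_succ] at hz
      exact hz
  obtain ⟨n, hn, hnL⟩ := hL' p hp
  have h6 : y ^ n = p.2 ^ n := (req _ (hyi n) _ (h1 hnL)).1 rfl
  have h7 : (y / p.2) ^ n = 1 := by
    rw [div_pow, h6, div_self']
  have h8 := de_up_torsion_free ht _ n hn h7
  rw [div_eq_one] at h8
  rw [h8] at hy
  exact hy

end Pool.Agent.NF44
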