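import Mathlib

/-!
# Relational structures, finite Ehrenfeucht-Fraisse equivalence, partial elementary maps

`RS σ X`: a relational structure on `X` for the signature `σ` (finitely many symbols).
`EF A B n r a b`: the tuples `a`, `b` (length `r`) cannot be distinguished in the `n` round game.
`Tp A B L`: the set of pairs `L` is a partial elementary map (all finite tuples from `L` are
`EF n` equivalent for all `n`).
-/

namespace Pool.Agent.NF44

universe u v w

/-- A finite relational signature. -/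
structure Sig where
  J : Type
  ar : J → ℕ
  fin : Finite J

/-- A relational structure on `X`. -/
structure RS (σ : Sig) (X : Type u) where
  R : ∀ j : σ.J, (Fin (σ.ar j) → X) → Prop

variable {σ : Sig} {X : Type u} {Y : Type v}

/-- `n` round equivalence of tuples of length `r`. -/
def EF (A : RS σ X) (B : RS σ Y) : ℕ → (r : ℕ) → (Fin r → X) → (Fin r → Y) → Prop
  | 0, r, a, b => ∀ (j : σ.J) (t : Fin (σ.ar j) → Fin r), A.R j (a ∘ t) ↔ B.R j (b ∘ t)
  | n + 1, r, a, b =>
      (∀ c : X, ∃ d : Y, EF A B n (r + 1) (Fin.cons c a) (Fin.cons d b)) ∧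
      (∀ d : Y, ∃ c : X, EF A B n (r + 1) (Fin.cons c a) (Fin.cons d b))

/-- Partial elementary maps, as sets of pairs. -/
def Tp (A : RS σ X) (B : RS σ Y) (L : Set (X × Y)) : Prop :=
  ∀ (n r : ℕ) (t : Fin r → X × Y), (∀ i, t i ∈ L) →
    EF A B n r (fun i => (t i).1) (fun i => (t i).2)

/-- `L` preserves the basic relations. -/
def Atomic (A : RS σ X) (B : RS σ Y) (L : Set (X × Y)) : Prop :=
  ∀ (j : σ.J) (t : Fin (σ.ar j) → X × Y), (∀ i, t i ∈ L) →
    (A.R j (fun i => (t i).1) ↔ B.R j (fun i => (t i).2))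

variable {A : RS σ X} {B : RS σ Y}

theorem cons_comp_cons {Z : Type w} {r s : ℕ} (c : Z) (a : Fin r → Z) (t : Fin s → Fin r) :
    (Fin.cons c a : Fin (r + 1) → Z) ∘ (Fin.cons 0 (Fin.succ ∘ t) : Fin (s + 1) → Fin (r + 1))
      = Fin.cons c (a ∘ t) := by
  funext i
  refine Fin.cases ?_ (fun i => ?_) i
  · simp
  · simp

theorem cons_fst (c : X) (d : Y) {r : ℕ} (t : Fin r → X × Y) :
    (Fin.cons c (fun i => (t i).1) : Fin (r + 1) → X)
      = fun i => ((Fin.cons (c, d) t : Fin (r + 1) → X × Y) i).1 := by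
  funext i; refine Fin.cases ?_ (fun i => ?_) i <;> simp

theorem cons_snd (c : X) (d : Y) {r : ℕ} (t : Fin r → X × Y) :
    (Fin.cons d (fun i => (t i).2) : Fin (r + 1) → Y)
      = fun i => ((Fin.cons (c, d) t : Fin (r + 1) → X × Y) i).2 := by
  funext i; refine Fin.cases ?_ (fun i => ?_) i <;> simp

theorem EF.reindex : ∀ {n r s : ℕ} {a : Fin r → X} {b : Fin r → Y}, EF A B n r a b →
    ∀ t : Fin s → Fin r, EF A B n s (a ∘ t) (b ∘ t)
  | 0, r, s, a, b, h, t => by
      intro j q
      exact h j (t ∘ q)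
  | n + 1, r, s, a, b, h, t => by
      constructor
      · intro c
        obtain ⟨d, hd⟩ := h.1 c
        refine ⟨d, ?_⟩
        have := hd.reindex (Fin.cons 0 (Fin.succ ∘ t) : Fin (s + 1) → Fin (r + 1))
        rwa [cons_comp_cons, cons_comp_cons] at this
      · intro d
        obtain ⟨c, hc⟩ := h.2 d
        refine ⟨c, ?_⟩
        have := hc.reindex (Fin.cons 0 (Fin.succ ∘ t) : Fin (s + 1) → Fin (r + 1))
        rwa [cons_comp_cons, cons_comp_cons] at this

theorem EF.symm : ∀ {n r : ℕ} {a : Fin r → X} {b : Fin r → Y}, EF A B n r a b → EF B A n r b a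
  | 0, _, _, _, h => fun j t => (h j t).symm
  | _ + 1, _, _, _, h => ⟨fun d => (h.2 d).imp fun _ hc => hc.symm,
      fun c => (h.1 c).imp fun _ hd => hd.symm⟩

theorem EF.refl : ∀ (n r : ℕ) (a : Fin r → X), EF A A n r a a
  | 0, _, _ => fun _ _ => Iff.rfl
  | n + 1, r, _ => ⟨fun c => ⟨c, EF.refl n (r + 1) _⟩, fun c => ⟨c, EF.refl n (r + 1) _⟩⟩

theorem EF.trans {Z : Type w} {C : RS σ Z} : ∀ {n r : ℕ} {a : Fin r → X} {b : Fin r → Y}
    {c : Fin r → Z}, EF A B n r a b → EF B C n r b c → EF A C n r a c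
  | 0, _, _, _, _, h, h' => fun j t => (h j t).trans (h' j t)
  | _ + 1, _, _, _, _, h, h' =>
      ⟨fun x => by
        obtain ⟨y, hy⟩ := h.1 x
        obtain ⟨z, hz⟩ := h'.1 y
        exact ⟨z, hy.trans hz⟩,
       fun z => by
        obtain ⟨y, hy⟩ := h'.2 z
        obtain ⟨x, hx⟩ := h.2 y
        exact ⟨x, hx.trans hy⟩⟩

theorem EF.pred [Nonempty X] {n r : ℕ} {a : Fin r → X} {b : Fin r → Y}
    (h : EF A B (n + 1) r a b) : EF A B n r a b := by
  obtain ⟨c⟩ := ‹Nonempty X›
  obtain ⟨d, hd⟩ := h.1 c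
  have := hd.reindex (Fin.succ : Fin r → Fin (r + 1))
  have e1 : (Fin.cons c a : Fin (r + 1) → X) ∘ Fin.succ = a := by
    funext i; simp
  have e2 : (Fin.cons d b : Fin (r + 1) → Y) ∘ Fin.succ = b := by
    funext i; simp
  rwa [e1, e2] at this

theorem EF.mono [Nonempty X] {n m r : ℕ} (hmn : m ≤ n) {a : Fin r → X} {b : Fin r → Y}
    (h : EF A B n r a b) : EF A B m r a b := by
  induction hmn with
  | refl => exact h
  | step _ ih => exact ih h.pred

theorem Tp.mono {L L' : Set (X × Y)} (h : Tp A B L) (hL : L' ⊆ L) : Tp A B L' :=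
  fun n r t ht => h n r t fun i => hL (ht i)

theorem Tp.atomic {L : Set (X × Y)} (h : Tp A B L) : Atomic A B L := by
  intro j t ht
  have := h 0 _ t ht j id
  simpa [Function.comp_def] using this

theorem Tp.swap {L : Set (X × Y)} (h : Tp A B L) : Tp B A (Prod.swap ⁻¹' L) := by
  intro n r t ht
  exact (h n r (fun i => (t i).swap) ht).symm

theorem Tp.refl (L : Set (X × X)) (hL : ∀ p ∈ L, p.1 = p.2) : Tp A A L := by
  intro n r t ht
  have : (fun i => (t i).1) = fun i => (t i).2 := funext fun i => hL _ (ht i)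
  rw [this]
  exact EF.refl n r _

/-- Karp's theorem: a family of sets of pairs which preserves the basic relations and has back and
forth consists of partial elementary maps. -/
theorem karp (S : Set (X × Y) → Prop) (h0 : ∀ L, S L → Atomic A B L)
    (forth : ∀ L, S L → ∀ c, ∃ d, ∃ L', S L' ∧ L ⊆ L' ∧ (c, d) ∈ L')
    (back : ∀ L, S L → ∀ d, ∃ c, ∃ L', S L' ∧ L ⊆ L' ∧ (c, d) ∈ L') :
    ∀ L, S L → Tp A B L := by
  intro L hL n
  induction n generalizing L with
  | zero =>
    intro r t ht j q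
    have := h0 L hL j (t ∘ q) (fun i => ht (q i))
    simpa [Function.comp_def] using this
  | succ n ih =>
    intro r t ht
    constructor
    · intro c
      obtain ⟨d, L', hL', hLL', hcd⟩ := forth L hL c
      refine ⟨d, ?_⟩
      rw [cons_fst c d t, cons_snd c d t]
      apply ih L' hL' (r + 1)
      intro i
      refine Fin.cases ?_ (fun i => ?_) i
      · simpa using hcd
      · simpa using hLL' (ht i)
    · intro d
      obtain ⟨c, L', hL', hLL', hcd⟩ := back L hL d
      refine ⟨c, ?_⟩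
      rw [cons_fst c d t, cons_snd c d t]
      apply ih L' hL' (r + 1)
      intro i
      refine Fin.cases ?_ (fun i => ?_) i
      · simpa using hcd
      · simpa using hLL' (ht i)

/-- Tuples which are `EF n` equivalent for all `n`, as a `Tp` set. -/
theorem Tp.of_forall {r : ℕ} {a : Fin r → X} {b : Fin r → Y} (h : ∀ n, EF A B n r a b) :
    Tp A B (Set.range fun i => (a i, b i)) := by
  intro n s t ht
  choose q hq using ht
  have h1 : (fun i => (t i).1) = a ∘ q := by
    funext i; simp [← hq i]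
  have h2 : (fun i => (t i).2) = b ∘ q := by
    funext i; simp [← hq i]
  rw [h1, h2]
  exact (h n).reindex q

end Pool.Agent.NF44
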