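import Pool.Agent.NF44.Stmts2

/-!
# EXACT (module NF_Exact of MP_fb46bb_lc, helper75)
-/

namespace Pool.Agent.NF44

universe u v w

section TypeProp

variable {G : Type u} [CommGroup G] {D : Set G} {P : Set (G × G) → Prop}

theorem IsTypeProp.func (hP : IsTypeProp D P) {L : Set (G × G)} (hL : P L)
    (h1 : ((1 : G), (1 : G)) ∈ L) {a b b' : G} (h : (a, b) ∈ L) (h' : (a, b') ∈ L) : b = b' := by
  have := hP.mul L hL a b' 1 1 b h' h1 (by simpa using h)
  simpa using this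

theorem IsTypeProp.inj (hP : IsTypeProp D P) {L : Set (G × G)} (hL : P L)
    (h1 : ((1 : G), (1 : G)) ∈ L) {a a' b : G} (h : (a, b) ∈ L) (h' : (a', b) ∈ L) : a = a' :=
  hP.func (hP.swap L hL) (by simpa using h1) (by simpa using h) (by simpa using h')

theorem IsTypeProp.one (hP : IsTypeProp D P) {L : Set (G × G)} (hL : P L) {y : G}
    (h : ((1 : G), y) ∈ L) : y = 1 := by
  have := hP.mul L hL 1 y 1 y y h h (by simpa using h)
  simpa using this

/-- Roots on the right come from roots on the left. -/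
theorem IsTypeProp.root {P : Set (G × G) → Prop} (hP : IsTypeProp Set.univ P) {L : Set (G × G)}
    (hL : P L) (hLc : L.Countable) (h1 : ((1 : G), (1 : G)) ∈ L) {x g : G} {n : ℕ}
    (h : (x, g ^ n) ∈ L) : ∃ t, t ^ n = x ∧ ∀ z, (t, z) ∈ L → z = g := by
  obtain ⟨L2, h2, h2c, h2P, h2S⟩ := hP.forth _ (hP.swap L hL)
    (hLc.preimage Prod.swap_injective) {g} (Set.subset_univ _) (Set.countable_singleton g)
  obtain ⟨t, ht⟩ := h2S g rfl
  have h3P := hP.swap L2 h2P
  have h3c : (Prod.swap ⁻¹' L2).Countable := h2c.preimage Prod.swap_injective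
  obtain ⟨L4, h4, h4c, h4P, h4S⟩ := hP.forth _ h3P h3c (Set.range fun i : ℕ => t ^ i)
    (Set.subset_univ _) (Set.countable_range _)
  have hL4 : L ⊆ L4 := fun p hp => h4 (h2 (by simpa using hp))
  have ht4 : (t, g) ∈ L4 := h4 (by simpa using ht)
  have hpow : ∀ i : ℕ, (t ^ i, g ^ i) ∈ L4 := by
    intro i
    induction i with
    | zero => simpa using hL4 h1
    | succ i ih =>
      obtain ⟨z, hz⟩ := h4S (t ^ (i + 1)) ⟨i + 1, rfl⟩
      have : z = g ^ i * g := hP.mul L4 h4P (t ^ i) (g ^ i) t g z ih ht4 (by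
        rw [← pow_succ]; exact hz)
      rw [pow_succ g, ← this]
      exact hz
  refine ⟨t, ?_, ?_⟩
  · exact hP.inj h4P (hL4 h1) (hpow n) (hL4 h)
  · intro z hz
    exact hP.func h4P (hL4 h1) (hL4 hz) ht4

end TypeProp

section GoodLemmas

variable {E C : Type u} [CommGroup E] [CommGroup C] {π : E →* C}
  {PA : Set (UP E × UP E) → Prop} {PC : Set (UP C × UP C) → Prop} {L : Subgroup (UP E × UP E)}

theorem Good.one (hA : IsTypeProp {e | upHom π e = 1} PA) (h : Good π PA PC L) {y : UP E}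
    (hy : ((1 : UP E), y) ∈ L) : y = 1 :=
  hA.one h.a (y := y) ⟨hy, by simp⟩

theorem Good.exFunc (hA : IsTypeProp {e | upHom π e = 1} PA) (h : Good π PA PC L) {x y z : UP E}
    (hy : (x, y) ∈ L) (hz : (x, z) ∈ L) : y = z := by
  have h1 : ((1 : UP E), y / z) ∈ L := by
    have := L.div_mem hy hz
    simpa using this
  exact div_eq_one.1 (h.one hA h1)

/-- The swapped subgroup. -/
noncomputable def swapSub (L : Subgroup (UP E × UP E)) : Subgroup (UP E × UP E) :=
  L.comap (MulEquiv.prodComm : UP E × UP E ≃* UP E × UP E).toMonoidHom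

theorem mem_swapSub (L : Subgroup (UP E × UP E)) (p : UP E × UP E) :
    p ∈ swapSub L ↔ p.swap ∈ L := Iff.rfl

theorem coe_swapSub (L : Subgroup (UP E × UP E)) :
    (swapSub L : Set (UP E × UP E)) = Prod.swap ⁻¹' (L : Set (UP E × UP E)) := rfl

theorem Good.exSwap (hA : IsTypeProp {e | upHom π e = 1} PA) (hC : IsTypeProp Set.univ PC)
    (h : Good π PA PC L) : Good π PA PC (swapSub L) where
  countable := by
    rw [coe_swapSub]
    exact h.countable.preimage Prod.swap_injective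
  ker := fun p hp => (h.ker p.swap hp).symm
  a := by
    refine hA.mono _ _ (hA.swap _ h.a) ?_
    rintro p ⟨hp, hp1⟩
    exact ⟨hp, (h.ker p.swap hp).2 hp1⟩
  c := by
    refine hC.mono _ _ (hC.swap _ h.c) ?_
    rintro q ⟨p, hp, rfl⟩
    exact ⟨p.swap, hp, rfl⟩
  pure1 := by
    intro p hp g n hn hg
    obtain ⟨s, hs, hs'⟩ := h.pure2 p.swap hp g n hn hg
    exact ⟨s.swap, by simpa [mem_swapSub] using hs, hs'⟩
  pure2 := by
    intro p hp g n hn hg
    obtain ⟨s, hs, hs'⟩ := h.pure1 p.swap hp g n hn hg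
    exact ⟨s.swap, by simpa [mem_swapSub] using hs, hs'⟩

end GoodLemmas

theorem goodType (hEx : ExactStmt.{u}) : GoodTypeStmt.{u} := by
  intro E C _ _ π hπ htf PA PC hA hC
  refine ⟨?_, ?_, ?_, ?_, ?_⟩
  · intro L _ p _
    exact ⟨Set.mem_univ _, Set.mem_univ _⟩
  · rintro X X' ⟨L, hL, hX⟩ hXX
    exact ⟨L, hL, hXX.trans hX⟩
  · rintro X ⟨L, hL, hX⟩
    refine ⟨swapSub L, hL.exSwap hA hC, ?_⟩
    rw [coe_swapSub]
    exact Set.preimage_mono hX
  · rintro X ⟨L, hL, hX⟩ _ S _ hSc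
    obtain ⟨L', hLL, hL', hS⟩ := hEx E C π hπ htf PA PC hA hC L hL S hSc
    exact ⟨L', fun p hp => hLL (hX hp), hL'.countable, ⟨L', hL', le_rfl⟩, hS⟩
  · rintro X ⟨L, hL, hX⟩ a a' b b' c' ha hb hc
    have h1 : (a * b, a' * b') ∈ L := L.mul_mem (hX ha) (hX hb)
    exact hL.exFunc hA (hX hc) h1

theorem exact_closure_countable {G : Type u} [Group G] (S : Set G) (hS : S.Countable) :
    ((Subgroup.closure S : Subgroup G) : Set G).Countable := by
  have : Countable S := hS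
  have : Countable (FreeGroup S) :=
    inferInstanceAs (Countable (Quot (@FreeGroup.Red.Step S)))
  rw [FreeGroup.closure_eq_range, MonoidHom.coe_range]
  exact Set.countable_range _

/-- Extension of homomorphisms over a finitely generated torsion free quotient. -/
theorem exact_ext_fg {H V K : Type u} [CommGroup H] [CommGroup V] [CommGroup K] (R : Subgroup H)
    (T : Set H) (hT : T.Finite) (hRT : R ⊔ Subgroup.closure T = ⊤)
    (htf : ∀ (h : H) (n : ℕ), 0 < n → h ^ n ∈ R → h ∈ R)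
    (π : V →* K) (hπ : Function.Surjective π) (γ : H →* K) (φ : R →* V)
    (hφ : ∀ r : R, π (φ r) = γ r) :
    ∃ ψ : H →* V, (∀ r : R, ψ r = φ r) ∧ ∀ h, π (ψ h) = γ h := by
  classical
  have mk1 : ∀ h : H, (QuotientGroup.mk' R) h = 1 ↔ h ∈ R := fun h => by
    rw [QuotientGroup.mk'_apply]
    exact QuotientGroup.eq_one_iff (N := R) h
  have : IsMulTorsionFree (H ⧸ R) := ⟨by
    intro n hn a b hab
    obtain ⟨a, rfl⟩ := QuotientGroup.mk'_surjective R a
    obtain ⟨b, rfl⟩ := QuotientGroup.mk'_surjective R b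
    have hab' : (QuotientGroup.mk' R a) ^ n = (QuotientGroup.mk' R b) ^ n := hab
    have h1 : (QuotientGroup.mk' R) ((a / b) ^ n) = 1 := by
      rw [map_pow, map_div, div_pow, hab', div_self']
    have h2 := (mk1 _).2 (htf _ n (Nat.pos_of_ne_zero hn) ((mk1 _).1 h1))
    rw [map_div, div_eq_one] at h2
    exact h2⟩
  have : Module.Finite ℤ (Additive (H ⧸ R)) := by
    rw [Module.Finite.iff_addGroup_fg, ← GroupFG.iff_add_fg, Group.fg_iff]
    refine ⟨(QuotientGroup.mk' R) '' T, ?_, hT.image _⟩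
    rw [← MonoidHom.map_closure]
    have h1 : (R ⊔ Subgroup.closure T).map (QuotientGroup.mk' R) = ⊤ := by
      rw [hRT, ← MonoidHom.range_eq_map, MonoidHom.range_eq_top]
      exact QuotientGroup.mk'_surjective R
    rw [Subgroup.map_sup] at h1
    have h2 : R.map (QuotientGroup.mk' R) = ⊥ := by
      rw [Subgroup.map_eq_bot_iff, QuotientGroup.ker_mk']
    rwa [h2, bot_sup_eq] at h1
  obtain ⟨σ, hσ⟩ := Module.projective_lifting_property
    ((QuotientGroup.mk' R).toAdditive.toIntLinearMap) LinearMap.id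
    (by
      intro q
      obtain ⟨h, hh⟩ := QuotientGroup.mk'_surjective R q.toMul
      exact ⟨Additive.ofMul h, hh⟩)
  obtain ⟨τ, hτ⟩ := Module.projective_lifting_property
    (π.toAdditive.toIntLinearMap) (γ.toAdditive.toIntLinearMap ∘ₗ σ)
    (by
      intro q
      obtain ⟨h, hh⟩ := hπ q.toMul
      exact ⟨Additive.ofMul h, hh⟩)
  let s : H ⧸ R → H := fun q => (σ (Additive.ofMul q)).toMul
  let t : H ⧸ R → V := fun q => (τ (Additive.ofMul q)).toMul
  have hs1 : ∀ a b, s (a * b) = s a * s b := fun a b => by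
    have := map_add σ (Additive.ofMul a) (Additive.ofMul b)
    exact congrArg Additive.toMul this
  have ht1 : ∀ a b, t (a * b) = t a * t b := fun a b => by
    have := map_add τ (Additive.ofMul a) (Additive.ofMul b)
    exact congrArg Additive.toMul this
  have hs0 : s 1 = 1 := by
    have := hs1 1 1
    simpa using this
  have ht0 : t 1 = 1 := by
    have := ht1 1 1
    simpa using this
  have hs2 : ∀ q, QuotientGroup.mk' R (s q) = q := fun q => by
    have := LinearMap.congr_fun hσ (Additive.ofMul q)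
    exact congrArg Additive.toMul this
  have ht2 : ∀ q, π (t q) = γ (s q) := fun q => by
    have := LinearMap.congr_fun hτ (Additive.ofMul q)
    exact congrArg Additive.toMul this
  have hmem : ∀ h : H, h / s (QuotientGroup.mk' R h) ∈ R := fun h => by
    rw [← mk1, map_div, hs2, div_self']
  refine ⟨⟨⟨fun h => φ ⟨h / s (QuotientGroup.mk' R h), hmem h⟩ * t (QuotientGroup.mk' R h), ?_⟩,
    ?_⟩, ?_, ?_⟩
  · have h1 : (⟨1 / s (QuotientGroup.mk' R 1), hmem 1⟩ : R) = 1 := by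
      ext
      simp [hs0]
    rw [h1]
    simp [ht0]
  · intro a b
    have h1 : (⟨a * b / s (QuotientGroup.mk' R (a * b)), hmem (a * b)⟩ : R) =
        ⟨a / s (QuotientGroup.mk' R a), hmem a⟩ * ⟨b / s (QuotientGroup.mk' R b), hmem b⟩ := by
      ext
      change a * b / s (QuotientGroup.mk' R (a * b)) =
        a / s (QuotientGroup.mk' R a) * (b / s (QuotientGroup.mk' R b))
      rw [map_mul, hs1, mul_div_mul_comm]
    change φ ⟨a * b / s (QuotientGroup.mk' R (a * b)), hmem (a * b)⟩ *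
      t (QuotientGroup.mk' R (a * b)) = _
    rw [h1, map_mul, map_mul, ht1]
    exact mul_mul_mul_comm _ _ _ _
  · intro r
    have h0 : QuotientGroup.mk' R (r : H) = 1 := (mk1 _).2 r.2
    have h1 : (⟨(r : H) / s (QuotientGroup.mk' R (r : H)), hmem r⟩ : R) = r := by
      ext
      simp only [h0, hs0, div_one]
    change φ ⟨(r : H) / s (QuotientGroup.mk' R (r : H)), hmem r⟩ *
      t (QuotientGroup.mk' R (r : H)) = _
    rw [h1, h0, ht0, mul_one]
  · intro h
    change π (φ ⟨h / s (QuotientGroup.mk' R h), hmem h⟩ * t (QuotientGroup.mk' R h)) = _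
    rw [map_mul, hφ, ht2, ← map_mul, div_mul_cancel]

/-- Homomorphisms from multiplicative relations. -/
theorem exact_homOf {X G G' : Type u} [Group X] [Group G] [Group G'] (Λ : Set (G × G'))
    (hmul : ∀ (a : G) (a' : G') (b : G) (b' c' : G'), (a, a') ∈ Λ → (b, b') ∈ Λ →
      (a * b, c') ∈ Λ → c' = a' * b') (d : X →* G) (h : ∀ x, ∃ y, (d x, y) ∈ Λ) :
    ∃ φ : X →* G', ∀ x, (d x, φ x) ∈ Λ := by
  choose f hf using h
  refine ⟨MonoidHom.mk' f ?_, hf⟩
  intro a b
  exact hmul (d a) (f a) (d b) (f b) _ (hf a) (hf b) (by rw [← map_mul]; exact hf _)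

/-- Finite approximation of the extension. -/
theorem exact_fin {H V K : Type u} [CommGroup H] [CommGroup V] [CommGroup K] (R : Subgroup H)
    (T : Set H) (hT : T.Finite)
    (htf : ∀ (h : H) (n : ℕ), 0 < n → h ^ n ∈ R → h ∈ R)
    (π : V →* K) (hπ : Function.Surjective π) (γ : H →* K) (φ : R →* V)
    (hφ : ∀ r : R, π (φ r) = γ r) :
    ∃ ψ : H → V, (∀ r : R, ψ r = φ r) ∧ (∀ a ∈ T, π (ψ a) = γ a) ∧
      ∀ a ∈ T, ∀ b ∈ T, ψ (a * b) = ψ a * ψ b := by
  classical
  let W : Subgroup H := R ⊔ Subgroup.closure T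
  have hRW : R ≤ W := le_sup_left
  have hTW : T ⊆ W := Subgroup.subset_closure.trans
    (show (Subgroup.closure T : Set H) ⊆ W from (le_sup_right : Subgroup.closure T ≤ W))
  let R' : Subgroup W := R.subgroupOf W
  let T' : Set W := {w | (w : H) ∈ T}
  have hT' : T'.Finite := hT.preimage Subtype.val_injective.injOn
  have hgen : R' ⊔ Subgroup.closure T' = ⊤ := by
    apply Subgroup.map_injective W.subtype_injective
    rw [Subgroup.map_sup, Subgroup.subgroupOf_map_subtype, MonoidHom.map_closure,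
      ← MonoidHom.range_eq_map, Subgroup.range_subtype, inf_eq_left.2 hRW]
    have : (W.subtype : W → H) '' T' = T := by
      ext x
      constructor
      · rintro ⟨w, hw, rfl⟩
        exact hw
      · intro hx
        exact ⟨⟨x, hTW hx⟩, hx, rfl⟩
    rw [this]
  let φ' : R' →* V := φ.comp ((W.subtype.comp R'.subtype).codRestrict R (fun r => r.2))
  obtain ⟨ψ, h1, h2⟩ := exact_ext_fg R' T' hT' hgen (fun h n hn hh => htf _ n hn hh) π hπ
    (γ.comp W.subtype) φ' (fun r => hφ ⟨((r : W) : H), r.2⟩)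
  refine ⟨fun h => if hh : h ∈ W then ψ ⟨h, hh⟩ else 1, ?_, ?_, ?_⟩
  · intro r
    have hr : (r : H) ∈ W := hRW r.2
    simp only [dif_pos hr]
    exact h1 ⟨⟨r, hr⟩, r.2⟩
  · intro a ha
    have hr : a ∈ W := hTW ha
    simp only [dif_pos hr]
    exact h2 _
  · intro a ha b hb
    have hra : a ∈ W := hTW ha
    have hrb : b ∈ W := hTW hb
    have hrab : a * b ∈ W := W.mul_mem hra hrb
    simp only [dif_pos hra, dif_pos hrb, dif_pos hrab]
    rw [← map_mul]
    rfl

theorem exact (hSat : SatStmt.{u, u, u}) : ExactStmt.{u} := by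
  classical
  intro E C _ _ π hπ htf PA PC hA hC L hL S hS
  have hPi : Function.Surjective (upHom π) := upHom_surjective π hπ
  have htf' : ∀ (c : UP C) (n : ℕ), 0 < n → c ^ n = 1 → c = 1 := by
    intro c n hn
    refine up_ind (P := fun c => c ^ n = 1 → c = 1) (fun f hf => ?_) c
    have h1 : evt fun k => f k ^ n = 1 := by
      rw [← up_eq]
      exact hf
    have h2 : evt fun k => f k = 1 := evt_mono (fun k hk => htf _ n hn hk) h1
    exact (up_eq f (fun _ => 1)).2 h2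
  have hpowinj : ∀ n : ℕ, 0 < n → Function.Injective fun c : UP C => c ^ n := by
    intro n hn a b hab
    have hab' : a ^ n = b ^ n := hab
    have h1 : (a / b) ^ n = 1 := by rw [div_pow, hab', div_self']
    exact div_eq_one.1 (htf' _ n hn h1)
  -- the domain
  let R : Subgroup (UP E) := L.map (MonoidHom.fst (UP E) (UP E))
  have hRmem : ∀ x, x ∈ R ↔ ∃ y, (x, y) ∈ L := fun x => by
    constructor
    · rintro ⟨p, hp, rfl⟩
      exact ⟨p.2, hp⟩
    · rintro ⟨y, hy⟩
      exact ⟨(x, y), hy, rfl⟩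
  have hRc : (R : Set (UP E)).Countable := by
    have : (R : Set (UP E)) = (fun p : UP E × UP E => p.1) '' (L : Set (UP E × UP E)) := rfl
    rw [this]
    exact hL.countable.image _
  let T0 : Subgroup (UP C) := Subgroup.closure (upHom π '' ((R : Set (UP E)) ∪ S))
  have hT0c : (T0 : Set (UP C)).Countable :=
    exact_closure_countable _ ((hRc.union hS).image _)
  let T : Subgroup (UP C) :=
    { carrier := {c | ∃ n : ℕ, 0 < n ∧ c ^ n ∈ T0}
      one_mem' := ⟨1, one_pos, by simp⟩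
      mul_mem' := by
        rintro a b ⟨n, hn, ha⟩ ⟨m, hm, hb⟩
        refine ⟨n * m, Nat.mul_pos hn hm, ?_⟩
        rw [mul_pow, pow_mul, pow_mul' b]
        exact T0.mul_mem (T0.pow_mem ha _) (T0.pow_mem hb _)
      inv_mem' := by
        rintro a ⟨n, hn, ha⟩
        exact ⟨n, hn, by rw [inv_pow]; exact T0.inv_mem ha⟩ }
  have hTmem : ∀ c, c ∈ T ↔ ∃ n : ℕ, 0 < n ∧ c ^ n ∈ T0 := fun c => Iff.rfl
  have hTpure : ∀ (c : UP C) (n : ℕ), 0 < n → c ^ n ∈ T → c ∈ T := by
    rintro c n hn ⟨m, hm, hc⟩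
    exact ⟨n * m, Nat.mul_pos hn hm, by rw [pow_mul]; exact hc⟩
  have hTc : (T : Set (UP C)).Countable := by
    have h1 : (T : Set (UP C)) =
        ⋃ n : {n : ℕ // 0 < n}, (fun c : UP C => c ^ (n : ℕ)) ⁻¹' (T0 : Set (UP C)) := by
      ext c
      simp only [SetLike.mem_coe, hTmem, Set.mem_iUnion, Set.mem_preimage, Subtype.exists,
        exists_prop]
    rw [h1]
    exact Set.countable_iUnion fun n => hT0c.preimage (hpowinj n n.2)
  have hT0T : T0 ≤ T := fun c hc => ⟨1, one_pos, by simpa using hc⟩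
  let sct : UP C → UP E := Function.surjInv hPi
  have hsct : ∀ c, upHom π (sct c) = c := Function.surjInv_eq hPi
  let Rh : Subgroup (UP E) := Subgroup.closure (((R : Set (UP E)) ∪ S) ∪ sct '' (T : Set (UP C)))
  have hRhc : (Rh : Set (UP E)).Countable :=
    exact_closure_countable _ ((hRc.union hS).union (hTc.image _))
  have hRRh : ∀ x ∈ R, x ∈ Rh := fun x hx => Subgroup.subset_closure (Or.inl (Or.inl hx))
  have hSRh : ∀ x ∈ S, x ∈ Rh := fun x hx => Subgroup.subset_closure (Or.inl (Or.inr hx))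
  have hsRh : ∀ c ∈ T, sct c ∈ Rh := fun c hc => Subgroup.subset_closure (Or.inr ⟨c, hc, rfl⟩)
  have hRhT : ∀ x ∈ Rh, upHom π x ∈ T := by
    have : Rh ≤ T.comap (upHom π) := by
      refine (Subgroup.closure_le _).2 ?_
      rintro x (hx | ⟨c, hc, rfl⟩)
      · exact hT0T (Subgroup.subset_closure ⟨x, hx, rfl⟩)
      · change upHom π (sct c) ∈ T
        rw [hsct]
        exact hc
    exact fun x hx => this hx
  -- the C part
  have hLCc : {q | ∃ p ∈ L, q = (upHom π p.1, upHom π p.2)}.Countable := by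
    have : {q | ∃ p ∈ L, q = (upHom π p.1, upHom π p.2)} =
        (fun p : UP E × UP E => (upHom π p.1, upHom π p.2)) '' (L : Set (UP E × UP E)) := by
      ext q
      constructor
      · rintro ⟨p, hp, rfl⟩
        exact ⟨p, hp, rfl⟩
      · rintro ⟨p, hp, rfl⟩
        exact ⟨p, hp, rfl⟩
    rw [this]
    exact hL.countable.image _
  obtain ⟨LC, hLC, hLCc', hLCP, hLCS⟩ := hC.forth _ hL.c hLCc (T : Set (UP C))
    (Set.subset_univ _) hTc
  have h11C : ((1 : UP C), (1 : UP C)) ∈ LC := hLC ⟨1, L.one_mem, by simp⟩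
  obtain ⟨γ, hγ⟩ := exact_homOf LC (hC.mul LC hLCP) T.subtype (fun x => hLCS x x.2)
  have hγ' : ∀ (x : T) (y : UP C), ((x : UP C), y) ∈ LC → γ x = y := fun x y hy =>
    hC.func hLCP h11C (hγ x) hy
  have hγinj : ∀ x : T, γ x = 1 → x = 1 := fun x hx => by
    have h1 := hγ x
    rw [hx] at h1
    exact Subtype.ext (hC.inj hLCP h11C h1 h11C)
  -- the A part
  let K : Subgroup (UP E) := Rh ⊓ (upHom π).ker
  have hKc : (K : Set (UP E)).Countable := hRhc.mono inf_le_left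
  have hLAc : {p | p ∈ L ∧ upHom π p.1 = 1}.Countable :=
    hL.countable.mono fun p hp => hp.1
  obtain ⟨LA, hLA, hLAc', hLAP, hLAS⟩ := hA.forth _ hL.a hLAc (K : Set (UP E))
    (fun x hx => hx.2) hKc
  have h11A : ((1 : UP E), (1 : UP E)) ∈ LA := hLA ⟨L.one_mem, by simp⟩
  obtain ⟨α, hα⟩ := exact_homOf LA (hA.mul LA hLAP) K.subtype (fun x => hLAS x x.2)
  have hα' : ∀ (x : K) (y : UP E), ((x : UP E), y) ∈ LA → α x = y := fun x y hy =>
    hA.func hLAP h11A (hα x) hy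
  have hαker : ∀ x : K, upHom π (α x) = 1 := fun x => (hA.sub LA hLAP _ (hα x)).2
  -- the relation on `R * K`
  let A1 : Subgroup (UP E × UP E) := (K.subtype.prod α).range
  let Λ : Subgroup (UP E × UP E) := L ⊔ A1
  have hΛmem : ∀ p, p ∈ Λ ↔ ∃ l ∈ L, ∃ k : K, p = (l.1 * k, l.2 * α k) := by
    intro p
    rw [Subgroup.mem_sup]
    constructor
    · rintro ⟨l, hl, a, ⟨k, rfl⟩, rfl⟩
      exact ⟨l, hl, k, rfl⟩
    · rintro ⟨l, hl, k, rfl⟩
      exact ⟨l, hl, (K.subtype.prod α) k, ⟨k, rfl⟩, rfl⟩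
  have hLΛ : L ≤ Λ := le_sup_left
  have hΛone : ∀ y, ((1 : UP E), y) ∈ Λ → y = 1 := by
    intro y hy
    obtain ⟨l, hl, k, hk⟩ := (hΛmem _).1 hy
    have h1 : (1 : UP E) = l.1 * k := congrArg Prod.fst hk
    have h2 : y = l.2 * α k := congrArg Prod.snd hk
    have h3 : l.1 = ((k⁻¹ : K) : UP E) := by
      rw [Subgroup.coe_inv]
      exact eq_inv_of_mul_eq_one_left h1.symm
    have h4 : ((k⁻¹ : K) : UP E) ∈ (upHom π).ker := (k⁻¹ : K).2.2
    have h5 : (((k⁻¹ : K) : UP E), l.2) ∈ LA := hLA ⟨by rw [← h3]; exact hl, h4⟩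
    rw [h2, ← hα' _ _ h5, map_inv, inv_mul_cancel]
  have hΛfunc : ∀ x y z, (x, y) ∈ Λ → (x, z) ∈ Λ → y = z := by
    intro x y z hy hz
    have := hΛone (y / z) (by simpa using Λ.div_mem hy hz)
    exact div_eq_one.1 this
  have hΛRh : ∀ x y, (x, y) ∈ Λ → x ∈ Rh := by
    intro x y hxy
    obtain ⟨l, hl, k, hk⟩ := (hΛmem _).1 hxy
    have h1 : x = l.1 * k := congrArg Prod.fst hk
    rw [h1]
    exact Rh.mul_mem (hRRh _ ((hRmem _).2 ⟨l.2, hl⟩)) k.2.1
  let γR : Rh →* UP C := γ.comp (((upHom π).comp Rh.subtype).codRestrict T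
    (fun x => hRhT x x.2))
  have hγR : ∀ x : Rh, γR x = γ ⟨upHom π x, hRhT x x.2⟩ := fun x => rfl
  have hΛγ : ∀ (x : Rh) (y : UP E), ((x : UP E), y) ∈ Λ → upHom π y = γR x := by
    intro x y hxy
    obtain ⟨l, hl, k, hk⟩ := (hΛmem _).1 hxy
    have h1 : (x : UP E) = l.1 * k := congrArg Prod.fst hk
    have h2 : y = l.2 * α k := congrArg Prod.snd hk
    rw [hγR, h2, map_mul, hαker, mul_one]
    refine (hγ' _ _ (hLC ⟨l, hl, ?_⟩)).symm
    have h3 : upHom π (k : UP E) = 1 := k.2.2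
    have h4 : upHom π (x : UP E) = upHom π l.1 := by rw [h1, map_mul, h3, mul_one]
    exact congrArg (fun z => (z, upHom π l.2)) h4
  let R1 : Subgroup Rh := (Λ.map (MonoidHom.fst (UP E) (UP E))).comap Rh.subtype
  have hR1mem : ∀ x : Rh, x ∈ R1 ↔ ∃ y, ((x : UP E), y) ∈ Λ := fun x => by
    constructor
    · rintro ⟨p, hp, hpx⟩
      exact ⟨p.2, by rw [← show p.1 = (x : UP E) from hpx]; exact hp⟩
    · rintro ⟨y, hy⟩
      exact ⟨((x : UP E), y), hy, rfl⟩
  obtain ⟨φ, hφ⟩ := exact_homOf (Λ : Set (UP E × UP E))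
    (fun a a' b b' c' ha hb hc => hΛfunc _ _ _ hc (Λ.mul_mem ha hb))
    (Rh.subtype.comp R1.subtype) (fun x => (hR1mem x).1 x.2)
  have hφ' : ∀ (x : R1) (y : UP E), (((x : Rh) : UP E), y) ∈ Λ → φ x = y := fun x y hy =>
    hΛfunc _ _ _ (hφ x) hy
  have hR1tf : ∀ (h : Rh) (n : ℕ), 0 < n → h ^ n ∈ R1 → h ∈ R1 := by
    intro h n hn hh
    obtain ⟨y, hy⟩ := (hR1mem _).1 hh
    obtain ⟨l, hl, k, hk⟩ := (hΛmem _).1 hy
    have h1 : (((h ^ n : Rh)) : UP E) = l.1 * k := congrArg Prod.fst hk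
    have h3 : upHom π (k : UP E) = 1 := k.2.2
    have h2 : (upHom π (h : UP E)) ^ n = upHom π l.1 := by
      rw [← map_pow, ← Subgroup.coe_pow, h1, map_mul, h3, mul_one]
    obtain ⟨s, hs, hsg⟩ := hL.pure1 l hl _ n hn h2
    have h4 : (h : UP E) / s.1 ∈ K := by
      refine ⟨Rh.div_mem h.2 (hRRh _ ((hRmem _).2 ⟨s.2, hs⟩)), ?_⟩
      change upHom π ((h : UP E) / s.1) = 1
      rw [map_div, hsg, div_self']
    refine (hR1mem _).2 ⟨s.2 * α ⟨_, h4⟩, (hΛmem _).2 ⟨s, hs, ⟨_, h4⟩, ?_⟩⟩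
    simp
  -- saturation
  have hRhC : Countable Rh := hRhc
  let P : ((Rh × Rh) ⊕ (Rh ⊕ R1)) → (Rh → UP E) → Prop := fun j f => match j with
    | Sum.inl ab => f (ab.1 * ab.2) = f ab.1 * f ab.2
    | Sum.inr (Sum.inl a) => upHom π (f a) = γR a
    | Sum.inr (Sum.inr r) => f r = φ r
  obtain ⟨f, hf⟩ := hSat Rh ((Rh × Rh) ⊕ (Rh ⊕ R1)) E P (by
      rintro (⟨a, b⟩ | a | r)
      · refine ⟨fun k g => g (a * b) = g a * g b, fun f => ?_⟩
        exact up_eq (f (a * b)) (fun k => f a k * f b k)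
      · refine ⟨fun k g => π (g a) = rep (γR a) k, fun f => ?_⟩
        change upHom π (f a : UP E) = γR a ↔ _
        rw [upHom_coe, ← up_eq, rep_spec]
      · refine ⟨fun k g => g r = rep (φ r) k, fun f => ?_⟩
        change (f r : UP E) = φ r ↔ _
        rw [← up_eq, rep_spec])
    (by
      intro s
      let inv : ((Rh × Rh) ⊕ (Rh ⊕ R1)) → Set Rh := fun j => match j with
        | Sum.inl ab => {ab.1, ab.2}
        | Sum.inr (Sum.inl a) => {a}
        | Sum.inr (Sum.inr r) => ∅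
      have hinv : ∀ j, (inv j).Finite := by
        rintro (⟨a, b⟩ | a | r)
        · exact (Set.finite_singleton b).insert a
        · exact Set.finite_singleton a
        · exact Set.finite_empty
      obtain ⟨ψ, h1, h2, h3⟩ := exact_fin R1 (⋃ j ∈ s, inv j)
        (Set.Finite.biUnion s.finite_toSet fun j _ => hinv j) hR1tf (upHom π) hPi γR φ
        (fun r => hΛγ _ _ (hφ r))
      refine ⟨ψ, ?_⟩
      rintro (⟨a, b⟩ | a | r) hj
      · exact h3 a (Set.mem_biUnion hj (Or.inl rfl)) b (Set.mem_biUnion hj (Or.inr rfl))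
      · exact h2 a (Set.mem_biUnion hj rfl)
      · exact h1 r)
  have hf1 : ∀ a b : Rh, f (a * b) = f a * f b := fun a b => hf (Sum.inl (a, b))
  have hf2 : ∀ a : Rh, upHom π (f a) = γR a := fun a => hf (Sum.inr (Sum.inl a))
  have hf3 : ∀ r : R1, f r = φ r := fun r => hf (Sum.inr (Sum.inr r))
  have hfΛ : ∀ (x : Rh) (y : UP E), ((x : UP E), y) ∈ Λ → f x = y := by
    intro x y hxy
    have hx : x ∈ R1 := (hR1mem x).2 ⟨y, hxy⟩
    rw [show f x = φ ⟨x, hx⟩ from hf3 ⟨x, hx⟩]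
    exact hφ' ⟨x, hx⟩ y hxy
  let F : Rh →* UP E := MonoidHom.mk' f hf1
  let L' : Subgroup (UP E × UP E) := (Rh.subtype.prod F).range
  have hL'mem : ∀ p, p ∈ L' ↔ ∃ x : Rh, p = ((x : UP E), f x) := by
    intro p
    constructor
    · rintro ⟨x, rfl⟩
      exact ⟨x, rfl⟩
    · rintro ⟨x, rfl⟩
      exact ⟨x, rfl⟩
  refine ⟨L', ?_, ?_, ?_⟩
  · intro p hp
    have hx : p.1 ∈ Rh := hRRh _ ((hRmem _).2 ⟨p.2, hp⟩)
    refine (hL'mem _).2 ⟨⟨p.1, hx⟩, ?_⟩
    rw [hfΛ ⟨p.1, hx⟩ p.2 (hLΛ hp)]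
  · refine ⟨?_, ?_, ?_, ?_, ?_, ?_⟩
    · have : (L' : Set (UP E × UP E)) = Set.range fun x : Rh => ((x : UP E), f x) := by
        ext p
        rw [SetLike.mem_coe, hL'mem]
        exact ⟨fun ⟨x, hx⟩ => ⟨x, hx.symm⟩, fun ⟨x, hx⟩ => ⟨x, hx.symm⟩⟩
      rw [this]
      exact Set.countable_range _
    · intro p hp
      obtain ⟨x, rfl⟩ := (hL'mem _).1 hp
      change upHom π (x : UP E) = 1 ↔ upHom π (f x) = 1
      rw [hf2, hγR]
      constructor
      · intro h
        have : (⟨upHom π x, hRhT x x.2⟩ : T) = 1 := Subtype.ext h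
        rw [this, map_one]
      · intro h
        exact congrArg Subtype.val (hγinj _ h)
    · refine hA.mono LA _ hLAP ?_
      rintro p ⟨hp, hp1⟩
      obtain ⟨x, rfl⟩ := (hL'mem _).1 hp
      have hxK : (x : UP E) ∈ K := ⟨x.2, hp1⟩
      have h1 : ((x : UP E), α ⟨x, hxK⟩) ∈ Λ := (hΛmem _).2 ⟨1, L.one_mem, ⟨x, hxK⟩, by simp⟩
      rw [hfΛ x _ h1]
      exact hα ⟨x, hxK⟩
    · refine hC.mono LC _ hLCP ?_
      rintro q ⟨p, hp, rfl⟩
      obtain ⟨x, rfl⟩ := (hL'mem _).1 hp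
      change (upHom π (x : UP E), upHom π (f x)) ∈ LC
      rw [hf2, hγR]
      exact hγ ⟨upHom π x, hRhT x x.2⟩
    · intro p hp g n hn hg
      obtain ⟨x, rfl⟩ := (hL'mem _).1 hp
      have hgT : g ∈ T := hTpure g n hn (by rw [hg]; exact hRhT x x.2)
      exact ⟨(sct g, f ⟨sct g, hsRh g hgT⟩), (hL'mem _).2 ⟨⟨sct g, hsRh g hgT⟩, rfl⟩, hsct g⟩
    · intro p hp g n hn hg
      obtain ⟨x, rfl⟩ := (hL'mem _).1 hp
      have h1 : (upHom π (x : UP E), g ^ n) ∈ LC := by
        rw [hg]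
        change (upHom π (x : UP E), upHom π (f x)) ∈ LC
        rw [hf2, hγR]
        exact hγ ⟨upHom π x, hRhT x x.2⟩
      obtain ⟨t, ht, htz⟩ := hC.root hLCP hLCc' h11C h1
      have htT : t ∈ T := hTpure t n hn (by rw [ht]; exact hRhT x x.2)
      refine ⟨(sct t, f ⟨sct t, hsRh t htT⟩), (hL'mem _).2 ⟨⟨sct t, hsRh t htT⟩, rfl⟩, ?_⟩
      change upHom π (f ⟨sct t, hsRh t htT⟩) = g
      rw [hf2, hγR]
      refine htz _ ?_
      have h2 := hγ ⟨upHom π (sct t), hRhT _ (hsRh t htT)⟩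
      rw [Subgroup.coe_subtype] at h2
      have h3 : ((⟨upHom π (sct t), hRhT _ (hsRh t htT)⟩ : T) : UP C) = t := hsct t
      rw [h3] at h2
      exact h2
  · intro x hx
    exact ⟨f ⟨x, hSRh x hx⟩, (hL'mem _).2 ⟨⟨x, hSRh x hx⟩, rfl⟩⟩

end Pool.Agent.NF44
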