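import Pool.Agent.NF44.Tame

/-!
The one step extension of the Ax-Kochen-Ershov back and forth relative to RV.
-/

set_option autoImplicit false

namespace Pool.Agent.NF44

open Polynomial

section Rv

variable {M : Type*} [Field M] {Γ : Type*} [LinearOrderedCommGroupWithZero Γ]

/-- The same nonzero class in RV. -/
def Rv (v : Valuation M Γ) (x y : M) : Prop := v (x - y) < v y

variable {v : Valuation M Γ} {x y z x1 x2 y1 y2 : M}

theorem Rv.right_ne (h : Rv v x y) : y ≠ 0 := by
  rintro rfl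
  unfold Rv at h
  simp at h

theorem Rv.val (h : Rv v x y) : v x = v y := by
  have e : x = (x - y) + y := by ring
  rw [e]
  exact Valuation.map_add_eq_of_lt_right v h

theorem Rv.left_ne (h : Rv v x y) : x ≠ 0 := by
  rintro rfl
  have h1 := h.val
  rw [map_zero] at h1
  exact h.right_ne ((Valuation.zero_iff v).mp h1.symm)

theorem Rv.refl (hx : x ≠ 0) : Rv v x x := by
  unfold Rv
  rw [sub_self, map_zero]
  exact zero_lt_iff.mpr ((Valuation.ne_zero_iff v).mpr hx)

theorem Rv.symm (h : Rv v x y) : Rv v y x := by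
  unfold Rv
  rw [h.val, Valuation.map_sub_swap]
  exact h

theorem Rv.trans (h1 : Rv v x y) (h2 : Rv v y z) : Rv v x z := by
  unfold Rv
  have e : x - z = (x - y) + (y - z) := by ring
  rw [e]
  refine lt_of_le_of_lt (v.map_add _ _) (max_lt ?_ h2)
  rw [← h2.val]
  exact h1

theorem Rv.mul (h1 : Rv v x1 y1) (h2 : Rv v x2 y2) : Rv v (x1 * x2) (y1 * y2) := by
  unfold Rv
  have e : x1 * x2 - y1 * y2 = (x1 - y1) * x2 + y1 * (x2 - y2) := by ring
  have p1 : 0 < v y1 := zero_lt_iff.mpr ((Valuation.ne_zero_iff v).mpr h1.right_ne)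
  have p2 : 0 < v y2 := zero_lt_iff.mpr ((Valuation.ne_zero_iff v).mpr h2.right_ne)
  rw [e, map_mul]
  refine lt_of_le_of_lt (v.map_add _ _) (max_lt ?_ ?_)
  · rw [map_mul, h2.val]
    exact mul_lt_mul_of_pos_right h1 p2
  · rw [map_mul]
    exact mul_lt_mul_of_pos_left h2 p1

theorem Rv.inv (h : Rv v x y) : Rv v x⁻¹ y⁻¹ := by
  unfold Rv
  have hx := h.left_ne
  have hy := h.right_ne
  have e : x⁻¹ - y⁻¹ = (y - x) * (x⁻¹ * y⁻¹) := by field_simp
  have p : 0 < v y := zero_lt_iff.mpr ((Valuation.ne_zero_iff v).mpr hy)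
  rw [e, map_mul, map_mul, map_inv₀, map_inv₀, h.val, Valuation.map_sub_swap]
  calc v (x - y) * ((v y)⁻¹ * (v y)⁻¹) < v y * ((v y)⁻¹ * (v y)⁻¹) :=
        mul_lt_mul_of_pos_right h (mul_pos (inv_pos.mpr p) (inv_pos.mpr p))
    _ = (v y)⁻¹ := by rw [← mul_assoc, mul_inv_cancel₀ p.ne', one_mul]

theorem Rv.div (h1 : Rv v x1 y1) (h2 : Rv v x2 y2) : Rv v (x1 / x2) (y1 / y2) := by
  rw [div_eq_mul_inv, div_eq_mul_inv]
  exact h1.mul h2.inv

theorem Rv.pow (h : Rv v x y) (n : ℕ) : Rv v (x ^ n) (y ^ n) := by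
  induction n with
  | zero =>
    rw [pow_zero, pow_zero]
    exact Rv.refl one_ne_zero
  | succ n ih =>
    rw [pow_succ, pow_succ]
    exact ih.mul h

theorem v_add_lt_one_iff (hy : v y < 1) : v (x + y) < 1 ↔ v x < 1 := by
  constructor
  · intro h1
    have e : x = (x + y) + (-y) := by ring
    rw [e]
    refine lt_of_le_of_lt (v.map_add _ _) (max_lt h1 ?_)
    rw [Valuation.map_neg]
    exact hy
  · intro h1
    exact lt_of_le_of_lt (v.map_add _ _) (max_lt h1 hy)

theorem rv_one_iff : Rv v x 1 ↔ v (x - 1) < 1 := by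
  unfold Rv
  rw [map_one]

end Rv

section

variable {M M' : Type*} [Field M] [Field M'] {Γ Γ' : Type*} [LinearOrderedCommGroupWithZero Γ]
  [LinearOrderedCommGroupWithZero Γ']

/-- A map which induces a partial isomorphism of RV-structures with domain the classes of `R`. -/
structure RvMap (v : Valuation M Γ) (v' : Valuation M' Γ') (R : Set M) (F : M → M') : Prop where
  zero_notMem : (0 : M) ∉ R
  ne_zero : ∀ x ∈ R, F x ≠ 0
  one_mem : (1 : M) ∈ R
  mul_mem : ∀ x ∈ R, ∀ y ∈ R, x * y ∈ R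
  inv_mem : ∀ x ∈ R, x⁻¹ ∈ R
  map_one : Rv v' (F 1) 1
  map_mul : ∀ x ∈ R, ∀ y ∈ R, Rv v' (F (x * y)) (F x * F y)
  congr : ∀ x ∈ R, ∀ y ∈ R, Rv v x y → Rv v' (F x) (F y)
  val_le : ∀ x ∈ R, v x ≤ 1 ↔ v' (F x) ≤ 1
  add : ∀ (s : Finset ℕ) (x : ℕ → M) (k : ℕ → ℤ) (k0 : ℤ), (∀ i ∈ s, x i ∈ R ∧ v (x i) = 1) →
    (v (∑ i ∈ s, (k i : M) * x i - k0) < 1 ↔ v' (∑ i ∈ s, (k i : M') * F (x i) - k0) < 1)

namespace RvMap

variable {v : Valuation M Γ} {v' : Valuation M' Γ'} {R : Set M} {F : M → M'}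
  (h : RvMap v v' R F)
include h

theorem mem_ne_zero {x : M} (hx : x ∈ R) : x ≠ 0 := by
  rintro rfl
  exact h.zero_notMem hx

theorem div_mem {x y : M} (hx : x ∈ R) (hy : y ∈ R) : x / y ∈ R := by
  rw [div_eq_mul_inv]
  exact h.mul_mem _ hx _ (h.inv_mem _ hy)

theorem pow_mem {x : M} (hx : x ∈ R) (n : ℕ) : x ^ n ∈ R := by
  induction n with
  | zero => rw [pow_zero]; exact h.one_mem
  | succ n ih => rw [pow_succ]; exact h.mul_mem _ ih _ hx

theorem map_inv {x : M} (hx : x ∈ R) : Rv v' (F x⁻¹) (F x)⁻¹ := by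
  have h1 := h.map_mul _ (h.inv_mem _ hx) _ hx
  rw [inv_mul_cancel₀ (h.mem_ne_zero hx)] at h1
  have h2 : Rv v' (F x⁻¹ * F x) 1 := h1.symm.trans h.map_one
  have h3 := h2.mul (Rv.refl (v := v') (inv_ne_zero (h.ne_zero _ hx)))
  rwa [mul_assoc, mul_inv_cancel₀ (h.ne_zero _ hx), mul_one, one_mul] at h3

theorem map_div {x y : M} (hx : x ∈ R) (hy : y ∈ R) : Rv v' (F (x / y)) (F x / F y) := by
  rw [div_eq_mul_inv, div_eq_mul_inv]
  exact (h.map_mul _ hx _ (h.inv_mem _ hy)).trans ((Rv.refl (h.ne_zero _ hx)).mul (h.map_inv hy))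

theorem map_pow {x : M} (hx : x ∈ R) (n : ℕ) : Rv v' (F (x ^ n)) (F x ^ n) := by
  induction n with
  | zero => rw [pow_zero, pow_zero]; exact h.map_one
  | succ n ih =>
    rw [pow_succ, pow_succ]
    exact (h.map_mul _ (h.pow_mem hx n) _ hx).trans (ih.mul (Rv.refl (h.ne_zero _ hx)))

theorem val_lt {x : M} (hx : x ∈ R) : v x < 1 ↔ v' (F x) < 1 := by
  have h1 := h.val_le _ (h.inv_mem _ hx)
  rw [(h.map_inv hx).val, map_inv₀, map_inv₀] at h1
  have p : 0 < v x := zero_lt_iff.mpr ((Valuation.ne_zero_iff v).mpr (h.mem_ne_zero hx))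
  have p' : 0 < v' (F x) := zero_lt_iff.mpr ((Valuation.ne_zero_iff v').mpr (h.ne_zero _ hx))
  rw [inv_le_one₀ p, inv_le_one₀ p'] at h1
  rw [← not_le, ← not_le, h1]

theorem val_eq {x : M} (hx : x ∈ R) : v x = 1 ↔ v' (F x) = 1 := by
  have h1 := h.val_le _ hx
  have h2 := h.val_lt hx
  constructor
  · intro h3
    apply le_antisymm (h1.mp h3.le)
    by_contra h4
    push Not at h4
    exact absurd (h2.mpr h4) (not_lt.mpr h3.ge)
  · intro h3
    apply le_antisymm (h1.mpr h3.le)
    by_contra h4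
    push Not at h4
    exact absurd (h2.mp h4) (not_lt.mpr h3.ge)

theorem add_all (s : Finset ℕ) (x : ℕ → M) (x' : ℕ → M') (k : ℕ → ℤ) (k0 : ℤ)
    (hs : ∀ i ∈ s, (x i = 0 ∧ x' i = 0) ∨ (x i ∈ R ∧ v (x i) ≤ 1 ∧ Rv v' (x' i) (F (x i)))) :
    v (∑ i ∈ s, (k i : M) * x i - k0) < 1 ↔ v' (∑ i ∈ s, (k i : M') * x' i - k0) < 1 := by
  classical
  have hint : ∀ (n : ℤ), v (n : M) ≤ 1 := by
    intro n
    rcases Int.eq_nat_or_neg n with ⟨m, rfl | rfl⟩
    · exact_mod_cast v_natCast_le_one v m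
    · push_cast
      rw [Valuation.map_neg]
      exact v_natCast_le_one v m
  have hint' : ∀ (n : ℤ), v' (n : M') ≤ 1 := by
    intro n
    rcases Int.eq_nat_or_neg n with ⟨m, rfl | rfl⟩
    · exact_mod_cast v_natCast_le_one v' m
    · push_cast
      rw [Valuation.map_neg]
      exact v_natCast_le_one v' m
  set s1 := s.filter (fun i => v (x i) = 1) with hs1
  set s2 := s.filter (fun i => ¬ v (x i) = 1) with hs2
  have hx1 : ∀ i ∈ s1, x i ∈ R ∧ v (x i) = 1 ∧ Rv v' (x' i) (F (x i)) := by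
    intro i hi
    rw [hs1, Finset.mem_filter] at hi
    rcases hs i hi.1 with ⟨h1, _⟩ | ⟨h1, _, h3⟩
    · rw [h1, map_zero] at hi
      exact absurd hi.2 zero_ne_one
    · exact ⟨h1, hi.2, h3⟩
  have hx2 : ∀ i ∈ s2, v (x i) < 1 ∧ v' (x' i) < 1 := by
    intro i hi
    rw [hs2, Finset.mem_filter] at hi
    rcases hs i hi.1 with ⟨h1, h2⟩ | ⟨h1, h2, h3⟩
    · rw [h1, h2]
      simp
    · have h4 := lt_of_le_of_ne h2 hi.2
      refine ⟨h4, ?_⟩
      rw [h3.val]
      exact (h.val_lt h1).mp h4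
  have hb : v (∑ i ∈ s2, (k i : M) * x i) < 1 := by
    apply v_sum_lt v zero_lt_one
    intro i hi
    rw [_root_.map_mul]
    calc v (k i : M) * v (x i) ≤ 1 * v (x i) := mul_le_mul' (hint _) le_rfl
      _ < 1 := by rw [one_mul]; exact (hx2 i hi).1
  have hb' : v' (∑ i ∈ s2, (k i : M') * x' i) < 1 := by
    apply v_sum_lt v' zero_lt_one
    intro i hi
    rw [_root_.map_mul]
    calc v' (k i : M') * v' (x' i) ≤ 1 * v' (x' i) := mul_le_mul' (hint' _) le_rfl
      _ < 1 := by rw [one_mul]; exact (hx2 i hi).2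
  have hc' : v' (∑ i ∈ s1, (k i : M') * (x' i - F (x i))) < 1 := by
    apply v_sum_lt v' zero_lt_one
    intro i hi
    rw [_root_.map_mul]
    obtain ⟨h1, h2, h3⟩ := hx1 i hi
    have h4 : v' (x' i - F (x i)) < 1 := by
      have h5 : v' (F (x i)) = 1 := (h.val_eq h1).mp h2
      rw [← h5]
      exact h3
    calc v' (k i : M') * v' (x' i - F (x i)) ≤ 1 * v' (x' i - F (x i)) :=
          mul_le_mul' (hint' _) le_rfl
      _ < 1 := by rw [one_mul]; exact h4
  have e1 : ∑ i ∈ s, (k i : M) * x i - k0 =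
      (∑ i ∈ s1, (k i : M) * x i - k0) + ∑ i ∈ s2, (k i : M) * x i := by
    rw [hs1, hs2, ← Finset.sum_filter_add_sum_filter_not s (fun i => v (x i) = 1)]
    ring
  have e2 : ∑ i ∈ s, (k i : M') * x' i - k0 =
      (∑ i ∈ s1, (k i : M') * F (x i) - k0) +
        (∑ i ∈ s1, (k i : M') * (x' i - F (x i)) + ∑ i ∈ s2, (k i : M') * x' i) := by
    have e3 : ∑ i ∈ s1, (k i : M') * (x' i - F (x i)) =
        ∑ i ∈ s1, (k i : M') * x' i - ∑ i ∈ s1, (k i : M') * F (x i) := by
      rw [← Finset.sum_sub_distrib]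
      exact Finset.sum_congr rfl (fun i _ => by ring)
    rw [e3, hs1, hs2, ← Finset.sum_filter_add_sum_filter_not s (fun i => v (x i) = 1)]
    ring
  rw [e1, e2, v_add_lt_one_iff hb, v_add_lt_one_iff ?_]
  · exact h.add s1 x k k0 (fun i hi => ⟨(hx1 i hi).1, (hx1 i hi).2.1⟩)
  · exact lt_of_le_of_lt (v'.map_add _ _) (max_lt hc' hb')

end RvMap

/-- The Hasse derivative commutes with maps. -/
theorem map_hasse {A : Type*} [Field A] (f : A →+* M) (p : A[X]) (j : ℕ) :
    (hasseDeriv j p).map f = hasseDeriv j (p.map f) := by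
  ext k
  simp [hasseDeriv_coeff]

/-- A centre without cancellation for finitely many polynomials. -/
theorem exists_center {v : Valuation M Γ} (hH : HensV v) (h0 : ∀ n : ℕ, n ≠ 0 → v (n : M) = 1)
    {A : Subfield M} {T : Set A[X]} (hT : ∀ h ∈ T, ∀ j, hasseDeriv j h ∈ T)
    (hz : ∀ h ∈ T, h ≠ 0 → ∀ z : M, (h.map A.subtype).eval z = 0 → z ∈ A) {x : M} (hx : x ∉ A)
    (hs : Finset A[X]) (hsT : ∀ h ∈ hs, h ∈ T) :
    ∃ a : A, ∀ h ∈ hs, ∀ j, v (((taylor a h).coeff j : M) * (x - a) ^ j) ≤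
      v ((h.map A.subtype).eval x) := by
  classical
  set Z : Finset M := insert 0 (hs.biUnion fun h =>
    (Finset.range (h.natDegree + 1)).biUnion fun j =>
      ((hasseDeriv j h).map A.subtype).roots.toFinset) with hZ
  have hZA : ∀ z ∈ Z, z ∈ A := by
    intro z hzZ
    rw [hZ, Finset.mem_insert] at hzZ
    rcases hzZ with rfl | hzZ
    · exact A.zero_mem
    · rw [Finset.mem_biUnion] at hzZ
      obtain ⟨h, hh, hzZ⟩ := hzZ
      rw [Finset.mem_biUnion] at hzZ
      obtain ⟨j, _, hzZ⟩ := hzZ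
      rw [Multiset.mem_toFinset, mem_roots'] at hzZ
      obtain ⟨h1, h2⟩ := hzZ
      refine hz _ (hT h (hsT h hh) j) ?_ z h2
      intro h3
      rw [h3] at h1
      simp at h1
  obtain ⟨a, haZ, hmin⟩ := Finset.exists_min_image Z (fun z => v (x - z))
    ⟨0, by rw [hZ]; exact Finset.mem_insert_self _ _⟩
  refine ⟨⟨a, hZA a haZ⟩, ?_⟩
  intro h hh j
  have hc : x - a ≠ 0 := by
    intro h
    apply hx
    rw [sub_eq_zero.mp h]
    exact hZA a haZ
  have h1 := tame hH h0 (p := h.map A.subtype) (a := a) (c := x - a) hc (by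
    intro i z hne hev
    have e : a + (x - a) - z = x - z := by ring
    rw [e]
    apply hmin
    rw [hZ]
    apply Finset.mem_insert_of_mem
    rw [Finset.mem_biUnion]
    refine ⟨h, hh, ?_⟩
    rw [Finset.mem_biUnion]
    refine ⟨i, ?_, ?_⟩
    · rw [Finset.mem_range]
      by_contra hlt
      apply hne
      apply hasseDeriv_eq_zero_of_lt_natDegree
      rw [natDegree_map]
      omega
    · rw [Multiset.mem_toFinset, mem_roots', map_hasse]
      exact ⟨hne, hev⟩) j
  have e1 : a + (x - a) = x := by ring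
  rw [e1] at h1
  have e2 : (taylor a (h.map A.subtype)).coeff j =
      ((taylor (⟨a, hZA a haZ⟩ : A) h).coeff j : M) := by
    have := congrArg (fun q => q.coeff j) (map_taylor h (⟨a, hZA a haZ⟩ : A) A.subtype)
    simp only [coeff_map] at this
    exact this.symm
  rw [e2] at h1
  exact h1

/-- Data of a step. -/
structure StepData (v : Valuation M Γ) (v' : Valuation M' Γ') (A : Subfield M) (f : A →+* M')
    (R : Set M) (F : M → M') (x : M) (a : A) : Prop where
  rv : RvMap v v' R F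
  compat : ∀ b : A, b ≠ 0 → (b : M) ∈ R ∧ Rv v' (f b) (F b)
  mem : x - a ∈ R

/-- The expansion of `h` at `a`, transported. -/
theorem StepData.terms {v : Valuation M Γ} {v' : Valuation M' Γ'} {A : Subfield M} {f : A →+* M'}
    {R : Set M} {F : M → M'} {x : M} {a : A} (D : StepData v v' A f R F x a) {h : A[X]} {e : M}
    (he : e ∈ R) (hle : ∀ j, v (((taylor a h).coeff j : M) * (x - a) ^ j) ≤ v e) {η : M'}
    (hη : v' (η - 1) < 1) (s : Finset ℕ) (k : ℕ → ℤ) (k0 : ℤ) :
    v (∑ j ∈ s, (k j : M) * (((taylor a h).coeff j : M) * (x - a) ^ j / e) - k0) < 1 ↔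
      v' (∑ j ∈ s, (k j : M') * (f ((taylor a h).coeff j) * (F (x - a) * η) ^ j / F e) - k0) < 1 := by
  apply D.rv.add_all
  intro j _
  by_cases hb : (taylor a h).coeff j = 0
  · left
    rw [hb]
    simp
  · right
    have hbR := D.compat _ hb
    have hpow := D.rv.pow_mem D.mem j
    have hterm := D.rv.mul_mem _ hbR.1 _ hpow
    refine ⟨D.rv.div_mem hterm he, ?_, ?_⟩
    · rw [map_div₀]
      exact div_le_one_of_le₀ (hle j) zero_le
    · have h1 := D.rv.map_div hterm he
      have h2 := D.rv.map_mul _ hbR.1 _ hpow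
      have h3 := D.rv.map_pow D.mem j
      have h4 : Rv v' ((F (x - a) * η) ^ j) (F (x - a) ^ j) := by
        have := ((Rv.refl (v := v') (D.rv.ne_zero _ D.mem)).mul (rv_one_iff.mpr hη)).pow j
        rwa [mul_one] at this
      have h5 : Rv v' (f ((taylor a h).coeff j) * (F (x - a) * η) ^ j)
          (F (((taylor a h).coeff j : M) * (x - a) ^ j)) :=
        (hbR.2.mul (h4.trans h3.symm)).trans h2.symm
      exact (h5.div (Rv.refl (D.rv.ne_zero _ he))).trans h1.symm

theorem eval_expand {A : Type*} [Field A] (f : A →+* M) (h : A[X]) (a : A) (c : M) {n : ℕ}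
    (hn : h.natDegree < n) :
    (h.map f).eval (f a + c) = ∑ j ∈ Finset.range n, f ((taylor a h).coeff j) * c ^ j := by
  have e1 : (h.map f).eval (f a + c) = (taylor (f a) (h.map f)).eval c := by
    rw [taylor_eval, add_comm]
  rw [e1, ← map_taylor]
  have hn2 : ((taylor a h).map f).natDegree < n := by
    rw [natDegree_map, natDegree_taylor]
    exact hn
  rw [eval_eq_sum_range' hn2]
  simp only [coeff_map]

/-- Values of the transported polynomials near the transported centre. -/
theorem StepData.eval_rv {v : Valuation M Γ} {v' : Valuation M' Γ'} {A : Subfield M}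
    {f : A →+* M'} {R : Set M} {F : M → M'} {x : M} {a : A} (D : StepData v v' A f R F x a)
    {h : A[X]} (he : (h.map A.subtype).eval x ∈ R)
    (hle : ∀ j, v (((taylor a h).coeff j : M) * (x - a) ^ j) ≤ v ((h.map A.subtype).eval x))
    {η : M'} (hη : v' (η - 1) < 1) :
    Rv v' ((h.map f).eval (f a + F (x - a) * η)) (F ((h.map A.subtype).eval x)) := by
  set e := (h.map A.subtype).eval x with hedef
  have he0 : e ≠ 0 := D.rv.mem_ne_zero he
  have hFe : F e ≠ 0 := D.rv.ne_zero _ he
  have h1 := D.terms he hle hη (Finset.range (h.natDegree + 1)) (fun _ => 1) 1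
  have hsum : ∑ j ∈ Finset.range (h.natDegree + 1),
      (((1 : ℤ) : M)) * (((taylor a h).coeff j : M) * (x - a) ^ j / e) = 1 := by
    have e1 : e = ∑ j ∈ Finset.range (h.natDegree + 1),
        ((taylor a h).coeff j : M) * (x - a) ^ j := by
      have h2 := eval_expand A.subtype h a (x - a) (Nat.lt_succ_self h.natDegree)
      have h3 : (A.subtype a + (x - a) : M) = x := by
        show (a : M) + (x - a) = x
        ring
      rw [h3] at h2
      exact h2
    simp only [Int.cast_one, one_mul]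
    rw [← Finset.sum_div, ← e1, div_self he0]
  rw [hsum] at h1
  have h2 : v (1 - ((1 : ℤ) : M)) < 1 := by simp
  have h3 := h1.mp h2
  simp only [Int.cast_one, one_mul] at h3
  rw [← Finset.sum_div, ← eval_expand f h a _ (Nat.lt_succ_self h.natDegree)] at h3
  have h4 := (rv_one_iff.mpr h3).mul (Rv.refl (v := v') hFe)
  rwa [div_mul_cancel₀ _ hFe, one_mul] at h4

/-- The transcendental step. -/
theorem step_tr {v : Valuation M Γ} {v' : Valuation M' Γ'} (hH : HensV v)
    (h0 : ∀ n : ℕ, n ≠ 0 → v (n : M) = 1) {A : Subfield M} {f : A →+* M'} {R : Set M}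
    {F : M → M'} (hF : RvMap v v' R F)
    (hA : ∀ b : A, b ≠ 0 → (b : M) ∈ R ∧ Rv v' (f b) (F b))
    {T : Set A[X]} (hT : ∀ h ∈ T, ∀ j, hasseDeriv j h ∈ T)
    (hz : ∀ h ∈ T, h ≠ 0 → ∀ z : M, (h.map A.subtype).eval z = 0 → z ∈ A) {x : M} (hx : x ∉ A)
    (hxR : ∀ a : A, x - a ∈ R) (hs : Finset A[X]) (hsT : ∀ h ∈ hs, h ∈ T)
    (hsR : ∀ h ∈ hs, (h.map A.subtype).eval x ∈ R) :
    ∃ y : M', ∀ h ∈ hs, Rv v' ((h.map f).eval y) (F ((h.map A.subtype).eval x)) := by
  obtain ⟨a, ha⟩ := exists_center hH h0 hT hz hx hs hsT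
  have D : StepData v v' A f R F x a := ⟨hF, hA, hxR a⟩
  refine ⟨f a + F (x - a) * 1, ?_⟩
  intro h hh
  exact D.eval_rv (hsR h hh) (ha h hh) (by simp)

/-- The algebraic step. -/
theorem step_alg {v : Valuation M Γ} {v' : Valuation M' Γ'} (hH : HensV v) (hH' : HensV v')
    (h0 : ∀ n : ℕ, n ≠ 0 → v (n : M) = 1) {A : Subfield M} {f : A →+* M'} {R : Set M}
    {F : M → M'} (hF : RvMap v v' R F)
    (hA : ∀ b : A, b ≠ 0 → (b : M) ∈ R ∧ Rv v' (f b) (F b))
    {T : Set A[X]} (hT : ∀ h ∈ T, ∀ j, hasseDeriv j h ∈ T)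
    (hz : ∀ h ∈ T, h ≠ 0 → ∀ z : M, (h.map A.subtype).eval z = 0 → z ∈ A) {x : M} (hx : x ∉ A)
    (hxR : ∀ a : A, x - a ∈ R) (hs : Finset A[X]) (hsT : ∀ h ∈ hs, h ∈ T)
    (hsR : ∀ h ∈ hs, (h.map A.subtype).eval x ∈ R) {g : A[X]} (hg0 : g ≠ 0)
    (hg : (g.map A.subtype).eval x = 0) (hgT : derivative g ∈ T) :
    ∃ y : M', (g.map f).eval y = 0 ∧
      ∀ h ∈ hs, Rv v' ((h.map f).eval y) (F ((h.map A.subtype).eval x)) := by
  classical
  obtain ⟨a, ha⟩ := exists_center hH h0 hT hz hx (insert (derivative g) hs) (by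
    intro h hh
    rcases Finset.mem_insert.mp hh with rfl | hh
    · exact hgT
    · exact hsT h hh)
  have D : StepData v v' A f R F x a := ⟨hF, hA, hxR a⟩
  set c : M := x - a with hc
  have hcR : c ∈ R := hxR a
  have hc0 : c ≠ 0 := hF.mem_ne_zero hcR
  set e1 : M := c * ((derivative g).map A.subtype).eval x with he1def
  -- the expansion of `g`
  have hxa : (A.subtype a + c : M) = x := by
    show (a : M) + c = x
    rw [hc]; ring
  have hexp : ∑ j ∈ Finset.range (g.natDegree + 1), ((taylor a g).coeff j : M) * c ^ j = 0 := by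
    have h1 := eval_expand A.subtype g a c (Nat.lt_succ_self g.natDegree)
    rw [hxa, hg] at h1
    exact h1.symm
  have hdc : ∀ j, ((taylor a (derivative g)).coeff j) = (j + 1 : ℕ) * (taylor a g).coeff (j + 1) := by
    intro j
    rw [taylor_coeff, taylor_coeff, hasse_derivative, nsmul_eq_mul, eval_mul, eval_natCast]
  have hterm_succ : ∀ j, v (((taylor a g).coeff (j + 1) : M) * c ^ (j + 1)) ≤ v e1 := by
    intro j
    have h1 := ha (derivative g) (Finset.mem_insert_self _ _) j
    rw [hdc] at h1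
    push_cast at h1
    have h2 : v ((j : M) + 1) = 1 := by
      have := h0 (j + 1) (Nat.succ_ne_zero _)
      exact_mod_cast this
    rw [mul_assoc, _root_.map_mul, h2, one_mul] at h1
    have h3 : ((taylor a g).coeff (j + 1) : M) * c ^ (j + 1) =
        c * (((taylor a g).coeff (j + 1) : M) * c ^ j) := by ring
    rw [h3, he1def, _root_.map_mul v c, _root_.map_mul v c]
    exact mul_le_mul' le_rfl h1
  have hterm0 : v (((taylor a g).coeff 0 : M) * c ^ 0) ≤ v e1 := by
    rw [Finset.sum_range_succ'] at hexp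
    have h1 : ((taylor a g).coeff 0 : M) * c ^ 0 =
        - ∑ j ∈ Finset.range g.natDegree, ((taylor a g).coeff (j + 1) : M) * c ^ (j + 1) := by
      linear_combination hexp
    rw [h1, Valuation.map_neg]
    exact v.map_sum_le (fun j _ => hterm_succ j)
  have hle1 : ∀ j, v (((taylor a g).coeff j : M) * c ^ j) ≤ v e1 := by
    intro j
    rcases j with _ | j
    · exact hterm0
    · exact hterm_succ j
  -- the dominant term
  obtain ⟨i0, hi0, hmax⟩ := Finset.exists_max_image (Finset.range (g.natDegree + 1))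
    (fun j => v (((taylor a g).coeff j : M) * c ^ j)) ⟨0, by simp⟩
  set e : M := ((taylor a g).coeff i0 : M) * c ^ i0 with hedef
  have hle : ∀ j, v (((taylor a g).coeff j : M) * c ^ j) ≤ v e := by
    intro j
    by_cases hj : j ∈ Finset.range (g.natDegree + 1)
    · exact hmax j hj
    · have : (taylor a g).coeff j = 0 := by
        apply coeff_eq_zero_of_natDegree_lt
        rw [natDegree_taylor]
        rw [Finset.mem_range] at hj
        omega
      rw [this]
      simp
  have hb0 : (taylor a g).coeff i0 ≠ 0 := by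
    intro h
    have h1 : taylor a g = 0 := by
      ext j
      by_contra hne
      have h2 := hle j
      rw [hedef, h] at h2
      simp only [ZeroMemClass.coe_zero, zero_mul, _root_.map_zero, le_zero_iff] at h2
      rw [Valuation.zero_iff] at h2
      rcases mul_eq_zero.mp h2 with h3 | h3
      · rw [coeff_zero] at hne
        exact hne (by exact_mod_cast h3)
      · exact pow_ne_zero j hc0 h3
    rw [taylor_eq_zero] at h1
    exact hg0 h1
  have hb0R := hA _ hb0
  have heR : e ∈ R := hF.mul_mem _ hb0R.1 _ (hF.pow_mem hcR i0)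
  have he0 : e ≠ 0 := hF.mem_ne_zero heR
  have hFe : F e ≠ 0 := hF.ne_zero _ heR
  have hve : 0 < v e := zero_lt_iff.mpr ((Valuation.ne_zero_iff v).mpr he0)
  -- the transported polynomial
  set P : M'[X] := ∑ j ∈ Finset.range (g.natDegree + 1),
    C (f ((taylor a g).coeff j) * (F c) ^ j / F e) * X ^ j with hP
  have hη1 : v' ((1 : M') - 1) < 1 := by simp
  have hPc' : ∀ j, v' (f ((taylor a g).coeff j) * (F c) ^ j / F e) ≤ 1 := by
    intro j
    by_cases hb : (taylor a g).coeff j = 0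
    · rw [hb]; simp
    · have hbR := hA _ hb
      have hpow := hF.pow_mem hcR j
      have hterm := hF.mul_mem _ hbR.1 _ hpow
      have h1 := hF.map_div hterm heR
      have h2 := hF.map_mul _ hbR.1 _ hpow
      have h3 := hF.map_pow hcR j
      have h4 : Rv v' (f ((taylor a g).coeff j) * F c ^ j / F e)
          (F (((taylor a g).coeff j : M) * c ^ j / e)) :=
        (((hbR.2.mul h3.symm).trans h2.symm).div (Rv.refl hFe)).trans h1.symm
      rw [h4.val]
      apply (hF.val_le _ (hF.div_mem hterm heR)).mp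
      rw [map_div₀]
      exact div_le_one_of_le₀ (hle j) zero_le
  have hPc : ∀ i, v' (P.coeff i) ≤ 1 := by
    intro i
    rw [hP, finsetSum_coeff]
    apply v'.map_sum_le
    intro j _
    rw [coeff_C_mul, coeff_X_pow]
    split_ifs
    · rw [mul_one]
      exact hPc' j
    · simp
  have hPe : P.eval 1 = ∑ j ∈ Finset.range (g.natDegree + 1),
      f ((taylor a g).coeff j) * (F c) ^ j / F e := by
    rw [hP, eval_finsetSum]
    simp
  have hP1 : v' (P.eval 1) < 1 := by
    have h1 := D.terms heR hle hη1 (Finset.range (g.natDegree + 1)) (fun _ => 1) 0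
    have h2 : ∑ j ∈ Finset.range (g.natDegree + 1),
        (((1 : ℤ) : M)) * (((taylor a g).coeff j : M) * (x - a) ^ j / e) = 0 := by
      simp only [Int.cast_one, one_mul]
      rw [← Finset.sum_div, hexp, zero_div]
    rw [h2] at h1
    have h3 := h1.mp (by simp)
    simp only [Int.cast_one, one_mul, mul_one, Int.cast_zero, sub_zero] at h3
    rw [hPe]
    exact h3
  have hP2 : v' (P.derivative.eval 1) = 1 := by
    have h1 := D.terms heR hle hη1 (Finset.range (g.natDegree + 1)) (fun j => (j : ℤ)) 0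
    have h2 : ∑ j ∈ Finset.range (g.natDegree + 1),
        (((j : ℤ) : M)) * (((taylor a g).coeff j : M) * (x - a) ^ j / e) = e1 / e := by
      have h3 : ((derivative g).map A.subtype).eval x =
          ∑ j ∈ Finset.range g.natDegree, ((j + 1 : ℕ) : M) *
            ((taylor a g).coeff (j + 1) : M) * c ^ j := by
        rcases Nat.eq_zero_or_pos g.natDegree with hd | hd
        · have : derivative g = 0 := by
            rw [natDegree_eq_zero.mp hd |>.choose_spec.symm]
            simp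
          rw [this, hd]
          simp
        · have h4 := eval_expand A.subtype (derivative g) a c
            (lt_of_lt_of_le (natDegree_derivative_lt hd.ne') le_rfl)
          rw [hxa] at h4
          rw [h4]
          apply Finset.sum_congr rfl
          intro j _
          rw [hdc]
          simp
      rw [Finset.sum_range_succ']
      have h5 : ∀ j ∈ Finset.range g.natDegree,
          ((((j + 1 : ℕ) : ℤ) : M)) * (((taylor a g).coeff (j + 1) : M) * (x - a) ^ (j + 1) / e) =
            c / e * (((j + 1 : ℕ) : M) * ((taylor a g).coeff (j + 1) : M) * c ^ j) := by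
        intro j _
        rw [← hc]
        push_cast
        ring
      rw [Finset.sum_congr rfl h5, ← Finset.mul_sum, ← h3]
      simp only [Nat.cast_zero, Int.cast_zero, zero_mul, add_zero]
      rw [div_mul_eq_mul_div, ← he1def]
    rw [h2] at h1
    have h4 : P.derivative.eval 1 = ∑ j ∈ Finset.range (g.natDegree + 1),
        (((j : ℤ)) : M') * (f ((taylor a g).coeff j) * (F (x - a) * 1) ^ j / F e) := by
      rw [hP, derivative_sum, eval_finsetSum]
      apply Finset.sum_congr rfl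
      intro j _
      rw [derivative_C_mul, derivative_X_pow]
      simp only [eval_mul, eval_C, eval_pow, eval_X, one_pow, mul_one, map_natCast,
        eval_natCast, Int.cast_natCast]
      ring
    rw [← h4, Int.cast_zero, sub_zero, Int.cast_zero, sub_zero] at h1
    apply le_antisymm
    · rw [h4]
      apply v'.map_sum_le
      intro j _
      rw [_root_.map_mul, mul_one]
      have h5 : v' (((j : ℤ) : M')) ≤ 1 := by
        exact_mod_cast v_natCast_le_one v' j
      calc v' (((j : ℤ) : M')) * v' (f ((taylor a g).coeff j) * F (x - a) ^ j / F e) ≤ 1 * 1 :=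
            mul_le_mul' h5 (hPc' j)
        _ = 1 := by simp
    · by_contra hlt
      push Not at hlt
      have h6 := h1.mpr hlt
      rw [map_div₀] at h6
      have h7 : v e ≤ v e1 := hle1 i0
      have h8 : 1 ≤ v e1 / v e := (one_le_div₀ hve).mpr h7
      exact absurd h6 (not_lt.mpr h8)
  obtain ⟨η, hη0, hη⟩ := hH' P hPc 1 (by simp) hP1 hP2
  refine ⟨f a + F c * η, ?_, ?_⟩
  · rw [eval_expand f g a _ (Nat.lt_succ_self g.natDegree)]
    rw [hP, eval_finsetSum] at hη0
    have h1 : ∑ j ∈ Finset.range (g.natDegree + 1), f ((taylor a g).coeff j) * (F c * η) ^ j =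
        F e * ∑ j ∈ Finset.range (g.natDegree + 1),
          (C (f ((taylor a g).coeff j) * F c ^ j / F e) * X ^ j).eval η := by
      rw [Finset.mul_sum]
      apply Finset.sum_congr rfl
      intro j _
      simp only [eval_mul, eval_C, eval_pow, eval_X]
      rw [mul_pow]
      field_simp
    show ∑ j ∈ Finset.range (g.natDegree + 1), f ((taylor a g).coeff j) * (F c * η) ^ j = 0
    rw [h1, hη0, mul_zero]
  · intro h hh
    exact D.eval_rv (hsR h hh) (ha h (Finset.mem_insert_of_mem hh)) hη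

end

end Pool.Agent.NF44
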