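import Pool.Agent.NF44.Stmts
import Pool.Agent.NF44.Step

/-!
The field lemma of the Ax-Kochen-Ershov back and forth (module FieldStep of MP_fb46bb_lc).
-/

set_option autoImplicit false

namespace Pool.Agent.NF44

open Polynomial

universe u

section

variable {M : Type u} [Field M]

theorem Res0.val {O : ValuationSubring M} (h : Res0 O) (n : ℕ) (hn : n ≠ 0) :
    O.valuation (n : M) = 1 := by
  obtain ⟨h1, h2⟩ := h n hn
  apply le_antisymm (v_natCast_le_one _ n)
  rw [← ValuationSubring.valuation_le_one_iff, map_inv₀] at h2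
  exact (inv_le_one₀ (zero_lt_iff.mpr ((Valuation.ne_zero_iff _).mpr h1))).mp h2

theorem rv_iff_div {O : ValuationSubring M} {x y : M} (hy : y ≠ 0) :
    Rv O.valuation x y ↔ O.valuation (x / y - 1) < 1 := by
  have hv : 0 < O.valuation y := zero_lt_iff.mpr ((Valuation.ne_zero_iff _).mpr hy)
  have e : x / y - 1 = (x - y) / y := by field_simp
  unfold Rv
  rw [e, map_div₀, div_lt_one₀ hv]

namespace RvRel

variable {O : ValuationSubring M} {ρ : M → M → Prop} (h : RvRel O ρ)
include h

/-- The image of `z`. -/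
theorem val_one_iff {z z' : M} (hz : ρ z z') : O.valuation z = 1 ↔ O.valuation z' = 1 := by
  have h1 := h.int _ _ hz
  have h2 := h.int _ _ (h.inv _ _ hz)
  rw [← ValuationSubring.valuation_le_one_iff, ← ValuationSubring.valuation_le_one_iff] at h1 h2
  have p : 0 < O.valuation z :=
    zero_lt_iff.mpr ((Valuation.ne_zero_iff _).mpr (h.ne _ _ hz).1)
  have p' : 0 < O.valuation z' :=
    zero_lt_iff.mpr ((Valuation.ne_zero_iff _).mpr (h.ne _ _ hz).2)
  rw [map_inv₀, map_inv₀, inv_le_one₀ p, inv_le_one₀ p'] at h2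
  constructor
  · intro h3
    exact le_antisymm (h1.mp h3.le) (h2.mp h3.ge)
  · intro h3
    exact le_antisymm (h1.mpr h3.le) (h2.mpr h3.ge)

theorem div {z z' w w' : M} (hz : ρ z z') (hw : ρ w w') : ρ (z / w) (z' / w') := by
  rw [div_eq_mul_inv, div_eq_mul_inv]
  exact h.mul _ _ _ _ hz (h.inv _ _ hw)

theorem close (h1 : ρ 1 1) {z z' w w' : M} (hz : ρ z z') (hw : ρ w w')
    (hzw : Rv O.valuation z w) : Rv O.valuation z' w' := by
  have hw0 := (h.ne _ _ hw).1
  have hw0' := (h.ne _ _ hw).2
  have hd := h.div hz hw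
  rw [rv_iff_div hw0] at hzw
  rw [rv_iff_div hw0']
  have hval : O.valuation (z / w) = 1 := by
    have : Rv O.valuation (z / w) 1 := rv_one_iff.mpr hzw
    rw [this.val, map_one]
  have h2 := h.lin 2 ![z / w, 1] ![z' / w', 1] ![1, -1] (by
    intro i
    fin_cases i
    · exact hd
    · exact h1) (by
    intro i
    fin_cases i
    · exact hval
    · exact map_one _)
  simp only [Fin.sum_univ_two, Matrix.cons_val_zero, Matrix.cons_val_one, Int.cast_one,
    Int.cast_neg, one_mul, mul_one] at h2
  rw [← sub_eq_add_neg, ← sub_eq_add_neg] at h2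
  exact h2.mp hzw

open scoped Classical in
/-- The map given by the relation. -/
noncomputable def fn (_h : RvRel O ρ) (z : M) : M := if hz : ∃ w, ρ z w then hz.choose else 0

theorem fn_spec {z : M} (hz : ∃ w, ρ z w) : ρ z (h.fn z) := by
  unfold fn
  rw [dif_pos hz]
  exact hz.choose_spec

theorem rvMap (h1 : ρ 1 1) : RvMap O.valuation O.valuation {z | ∃ w, ρ z w} h.fn where
  zero_notMem := by
    rintro ⟨w, hw⟩
    exact (h.ne _ _ hw).1 rfl
  ne_zero := fun z hz => (h.ne _ _ (h.fn_spec hz)).2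
  one_mem := ⟨1, h1⟩
  mul_mem := by
    rintro x ⟨x', hx⟩ y ⟨y', hy⟩
    exact ⟨_, h.mul _ _ _ _ hx hy⟩
  inv_mem := by
    rintro x ⟨x', hx⟩
    exact ⟨_, h.inv _ _ hx⟩
  map_one := h.close h1 (h.fn_spec ⟨1, h1⟩) h1 (Rv.refl one_ne_zero)
  map_mul := by
    intro x hx y hy
    have h2 := h.mul _ _ _ _ (h.fn_spec hx) (h.fn_spec hy)
    exact h.close h1 (h.fn_spec ⟨_, h2⟩) h2 (Rv.refl (h.ne _ _ h2).1)
  congr := by
    intro x hx y hy hxy
    exact h.close h1 (h.fn_spec hx) (h.fn_spec hy) hxy
  val_le := by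
    intro x hx
    have := h.int _ _ (h.fn_spec hx)
    rwa [← ValuationSubring.valuation_le_one_iff, ← ValuationSubring.valuation_le_one_iff] at this
  add := by
    intro s x k k0 hs
    set e : Fin s.card ≃ s := s.equivFin.symm with he
    have h2 := h.lin (s.card + 1) (Fin.cons 1 (fun i => x (e i)))
      (Fin.cons 1 (fun i => h.fn (x (e i)))) (Fin.cons (-k0) (fun i => k (e i))) (by
        intro i
        refine Fin.cases ?_ (fun i => ?_) i
        · simpa using h1
        · simp only [Fin.cons_succ]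
          exact h.fn_spec (hs _ (e i).2).1) (by
        intro i
        refine Fin.cases ?_ (fun i => ?_) i
        · simp
        · simp only [Fin.cons_succ]
          exact (hs _ (e i).2).2)
    have key : ∀ F : ℕ → M, ∑ i : Fin (s.card + 1),
        (((Fin.cons (-k0) (fun i => k (e i)) : Fin (s.card + 1) → ℤ) i : ℤ) : M) *
          (Fin.cons 1 (fun i => F (e i)) : Fin (s.card + 1) → M) i =
        ∑ i ∈ s, (k i : M) * F i - k0 := by
      intro F
      rw [Fin.sum_univ_succ]
      simp only [Fin.cons_zero, Fin.cons_succ, Int.cast_neg, mul_one]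
      have h3 : ∑ i : Fin s.card, ((k (e i) : ℤ) : M) * F (e i) = ∑ i ∈ s, (k i : M) * F i := by
        rw [← Finset.sum_coe_sort s (fun i => (k i : M) * F i)]
        exact Equiv.sum_comp e (fun i : s => ((k i : ℤ) : M) * F i)
      rw [h3]
      ring
    have h4 := key x
    have h5 := key (fun i => h.fn (x i))
    rw [h4, h5] at h2
    exact h2

end RvRel

theorem hensV_of_hens (hL : HensLiftStmt.{u}) {O : ValuationSubring M} (hO : Hens O) :
    HensV O.valuation := by
  intro p hp a ha h0 h1
  obtain ⟨z, hz1, hz2⟩ := hL M O hO p a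
    (fun i => (ValuationSubring.valuation_le_one_iff O _).mp (hp i))
    ((ValuationSubring.valuation_le_one_iff O _).mp ha) h0 h1
  exact ⟨z, hz2, hz1⟩

theorem fieldStep (hL : HensLiftStmt.{u}) : FieldStepStmt.{u} := by
  intro M _ O hO hR ρ hρ A f hf x hx H hH0 hHz hHR hxR g hg
  have hval := hR.val
  have hHens := hensV_of_hens hL hO
  have hcast : ∀ n : ℕ, n ≠ 0 → (n : M) ≠ 0 := fun n hn => (hR n hn).1
  have hcastA : ∀ n : ℕ, n ≠ 0 → (n : A) ≠ 0 := by
    intro n hn h
    apply hcast n hn
    have := congrArg (fun a : A => (a : M)) h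
    simpa using this
  have hρ1 : ρ 1 1 := by
    have := hf 1 (by simp)
    simpa using this
  -- the good polynomials
  set T : Set A[X] := {q | ∀ (j : ℕ) (z : M), hasseDeriv j q ≠ 0 →
    ((hasseDeriv j q).map A.subtype).eval z = 0 → z ∈ A} with hT
  have hsmul : ∀ (n : ℕ) (q : A[X]) (z : M), ((n • q).map A.subtype).eval z =
      (n : M) * (q.map A.subtype).eval z := by
    intro n q z
    rw [nsmul_eq_mul, Polynomial.map_mul, Polynomial.map_natCast, eval_mul, eval_natCast]
  have hT1 : ∀ q ∈ T, ∀ j, hasseDeriv j q ∈ T := by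
    intro q hq i j z hne hev
    have h1 : hasseDeriv j (hasseDeriv i q) = (j + i).choose j • hasseDeriv (j + i) q := by
      have := congrArg (fun l => l q) (hasseDeriv_comp (R := A) j i)
      simpa only [LinearMap.comp_apply, LinearMap.smul_apply] using this
    rw [h1] at hne hev
    have hch : (j + i).choose j ≠ 0 := (Nat.choose_pos (Nat.le_add_right _ _)).ne'
    rw [hsmul] at hev
    refine hq (j + i) z ?_ ((mul_eq_zero.mp hev).resolve_left (hcast _ hch))
    intro h2
    apply hne
    rw [h2, smul_zero]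
  have hT2 : ∀ q ∈ T, q ≠ 0 → ∀ z : M, (q.map A.subtype).eval z = 0 → z ∈ A := by
    intro q hq hq0 z hz
    apply hq 0 z
    · rwa [hasseDeriv_zero']
    · rwa [hasseDeriv_zero']
  have hder : ∀ (j : ℕ) (q : A[X]), derivative^[j] q = j.factorial • hasseDeriv j q := by
    intro j q
    have := congrFun (factorial_smul_hasseDeriv (R := A) j) q
    rw [← this]
    rfl
  have haev : ∀ (q : A[X]) (z : M), aeval z q = (q.map A.subtype).eval z := by
    intro q z
    rw [eval_map]
    rfl
  have hzer : ∀ (q : A[X]) (j : ℕ) (z : M),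
      (derivative^[j] q ≠ 0 → aeval z (derivative^[j] q) = 0 → z ∈ A) →
      hasseDeriv j q ≠ 0 → ((hasseDeriv j q).map A.subtype).eval z = 0 → z ∈ A := by
    intro q j z h1 hne hev
    apply h1
    · rw [hder]
      intro h2
      apply hne
      rw [nsmul_eq_mul] at h2
      rcases mul_eq_zero.mp h2 with h3 | h3
      · exfalso
        have h4 : ((j.factorial : ℕ) : A) = 0 := by
          have := congrArg (fun r => r.coeff 0) h3
          simpa using this
        exact hcastA _ (Nat.factorial_ne_zero j) h4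
      · exact h3
    · rw [haev, hder, hsmul, hev, mul_zero]
  have hHT : ∀ h ∈ H, h ∈ T := by
    intro h hh j z hne hev
    exact hzer h j z (hHz h hh j z) hne hev
  have hA : ∀ b : A, b ≠ 0 → (b : M) ∈ {z | ∃ w, ρ z w} ∧ Rv O.valuation (f b) (hρ.fn b) := by
    intro b hb
    have hb' : (b : M) ≠ 0 := by
      intro h
      apply hb
      exact Subtype.ext h
    have h1 := hf b hb'
    exact ⟨⟨_, h1⟩, hρ.close hρ1 h1 (hρ.fn_spec ⟨_, h1⟩) (Rv.refl hb')⟩
  have hconv : ∀ (h : A[X]) (y : M), h ∈ H →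
      Rv O.valuation ((h.map f).eval y) (hρ.fn ((h.map A.subtype).eval x)) →
      ρ (aeval x h) (eval₂ f y h) := by
    intro h y hh hrv
    rw [haev, ← eval_map]
    have h1 := hρ.fn_spec (z := (h.map A.subtype).eval x) (by
      have := hHR h hh
      rwa [haev] at this)
    apply hρ.congr _ _ _ h1
    rw [← rv_iff_div (hρ.ne _ _ h1).2]
    exact hrv
  have hsR : ∀ h ∈ H, (h.map A.subtype).eval x ∈ {z | ∃ w, ρ z w} := by
    intro h hh
    have := hHR h hh
    rwa [haev] at this
  have hxR' : ∀ a : A, x - a ∈ {z | ∃ w, ρ z w} := fun a => hxR a a.2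
  rcases hg with rfl | ⟨hg0, hgx, hgz⟩
  · obtain ⟨y, hy⟩ := step_tr hHens hval (hρ.rvMap hρ1) hA hT1 hT2 hx hxR' H hHT hsR
    refine ⟨y, by simp, ?_⟩
    intro h hh
    exact hconv h y hh (hy h hh)
  · have hgT : derivative g ∈ T := by
      intro j z hne hev
      have h1 : hasseDeriv j (derivative g) = (j + 1) • hasseDeriv (j + 1) g :=
        hasse_derivative g j
      rw [h1] at hne hev
      rw [hsmul] at hev
      refine hzer g (j + 1) z (hgz (j + 1) z (Nat.succ_pos j)) ?_
        ((mul_eq_zero.mp hev).resolve_left (hcast _ (Nat.succ_ne_zero j)))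
      intro h2
      apply hne
      rw [h2, smul_zero]
    obtain ⟨y, hy0, hy⟩ := step_alg hHens hHens hval (hρ.rvMap hρ1) hA hT1 hT2 hx hxR' H hHT hsR
      hg0 (by rw [← haev]; exact hgx) hgT
    refine ⟨y, by rw [← eval_map]; exact hy0, ?_⟩
    intro h hh
    exact hconv h y hh (hy h hh)

end

end Pool.Agent.NF44
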