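import Mathlib

/-!
Hensel's lemma: the form for simple roots of polynomials which need not be monic, the normal form,
coarsenings, and the lemma on tame expansions.
-/

set_option autoImplicit false

namespace Pool.Agent.NF44

open Polynomial

section

variable {M : Type*} [Field M] {Γ : Type*} [LinearOrderedCommGroupWithZero Γ]

/-- Hensel's lemma for simple roots, the polynomial need not be monic. -/
def HensV (v : Valuation M Γ) : Prop :=
  ∀ p : M[X], (∀ i, v (p.coeff i) ≤ 1) → ∀ a, v a ≤ 1 → v (p.eval a) < 1 →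
    v (p.derivative.eval a) = 1 → ∃ b, p.eval b = 0 ∧ v (b - a) < 1

/-- Hensel's lemma in normal form. -/
def HensNV (v : Valuation M Γ) : Prop :=
  ∀ (n : ℕ) (d : ℕ → M), (∀ j, v (d j) < 1) →
    ∃ w, v (w + 1) < 1 ∧
      w ^ (n + 2) + w ^ (n + 1) + ∑ j ∈ Finset.range (n + 1), d j * w ^ j = 0

theorem v_natCast_le_one (v : Valuation M Γ) (n : ℕ) : v (n : M) ≤ 1 := by
  induction n with
  | zero => simp
  | succ n ih =>
    push_cast
    exact (v.map_add _ _).trans (max_le ih (by simp))

theorem v_taylor_coeff_le (v : Valuation M Γ) {p : M[X]} (hp : ∀ i, v (p.coeff i) ≤ 1) {a : M}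
    (ha : v a ≤ 1) (j : ℕ) : v ((taylor a p).coeff j) ≤ 1 := by
  rw [taylor_coeff, hasseDeriv_apply, sum_def, eval_finsetSum]
  apply v.map_sum_le
  intro i _
  rw [eval_monomial, map_mul, map_mul, map_pow]
  have h1 := v_natCast_le_one v (i.choose j)
  have h2 := hp i
  have h3 : v a ^ (i - j) ≤ 1 := pow_le_one' ha _
  calc v ((i.choose j : ℕ) : M) * v (p.coeff i) * v a ^ (i - j) ≤ 1 * 1 * 1 :=
        mul_le_mul' (mul_le_mul' h1 h2) h3
    _ = 1 := by simp

theorem v_sum_lt {ι : Type*} (v : Valuation M Γ) {s : Finset ι} {f : ι → M} {g : Γ} (hg : 0 < g)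
    (h : ∀ i ∈ s, v (f i) < g) : v (∑ i ∈ s, f i) < g :=
  v.map_sum_lt hg.ne' h

theorem hensV_of_hensNV {v : Valuation M Γ} (h : HensNV v) : HensV v := by
  intro p hp a ha h0 h1
  by_cases hc0 : p.eval a = 0
  · exact ⟨a, hc0, by simp⟩
  set c0 := p.eval a with hc0def
  set c1 := p.derivative.eval a with hc1def
  have hc1 : c1 ≠ 0 := by
    intro h
    rw [h] at h1
    simp at h1
  set n := p.natDegree with hn
  set t : ℕ → M := fun i => (taylor a p).coeff i with ht
  have ht0 : t 0 = c0 := by simp [ht, hc0def, taylor_coeff_zero]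
  have ht1 : t 1 = c1 := by simp [ht, hc1def, taylor_coeff_one]
  have htle : ∀ i, v (t i) ≤ 1 := fun i => v_taylor_coeff_le v hp ha i
  obtain ⟨w, hw1, hw2⟩ := h n
    (fun j => if j ≤ n then t (n + 2 - j) * c0 ^ (n + 1 - j) * (c1 ^ (n + 2 - j))⁻¹ else 0) (by
      intro j
      split_ifs with hj
      · rw [map_mul, map_mul, map_inv₀, map_pow, map_pow, h1, one_pow, inv_one, mul_one]
        obtain ⟨k, hk⟩ : ∃ k, n + 1 - j = k + 1 := ⟨n - j, by omega⟩
        rw [hk, pow_succ]
        calc v (t (n + 2 - j)) * (v c0 ^ k * v c0) ≤ 1 * (1 * v c0) :=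
              mul_le_mul' (htle _) (mul_le_mul' (pow_le_one' h0.le _) le_rfl)
          _ = v c0 := by simp
          _ < 1 := h0
      · simp)
  have hvw : v w = 1 := by
    have e : w = (w + 1) + (-1) := by ring
    rw [e]
    have : v (-1 : M) = 1 := by rw [Valuation.map_neg]; simp
    rw [Valuation.map_add_eq_of_lt_right v (by rw [this]; exact hw1), this]
  have hw0 : w ≠ 0 := by
    intro h
    rw [h] at hvw
    simp at hvw
  refine ⟨a + c0 / (c1 * w), ?_, ?_⟩
  · have e1 : p.eval (a + c0 / (c1 * w)) = (taylor a p).eval (c0 / (c1 * w)) := by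
      rw [taylor_eval]
      congr 1
      ring
    rw [e1]
    have hdeg : (taylor a p).natDegree < n + 3 := by
      rw [natDegree_taylor]
      omega
    rw [eval_eq_sum_range' hdeg, Finset.sum_range_succ', Finset.sum_range_succ']
    have e2 : ∀ i, i ∈ Finset.range (n + 1) →
        (taylor a p).coeff (i + 1 + 1) * (c0 / (c1 * w)) ^ (i + 1 + 1) =
          (c0 / w ^ (n + 2)) * ((t (i + 2) * c0 ^ (i + 1) * (c1 ^ (i + 2))⁻¹) * w ^ (n - i)) := by
      intro i hi
      rw [Finset.mem_range] at hi
      have e3 : w ^ (n + 2) = w ^ (i + 2) * w ^ (n - i) := by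
        rw [← pow_add]
        congr 1
        omega
      rw [e3]
      show t (i + 2) * (c0 / (c1 * w)) ^ (i + 2) = _
      rw [div_pow, mul_pow]
      field_simp
      ring
    rw [Finset.sum_congr rfl e2, ← Finset.mul_sum]
    have e4 : ∑ j ∈ Finset.range (n + 1),
        (if j ≤ n then t (n + 2 - j) * c0 ^ (n + 1 - j) * (c1 ^ (n + 2 - j))⁻¹ else 0) * w ^ j =
        ∑ i ∈ Finset.range (n + 1),
          (t (i + 2) * c0 ^ (i + 1) * (c1 ^ (i + 2))⁻¹) * w ^ (n - i) := by
      rw [← Finset.sum_range_reflect]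
      apply Finset.sum_congr rfl
      intro i hi
      rw [Finset.mem_range] at hi
      have i1 : n + 1 - 1 - i = n - i := by omega
      rw [i1, if_pos (Nat.sub_le _ _)]
      have i2 : n + 2 - (n - i) = i + 2 := by omega
      have i3 : n + 1 - (n - i) = i + 1 := by omega
      rw [i2, i3]
    rw [e4] at hw2
    have e5 : ∑ i ∈ Finset.range (n + 1),
          (t (i + 2) * c0 ^ (i + 1) * (c1 ^ (i + 2))⁻¹) * w ^ (n - i) =
        - (w ^ (n + 2) + w ^ (n + 1)) := by
      linear_combination hw2
    rw [e5]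
    have e6 : (taylor a p).coeff (0 + 1) = c1 := ht1
    have e7 : (taylor a p).coeff 0 = c0 := ht0
    rw [e6, e7]
    have e9 : c0 / w ^ (n + 2) * -(w ^ (n + 2) + w ^ (n + 1)) + c1 * (c0 / (c1 * w)) ^ (0 + 1) +
        c0 * (c0 / (c1 * w)) ^ 0 = 0 := by
      rw [zero_add, pow_one, pow_zero]
      have e8 : w ^ (n + 2) = w ^ (n + 1) * w := pow_succ _ _
      rw [e8]
      have := pow_ne_zero (n + 1) hw0
      field_simp
      ring
    exact e9
  · have e1 : a + c0 / (c1 * w) - a = c0 / (c1 * w) := by ring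
    rw [e1, map_div₀, map_mul, h1, hvw]
    simpa using h0

/-- The normal form passes to coarsenings. -/
theorem HensNV.coarsen {O O2 : ValuationSubring M} (h : HensNV O.valuation) (hle : O ≤ O2) :
    HensNV O2.valuation := by
  intro n d hd
  have hmem : ∀ x, O2.valuation x < 1 → O.valuation x < 1 := by
    intro x hx
    have h1 : x ∈ O2.nonunits := hx
    exact ValuationSubring.nonunits_le_nonunits.mpr hle h1
  obtain ⟨w, hw1, hw2⟩ := h n d (fun j => hmem _ (hd j))
  refine ⟨w, ?_, hw2⟩
  have hvw : O.valuation w = 1 := by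
    have e : w = (w + 1) + (-1) := by ring
    rw [e]
    have : O.valuation (-1 : M) = 1 := by rw [Valuation.map_neg]; simp
    rw [Valuation.map_add_eq_of_lt_right _ (by rw [this]; exact hw1), this]
  have hw0 : w ≠ 0 := by
    intro h
    rw [h] at hvw
    simp at hvw
  have hvw2 : O2.valuation w = 1 := by
    apply le_antisymm
    · exact (ValuationSubring.valuation_le_one_iff O2 w).mpr
        (hle ((ValuationSubring.valuation_le_one_iff O w).mp hvw.le))
    · have h2 : O2.valuation w⁻¹ ≤ 1 := by
        apply (ValuationSubring.valuation_le_one_iff O2 _).mpr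
        apply hle
        apply (ValuationSubring.valuation_le_one_iff O _).mp
        rw [map_inv₀, hvw, inv_one]
      rw [map_inv₀] at h2
      exact (inv_le_one₀ (zero_lt_iff.mpr ((Valuation.ne_zero_iff _).mpr hw0))).mp h2
  have h3 : O2.valuation (w ^ (n + 1) * (w + 1)) < 1 := by
    have e : w ^ (n + 1) * (w + 1) = - ∑ j ∈ Finset.range (n + 1), d j * w ^ j := by
      linear_combination hw2
    rw [e, Valuation.map_neg]
    apply v_sum_lt _ zero_lt_one
    intro j _
    rw [map_mul, map_pow, hvw2, one_pow, mul_one]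
    exact hd j
  rw [map_mul, map_pow, hvw2, one_pow, one_mul] at h3
  exact h3

/-- Henselian local rings satisfy the normal form. -/
theorem hensNV_of_henselian {O : ValuationSubring M} [HenselianLocalRing O] :
    HensNV O.valuation := by
  intro n d hd
  have hdO : ∀ j, d j ∈ O := fun j => (ValuationSubring.valuation_le_one_iff O _).mp (hd j).le
  set d' : ℕ → O := fun j => ⟨d j, hdO j⟩ with hd'
  set q : O[X] := ∑ j ∈ Finset.range (n + 1), C (d' j) * X ^ j with hq
  have hmax : ∀ j, d' j ∈ IsLocalRing.maximalIdeal O := by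
    intro j
    have := (ValuationSubring.valuation_lt_one_iff O (d' j)).mpr (hd j)
    exact this
  have hqdeg : q.degree < (n + 2 : ℕ) := by
    apply lt_of_le_of_lt (degree_sum_le _ _)
    rw [Finset.sup_lt_iff (by exact_mod_cast WithBot.bot_lt_coe _)]
    intro j hj
    rw [Finset.mem_range] at hj
    apply lt_of_le_of_lt (degree_C_mul_X_pow_le _ _)
    exact_mod_cast (by omega : j < n + 2)
  have hmonic : (X ^ (n + 2) + (X ^ (n + 1) + q)).Monic := by
    apply monic_X_pow_add
    apply lt_of_le_of_lt (degree_add_le _ _)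
    rw [max_lt_iff]
    refine ⟨?_, hqdeg⟩
    apply lt_of_le_of_lt (degree_X_pow_le _)
    exact_mod_cast (by omega : n + 1 < n + 2)
  have hqm : ∀ x : O, q.eval x ∈ IsLocalRing.maximalIdeal O := by
    intro x
    rw [hq, eval_finsetSum]
    apply Ideal.sum_mem
    intro j _
    simp only [eval_mul, eval_C, eval_pow, eval_X]
    exact Ideal.mul_mem_right _ _ (hmax j)
  have hqm' : ∀ x : O, q.derivative.eval x ∈ IsLocalRing.maximalIdeal O := by
    intro x
    rw [hq, derivative_sum, eval_finsetSum]
    apply Ideal.sum_mem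
    intro j _
    simp only [derivative_C_mul, eval_mul, eval_C]
    exact Ideal.mul_mem_right _ _ (hmax j)
  obtain ⟨w, hw1, hw2⟩ := HenselianLocalRing.is_henselian _ hmonic (-1) (by
      have e : (X ^ (n + 2) + (X ^ (n + 1) + q)).eval (-1 : O) = q.eval (-1) := by
        simp only [eval_add, eval_pow, eval_X]
        ring
      rw [e]
      exact hqm _) (by
      have e : (X ^ (n + 2) + (X ^ (n + 1) + q)).derivative.eval (-1 : O) =
          (-1) ^ (n + 1) + q.derivative.eval (-1) := by
        simp only [derivative_add, derivative_X_pow, eval_add, eval_mul, eval_pow, eval_X,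
          map_natCast, eval_natCast]
        push_cast
        ring
      rw [e]
      have hu : IsUnit ((-1 : O) ^ (n + 1)) := (isUnit_one.neg).pow _
      by_contra hcon
      have h1 : (-1 : O) ^ (n + 1) + q.derivative.eval (-1) ∈ IsLocalRing.maximalIdeal O := hcon
      have h2 : (-1 : O) ^ (n + 1) ∈ IsLocalRing.maximalIdeal O := by
        have := Ideal.sub_mem _ h1 (hqm' (-1))
        rwa [add_sub_cancel_right] at this
      exact h2 hu)
  refine ⟨(w : M), ?_, ?_⟩
  · have e : ((w : M) + 1) = ((w - (-1) : O) : M) := by push_cast; ring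
    rw [e]
    exact (ValuationSubring.valuation_lt_one_iff O _).mp hw2
  · have h1 : (X ^ (n + 2) + (X ^ (n + 1) + q)).eval w = 0 := hw1
    rw [hq] at h1
    simp only [eval_add, eval_pow, eval_X, eval_finsetSum, eval_mul, eval_C] at h1
    have h2 : ((w ^ (n + 2) + (w ^ (n + 1) + ∑ j ∈ Finset.range (n + 1), d' j * w ^ j) : O) : M) =
        ((0 : O) : M) := by rw [h1]
    push_cast at h2
    rw [← add_assoc] at h2
    exact h2

end

end Pool.Agent.NF44
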