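import Pool.Agent.NF44.Stmts
import Pool.Agent.NF44.Hensel

/-!
The three statements on henselian valuation rings, from the toolkit `Hensel.lean`.
-/

namespace Pool.Agent.NF44

open Polynomial

universe u

theorem hensNV_of_hens {M : Type u} [Field M] {O : ValuationSubring M} (h : Hens O) :
    HensNV O.valuation := by
  intro n d hd
  obtain ⟨z, hz1, hz2⟩ := h (n + 1) (fun i => d i) (fun i => hd i)
  refine ⟨z, hz1, ?_⟩
  rw [← hz2, Finset.sum_range]

theorem hens_of_hensNV {M : Type u} [Field M] {O : ValuationSubring M} (h : HensNV O.valuation) :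
    Hens O := by
  intro d a ha
  cases d with
  | zero =>
    refine ⟨-1, by simp, by simp⟩
  | succ n =>
    obtain ⟨w, hw1, hw2⟩ := h n (fun j => if hj : j < n + 1 then a ⟨j, hj⟩ else 0) (by
      intro j
      split_ifs with hj
      · exact ha _
      · simp)
    refine ⟨w, hw1, ?_⟩
    rw [← hw2, Finset.sum_range]
    congr 1
    refine Finset.sum_congr rfl fun i _ => ?_
    rw [dif_pos i.2]

theorem hensOf : HensOfStmt.{u} := by
  intro M _ O hO
  exact hens_of_hensNV hensNV_of_henselian

theorem hensLift : HensLiftStmt.{u} := by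
  intro M _ O hO p z₀ hp hz₀ h0 h1
  obtain ⟨b, hb1, hb2⟩ := hensV_of_hensNV (hensNV_of_hens hO) p
    (fun i => (O.valuation_le_one_iff _).2 (hp i)) z₀ ((O.valuation_le_one_iff _).2 hz₀) h0 h1
  exact ⟨b, hb2, hb1⟩

theorem hensCoarsen : HensCoarsenStmt.{u} := by
  intro M _ O O' hle hO
  exact hens_of_hensNV ((hensNV_of_hens hO).coarsen hle)

end Pool.Agent.NF44
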