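import Pool.Agent.NF44.Stmts2

/-!
# Interpretation lemmas: images of partial elementary maps (residue field, value group)
-/

namespace Pool.Agent.NF44

universe u v w

theorem in_upMap_surj {X Y : Type u} {q : X → Y} (hq : Function.Surjective q) :
    Function.Surjective (upMap q) := by
  intro y
  induction y using up_ind with | _ f => ?_
  choose g hg using fun k => hq (f k)
  exact ⟨(g : UP X), (up_eq _ _).2 (Filter.Eventually.of_forall hg)⟩

theorem in_atomic_mono {σ : Sig} {X : Type u} {Y : Type v} {A : RS σ X} {B : RS σ Y}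
    {L L' : Set (X × Y)} (h : Atomic A B L) (hL : L' ⊆ L) : Atomic A B L' :=
  fun j t ht => h j t fun i => hL (ht i)

theorem in_swap_countable {X Y : Type u} {L : Set (X × Y)} (h : L.Countable) :
    (Prod.swap ⁻¹' L).Countable :=
  h.preimage Prod.swap_injective

theorem interp (hF : TpForthStmt.{u}) : InterpStmt.{u} := by
  intro σ τ X Y A B q hq hatom L hL
  have hq' := in_upMap_surj hq
  have key : ∀ N : Set (UP Y × UP Y),
      (∃ L' : Set (UP X × UP X), L'.Countable ∧ Tp A.up A.up L' ∧ N ⊆ imPair (upMap q) L') →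
      Tp B.up B.up N := by
    refine karp (fun N : Set (UP Y × UP Y) => ∃ L' : Set (UP X × UP X), L'.Countable ∧
      Tp A.up A.up L' ∧ N ⊆ imPair (upMap q) L') ?_ ?_ ?_
    · rintro N ⟨L', hc, ht, hN⟩
      exact in_atomic_mono (hatom L' hc ht) hN
    · rintro N ⟨L', hc, ht, hN⟩ c
      obtain ⟨x, rfl⟩ := hq' c
      obtain ⟨L'', h1, h2, h3, h4⟩ := hF σ X X A A L' ht hc {x} (Set.countable_singleton x)
      obtain ⟨y, hy⟩ := h4 x rfl
      exact ⟨upMap q y, imPair (upMap q) L'', ⟨L'', h2, h3, subset_rfl⟩,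
        hN.trans (Set.image_mono h1), ⟨(x, y), hy, rfl⟩⟩
    · rintro N ⟨L', hc, ht, hN⟩ d
      obtain ⟨x, rfl⟩ := hq' d
      obtain ⟨L'', h1, h2, h3, h4⟩ := hF σ X X A A (Prod.swap ⁻¹' L') ht.swap
        (in_swap_countable hc) {x} (Set.countable_singleton x)
      obtain ⟨y, hy⟩ := h4 x rfl
      refine ⟨upMap q y, imPair (upMap q) (Prod.swap ⁻¹' L''),
        ⟨Prod.swap ⁻¹' L'', in_swap_countable h2, h3.swap, subset_rfl⟩, ?_, ⟨(y, x), hy, rfl⟩⟩
      refine hN.trans (Set.image_mono ?_)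
      intro p hp
      exact h1 (by simpa using hp)
  intro n r t ht
  choose s hs hst using ht
  have h1 : Tp A.up A.up (Set.range s) := hL.mono (by rintro _ ⟨i, rfl⟩; exact hs i)
  have h2 := key (imPair (upMap q) (Set.range s)) ⟨Set.range s, Set.countable_range s, h1,
    subset_rfl⟩
  exact h2 n r t fun i => ⟨s i, ⟨i, rfl⟩, hst i⟩

/-! ### Fields -/

theorem in_field_rel {M : Type u} [Field M] {m : ℕ} {P : Fin m → Set M} {L : Set (UP M × UP M)}
    (h : Tp (fieldRS P).up (fieldRS P).up L) :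
    (∀ a ∈ L, ∀ b ∈ L, ∀ c ∈ L, (a.1 + b.1 = c.1 ↔ a.2 + b.2 = c.2)) ∧
    (∀ a ∈ L, ∀ b ∈ L, ∀ c ∈ L, (a.1 * b.1 = c.1 ↔ a.2 * b.2 = c.2)) ∧
    (∀ a ∈ L, ∀ b ∈ L, (a.1 = b.1 ↔ a.2 = b.2)) ∧
    ∀ i, ∀ a ∈ L, (a.1 ∈ upSet (P i) ↔ a.2 ∈ upSet (P i)) := by
  rw [fieldRS_up] at h
  have h1 := h.atomic
  refine ⟨?_, ?_, ?_, ?_⟩
  · intro a ha b hb c hc
    have := h1 FJ.add (![a, b, c] : Fin 3 → UP M × UP M) (by
      intro i
      refine Fin.cases ?_ (fun i => Fin.cases ?_ (fun i => Fin.cases ?_ (fun i => i.elim0) i) i) i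
      · exact ha
      · exact hb
      · exact hc)
    exact this
  · intro a ha b hb c hc
    have := h1 FJ.mul (![a, b, c] : Fin 3 → UP M × UP M) (by
      intro i
      refine Fin.cases ?_ (fun i => Fin.cases ?_ (fun i => Fin.cases ?_ (fun i => i.elim0) i) i) i
      · exact ha
      · exact hb
      · exact hc)
    exact this
  · intro a ha b hb
    have := h1 FJ.eq (![a, b] : Fin 2 → UP M × UP M) (by
      intro i
      refine Fin.cases ?_ (fun i => Fin.cases ?_ (fun i => i.elim0) i) i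
      · exact ha
      · exact hb)
    exact this
  · intro i a ha
    have := h1 (FJ.pr i) (![a] : Fin 1 → UP M × UP M) (by
      intro j
      refine Fin.cases ?_ (fun j => j.elim0) j
      exact ha)
    exact this

theorem in_closure_countable {K : Type u} [Field K] {S : Set K} (hS : S.Countable) :
    (Subfield.closure S : Set K).Countable := by
  rw [← Cardinal.le_aleph0_iff_set_countable] at hS ⊢
  exact (Subfield.cardinalMk_closure_le_max S).trans (max_le hS le_rfl)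

theorem fieldClose (hF : TpForthStmt.{u}) : FieldCloseStmt.{u} := by
  intro M _ m P L hLc hL
  have hA : (Subfield.closure (Prod.fst '' L) : Set (UP M)).Countable :=
    in_closure_countable (hLc.image _)
  obtain ⟨L', h1, h2, h3, h4⟩ := hF _ M M _ _ L hL hLc _ hA
  obtain ⟨radd, rmul, req, -⟩ := in_field_rel h3
  set A := Subfield.closure (Prod.fst '' L) with hAdef
  have hget : ∀ x ∈ A, ∃ y, (x, y) ∈ L' := fun x hx => h4 x hx
  have hzero : ∀ p ∈ L', (p.1 = 0 ↔ p.2 = 0) := by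
    intro p hp
    have := radd p hp p hp p hp
    simpa using this
  have h0 : ((0 : UP M), (0 : UP M)) ∈ L' := by
    obtain ⟨y, hy⟩ := hget 0 A.zero_mem
    have := (hzero _ hy).1 rfl
    simp only at this
    rwa [this] at hy
  have hone : ((1 : UP M), (1 : UP M)) ∈ L' := by
    obtain ⟨y, hy⟩ := hget 1 A.one_mem
    have h5 := (rmul _ hy _ hy _ hy).1 (by simp)
    have h6 : y ≠ 0 := fun h => one_ne_zero ((hzero _ hy).2 h)
    simp only at h5
    have h7 : y = 1 := by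
      have := mul_right_cancel₀ h6 (h5.trans (one_mul y).symm)
      exact this
    rwa [h7] at hy
  have hadd : ∀ p ∈ L', ∀ q ∈ L', p.1 ∈ A → q.1 ∈ A → (p.1 + q.1, p.2 + q.2) ∈ L' := by
    intro p hp q hq hpA hqA
    obtain ⟨y, hy⟩ := hget _ (A.add_mem hpA hqA)
    have := (radd p hp q hq _ hy).1 rfl
    simp only at this
    rwa [← this] at hy
  have hmul : ∀ p ∈ L', ∀ q ∈ L', p.1 ∈ A → q.1 ∈ A → (p.1 * q.1, p.2 * q.2) ∈ L' := by
    intro p hp q hq hpA hqA
    obtain ⟨y, hy⟩ := hget _ (A.mul_mem hpA hqA)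
    have := (rmul p hp q hq _ hy).1 rfl
    simp only at this
    rwa [← this] at hy
  have hneg : ∀ p ∈ L', p.1 ∈ A → (-p.1, -p.2) ∈ L' := by
    intro p hp hpA
    obtain ⟨y, hy⟩ := hget _ (A.neg_mem hpA)
    have := (radd p hp _ hy _ h0).1 (by simp)
    simp only at this
    rwa [eq_neg_of_add_eq_zero_right this] at hy
  have hinv : ∀ p ∈ L', p.1 ∈ A → (p.1⁻¹, p.2⁻¹) ∈ L' := by
    intro p hp hpA
    by_cases hp0 : p.1 = 0
    · have := (hzero p hp).1 hp0
      rw [hp0, this, inv_zero]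
      exact h0
    · obtain ⟨y, hy⟩ := hget _ (A.inv_mem hpA)
      have := (rmul p hp _ hy _ hone).1 (mul_inv_cancel₀ hp0)
      simp only at this
      rwa [eq_inv_of_mul_eq_one_right this] at hy
  refine ⟨{p | p ∈ L' ∧ p.1 ∈ A}, ?_, h2.mono fun p hp => hp.1, ?_, h3.mono fun p hp => hp.1⟩
  · intro p hp
    exact ⟨h1 hp, Subfield.subset_closure ⟨p, hp, rfl⟩⟩
  · exact
    { one := ⟨hone, A.one_mem⟩
      add := fun p hp q hq => ⟨hadd p hp.1 q hq.1 hp.2 hq.2, A.add_mem hp.2 hq.2⟩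
      neg := fun p hp => ⟨hneg p hp.1 hp.2, A.neg_mem hp.2⟩
      mul := fun p hp q hq => ⟨hmul p hp.1 q hq.1 hp.2 hq.2, A.mul_mem hp.2 hq.2⟩
      inv := fun p hp => ⟨hinv p hp.1 hp.2, A.inv_mem hp.2⟩
      zero := fun p hp => hzero p hp.1 }

/-- A countable partial elementary map extends to a field graph preserving the ring `O`. -/
theorem in_graph (hFC : FieldCloseStmt.{u}) {M : Type u} [Field M] {m : ℕ} {P : Fin m → Set M}
    {O : ValuationSubring M} {i : Fin m} (hPi : P i = (O : Set M)) {L : Set (UP M × UP M)}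
    (hLc : L.Countable) (hL : Tp (fieldRS P).up (fieldRS P).up L) :
    ∃ L', L ⊆ L' ∧ IsFieldGraph L' ∧ (∀ p ∈ L', (p.1 ∈ upVS O ↔ p.2 ∈ upVS O)) := by
  obtain ⟨L', h1, h2, h3, h4⟩ := hFC M m P L hLc hL
  refine ⟨L', h1, h3, fun p hp => ?_⟩
  have := (in_field_rel h4).2.2.2 i p hp
  rw [hPi] at this
  exact this

theorem in_resk_junk {M : Type u} [Field M] (O : ValuationSubring M) {x : UP M}
    (hx : x ∉ upVS O) : upMap (resk O) x = 0 := by
  induction x using up_ind with | _ f => ?_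
  rw [mem_upVS, ← evt_not] at hx
  exact (up_eq _ _).2 (hx.mono fun k hk => dif_neg hk)

theorem in_pure_atomic {K : Type u} [Field K] {L : Set (K × K)}
    (h1 : ∀ a ∈ L, ∀ b ∈ L, ∀ c ∈ L, (a.1 + b.1 = c.1 ↔ a.2 + b.2 = c.2))
    (h2 : ∀ a ∈ L, ∀ b ∈ L, ∀ c ∈ L, (a.1 * b.1 = c.1 ↔ a.2 * b.2 = c.2))
    (h3 : ∀ a ∈ L, ∀ b ∈ L, (a.1 = b.1 ↔ a.2 = b.2)) :
    Atomic (pureRS K) (pureRS K) L := by
  intro j t ht
  cases j with
  | add => exact h1 _ (ht (0 : Fin 3)) _ (ht (1 : Fin 3)) _ (ht (2 : Fin 3))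
  | mul => exact h2 _ (ht (0 : Fin 3)) _ (ht (1 : Fin 3)) _ (ht (2 : Fin 3))
  | eq => exact h3 _ (ht (0 : Fin 2)) _ (ht (1 : Fin 2))
  | pr i => exact i.elim0

theorem in_grp_atomic {G : Type u} [CommGroup G] {m : ℕ} (P : Fin m → Set G) {L : Set (G × G)}
    (h2 : ∀ a ∈ L, ∀ b ∈ L, ∀ c ∈ L, (a.1 * b.1 = c.1 ↔ a.2 * b.2 = c.2))
    (h3 : ∀ a ∈ L, ∀ b ∈ L, (a.1 = b.1 ↔ a.2 = b.2))
    (h4 : ∀ i, ∀ a ∈ L, (a.1 ∈ P i ↔ a.2 ∈ P i)) :
    Atomic (grpRS P) (grpRS P) L := by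
  intro j t ht
  cases j with
  | mul => exact h2 _ (ht (0 : Fin 3)) _ (ht (1 : Fin 3)) _ (ht (2 : Fin 3))
  | eq => exact h3 _ (ht (0 : Fin 2)) _ (ht (1 : Fin 2))
  | pr i => exact h4 i _ (ht (0 : Fin 1))

theorem resTp (hI : InterpStmt.{u}) (hFC : FieldCloseStmt.{u}) : ResTpStmt.{u} := by
  intro M _ m P O i hPi L hL
  refine hI _ _ M (IsLocalRing.ResidueField O) (fieldRS P) (pureRS _) (resk O) ?_ ?_ L hL
  · intro k
    obtain ⟨x, -, hx⟩ := resk_surj O k
    exact ⟨x, hx⟩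
  · intro L hLc hL
    obtain ⟨L', h1, h2, h3⟩ := in_graph hFC hPi hLc hL
    have h0 : ((0 : UP M), (0 : UP M)) ∈ L' := by
      have := h2.add _ h2.one _ (h2.neg _ h2.one)
      simpa using this
    have hsub : ∀ a ∈ L', ∀ b ∈ L', (a.1 - b.1, a.2 - b.2) ∈ L' := by
      intro a ha b hb
      have := h2.add a ha _ (h2.neg b hb)
      simpa [sub_eq_add_neg] using this
    have hget : ∀ a ∈ imPair (upMap (resk O)) L, ∃ p ∈ L', p.1 ∈ upVS O ∧ p.2 ∈ upVS O ∧
        upMap (resk O) p.1 = a.1 ∧ upMap (resk O) p.2 = a.2 := by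
      rintro _ ⟨p, hp, rfl⟩
      by_cases hpO : p.1 ∈ upVS O
      · exact ⟨p, h1 hp, hpO, (h3 p (h1 hp)).1 hpO, rfl, rfl⟩
      · have hpO2 : p.2 ∉ upVS O := fun h => hpO ((h3 p (h1 hp)).2 h)
        refine ⟨_, h0, (upVS O).zero_mem, (upVS O).zero_mem, ?_, ?_⟩
        · change upMap (resk O) (0 : UP M) = upMap (resk O) p.1
          rw [in_resk_junk O hpO, upresk_zero]
        · change upMap (resk O) (0 : UP M) = upMap (resk O) p.2
          rw [in_resk_junk O hpO2, upresk_zero]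
    have hz : ∀ p ∈ L', p.1 ∈ upVS O → p.2 ∈ upVS O →
        (upMap (resk O) p.1 = 0 ↔ upMap (resk O) p.2 = 0) := by
      intro p hp hp1 hp2
      rw [upresk_eq_zero O hp1, upresk_eq_zero O hp2, vlt_iff, vlt_iff, h2.zero p hp,
        h3 _ (h2.inv p hp)]
    have hneg : ∀ x ∈ upVS O, -x ∈ upVS O := fun x hx => (upVS O).neg_mem x hx
    rw [pureRS_up]
    refine in_pure_atomic ?_ ?_ ?_
    · intro a ha b hb c hc
      obtain ⟨p, hp, p1, p2, e1, e2⟩ := hget a ha
      obtain ⟨q, hq, q1, q2, e3, e4⟩ := hget b hb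
      obtain ⟨r, hr, r1, r2, e5, e6⟩ := hget c hc
      have h5 := hz _ (hsub _ (h2.add p hp q hq) r hr)
        ((upVS O).sub_mem ((upVS O).add_mem _ _ p1 q1) r1)
        ((upVS O).sub_mem ((upVS O).add_mem _ _ p2 q2) r2)
      simp only [sub_eq_add_neg] at h5
      rw [upresk_add O ((upVS O).add_mem _ _ p1 q1) (hneg _ r1), upresk_add O p1 q1,
        upresk_neg O r1, upresk_add O ((upVS O).add_mem _ _ p2 q2) (hneg _ r2),
        upresk_add O p2 q2, upresk_neg O r2, ← sub_eq_add_neg, ← sub_eq_add_neg, sub_eq_zero,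
        sub_eq_zero, e1, e2, e3, e4, e5, e6] at h5
      exact h5
    · intro a ha b hb c hc
      obtain ⟨p, hp, p1, p2, e1, e2⟩ := hget a ha
      obtain ⟨q, hq, q1, q2, e3, e4⟩ := hget b hb
      obtain ⟨r, hr, r1, r2, e5, e6⟩ := hget c hc
      have h5 := hz _ (hsub _ (h2.mul p hp q hq) r hr)
        ((upVS O).sub_mem ((upVS O).mul_mem _ _ p1 q1) r1)
        ((upVS O).sub_mem ((upVS O).mul_mem _ _ p2 q2) r2)
      simp only [sub_eq_add_neg] at h5
      rw [upresk_add O ((upVS O).mul_mem _ _ p1 q1) (hneg _ r1), upresk_mul O p1 q1,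
        upresk_neg O r1, upresk_add O ((upVS O).mul_mem _ _ p2 q2) (hneg _ r2),
        upresk_mul O p2 q2, upresk_neg O r2, ← sub_eq_add_neg, ← sub_eq_add_neg, sub_eq_zero,
        sub_eq_zero, e1, e2, e3, e4, e5, e6] at h5
      exact h5
    · intro a ha b hb
      obtain ⟨p, hp, p1, p2, e1, e2⟩ := hget a ha
      obtain ⟨q, hq, q1, q2, e3, e4⟩ := hget b hb
      have h5 := hz _ (hsub p hp q hq) ((upVS O).sub_mem p1 q1) ((upVS O).sub_mem p2 q2)
      simp only [sub_eq_add_neg] at h5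
      rw [upresk_add O p1 (hneg _ q1), upresk_neg O q1, upresk_add O p2 (hneg _ q2),
        upresk_neg O q2, ← sub_eq_add_neg, ← sub_eq_add_neg, sub_eq_zero,
        sub_eq_zero, e1, e2, e3, e4] at h5
      exact h5

theorem vgTp (hI : InterpStmt.{u}) (hFC : FieldCloseStmt.{u}) : VgTpStmt.{u} := by
  intro M _ m P O i hPi L hL
  have key : Tp (vgRS O ![O]).up (vgRS O ![O]).up (imPair (upMap (vg O)) L) := by
    refine hI _ _ M (VGg O) (fieldRS P) (vgRS O ![O]) (vg O) ?_ ?_ L hL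
    · intro k
      obtain ⟨x, -, hx⟩ := vg_surj O k
      exact ⟨x, hx⟩
    · intro L hLc hL
      obtain ⟨L', h1, h2, h3⟩ := in_graph hFC hPi hLc hL
      have hget : ∀ a ∈ imPair (upMap (vg O)) L, ∃ p ∈ L', p.1 ≠ 0 ∧ p.2 ≠ 0 ∧
          upMap (vg O) p.1 = a.1 ∧ upMap (vg O) p.2 = a.2 := by
        rintro _ ⟨p, hp, rfl⟩
        by_cases hp0 : p.1 = 0
        · have hp2 := (h2.zero p (h1 hp)).1 hp0
          refine ⟨_, h2.one, one_ne_zero, one_ne_zero, ?_, ?_⟩
          · change upMap (vg O) (1 : UP M) = upMap (vg O) p.1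
            rw [hp0, upvg_one]
            exact ((up_eq _ _).2 (Filter.Eventually.of_forall fun k => by simp [vg])).symm
          · change upMap (vg O) (1 : UP M) = upMap (vg O) p.2
            rw [hp2, upvg_one]
            exact ((up_eq _ _).2 (Filter.Eventually.of_forall fun k => by simp [vg])).symm
        · exact ⟨p, h1 hp, hp0, fun h => hp0 ((h2.zero p (h1 hp)).2 h), rfl, rfl⟩
      have hz : ∀ p ∈ L', p.1 ≠ 0 → p.2 ≠ 0 →
          (upMap (vg O) p.1 = 1 ↔ upMap (vg O) p.2 = 1) := by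
        intro p hp hp1 hp2
        rw [upvg_eq_one O hp1, upvg_eq_one O hp2, veq_one_iff, veq_one_iff, h3 p hp,
          h3 _ (h2.inv p hp)]
        simp [hp1, hp2]
      rw [vgRS, grpRS_up]
      refine in_grp_atomic _ ?_ ?_ ?_
      · intro a ha b hb c hc
        obtain ⟨p, hp, p1, p2, e1, e2⟩ := hget a ha
        obtain ⟨q, hq, q1, q2, e3, e4⟩ := hget b hb
        obtain ⟨r, hr, r1, r2, e5, e6⟩ := hget c hc
        have h5 := hz _ (h2.mul _ (h2.mul p hp q hq) _ (h2.inv r hr))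
          (mul_ne_zero (mul_ne_zero p1 q1) (inv_ne_zero r1))
          (mul_ne_zero (mul_ne_zero p2 q2) (inv_ne_zero r2))
        simp only at h5
        rw [upvg_mul O (mul_ne_zero p1 q1) (inv_ne_zero r1), upvg_mul O p1 q1, upvg_inv,
          upvg_mul O (mul_ne_zero p2 q2) (inv_ne_zero r2), upvg_mul O p2 q2, upvg_inv,
          mul_inv_eq_one, mul_inv_eq_one, e1, e2, e3, e4, e5, e6] at h5
        exact h5
      · intro a ha b hb
        obtain ⟨p, hp, p1, p2, e1, e2⟩ := hget a ha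
        obtain ⟨q, hq, q1, q2, e3, e4⟩ := hget b hb
        have h5 := hz _ (h2.mul p hp _ (h2.inv q hq)) (mul_ne_zero p1 (inv_ne_zero q1))
          (mul_ne_zero p2 (inv_ne_zero q2))
        simp only at h5
        rw [upvg_mul O p1 (inv_ne_zero q1), upvg_inv, upvg_mul O p2 (inv_ne_zero q2), upvg_inv,
          mul_inv_eq_one, mul_inv_eq_one, e1, e2, e3, e4] at h5
        exact h5
      · intro i a ha
        obtain ⟨p, hp, p1, p2, e1, e2⟩ := hget a ha
        have hi : i = 0 := Subsingleton.elim _ _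
        subst hi
        rw [← e1, ← e2]
        change upMap (vg O) p.1 ∈ upSet (vset O O) ↔ upMap (vg O) p.2 ∈ upSet (vset O O)
        rw [upvg_mem le_rfl p1, upvg_mem le_rfl p2]
        exact h3 p hp
  refine key.mono (Set.image_mono ?_)
  intro p hp
  exact hp.1

end Pool.Agent.NF44
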