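import Pool.Agent.NF44.Stmts2

/-!
# Theorem A: from NIP_n for the field (first order definition) to the semantic form
-/

namespace Pool.Agent.NF44

open FirstOrder FirstOrder.Language

universe u

section definable

variable {K : Type u} [Field K] [FirstOrder.Ring.CompatibleRing K]

theorem langA_atom (j : FJ 0) {r : ℕ} (t : Fin j.ar → Fin r) :
    (∅ : Set K).Definable FirstOrder.Language.ring
      {w : Fin r → K | (pureRS K).R j (w ∘ t)} := by
  rw [Set.empty_definable_iff]
  cases j with
  | add =>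
    refine ⟨(Term.var (t (0 : Fin 3)) + Term.var (t (1 : Fin 3)) :
      FirstOrder.Language.ring.Term (Fin r)).equal (Term.var (t (2 : Fin 3))), ?_⟩
    ext w
    change w (t (0 : Fin 3)) + w (t (1 : Fin 3)) = w (t (2 : Fin 3)) ↔ Formula.Realize _ w
    rw [Formula.realize_equal, FirstOrder.Ring.realize_add]
    rfl
  | mul =>
    refine ⟨(Term.var (t (0 : Fin 3)) * Term.var (t (1 : Fin 3)) :
      FirstOrder.Language.ring.Term (Fin r)).equal (Term.var (t (2 : Fin 3))), ?_⟩
    ext w
    change w (t (0 : Fin 3)) * w (t (1 : Fin 3)) = w (t (2 : Fin 3)) ↔ Formula.Realize _ w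
    rw [Formula.realize_equal, FirstOrder.Ring.realize_mul]
    rfl
  | eq =>
    refine ⟨(Term.var (t (0 : Fin 2)) :
      FirstOrder.Language.ring.Term (Fin r)).equal (Term.var (t (1 : Fin 2))), ?_⟩
    ext w
    change w (t (0 : Fin 2)) = w (t (1 : Fin 2)) ↔ Formula.Realize _ w
    rw [Formula.realize_equal]
    rfl
  | pr i => exact i.elim0

theorem langA_iff {r : ℕ} {S : Set (Fin r → K)}
    (hS : (∅ : Set K).Definable FirstOrder.Language.ring S) (P : Prop) :
    (∅ : Set K).Definable FirstOrder.Language.ring {w : Fin r → K | P ↔ w ∈ S} := by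
  by_cases hP : P
  · have : {w : Fin r → K | P ↔ w ∈ S} = S := by
      ext w; exact ⟨fun h => h.1 hP, fun h => ⟨fun _ => h, fun _ => hP⟩⟩
    rw [this]; exact hS
  · have : {w : Fin r → K | P ↔ w ∈ S} = Sᶜ := by
      ext w; exact ⟨fun h h2 => hP (h.2 h2), fun h => ⟨fun h2 => absurd h2 hP, fun h2 => absurd h2 h⟩⟩
    rw [this]; exact hS.compl

theorem langA_exists {r : ℕ} {S : Set (Fin (r + 1) → K)}
    (hS : (∅ : Set K).Definable FirstOrder.Language.ring S) :
    (∅ : Set K).Definable FirstOrder.Language.ring {w : Fin r → K | ∃ d, Fin.cons d w ∈ S} := by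
  have h := hS.image_comp (Fin.succ : Fin r → Fin (r + 1))
  convert h using 1
  ext w
  constructor
  · rintro ⟨d, hd⟩
    exact ⟨_, hd, by funext i; simp⟩
  · rintro ⟨v, hv, rfl⟩
    refine ⟨v 0, ?_⟩
    have : (Fin.cons (v 0) (v ∘ Fin.succ) : Fin (r + 1) → K) = v := Fin.cons_self_tail v
    rwa [this]

theorem langA_forall {r : ℕ} {S : Set (Fin (r + 1) → K)}
    (hS : (∅ : Set K).Definable FirstOrder.Language.ring S) :
    (∅ : Set K).Definable FirstOrder.Language.ring {w : Fin r → K | ∀ d, Fin.cons d w ∈ S} := by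
  have h := (langA_exists hS.compl).compl
  convert h using 1
  ext w
  simp

/-- The classes of `EF` are definable. -/
theorem langA_class (hfin : EFFiniteStmt.{u}) : ∀ (n r : ℕ) (z : Fin r → K),
    (∅ : Set K).Definable FirstOrder.Language.ring
      {w : Fin r → K | EF (pureRS K) (pureRS K) n r z w} := by
  classical
  intro n
  induction n with
  | zero =>
    intro r z
    have : {w : Fin r → K | EF (pureRS K) (pureRS K) 0 r z w} =
        ⋂ j : FJ 0, ⋂ t : Fin j.ar → Fin r, {w : Fin r → K |
          (pureRS K).R j (z ∘ t) ↔ w ∈ {w : Fin r → K | (pureRS K).R j (w ∘ t)}} := by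
      ext w
      simp only [Set.mem_iInter]
      rfl
    rw [this]
    have : Finite (FJ 0) := FJ.finite 0
    exact Set.definable_iInter_of_finite fun j => Set.definable_iInter_of_finite fun t =>
      langA_iff (langA_atom j t) _
  | succ n ih =>
    intro r z
    obtain ⟨N, cl, hcl⟩ := hfin (fieldSig 0) K (pureRS K) n (r + 1)
    let B : Fin N → Set (Fin (r + 1) → K) := fun i =>
      {v | ∃ c, cl (Fin.cons c z) = i ∧ EF (pureRS K) (pureRS K) n (r + 1) (Fin.cons c z) v}
    have hB : ∀ i, (∅ : Set K).Definable FirstOrder.Language.ring (B i) := by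
      intro i
      by_cases hi : ∃ c, cl (Fin.cons c z) = i
      · obtain ⟨c, hc⟩ := hi
        have : B i = {v | EF (pureRS K) (pureRS K) n (r + 1) (Fin.cons c z) v} := by
          ext v
          constructor
          · rintro ⟨c', hc', h⟩
            exact (hcl _ _ (hc.trans hc'.symm)).trans h
          · intro h
            exact ⟨c, hc, h⟩
        rw [this]
        exact ih (r + 1) _
      · have : B i = ∅ := by
          ext v
          constructor
          · rintro ⟨c', hc', _⟩
            exact hi ⟨c', hc'⟩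
          · intro h; exact h.elim
        rw [this]
        exact Set.definable_empty
    have hset : {w : Fin r → K | EF (pureRS K) (pureRS K) (n + 1) r z w} =
        (⋂ i : Fin N, {w : Fin r → K | (∃ c, cl (Fin.cons c z) = i) → ∃ d, Fin.cons d w ∈ B i}) ∩
          {w : Fin r → K | ∀ d, Fin.cons d w ∈ ⋃ i, B i} := by
      ext w
      simp only [Set.mem_inter_iff, Set.mem_iInter, Set.mem_iUnion]
      constructor
      · rintro ⟨h1, h2⟩
        constructor
        · rintro i ⟨c, hc⟩
          obtain ⟨d, hd⟩ := h1 c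
          refine ⟨d, ?_⟩
          exact (show ∃ c', cl (Fin.cons c' z) = i ∧
            EF (pureRS K) (pureRS K) n (r + 1) (Fin.cons c' z) (Fin.cons d w) from ⟨c, hc, hd⟩)
        · intro d
          obtain ⟨c, hc⟩ := h2 d
          exact ⟨_, (show ∃ c', cl (Fin.cons c' z) = cl (Fin.cons c z) ∧
            EF (pureRS K) (pureRS K) n (r + 1) (Fin.cons c' z) (Fin.cons d w) from ⟨c, rfl, hc⟩)⟩
      · rintro ⟨h1, h2⟩
        constructor
        · intro c
          obtain ⟨d, c', hc', hd⟩ := h1 _ ⟨c, rfl⟩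
          exact ⟨d, (hcl _ _ hc'.symm).trans hd⟩
        · intro d
          obtain ⟨i, c, hc, hd⟩ := h2 d
          exact ⟨c, hd⟩
    rw [hset]
    refine Set.Definable.inter (Set.definable_iInter_of_finite fun i => ?_)
      (langA_forall (Set.definable_iUnion_of_finite hB))
    by_cases hi : ∃ c, cl (Fin.cons c z) = i
    · have : {w : Fin r → K | (∃ c, cl (Fin.cons c z) = i) → ∃ d, Fin.cons d w ∈ B i} =
          {w : Fin r → K | ∃ d, Fin.cons d w ∈ B i} := by
        ext w
        exact ⟨fun h => h hi, fun h _ => h⟩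
      rw [this]
      exact langA_exists (hB i)
    · have : {w : Fin r → K | (∃ c, cl (Fin.cons c z) = i) → ∃ d, Fin.cons d w ∈ B i} =
          Set.univ := by
        ext w
        exact ⟨fun _ => trivial, fun _ h => absurd h hi⟩
      rw [this]
      exact Set.definable_univ

/-- Invariant sets are definable. -/
theorem langA_definable (hfin : EFFiniteStmt.{u}) {t r : ℕ} (D : Set (Fin r → K))
    (hD : ∀ z w, EF (pureRS K) (pureRS K) t r z w → (z ∈ D ↔ w ∈ D)) :
    (∅ : Set K).Definable FirstOrder.Language.ring D := by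
  classical
  obtain ⟨N, cl, hcl⟩ := hfin (fieldSig 0) K (pureRS K) t r
  have hset : D = ⋃ i : Fin N, {w | ∃ z ∈ D, cl z = i ∧ EF (pureRS K) (pureRS K) t r z w} := by
    ext w
    simp only [Set.mem_iUnion]
    constructor
    · intro hw
      exact ⟨cl w, w, hw, rfl, EF.refl _ _ _⟩
    · rintro ⟨i, z, hz, _, h⟩
      exact (hD z w h).1 hz
  rw [hset]
  refine Set.definable_iUnion_of_finite fun i => ?_
  by_cases hi : ∃ z ∈ D, cl z = i
  · obtain ⟨z, hz, hzi⟩ := hi
    have : {w | ∃ z ∈ D, cl z = i ∧ EF (pureRS K) (pureRS K) t r z w} =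
        {w | EF (pureRS K) (pureRS K) t r z w} := by
      ext w
      constructor
      · rintro ⟨z', hz', hzi', h⟩
        exact (hcl _ _ (hzi.trans hzi'.symm)).trans h
      · intro h
        exact ⟨z, hz, hzi, h⟩
    rw [this]
    exact langA_class hfin t r z
  · have : {w | ∃ z ∈ D, cl z = i ∧ EF (pureRS K) (pureRS K) t r z w} = ∅ := by
      ext w
      constructor
      · rintro ⟨z', hz', hzi', _⟩
        exact hi ⟨z', hz', hzi'⟩
      · intro h; exact h.elim
    rw [this]
    exact Set.definable_empty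

end definable

/-- The change of variables. -/
def langA_g (n a b : ℕ) : Fin (a + n * b) → Fin a ⊕ (Σ _ : Fin n, Fin b) :=
  Fin.append (fun j => Sum.inl j)
    (fun i => Sum.inr ⟨(finProdFinEquiv.symm i).1, (finProdFinEquiv.symm i).2⟩)

theorem langA_g_comp {X : Type u} {n a b : ℕ} (x : Fin a → X) (y : Fin n → Fin b → X) :
    (Sum.elim x fun p : (Σ _ : Fin n, Fin b) => y p.1 p.2) ∘ langA_g n a b = tup x y := by
  funext q
  refine Fin.addCases (fun i => ?_) (fun i => ?_) q
  · simp [langA_g, tup]
  · simp [langA_g, tup]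

/-- Theorem A. -/
theorem langA (hfin : EFFiniteStmt.{u}) : LangAStmt.{u} := by
  classical
  intro K _ n hn hNIP a b t D hD
  by_contra hcon
  push Not at hcon
  let inst1 : FirstOrder.Ring.CompatibleRing K := FirstOrder.Ring.compatibleRingOfRing K
  obtain ⟨φ, hφ⟩ := Set.empty_definable_iff.1 (langA_definable hfin D hD)
  have hφ' : ∀ w, φ.Realize w ↔ w ∈ D := by
    intro w
    rw [hφ]
    rfl
  choose y x _ _ hpat using hcon
  let U : Ultrafilter ℕ := Filter.hyperfilter ℕ
  let N : Type u := (U : Filter ℕ).Product (fun _ => K)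
  have helem : K ≅[FirstOrder.Language.ring] N := by
    rw [elementarilyEquivalent_iff]
    intro ψ
    have h := Ultraproduct.sentence_realize (M := fun _ : ℕ => K) (u := U) ψ
    refine Iff.trans ?_ h.symm
    exact Filter.eventually_const.symm
  let ψ : FirstOrder.Language.ring.Formula (Fin a ⊕ (Σ k : Fin n, Fin ((fun _ => b) k))) :=
    φ.relabel (langA_g n a b)
  refine hNIP N helem a (fun _ => b) ψ ?_
  let Y : ∀ k : Fin n, ℕ → Fin b → ℕ → K := fun k i j m =>
    if h : i < m then y m k ⟨i, h⟩ j else 0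
  let S : Set (Fin n → ℕ) → ∀ m : ℕ, Set (Fin n → Fin m) := fun s m =>
    {i | (fun k => (i k : ℕ)) ∈ s}
  let XX : Set (Fin n → ℕ) → Fin a → ℕ → K := fun s j m => x m (S s m) j
  refine ⟨fun k i j => ((Y k i j : ∀ m : ℕ, K) : (U : Filter ℕ).Product (fun _ => K)),
    fun s j => ((XX s j : ∀ m : ℕ, K) : (U : Filter ℕ).Product (fun _ => K)), fun s i => ?_⟩
  let Z : Fin a ⊕ (Σ k : Fin n, Fin b) → ℕ → K :=
    Sum.elim (XX s) (fun p => Y p.1 (i p.1) p.2)
  have hZ : (Sum.elim (fun j => ((XX s j : ∀ m : ℕ, K) : (U : Filter ℕ).Product (fun _ => K)))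
      fun p : (Σ k : Fin n, Fin b) =>
        ((Y p.1 (i p.1) p.2 : ∀ m : ℕ, K) : (U : Filter ℕ).Product (fun _ => K))) =
      fun q => ((Z q : ∀ m : ℕ, K) : (U : Filter ℕ).Product (fun _ => K)) := by
    funext q
    cases q with
    | inl j => rfl
    | inr p => rfl
  have h1 : ψ.Realize (fun q => ((Z q : ∀ m : ℕ, K) : (U : Filter ℕ).Product (fun _ => K))) ↔
      ∀ᶠ m in (U : Filter ℕ), ψ.Realize (fun q => Z q m) :=
    Ultraproduct.realize_formula_cast (M := fun _ : ℕ => K) (u := U) ψ Z
  have h2 : ∀ᶠ m in (U : Filter ℕ), (ψ.Realize (fun q => Z q m) ↔ i ∈ s) := by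
    have hev : ∀ᶠ m in (U : Filter ℕ), ∀ k, i k < m := by
      rw [Filter.eventually_all]
      intro k
      exact Nat.hyperfilter_le_atTop (Filter.eventually_gt_atTop (i k))
    refine hev.mono fun m hm => ?_
    rw [Formula.realize_relabel]
    have h3 : (fun q => Z q m) = Sum.elim (x m (S s m))
        (fun p : (Σ _ : Fin n, Fin b) => y m p.1 ⟨i p.1, hm p.1⟩ p.2) := by
      funext q
      cases q with
      | inl j => rfl
      | inr p => exact dif_pos (hm p.1)
    have h4 : (fun q => Z q m) ∘ langA_g n a b =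
        tup (x m (S s m)) (fun k => y m k ⟨i k, hm k⟩) := by
      rw [h3]
      exact langA_g_comp (x m (S s m)) (fun k j => y m k ⟨i k, hm k⟩ j)
    have h5 : φ.Realize ((fun q => Z q m) ∘ langA_g n a b) ↔ i ∈ s := by
      rw [h4, hφ', hpat m (S s m) (fun k => ⟨i k, hm k⟩)]
      rfl
    exact h5
  have h6 : ψ.Realize (fun q => ((Z q : ∀ m : ℕ, K) : (U : Filter ℕ).Product (fun _ => K))) ↔
      i ∈ s := by
    rw [h1]
    constructor
    · intro h
      obtain ⟨m, hm1, hm2⟩ := (h.and h2).exists
      exact hm2.1 hm1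
    · intro h
      exact h2.mono fun m hm => hm.2 h
  rw [← h6]
  exact iff_of_eq (congrArg _ hZ)

end Pool.Agent.NF44
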