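import Pool.Agent.NF44.Stmts2

/-!
# LangB: from the semantic form of NIP_n to the definition for the valued field (MP_fb46bb_lc)
-/

namespace Pool.Agent.NF44

open FirstOrder FirstOrder.Language

universe u

section lbdef

variable {σ : Sig} {X : Type u} (A : RS σ X)

/-- `P` is a union of `EF t` classes for some `t`. -/
def LBDef (r : ℕ) (P : (Fin r → X) → Prop) : Prop :=
  ∃ t, ∀ z w, EF A A t r z w → (P z ↔ P w)

variable {A}

theorem LBDef.congr {r : ℕ} {P Q : (Fin r → X) → Prop} (h : ∀ z, P z ↔ Q z) (hP : LBDef A r P) :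
    LBDef A r Q := by
  obtain ⟨t, ht⟩ := hP
  exact ⟨t, fun z w hzw => by rw [← h z, ← h w]; exact ht z w hzw⟩

theorem LBDef.false (r : ℕ) : LBDef A r (fun _ => False) := ⟨0, fun _ _ _ => Iff.rfl⟩

theorem LBDef.not {r : ℕ} {P : (Fin r → X) → Prop} (hP : LBDef A r P) :
    LBDef A r (fun z => ¬ P z) := by
  obtain ⟨t, ht⟩ := hP
  exact ⟨t, fun z w hzw => not_congr (ht z w hzw)⟩

theorem LBDef.and [Nonempty X] {r : ℕ} {P Q : (Fin r → X) → Prop} (hP : LBDef A r P)
    (hQ : LBDef A r Q) : LBDef A r (fun z => P z ∧ Q z) := by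
  obtain ⟨t, ht⟩ := hP
  obtain ⟨t', ht'⟩ := hQ
  exact ⟨max t t', fun z w hzw => and_congr (ht z w (hzw.mono (le_max_left _ _)))
    (ht' z w (hzw.mono (le_max_right _ _)))⟩

theorem LBDef.imp [Nonempty X] {r : ℕ} {P Q : (Fin r → X) → Prop} (hP : LBDef A r P)
    (hQ : LBDef A r Q) : LBDef A r (fun z => P z → Q z) := by
  obtain ⟨t, ht⟩ := hP
  obtain ⟨t', ht'⟩ := hQ
  exact ⟨max t t', fun z w hzw => imp_congr (ht z w (hzw.mono (le_max_left _ _)))
    (ht' z w (hzw.mono (le_max_right _ _)))⟩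

theorem LBDef.ex {r : ℕ} {P : (Fin (r + 1) → X) → Prop} (hP : LBDef A (r + 1) P) :
    LBDef A r (fun z => ∃ c, P (Fin.cons c z)) := by
  obtain ⟨t, ht⟩ := hP
  refine ⟨t + 1, fun z w hzw => ⟨?_, ?_⟩⟩
  · rintro ⟨c, hc⟩
    obtain ⟨d, hd⟩ := hzw.1 c
    exact ⟨d, (ht _ _ hd).1 hc⟩
  · rintro ⟨d, hd⟩
    obtain ⟨c, hc⟩ := hzw.2 d
    exact ⟨c, (ht _ _ hc).2 hd⟩

theorem LBDef.all {r : ℕ} {P : (Fin (r + 1) → X) → Prop} (hP : LBDef A (r + 1) P) :
    LBDef A r (fun z => ∀ c, P (Fin.cons c z)) := by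
  obtain ⟨t, ht⟩ := hP
  refine ⟨t + 1, fun z w hzw => ⟨?_, ?_⟩⟩
  · intro h d
    obtain ⟨c, hc⟩ := hzw.2 d
    exact (ht _ _ hc).1 (h c)
  · intro h c
    obtain ⟨d, hd⟩ := hzw.1 c
    exact (ht _ _ hd).2 (h d)

theorem LBDef.reindex {r s : ℕ} {P : (Fin s → X) → Prop} (hP : LBDef A s P) (e : Fin s → Fin r) :
    LBDef A r (fun z => P (z ∘ e)) := by
  obtain ⟨t, ht⟩ := hP
  exact ⟨t, fun z w hzw => ht _ _ (hzw.reindex e)⟩

theorem LBDef.rel {r : ℕ} (j : σ.J) (e : Fin (σ.ar j) → Fin r) :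
    LBDef A r (fun z => A.R j (z ∘ e)) := ⟨0, fun _ _ hzw => hzw j e⟩

end lbdef

section field

variable {K : Type u} [Field K] {m : ℕ} (P : Fin m → Set K)

theorem LBDef.addR {r : ℕ} (i j k : Fin r) :
    LBDef (fieldRS P) r (fun z => z i + z j = z k) :=
  LBDef.rel (A := fieldRS P) FJ.add (![i, j, k] : Fin 3 → Fin r)

theorem LBDef.mulR {r : ℕ} (i j k : Fin r) :
    LBDef (fieldRS P) r (fun z => z i * z j = z k) :=
  LBDef.rel (A := fieldRS P) FJ.mul (![i, j, k] : Fin 3 → Fin r)

theorem LBDef.eqR {r : ℕ} (i j : Fin r) :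
    LBDef (fieldRS P) r (fun z => z i = z j) :=
  LBDef.rel (A := fieldRS P) FJ.eq (![i, j] : Fin 2 → Fin r)

theorem LBDef.prR {r : ℕ} (l : Fin m) (i : Fin r) :
    LBDef (fieldRS P) r (fun z => z i ∈ P l) :=
  LBDef.rel (A := fieldRS P) (FJ.pr l) (![i] : Fin 1 → Fin r)

theorem LBDef.zeroR {r : ℕ} (i : Fin r) : LBDef (fieldRS P) r (fun z => z i = 0) :=
  (LBDef.addR P i i i).congr fun z => by simp

theorem LBDef.oneR {r : ℕ} (i : Fin r) : LBDef (fieldRS P) r (fun z => z i = 1) := by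
  refine ((LBDef.mulR P i i i).and (LBDef.zeroR P i).not).congr fun z => ?_
  constructor
  · rintro ⟨h1, h2⟩
    exact mul_left_cancel₀ h2 (by rw [h1, mul_one])
  · intro h
    rw [h]
    simp

theorem LBDef.negR {r : ℕ} (i j : Fin r) : LBDef (fieldRS P) r (fun z => z i = - z j) := by
  have h : LBDef (fieldRS P) (r + 1) (fun z => z i.succ + z j.succ = z 0 ∧ z 0 = 0) :=
    (LBDef.addR P _ _ _).and (LBDef.zeroR P _)
  refine h.ex.congr fun z => ?_
  constructor
  · rintro ⟨c, h1, h2⟩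
    simp only [Fin.cons_succ, Fin.cons_zero] at h1 h2
    rw [h2] at h1
    exact eq_neg_of_add_eq_zero_left h1
  · intro h
    refine ⟨0, ?_, ?_⟩
    · simp only [Fin.cons_succ, Fin.cons_zero]
      rw [h, neg_add_cancel]
    · rfl

end field

section langB

variable {K : Type u} [Field K] (O : ValuationSubring K)

/-- realization of a term in `(K, O)` -/
noncomputable abbrev lbTerm {α : Type} (τ : Lval.Term α) (v : α → K) : K :=
  @FirstOrder.Language.Term.realize Lval K (valStr K O) α v τ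

/-- realization of a formula in `(K, O)` -/
abbrev lbForm {α : Type} {l : ℕ} (φ : Lval.BoundedFormula α l) (v : α → K) (xs : Fin l → K) : Prop :=
  @FirstOrder.Language.BoundedFormula.Realize Lval K (valStr K O) α l φ v xs

theorem lbTerm_def {α : Type} (τ : Lval.Term α) :
    ∀ {r : ℕ} (e : α → Fin r),
      LBDef (fieldRS ![(O : Set K)]) (r + 1) (fun z => z 0 = lbTerm O τ (z ∘ Fin.succ ∘ e)) := by
  induction τ with
  | var a =>
    intro r e
    exact LBDef.eqR _ 0 (Fin.succ (e a))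
  | @func l f ts ih =>
    intro r e
    cases f with
    | add =>
      have h0 := (ih 0 e).reindex
        (Fin.cons 0 (fun i : Fin r => i.succ.succ.succ) : Fin (r + 1) → Fin (r + 1 + 1 + 1))
      have h1 := (ih 1 e).reindex
        (Fin.cons (Fin.succ 0) (fun i : Fin r => i.succ.succ.succ) :
          Fin (r + 1) → Fin (r + 1 + 1 + 1))
      refine (((h0.and h1).and (LBDef.addR _ 0 (Fin.succ 0) (Fin.succ (Fin.succ 0)))).ex.ex).congr
        fun z => ?_
      simp only [Function.comp_def, Fin.cons_zero, Fin.cons_succ]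
      constructor
      · rintro ⟨c, d, ⟨rfl, rfl⟩, h⟩
        exact h.symm
      · intro h
        exact ⟨_, _, ⟨rfl, rfl⟩, h.symm⟩
    | mul =>
      have h0 := (ih 0 e).reindex
        (Fin.cons 0 (fun i : Fin r => i.succ.succ.succ) : Fin (r + 1) → Fin (r + 1 + 1 + 1))
      have h1 := (ih 1 e).reindex
        (Fin.cons (Fin.succ 0) (fun i : Fin r => i.succ.succ.succ) :
          Fin (r + 1) → Fin (r + 1 + 1 + 1))
      refine (((h0.and h1).and (LBDef.mulR _ 0 (Fin.succ 0) (Fin.succ (Fin.succ 0)))).ex.ex).congr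
        fun z => ?_
      simp only [Function.comp_def, Fin.cons_zero, Fin.cons_succ]
      constructor
      · rintro ⟨c, d, ⟨rfl, rfl⟩, h⟩
        exact h.symm
      · intro h
        exact ⟨_, _, ⟨rfl, rfl⟩, h.symm⟩
    | neg =>
      have h0 := (ih 0 e).reindex
        (Fin.cons 0 (fun i : Fin r => i.succ.succ) : Fin (r + 1) → Fin (r + 1 + 1))
      refine ((h0.and (LBDef.negR _ (Fin.succ 0) 0)).ex).congr fun z => ?_
      simp only [Function.comp_def, Fin.cons_zero, Fin.cons_succ]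
      constructor
      · rintro ⟨c, rfl, h⟩
        exact h
      · intro h
        exact ⟨_, rfl, h⟩
    | zero =>
      exact LBDef.zeroR _ 0
    | one =>
      exact LBDef.oneR _ 0

theorem lbForm_def {α : Type} {l : ℕ} (φ : Lval.BoundedFormula α l) :
    ∀ {r : ℕ} (e : α → Fin r) (e' : Fin l → Fin r),
      LBDef (fieldRS ![(O : Set K)]) r (fun z => lbForm O φ (z ∘ e) (z ∘ e')) := by
  induction φ with
  | falsum =>
    intro r e e'
    exact LBDef.false r
  | @equal l t₁ t₂ =>
    intro r e e'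
    have h1 := lbTerm_def O t₁ (Sum.elim e e')
    have h2 := lbTerm_def O t₂ (Sum.elim e e')
    refine (h1.and h2).ex.congr fun z => ?_
    have hz : z ∘ Sum.elim e e' = Sum.elim (z ∘ e) (z ∘ e') := by
      funext x
      rcases x with x | x <;> rfl
    have hz' : ∀ c, (Fin.cons c z : Fin (r + 1) → K) ∘ Fin.succ ∘ Sum.elim e e' =
        Sum.elim (z ∘ e) (z ∘ e') := by
      intro c
      rw [← hz]
      funext x
      simp
    simp only [hz', Fin.cons_zero]
    constructor
    · rintro ⟨c, h1, h2⟩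
      exact h1.symm.trans h2
    · intro h
      exact ⟨_, rfl, h⟩
  | @rel l k R ts =>
    intro r e e'
    cases R with
    | val =>
      have h1 := lbTerm_def O (ts 0) (Sum.elim e e')
      refine (h1.and (LBDef.prR _ 0 0)).ex.congr fun z => ?_
      have hz : z ∘ Sum.elim e e' = Sum.elim (z ∘ e) (z ∘ e') := by
        funext x
        rcases x with x | x <;> rfl
      have hz' : ∀ c, (Fin.cons c z : Fin (r + 1) → K) ∘ Fin.succ ∘ Sum.elim e e' =
          Sum.elim (z ∘ e) (z ∘ e') := by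
        intro c
        rw [← hz]
        funext x
        simp
      simp only [hz', Fin.cons_zero]
      constructor
      · rintro ⟨c, rfl, h2⟩
        exact h2
      · intro h
        exact ⟨_, rfl, h⟩
  | imp φ ψ ih1 ih2 =>
    intro r e e'
    exact (ih1 e e').imp (ih2 e e')
  | @all l φ ih =>
    intro r e e'
    have h := ih (fun a => (e a).succ)
      (fun i => Fin.lastCases (motive := fun _ => Fin (r + 1)) 0 (fun i => (e' i).succ) i)
    refine h.all.congr fun z => ?_
    refine forall_congr' fun c => ?_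
    have h1 : (Fin.cons c z : Fin (r + 1) → K) ∘ (fun a => (e a).succ) = z ∘ e := by
      funext a
      simp
    have h2 : (Fin.cons c z : Fin (r + 1) → K) ∘ (fun i => Fin.lastCases
        (motive := fun _ => Fin (r + 1)) 0 (fun i => (e' i).succ) i) = Fin.snoc (z ∘ e') c := by
      funext i
      refine Fin.lastCases ?_ (fun i => ?_) i
      · simp
      · simp
    rw [h1, h2]

end langB

section pattern

open FirstOrder FirstOrder.Language

variable (L : FirstOrder.Language.{0, 0})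

/-- variables for an `N`-pattern -/
abbrev LBVar (n N a : ℕ) (b : Fin n → ℕ) : Type :=
  (Set (Fin n → Fin N) × Fin a) ⊕ (Σ k : Fin n, Fin N × Fin (b k))

/-- the substitution for the pair `(s, i)` -/
def lbSub (n N a : ℕ) (b : Fin n → ℕ) (s : Set (Fin n → Fin N)) (i : Fin n → Fin N) :
    Fin a ⊕ (Σ k : Fin n, Fin (b k)) → Empty ⊕ LBVar n N a b
  | Sum.inl p => Sum.inr (Sum.inl (s, p))
  | Sum.inr q => Sum.inr (Sum.inr ⟨q.1, (i q.1, q.2)⟩)

open scoped Classical in
/-- the sentence: `φ` has an `N`-pattern -/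
noncomputable def lbSent {L : FirstOrder.Language.{0, 0}} {n a : ℕ} {b : Fin n → ℕ}
    (φ : L.Formula (Fin a ⊕ (Σ k : Fin n, Fin (b k)))) (N : ℕ) : L.Sentence :=
  Formula.iExs (LBVar n N a b)
    (Formula.iInf (α := Set (Fin n → Fin N) × (Fin n → Fin N)) fun si =>
      if si.2 ∈ si.1 then φ.relabel (lbSub n N a b si.1 si.2)
      else (φ.relabel (lbSub n N a b si.1 si.2)).not)

theorem lbSent_realize {L : FirstOrder.Language.{0, 0}} {M : Type u} [L.Structure M] {n a : ℕ}
    {b : Fin n → ℕ} (φ : L.Formula (Fin a ⊕ (Σ k : Fin n, Fin (b k)))) (N : ℕ) :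
    M ⊨ lbSent φ N ↔ ∃ (y : ∀ k : Fin n, Fin N → Fin (b k) → M)
      (x : Set (Fin n → Fin N) → Fin a → M), ∀ (s : Set (Fin n → Fin N)) (i : Fin n → Fin N),
        φ.Realize (Sum.elim (x s) fun p : (Σ k : Fin n, Fin (b k)) => y p.1 (i p.1) p.2) ↔
          i ∈ s := by
  unfold lbSent
  rw [Sentence.Realize, Formula.realize_iExs]
  constructor
  · rintro ⟨v, hv⟩
    rw [Formula.realize_iInf] at hv
    refine ⟨fun k j q => v (Sum.inr ⟨k, (j, q)⟩), fun s p => v (Sum.inl (s, p)), ?_⟩
    intro s i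
    have h := hv (s, i)
    have e : (Sum.elim default v : Empty ⊕ LBVar n N a b → M) ∘ lbSub n N a b s i =
        Sum.elim (fun p => v (Sum.inl (s, p)))
          (fun p : (Σ k : Fin n, Fin (b k)) => v (Sum.inr ⟨p.1, (i p.1, p.2)⟩)) := by
      funext x
      rcases x with x | x <;> rfl
    by_cases hi : i ∈ s
    · simp only [hi, if_true, Formula.realize_relabel] at h
      rw [e] at h
      simp only [hi, iff_true]
      exact h
    · simp only [hi, if_false, Formula.realize_not, Formula.realize_relabel] at h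
      rw [e] at h
      simp only [hi, iff_false]
      exact h
  · rintro ⟨y, x, h⟩
    refine ⟨Sum.elim (fun sp => x sp.1 sp.2) (fun q => y q.1 q.2.1 q.2.2), ?_⟩
    rw [Formula.realize_iInf]
    rintro ⟨s, i⟩
    have e : (Sum.elim default (Sum.elim (fun sp => x sp.1 sp.2) (fun q => y q.1 q.2.1 q.2.2)) :
        Empty ⊕ LBVar n N a b → M) ∘ lbSub n N a b s i =
        Sum.elim (x s) (fun p : (Σ k : Fin n, Fin (b k)) => y p.1 (i p.1) p.2) := by
      funext z
      rcases z with z | z <;> rfl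
    have h' := h s i
    by_cases hi : i ∈ s
    · simp only [hi, if_true, Formula.realize_relabel]
      rw [e]
      exact h'.2 hi
    · simp only [hi, if_false, Formula.realize_not, Formula.realize_relabel]
      rw [e]
      exact fun h'' => hi (h'.1 h'')

/-- restriction of an infinite pattern to a finite one -/
theorem lbFinite {L : FirstOrder.Language.{0, 0}} {M : Type u} [L.Structure M] {n a : ℕ}
    {b : Fin n → ℕ} (φ : L.Formula (Fin a ⊕ (Σ k : Fin n, Fin (b k)))) (N : ℕ)
    (h : FormulaIP n L M a b φ) : M ⊨ lbSent φ N := by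
  rw [lbSent_realize]
  obtain ⟨y, x, h⟩ := h
  refine ⟨fun k j => y k (j : ℕ), fun s => x {i | ∃ j ∈ s, i = fun k => ((j k : Fin N) : ℕ)}, ?_⟩
  intro s i
  refine (h {i | ∃ j ∈ s, i = fun k => ((j k : Fin N) : ℕ)}
    (fun k => ((i k : Fin N) : ℕ))).trans ?_
  constructor
  · rintro ⟨j, hj, hij⟩
    have : i = j := by
      funext k
      exact Fin.ext (congrFun hij k)
    rw [this]
    exact hj
  · intro hi
    exact ⟨i, hi, rfl⟩

end pattern

theorem lb_tup_left {X : Type u} {a b n : ℕ} (x : Fin a → X) (y : Fin n → Fin b → X) (p : Fin a) :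
    tup x y (Fin.castAdd (n * b) p) = x p := by
  unfold tup
  rw [Fin.append_left]

theorem lb_tup_right {X : Type u} {a b n : ℕ} (x : Fin a → X) (y : Fin n → Fin b → X) (k : Fin n)
    (q : Fin b) : tup x y (Fin.natAdd a (finProdFinEquiv (k, q))) = y k q := by
  unfold tup
  rw [Fin.append_right, Equiv.symm_apply_apply]

theorem langB : LangBStmt.{u} := by
  intro K _ O n hn hS
  intro N instN hKN a b φ hφ
  let _ := valStr K O
  -- finite patterns in K
  have hfin : ∀ N' : ℕ, K ⊨ lbSent φ N' := by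
    intro N'
    exact (elementarilyEquivalent_iff.1 hKN _).2 (lbFinite φ N' hφ)
  -- common length
  set B : ℕ := ∑ k, b k with hB
  have hbB : ∀ k, b k ≤ B := fun k => Finset.single_le_sum (fun _ _ => Nat.zero_le _)
    (Finset.mem_univ k)
  let e : Fin a ⊕ (Σ k : Fin n, Fin (b k)) → Fin (a + n * B) :=
    Sum.elim (Fin.castAdd (n * B)) (fun p => Fin.natAdd a (finProdFinEquiv
      (p.1, Fin.castLE (hbB p.1) p.2)))
  obtain ⟨t, ht⟩ := lbForm_def O φ (r := a + n * B) e Fin.elim0
  obtain ⟨N', hN'⟩ := hS a B t {z | lbForm O φ (z ∘ e) (z ∘ Fin.elim0)} ht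
  apply hN'
  obtain ⟨y, x, h⟩ := (lbSent_realize φ N').1 (hfin N')
  refine ⟨fun k j q => if hq : (q : ℕ) < b k then y k j ⟨q, hq⟩ else 0, x, fun _ _ _ => trivial,
    fun _ _ => trivial, ?_⟩
  intro s i
  rw [← h s i]
  have h1 : (tup (x s) (fun k (q : Fin B) => if hq : (q : ℕ) < b k then y k (i k) ⟨q, hq⟩ else 0)) ∘ e
      = Sum.elim (x s) (fun p : (Σ k : Fin n, Fin (b k)) => y p.1 (i p.1) p.2) := by
    funext z
    rcases z with z | z
    · exact lb_tup_left _ _ _
    · refine (lb_tup_right _ _ _ _).trans ?_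
      exact dif_pos z.2.2
  change lbForm O φ (tup (x s) (fun k (q : Fin B) => if hq : (q : ℕ) < b k then
    y k (i k) ⟨q, hq⟩ else 0) ∘ e) _ ↔ _
  rw [h1]
  unfold Formula.Realize
  refine iff_of_eq (congrArg _ ?_)
  exact Subsingleton.elim _ _

end Pool.Agent.NF44
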