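import Pool.Agent.NF44.Stmts2

/-!
# Predicates on the value group are preserved by good sets
-/

namespace Pool.Agent.NF44

universe u

/-- Outside the kernel, membership in `O` is membership in `O₂`. -/
theorem upvg_mem_of_ne_one {M : Type u} [Field M] {O₁ O O₂ : ValuationSubring M} (h₁ : O₁ ≤ O)
    (h₂ : O ≤ O₂) (g : UP (VGg O₁)) (hg : upHom (vmap (h₁.trans h₂)) g ≠ 1) :
    g ∈ upSet (vset O₁ O) ↔ upHom (vmap (h₁.trans h₂)) g ∈ upSet (vset O₂ O₂) := by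
  obtain ⟨z, hz, rfl⟩ := upvg_surj O₁ g
  rw [upHom_vmap] at hg ⊢
  rw [upvg_mem h₁ hz, upvg_mem le_rfl hz]
  rw [Ne, upvg_eq_one O₂ hz] at hg
  constructor
  · intro h
    exact upVS_mono h₂ h
  · intro h
    have h3 : (upVS O₂).valuation z < 1 :=
      lt_of_le_of_ne (((upVS O₂).valuation_le_one_iff z).2 h) hg
    rw [vlt_iff] at h3
    have h4 : z⁻¹ ∉ upVS O₂ := h3.resolve_left hz
    have h5 : z⁻¹ ∉ upVS O₁ := fun h6 => h4 (upVS_mono (h₁.trans h₂) h6)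
    exact upVS_mono h₁ (((upVS O₁).mem_or_inv_mem z).resolve_right h5)

theorem ordGood : OrdGoodStmt.{u} := by
  intro M _ O₁ O O₂ h₁ h₂ PA PC hPA hPC L hL p hp
  by_cases h : upHom (vmap (h₁.trans h₂)) p.1 = 1
  · exact hPA _ hL.a p ⟨hp, h⟩
  · have h' : upHom (vmap (h₁.trans h₂)) p.2 ≠ 1 := fun h2 => h ((hL.ker p hp).2 h2)
    rw [upvg_mem_of_ne_one h₁ h₂ _ h, upvg_mem_of_ne_one h₁ h₂ _ h']
    exact hPC _ hL.c (upHom (vmap (h₁.trans h₂)) p.1, upHom (vmap (h₁.trans h₂)) p.2)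
      ⟨p, hp, rfl⟩

end Pool.Agent.NF44
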