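import Pool.Agent.NF44.Stmts2
import Pool.Agent.NF44.SysTp
import Pool.Agent.NF44.FieldTp
import Pool.Agent.NF44.OrdGood
import Pool.Agent.NF44.CountClose

/-!
# The main lemma of Case 1
-/

namespace Pool.Agent.NF44

universe u

section

variable {M : Type u} [Field M] (O₁ O O₂ : ValuationSubring M) (h₁ : O₁ ≤ O) (h₂ : O ≤ O₂)

/-- The kernel types. -/
def mlPA : Set (UP (VGg O₁) × UP (VGg O₁)) → Prop :=
  PRes ![vset O₁ O₁, vset O₁ O] (vmap (h₁.trans h₂)).ker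

/-- The quotient types. -/
def mlPC : Set (UP (VGg O₂) × UP (VGg O₂)) → Prop :=
  fun L => Tp (vgRS O₂ ![O₂]).up (vgRS O₂ ![O₂]).up L

theorem upSet_ker {E C : Type u} [CommGroup E] [CommGroup C] (π : E →* C) :
    upSet (π.ker : Set E) = {e | upHom π e = 1} := by
  ext e
  induction e using up_ind with | _ f => ?_
  rw [mem_upSet, Set.mem_ofPred_eq, upHom_eq_one]
  exact Iff.rfl

theorem mlPA_isType (hP : PResTypeStmt.{u}) :
    IsTypeProp {e | upHom (vmap (h₁.trans h₂)) e = 1} (mlPA O₁ O O₂ h₁ h₂) := by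
  rw [← upSet_ker]
  exact hP (VGg O₁) 2 _ _

theorem mlPC_isType (hG : GrpTypeStmt.{u}) : IsTypeProp Set.univ (mlPC O₂) :=
  hG (VGg O₂) 1 _

theorem pRes_R {G : Type u} [CommGroup G] {m : ℕ} (P : Fin m → Set G) (A : Subgroup G)
    (i : Fin m) (x : UP G) (hx : x ∈ upSet (A : Set G)) :
    ((grpRS P).restr (A : Set G)).up.R (GJ.pr i) (fun _ => x) ↔ x ∈ upSet (P i) := by
  induction x using up_ind with | _ f => ?_
  have h := RS.up_coe ((grpRS P).restr (A : Set G)) (GJ.pr i) (fun _ => f)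
  refine h.trans ?_
  rw [mem_upSet]
  rw [mem_upSet] at hx
  constructor
  · intro h
    exact h.mono fun k hk => hk.2
  · intro h
    exact (evt_and.2 ⟨hx, h⟩).mono fun k hk => ⟨fun _ => hk.1, hk.2⟩

theorem pRes_pred {G : Type u} [CommGroup G] {m : ℕ} (P : Fin m → Set G) (A : Subgroup G)
    (L : Set (UP G × UP G)) (hL : PRes P A L) (i : Fin m) (p : UP G × UP G) (hp : p ∈ L) :
    p.1 ∈ upSet (P i) ↔ p.2 ∈ upSet (P i) := by
  obtain ⟨h1, h2⟩ := hL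
  obtain ⟨ha, hb⟩ := h1 p hp
  have h3 := h2.atomic (GJ.pr i) (fun _ => p) (fun _ => hp)
  exact (pRes_R P A i p.1 ha).symm.trans (h3.trans (pRes_R P A i p.2 hb))

theorem mlPC_ord : PreservesOrd O₂ (mlPC O₂) := by
  intro L hL p hp
  have h := hL.atomic
  rw [vgRS, grpRS_up] at h
  exact h (GJ.pr 0) (fun _ => p) (fun _ => hp)

/-- The types on `VGg O₁`. -/
def mlP : Set (UP (VGg O₁) × UP (VGg O₁)) → Prop :=
  GoodP (vmap (h₁.trans h₂)) (mlPA O₁ O O₂ h₁ h₂) (mlPC O₂)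

theorem mlP_isType (hP : PResTypeStmt.{u}) (hG : GrpTypeStmt.{u}) (hT : GoodTypeStmt.{u}) :
    IsTypeProp Set.univ (mlP O₁ O O₂ h₁ h₂) :=
  hT _ _ _ (vmap_surjective (h₁.trans h₂)) (vg_torsion_free O₂) _ _
    (mlPA_isType O₁ O O₂ h₁ h₂ hP) (mlPC_isType O₂ hG)

theorem mlP_pred (L : Set (UP (VGg O₁) × UP (VGg O₁))) (hL : mlP O₁ O O₂ h₁ h₂ L)
    (p : UP (VGg O₁) × UP (VGg O₁)) (hp : p ∈ L) :
    (p.1 ∈ upSet (vset O₁ O) ↔ p.2 ∈ upSet (vset O₁ O)) := by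
  obtain ⟨L', hL', hsub⟩ := hL
  exact ordGood M O₁ O O₂ h₁ h₂ _ _
    (fun L hL p hp => pRes_pred _ _ L hL (1 : Fin 2) p hp) (mlPC_ord O₂) L' hL' p (hsub hp)

theorem mlP_ord : PreservesOrd O₁ (mlP O₁ O O₂ h₁ h₂) := by
  intro L hL p hp
  obtain ⟨L', hL', hsub⟩ := hL
  exact ordGood M O₁ O₁ O₂ le_rfl (h₁.trans h₂) _ _
    (fun L hL p hp => pRes_pred _ _ L hL (0 : Fin 2) p hp) (mlPC_ord O₂) L' hL' p (hsub hp)

end

theorem upSub_one {M : Type u} [Field M] {F : Subfield M} {O₁ O₂ : ValuationSubring M}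
    (hF1 : ∀ z ∈ F, z ∈ O₂ → z ∈ O₁) : ∀ z ∈ upSub F, z ∈ upVS O₂ → z ∈ upVS O₁ := by
  intro z hz hz2
  induction z using up_ind with | _ f => ?_
  exact (evt_and.2 ⟨hz, hz2⟩).mono fun k hk => hF1 _ hk.1 hk.2

theorem upSub_two {M : Type u} [Field M] {F : Subfield M} {O₂ : ValuationSubring M}
    (hF2 : ∀ z ∈ F, z ≠ 0 → ∀ n : ℕ, 0 < n → ∀ w : M, O₂.valuation z = O₂.valuation (w ^ n) →
      ∃ s ∈ F, O₂.valuation z = O₂.valuation (s ^ n)) :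
    ∀ z ∈ upSub F, z ≠ 0 → ∀ n : ℕ, 0 < n → ∀ w : UP M,
      (upVS O₂).valuation z = (upVS O₂).valuation (w ^ n) →
      ∃ s ∈ upSub F, (upVS O₂).valuation z = (upVS O₂).valuation (s ^ n) := by
  intro z hz hz0 n hn w hw
  induction z using up_ind with | _ f => ?_
  induction w using up_ind with | _ g => ?_
  rw [UP.pow_coe, upVS_eq] at hw
  rw [up_ne_zero] at hz0
  have h3 : evt fun k => ∃ s, s ∈ F ∧ O₂.valuation (f k) = O₂.valuation (s ^ n) :=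
    (evt_and.2 ⟨evt_and.2 ⟨hz, hz0⟩, hw⟩).mono fun k hk => hF2 _ hk.1.1 hk.1.2 n hn _ hk.2
  rw [evt_exists] at h3
  obtain ⟨s, hs⟩ := h3
  rw [evt_and] at hs
  refine ⟨(s : UP M), hs.1, ?_⟩
  rw [UP.pow_coe, upVS_eq]
  exact hs.2

theorem upVS_val_mono' {N : Type u} [Field N] {O₁ O₂ : ValuationSubring N} (h : O₁ ≤ O₂) {x y : N}
    (hxy : O₁.valuation x = O₁.valuation y) : O₂.valuation x = O₂.valuation y :=
  upVS_val_mono h hxy

section good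

variable {M : Type u} [Field M] {O₁ O O₂ : ValuationSubring M} (h₁ : O₁ ≤ O) (h₂ : O ≤ O₂)
  {G : Set (UP M × UP M)}

theorem ml_pres1 (hT : Tp (fieldRS ![(O₁ : Set M), (O₂ : Set M)]).up
    (fieldRS ![(O₁ : Set M), (O₂ : Set M)]).up G) : PresV (upVS O₁) G :=
  fun _ hp => ftp_mem hT O₁ (0 : Fin 2) rfl hp

theorem ml_pres2 (hT : Tp (fieldRS ![(O₁ : Set M), (O₂ : Set M)]).up
    (fieldRS ![(O₁ : Set M), (O₂ : Set M)]).up G) : PresV (upVS O₂) G :=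
  fun _ hp => ftp_mem hT O₂ (1 : Fin 2) rfl hp

theorem ml_pow2 (hForth : TpForthStmt.{u}) (hClose : FieldCloseStmt.{u})
    (hG : IsFieldGraph G) (hc : G.Countable)
    (hT : Tp (fieldRS ![(O₁ : Set M), (O₂ : Set M)]).up
      (fieldRS ![(O₁ : Set M), (O₂ : Set M)]).up G)
    (hpow : ∀ p ∈ G, p.1 ≠ 0 → ∀ n : ℕ, 0 < n → ∀ w : UP M,
      (upVS O₂).valuation p.1 = (upVS O₂).valuation (w ^ n) →
      ∃ q ∈ G, (upVS O₂).valuation p.1 = (upVS O₂).valuation (q.1 ^ n)) :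
    ∀ p ∈ G, p.1 ≠ 0 → ∀ n : ℕ, 0 < n → ∀ w : UP M,
      (upVS O₂).valuation p.2 = (upVS O₂).valuation (w ^ n) →
      ∃ q ∈ G, (upVS O₂).valuation p.2 = (upVS O₂).valuation (q.2 ^ n) := by
  intro p hp hp0 n hn w' hw'
  have hTs := hT.swap
  have hcs : (Prod.swap ⁻¹' G).Countable := hc.preimage Prod.swap_injective
  obtain ⟨L', hL1, hL2, hL3, hL4⟩ := hForth _ _ _ _ _ _ hTs hcs {w'} (Set.countable_singleton w')
  obtain ⟨w, hw⟩ := hL4 w' rfl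
  have hTs2 := hL3.swap
  have hcs2 : (Prod.swap ⁻¹' L').Countable := hL2.preimage Prod.swap_injective
  obtain ⟨L3, h31, h32, h33, h34⟩ := hClose M 2 _ _ hcs2 hTs2
  have hGL : G ⊆ L3 := by
    intro q hq
    exact h31 (hL1 (by simpa using hq))
  have hwL : (w, w') ∈ L3 := h31 hw
  have hV := ml_pres2 h34
  have h5 := (hV.eq_pow h33 (hGL hp) hwL n).2 hw'
  obtain ⟨q, hq, hq2⟩ := hpow p hp hp0 n hn w h5
  exact ⟨q, hq, ((ml_pres2 hT).eq_pow hG hp hq n).1 hq2⟩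

theorem ml_goodV (hVg : VgTpStmt.{u}) (hG : IsFieldGraph G) (hc : G.Countable)
    (hT : Tp (fieldRS ![(O₁ : Set M), (O₂ : Set M)]).up
      (fieldRS ![(O₁ : Set M), (O₂ : Set M)]).up G)
    (hone : ∀ p ∈ G, p.1 ∈ upVS O₂ → p.1 ∈ upVS O₁)
    (hpow : ∀ p ∈ G, p.1 ≠ 0 → ∀ n : ℕ, 0 < n → ∀ w : UP M,
      (upVS O₂).valuation p.1 = (upVS O₂).valuation (w ^ n) →
      ∃ q ∈ G, (upVS O₂).valuation p.1 = (upVS O₂).valuation (q.1 ^ n))
    (hpow2 : ∀ p ∈ G, p.1 ≠ 0 → ∀ n : ℕ, 0 < n → ∀ w : UP M,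
      (upVS O₂).valuation p.2 = (upVS O₂).valuation (w ^ n) →
      ∃ q ∈ G, (upVS O₂).valuation p.2 = (upVS O₂).valuation (q.2 ^ n)) :
    Good (vmap (h₁.trans h₂)) (mlPA O₁ O O₂ h₁ h₂) (mlPC O₂) (vgSub O₁ hG) := by
  have hV1 := ml_pres1 hT
  have hV2 := ml_pres2 hT
  have hone' : ∀ p ∈ G, (upVS O₂).valuation p.1 = 1 → (upVS O₁).valuation p.1 = 1 := by
    intro p hp h
    rw [veq_one_iff] at h ⊢
    exact ⟨h.1, hone p hp h.2.1, hone _ (hG.inv p hp) h.2.2⟩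
  refine ⟨vgSub_countable O₁ hG hc, ?_, ?_, ?_, ?_, ?_⟩
  · rintro _ ⟨p, hp, hp0, rfl⟩
    simp only [upHom_vmap]
    rw [upvg_eq_one O₂ hp0, upvg_eq_one O₂ (hG.ftp_ne hp hp0)]
    exact hV2.eq_one hG hp
  · have key : ∀ q ∈ {q | q ∈ vgSub O₁ hG ∧ upHom (vmap (h₁.trans h₂)) q.1 = 1},
        q = ((1 : UP (VGg O₁)), (1 : UP (VGg O₁))) := by
      rintro _ ⟨⟨p, hp, hp0, rfl⟩, h⟩
      simp only [upHom_vmap] at h
      rw [upvg_eq_one O₂ hp0] at h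
      have h3 := hone' p hp h
      have h4 := (hV1.eq_one hG hp).1 h3
      rw [(upvg_eq_one O₁ hp0).2 h3, (upvg_eq_one O₁ (hG.ftp_ne hp hp0)).2 h4]
    refine ⟨?_, ?_⟩
    · intro q hq
      rw [key q hq]
      have h1 : (1 : UP (VGg O₁)) ∈ upSet ((vmap (h₁.trans h₂)).ker : Set (VGg O₁)) := by
        rw [upSet_ker]
        exact map_one _
      exact ⟨h1, h1⟩
    · refine Tp.refl _ ?_
      intro q hq
      rw [key q hq]
  · refine (hVg M 2 _ O₂ 1 rfl G hT).mono ?_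
    rintro _ ⟨_, ⟨p, hp, hp0, rfl⟩, rfl⟩
    refine ⟨p, ⟨hp, hp0, hG.ftp_ne hp hp0⟩, ?_⟩
    simp only [upHom_vmap]
  · rintro _ ⟨p, hp, hp0, rfl⟩ g n hn hg
    simp only [upHom_vmap] at hg
    obtain ⟨w, hw0, rfl⟩ := upvg_surj O₂ g
    rw [← upvg_pow O₂ hw0, upvg_eq O₂ (pow_ne_zero n hw0) hp0] at hg
    obtain ⟨q, hq, hq2⟩ := hpow p hp hp0 n hn w hg.symm
    have hq0 : q.1 ≠ 0 := by
      intro h0
      rw [h0, zero_pow hn.ne', map_zero, Valuation.zero_iff] at hq2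
      exact hp0 hq2
    refine ⟨_, ⟨q, hq, hq0, rfl⟩, ?_⟩
    simp only [upHom_vmap]
    rw [upvg_eq O₂ hq0 hw0]
    exact val_pow_inj _ hn (hq2.symm.trans hg.symm)
  · rintro _ ⟨p, hp, hp0, rfl⟩ g n hn hg
    simp only [upHom_vmap] at hg
    have hp1 := hG.ftp_ne hp hp0
    obtain ⟨w, hw0, rfl⟩ := upvg_surj O₂ g
    rw [← upvg_pow O₂ hw0, upvg_eq O₂ (pow_ne_zero n hw0) hp1] at hg
    obtain ⟨q, hq, hq2⟩ := hpow2 p hp hp0 n hn w hg.symm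
    have hq1 : q.2 ≠ 0 := by
      intro h0
      rw [h0, zero_pow hn.ne', map_zero, Valuation.zero_iff] at hq2
      exact hp1 hq2
    have hq0 : q.1 ≠ 0 := fun h => hq1 ((hG.zero q hq).1 h)
    refine ⟨_, ⟨q, hq, hq0, rfl⟩, ?_⟩
    simp only [upHom_vmap]
    rw [upvg_eq O₂ hq1 hw0]
    exact val_pow_inj _ hn (hq2.symm.trans hg.symm)

theorem ml_goodR (hRes : ResTpStmt.{u}) (hG : IsFieldGraph G) (hc : G.Countable)
    (hT : Tp (fieldRS ![(O₁ : Set M), (O₂ : Set M)]).up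
      (fieldRS ![(O₁ : Set M), (O₂ : Set M)]).up G)
    (hone : ∀ p ∈ G, p.1 ∈ upVS O₂ → p.1 ∈ upVS O₁)
    (hpow : ∀ p ∈ G, p.1 ≠ 0 → ∀ n : ℕ, 0 < n → ∀ w : UP M,
      (upVS O₂).valuation p.1 = (upVS O₂).valuation (w ^ n) →
      ∃ q ∈ G, (upVS O₂).valuation p.1 = (upVS O₂).valuation (q.1 ^ n))
    (hpow2 : ∀ p ∈ G, p.1 ≠ 0 → ∀ n : ℕ, 0 < n → ∀ w : UP M,
      (upVS O₂).valuation p.2 = (upVS O₂).valuation (w ^ n) →
      ∃ q ∈ G, (upVS O₂).valuation p.2 = (upVS O₂).valuation (q.2 ^ n))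
    (hGV : Good (vmap (h₁.trans h₂)) (mlPA O₁ O O₂ h₁ h₂) (mlPC O₂) (vgSub O₁ hG)) :
    Good (piV O₁) (PAk O₁) (mlP O₁ O O₂ h₁ h₂) (rvSub O₁ hG) := by
  have hV1 := ml_pres1 hT
  have hV2 := ml_pres2 hT
  have hone' : ∀ p ∈ G, (upVS O₂).valuation p.1 = 1 → (upVS O₁).valuation p.1 = 1 := by
    intro p hp h
    rw [veq_one_iff] at h ⊢
    exact ⟨h.1, hone p hp h.2.1, hone _ (hG.inv p hp) h.2.2⟩
  have hle : upVS O₁ ≤ upVS O₂ := upVS_mono (h₁.trans h₂)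
  -- for elements of the graph, equality of `O₂`-values gives equality of `O₁`-values
  have hdown : ∀ p ∈ G, ∀ q ∈ G, (upVS O₂).valuation p.1 = (upVS O₂).valuation q.1 →
      (upVS O₁).valuation p.1 = (upVS O₁).valuation q.1 := by
    intro p hp q hq h
    by_cases h0 : q.1 = 0
    · rw [h0, map_zero, Valuation.zero_iff] at h
      rw [h, h0]
    · have e : (upVS O₂).valuation (p.1 / q.1) = 1 := by
        rw [map_div₀, h, div_self ((Valuation.ne_zero_iff _).2 h0)]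
      have e2 := hone' _ (hG.ftp_div hp hq) e
      rw [map_div₀, div_eq_one_iff_eq ((Valuation.ne_zero_iff _).2 h0)] at e2
      exact e2
  refine ⟨rvSub_countable O₁ hG hc, ?_, ⟨?_, ?_⟩, ?_, ?_, ?_⟩
  · rintro _ ⟨p, hp, hp0, rfl⟩
    simp only [upHom_piV]
    rw [upvg_eq_one O₁ hp0, upvg_eq_one O₁ (hG.ftp_ne hp hp0)]
    exact hV1.eq_one hG hp
  · rintro _ ⟨⟨p, hp, hp0, rfl⟩, h⟩
    simp only [upHom_piV] at h ⊢
    refine ⟨h, ?_⟩
    rw [upvg_eq_one O₁ hp0] at h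
    rw [upvg_eq_one O₁ (hG.ftp_ne hp hp0)]
    exact (hV1.eq_one hG hp).1 h
  · refine (hRes M 2 _ O₁ 0 rfl G hT).mono ?_
    rintro _ ⟨_, ⟨⟨p, hp, hp0, rfl⟩, h⟩, rfl⟩
    simp only [upHom_piV] at h
    rw [upvg_eq_one O₁ hp0] at h
    refine ⟨p, hp, ?_⟩
    simp only
    rw [uprk_rv O₁ h, uprk_rv O₁ ((hV1.eq_one hG hp).1 h)]
  · refine ⟨_, hGV, ?_⟩
    rintro _ ⟨_, ⟨p, hp, hp0, rfl⟩, rfl⟩
    refine ⟨p, hp, hp0, ?_⟩
    simp only [upHom_piV]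
  · rintro _ ⟨p, hp, hp0, rfl⟩ g n hn hg
    simp only [upHom_piV] at hg
    obtain ⟨w, hw0, rfl⟩ := upvg_surj O₁ g
    rw [← upvg_pow O₁ hw0, upvg_eq O₁ (pow_ne_zero n hw0) hp0] at hg
    obtain ⟨q, hq, hq2⟩ := hpow p hp hp0 n hn w (upVS_val_mono' hle hg).symm
    have hq0 : q.1 ≠ 0 := by
      intro h0
      rw [h0, zero_pow hn.ne', map_zero, Valuation.zero_iff] at hq2
      exact hp0 hq2
    refine ⟨_, ⟨q, hq, hq0, rfl⟩, ?_⟩
    simp only [upHom_piV]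
    rw [upvg_eq O₁ hq0 hw0]
    have h3 := hdown p hp _ (hG.ftp_pow hq n) hq2
    exact val_pow_inj _ hn (h3.symm.trans hg.symm)
  · rintro _ ⟨p, hp, hp0, rfl⟩ g n hn hg
    simp only [upHom_piV] at hg
    have hp1 := hG.ftp_ne hp hp0
    obtain ⟨w, hw0, rfl⟩ := upvg_surj O₁ g
    rw [← upvg_pow O₁ hw0, upvg_eq O₁ (pow_ne_zero n hw0) hp1] at hg
    obtain ⟨q, hq, hq2⟩ := hpow2 p hp hp0 n hn w (upVS_val_mono' hle hg).symm
    have hq1 : q.2 ≠ 0 := by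
      intro h0
      rw [h0, zero_pow hn.ne', map_zero, Valuation.zero_iff] at hq2
      exact hp1 hq2
    have hq0 : q.1 ≠ 0 := fun h => hq1 ((hG.zero q hq).1 h)
    refine ⟨_, ⟨q, hq, hq0, rfl⟩, ?_⟩
    simp only [upHom_piV]
    rw [upvg_eq O₁ hq1 hw0]
    have h2 := (hV2.eq_pow hG hp hq n).2 hq2
    have h3 := hdown p hp _ (hG.ftp_pow hq n) h2
    have h4 := (hV1.eq_pow hG hp hq n).1 h3
    exact val_pow_inj _ hn (h4.symm.trans hg.symm)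

end good

theorem mainLemma (hLos : LosStmt.{u, u}) (hForth : TpForthStmt.{u}) (hClose : FieldCloseStmt.{u})
    (hVg : VgTpStmt.{u}) (hRes : ResTpStmt.{u}) (hP : PResTypeStmt.{u}) (hGr : GrpTypeStmt.{u})
    (hAk : PAkStmt.{u}) (hTy : GoodTypeStmt.{u}) (hSys : SysTpStmt.{u}) : MainLemmaStmt.{u} := by
  classical
  intro M _ O₁ O O₂ h₁ h₂ hH hR F hF1 hF2 r x y hx hxy n
  -- the tuples in the ultrapower
  let A : RS (fieldSig 2) M := fieldRS ![(O₁ : Set M), (O₂ : Set M)]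
  let xs : Fin r → UP M := fun i => ((fun _ => x i : ℕ → M) : UP M)
  let ys : Fin r → UP M := fun i => ((fun _ => y i : ℕ → M) : UP M)
  have hEF : ∀ n, EF A.up A.up n r xs ys := by
    intro n
    refine (hLos _ _ _ A A n r (fun i _ => x i) (fun i _ => y i)).2 ?_
    exact Filter.Eventually.of_forall fun _ => hxy n
  have hT0 := Tp.of_forall hEF
  have hc0 : (Set.range fun i => (xs i, ys i)).Countable := Set.countable_range _
  -- the countable subfield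
  let c : ℕ → UP M → UP M := fun n z =>
    if h : ∃ s ∈ upSub F, (upVS O₂).valuation z = (upVS O₂).valuation (s ^ n) then h.choose else 0
  have hcF : ∀ n, ∀ z ∈ upSub F, c n z ∈ upSub F := by
    intro n z _
    by_cases h : ∃ s ∈ upSub F, (upVS O₂).valuation z = (upVS O₂).valuation (s ^ n)
    · have e : c n z = h.choose := dif_pos h
      rw [e]
      exact h.choose_spec.1
    · have e : c n z = 0 := dif_neg h
      rw [e]
      exact (upSub F).zero_mem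
  have hxF : Set.range xs ⊆ (upSub F : Set (UP M)) := by
    rintro _ ⟨i, rfl⟩
    exact Filter.Eventually.of_forall fun _ => hx i
  obtain ⟨F₀, hF0c, hxF0, hF0F, hF0cl⟩ :=
    countClose (UP M) (upSub F) (Set.range xs) (Set.countable_range _) hxF c hcF
  -- the field graph
  obtain ⟨T1, h11, h12, h13, h14⟩ := hForth _ _ _ A A _ hT0 hc0 (F₀ : Set (UP M)) hF0c
  obtain ⟨T2, h21, h22, h23, h24⟩ := hClose M 2 _ T1 h12 h13
  let G : Set (UP M × UP M) := {p | p ∈ T2 ∧ p.1 ∈ F₀}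
  have hGT : G ⊆ T2 := fun p hp => hp.1
  have hG : IsFieldGraph G :=
    { one := ⟨h23.one, F₀.one_mem⟩
      add := fun p hp q hq => ⟨h23.add p hp.1 q hq.1, F₀.add_mem hp.2 hq.2⟩
      neg := fun p hp => ⟨h23.neg p hp.1, F₀.neg_mem hp.2⟩
      mul := fun p hp q hq => ⟨h23.mul p hp.1 q hq.1, F₀.mul_mem hp.2 hq.2⟩
      inv := fun p hp => ⟨h23.inv p hp.1, F₀.inv_mem hp.2⟩
      zero := fun p hp => h23.zero p hp.1 }
  have hGc : G.Countable := h22.mono hGT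
  have hGTp : Tp A.up A.up G := h24.mono hGT
  have hone : ∀ p ∈ G, p.1 ∈ upVS O₂ → p.1 ∈ upVS O₁ := fun p hp h =>
    upSub_one hF1 p.1 (hF0F hp.2) h
  have hpow : ∀ p ∈ G, p.1 ≠ 0 → ∀ n : ℕ, 0 < n → ∀ w : UP M,
      (upVS O₂).valuation p.1 = (upVS O₂).valuation (w ^ n) →
      ∃ q ∈ G, (upVS O₂).valuation p.1 = (upVS O₂).valuation (q.1 ^ n) := by
    intro p hp hp0 n hn w hw
    have h := upSub_two hF2 p.1 (hF0F hp.2) hp0 n hn w hw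
    have e : c n p.1 = h.choose := dif_pos h
    have h5 : c n p.1 ∈ F₀ := hF0cl n p.1 hp.2
    obtain ⟨s', hs'⟩ := h14 (c n p.1) h5
    refine ⟨(c n p.1, s'), ⟨h21 hs', h5⟩, ?_⟩
    change (upVS O₂).valuation p.1 = (upVS O₂).valuation (c n p.1 ^ n)
    rw [e]
    exact h.choose_spec.2
  have hpow2 := ml_pow2 hForth hClose hG hGc hGTp hpow
  have hGV := ml_goodV h₁ h₂ hVg hG hGc hGTp hone hpow hpow2
  have hGR := ml_goodR h₁ h₂ hRes hG hGc hGTp hone hpow hpow2 hGV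
  have hS : Sys O₁ (PAk O₁) (mlP O₁ O O₂ h₁ h₂) G :=
    ⟨hGc, hG, rvSub O₁ hG, hGR, fun p hp hp0 => ⟨p, hp, hp0, rfl⟩⟩
  have hfin := hSys M O₁ O h₁ hH hR (PAk O₁) (mlP O₁ O O₂ h₁ h₂) (hAk M O₁).1
    (mlP_isType O₁ O O₂ h₁ h₂ hP hGr hTy) (hAk M O₁).2 (mlP_ord O₁ O O₂ h₁ h₂)
    (mlP_pred O₁ O O₂ h₁ h₂) G hS
  have hmem : ∀ i, (xs i, ys i) ∈ G := fun i =>
    ⟨h21 (h11 ⟨i, rfl⟩), hxF0 ⟨i, rfl⟩⟩
  have h9 := hfin n r (fun i => (xs i, ys i)) hmem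
  have h10 := (hLos _ _ _ (fieldRS ![(O : Set M)]) (fieldRS ![(O : Set M)]) n r
    (fun i _ => x i) (fun i _ => y i)).1 h9
  exact evt_const.1 h10

end Pool.Agent.NF44
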