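import Pool.Agent.NF44.Defs

/-!
# The ultrapower of a field with a valuation ring
-/

namespace Pool.Agent.NF44

universe u v

section sets

variable {X : Type u} {Y : Type v}

theorem mem_upSet (S : Set X) (f : ℕ → X) : ((f : ℕ → X) : UP X) ∈ upSet S ↔ evt fun k => f k ∈ S :=
  Iff.rfl

theorem upMap_coe (g : X → Y) (f : ℕ → X) :
    upMap g ((f : ℕ → X) : UP X) = (((fun k => g (f k)) : ℕ → Y) : UP Y) := rfl

theorem up_eq (f g : ℕ → X) : ((f : UP X) = (g : UP X)) ↔ evt fun k => f k = g k :=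
  Filter.Germ.coe_eq

theorem rep_coe (f : ℕ → X) : evt fun k => rep ((f : ℕ → X) : UP X) k = f k := by
  have h := rep_spec ((f : ℕ → X) : UP X)
  exact (up_eq _ _).1 h

theorem up_ind {P : UP X → Prop} (h : ∀ f : ℕ → X, P (f : UP X)) (x : UP X) : P x :=
  Filter.Germ.inductionOn x h

theorem evt_and {p q : ℕ → Prop} : evt (fun k => p k ∧ q k) ↔ evt p ∧ evt q :=
  Filter.eventually_and

theorem evt_not {p : ℕ → Prop} : evt (fun k => ¬ p k) ↔ ¬ evt p :=
  Ultrafilter.eventually_not

theorem evt_or {p q : ℕ → Prop} : evt (fun k => p k ∨ q k) ↔ evt p ∨ evt q :=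
  Ultrafilter.eventually_or

theorem evt_imp {p q : ℕ → Prop} : evt (fun k => p k → q k) ↔ (evt p → evt q) :=
  Ultrafilter.eventually_imp

theorem evt_iff {p q : ℕ → Prop} : evt (fun k => p k ↔ q k) ↔ (evt p ↔ evt q) := by
  constructor
  · intro h
    exact ⟨fun hp => (evt_and.2 ⟨h, hp⟩).mono fun k hk => hk.1.1 hk.2,
      fun hq => (evt_and.2 ⟨h, hq⟩).mono fun k hk => hk.1.2 hk.2⟩
  · intro h
    by_cases hp : evt p
    · exact (evt_and.2 ⟨hp, h.1 hp⟩).mono fun k hk => ⟨fun _ => hk.2, fun _ => hk.1⟩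
    · have hq : ¬ evt q := fun hq => hp (h.2 hq)
      rw [← evt_not] at hp hq
      exact (evt_and.2 ⟨hp, hq⟩).mono fun k hk => ⟨fun h1 => absurd h1 hk.1,
        fun h1 => absurd h1 hk.2⟩

theorem evt_fin {ι : Type*} [Finite ι] {p : ι → ℕ → Prop} :
    evt (fun k => ∀ i, p i k) ↔ ∀ i, evt (p i) :=
  Filter.eventually_all

theorem evt_mono {p q : ℕ → Prop} (h : ∀ k, p k → q k) (hp : evt p) : evt q :=
  Filter.Eventually.mono hp h

theorem evt_const {p : Prop} : evt (fun _ => p) ↔ p := by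
  constructor
  · intro h
    obtain ⟨_, hk⟩ := h.exists
    exact hk
  · intro h
    exact Filter.Eventually.of_forall fun _ => h

theorem evt_exists {p : X → ℕ → Prop} :
    evt (fun k => ∃ x, p x k) ↔ ∃ f : ℕ → X, evt fun k => p (f k) k := by
  classical
  constructor
  · intro h
    obtain ⟨k0, x0, -⟩ := h.exists
    refine ⟨fun k => if hk : ∃ x, p x k then hk.choose else x0, ?_⟩
    refine evt_mono (fun k hk => ?_) h
    have e : (if hk : ∃ x, p x k then hk.choose else x0) = hk.choose := dif_pos hk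
    change p (if hk : ∃ x, p x k then hk.choose else x0) k
    rw [e]
    exact hk.choose_spec
  · rintro ⟨f, hf⟩
    exact evt_mono (fun k hk => ⟨f k, hk⟩) hf

theorem evt_forall {p : X → ℕ → Prop} :
    evt (fun k => ∀ x, p x k) ↔ ∀ f : ℕ → X, evt fun k => p (f k) k := by
  constructor
  · intro h f
    exact evt_mono (fun k hk => hk (f k)) h
  · intro h
    by_contra hn
    rw [← evt_not] at hn
    have h2 : evt (fun k => ∃ x, ¬ p x k) := evt_mono (fun k hk => not_forall.1 hk) hn
    rw [evt_exists] at h2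
    obtain ⟨f, hf⟩ := h2
    exact (evt_not.1 hf) (h f)

end sets

section structures

variable {σ : Sig} {X : Type u}

theorem RS.up_coe (A : RS σ X) (j : σ.J) (f : Fin (σ.ar j) → ℕ → X) :
    A.up.R j (fun i => (f i : UP X)) ↔ evt fun k => A.R j (fun i => f i k) := by
  have h : ∀ i, evt fun k => rep ((f i : ℕ → X) : UP X) k = f i k := fun i => rep_coe (f i)
  have h2 := evt_fin.2 h
  change evt (fun k => A.R j (fun i => rep ((f i : ℕ → X) : UP X) k)) ↔ _
  rw [← evt_iff]
  refine evt_mono (fun k hk => ?_) h2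
  have : (fun i => rep ((f i : ℕ → X) : UP X) k) = fun i => f i k := funext hk
  rw [this]

theorem RS.up_rep (A : RS σ X) (j : σ.J) (x : Fin (σ.ar j) → UP X) (f : Fin (σ.ar j) → ℕ → X)
    (hf : ∀ i, x i = (f i : UP X)) :
    A.up.R j x ↔ evt fun k => A.R j (fun i => f i k) := by
  have : x = fun i => (f i : UP X) := funext hf
  rw [this, RS.up_coe]

end structures

section fields

variable {M : Type u} [Field M]

theorem UP.add_coe (f g : ℕ → M) : (f : UP M) + (g : UP M) = ((fun k => f k + g k : ℕ → M) : UP M) :=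
  rfl

theorem UP.mul_coe (f g : ℕ → M) : (f : UP M) * (g : UP M) = ((fun k => f k * g k : ℕ → M) : UP M) :=
  rfl

theorem UP.sub_coe (f g : ℕ → M) : (f : UP M) - (g : UP M) = ((fun k => f k - g k : ℕ → M) : UP M) :=
  rfl

theorem UP.neg_coe (f : ℕ → M) : -(f : UP M) = ((fun k => - f k : ℕ → M) : UP M) := rfl

theorem UP.inv_coe (f : ℕ → M) : (f : UP M)⁻¹ = ((fun k => (f k)⁻¹ : ℕ → M) : UP M) := rfl

theorem UP.div_coe (f g : ℕ → M) : (f : UP M) / (g : UP M) = ((fun k => f k / g k : ℕ → M) : UP M) := by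
  rw [div_eq_mul_inv, UP.inv_coe, UP.mul_coe]
  refine (up_eq _ _).2 (Filter.Eventually.of_forall fun k => ?_)
  exact (div_eq_mul_inv _ _).symm

theorem UP.pow_coe (f : ℕ → M) (n : ℕ) : (f : UP M) ^ n = ((fun k => f k ^ n : ℕ → M) : UP M) := rfl

theorem UP.zero_def : (0 : UP M) = ((fun _ => 0 : ℕ → M) : UP M) := rfl

theorem UP.one_def : (1 : UP M) = ((fun _ => 1 : ℕ → M) : UP M) := rfl

theorem UP.nat_def (n : ℕ) : (n : UP M) = ((fun _ => (n : M) : ℕ → M) : UP M) := rfl

theorem UP.int_def (n : ℤ) : (n : UP M) = ((fun _ => (n : M) : ℕ → M) : UP M) := rfl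

theorem UP.sum_coe {r : ℕ} (f : Fin r → ℕ → M) :
    ∑ i, ((f i : ℕ → M) : UP M) = ((fun k => ∑ i, f i k : ℕ → M) : UP M) := by
  have h := map_sum (Filter.Germ.coeRingHom (Filter.hyperfilter ℕ : Filter ℕ) (R := M)) f Finset.univ
  have e : (∑ i, f i) = (fun k => ∑ i, f i k : ℕ → M) := by
    funext k; simp
  rw [e] at h
  exact h.symm

/-- The valuation ring of the ultrapower. -/
def upVS (O : ValuationSubring M) : ValuationSubring (UP M) where
  carrier := upSet (O : Set M)
  mul_mem' := by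
    intro x y hx hy
    induction x using up_ind with | _ f => ?_
    induction y using up_ind with | _ g => ?_
    exact (evt_and.2 ⟨hx, hy⟩).mono fun k hk => O.mul_mem _ _ hk.1 hk.2
  one_mem' := Filter.Eventually.of_forall fun k => O.one_mem
  add_mem' := by
    intro x y hx hy
    induction x using up_ind with | _ f => ?_
    induction y using up_ind with | _ g => ?_
    exact (evt_and.2 ⟨hx, hy⟩).mono fun k hk => O.add_mem _ _ hk.1 hk.2
  zero_mem' := Filter.Eventually.of_forall fun k => O.zero_mem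
  neg_mem' := by
    intro x hx
    induction x using up_ind with | _ f => ?_
    exact Filter.Eventually.mono hx fun k hk => O.neg_mem _ hk
  mem_or_inv_mem' := by
    intro x
    induction x using up_ind with | _ f => ?_
    exact evt_or.1 (Filter.Eventually.of_forall fun k => O.mem_or_inv_mem (f k))

theorem coe_upVS (O : ValuationSubring M) : (upVS O : Set (UP M)) = upSet (O : Set M) := rfl

theorem mem_upVS (O : ValuationSubring M) (f : ℕ → M) :
    (f : UP M) ∈ upVS O ↔ evt fun k => f k ∈ O := Iff.rfl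

theorem upVS_mono {O₁ O₂ : ValuationSubring M} (h : O₁ ≤ O₂) : upVS O₁ ≤ upVS O₂ := by
  intro x hx
  induction x using up_ind with | _ f => ?_
  exact Filter.Eventually.mono hx fun k hk => h hk

theorem vlt_iff {M : Type u} [Field M] (O : ValuationSubring M) (x : M) :
    O.valuation x < 1 ↔ x = 0 ∨ x⁻¹ ∉ O := by
  by_cases hx : x = 0
  · simp [hx]
  · have h0 : O.valuation x ≠ 0 := (Valuation.ne_zero_iff _).2 hx
    have : 0 < O.valuation x := zero_lt_iff.2 h0
    rw [← O.valuation_le_one_iff, map_inv₀, not_le, one_lt_inv₀ this]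
    simp [hx]

theorem vle_iff {M : Type u} [Field M] (O : ValuationSubring M) (x y : M) :
    O.valuation x ≤ O.valuation y ↔ x = 0 ∨ (y ≠ 0 ∧ x / y ∈ O) := by
  by_cases hy : y = 0
  · subst hy; simp
  · have h0 : O.valuation y ≠ 0 := (Valuation.ne_zero_iff _).2 hy
    have hp : 0 < O.valuation y := zero_lt_iff.2 h0
    rw [← O.valuation_le_one_iff, map_div₀, div_le_one₀ hp]
    constructor
    · intro h; exact Or.inr ⟨hy, h⟩
    · rintro (h | h)
      · simp [h]
      · exact h.2

theorem veq_one_iff {M : Type u} [Field M] (O : ValuationSubring M) (x : M) :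
    O.valuation x = 1 ↔ x ≠ 0 ∧ x ∈ O ∧ x⁻¹ ∈ O := by
  by_cases hx : x = 0
  · simp [hx]
  · have h0 : O.valuation x ≠ 0 := (Valuation.ne_zero_iff _).2 hx
    have hp : 0 < O.valuation x := zero_lt_iff.2 h0
    rw [← O.valuation_le_one_iff, ← O.valuation_le_one_iff, map_inv₀, inv_le_one₀ hp]
    constructor
    · intro h; exact ⟨hx, h.le, h.ge⟩
    · intro h; exact le_antisymm h.2.1 h.2.2

theorem upVS_lt (O : ValuationSubring M) (f : ℕ → M) :
    (upVS O).valuation (f : UP M) < 1 ↔ evt fun k => O.valuation (f k) < 1 := by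
  rw [vlt_iff]
  simp only [vlt_iff]
  rw [evt_or, UP.inv_coe, mem_upVS, UP.zero_def, up_eq, ← evt_not]

theorem upVS_eq_one (O : ValuationSubring M) (f : ℕ → M) :
    (upVS O).valuation (f : UP M) = 1 ↔ evt fun k => O.valuation (f k) = 1 := by
  rw [veq_one_iff]
  simp only [veq_one_iff]
  rw [evt_and, evt_and, UP.inv_coe, mem_upVS, mem_upVS, evt_not, UP.zero_def, Ne, up_eq]

theorem upVS_le (O : ValuationSubring M) (f g : ℕ → M) :
    (upVS O).valuation (f : UP M) ≤ (upVS O).valuation (g : UP M) ↔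
      evt fun k => O.valuation (f k) ≤ O.valuation (g k) := by
  rw [vle_iff]
  simp only [vle_iff]
  rw [evt_or, evt_and, UP.div_coe, mem_upVS, evt_not, UP.zero_def, Ne, up_eq, up_eq]

theorem upVS_eq (O : ValuationSubring M) (f g : ℕ → M) :
    (upVS O).valuation (f : UP M) = (upVS O).valuation (g : UP M) ↔
      evt fun k => O.valuation (f k) = O.valuation (g k) := by
  rw [le_antisymm_iff, upVS_le, upVS_le, ← evt_and]
  refine iff_of_eq (congrArg evt (funext fun k => propext ?_))
  exact le_antisymm_iff.symm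

theorem upVS_res0 {O : ValuationSubring M} (h : Res0 O) : Res0 (upVS O) := by
  intro n hn
  obtain ⟨h1, h2⟩ := h n hn
  rw [UP.nat_def]
  constructor
  · rw [Ne, UP.zero_def, up_eq, ← evt_not]
    exact Filter.Eventually.of_forall fun _ => h1
  · rw [UP.inv_coe, mem_upVS]
    exact Filter.Eventually.of_forall fun _ => h2

theorem upVS_hens {O : ValuationSubring M} (h : Hens O) : Hens (upVS O) := by
  intro d a ha
  have hf : ∀ i, ∃ f : ℕ → M, a i = (f : UP M) := fun i => ⟨rep (a i), (rep_spec _).symm⟩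
  choose f hf using hf
  have ha2 : evt fun k => ∀ i, O.valuation (f i k) < 1 := by
    rw [evt_fin]
    intro i
    rw [← upVS_lt, ← hf]
    exact ha i
  have h3 : evt fun k => ∃ z : M, O.valuation (z + 1) < 1 ∧
      z ^ (d + 1) + z ^ d + ∑ i : Fin d, f i k * z ^ (i : ℕ) = 0 :=
    ha2.mono fun k hk => h d _ hk
  rw [evt_exists] at h3
  obtain ⟨z, hz⟩ := h3
  rw [evt_and] at hz
  refine ⟨(z : UP M), ?_, ?_⟩
  · rw [UP.one_def, UP.add_coe, upVS_lt]
    exact hz.1
  · have e : ∀ i : Fin d, a i * (z : UP M) ^ (i : ℕ)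
        = ((fun k => f i k * z k ^ (i : ℕ) : ℕ → M) : UP M) := by
      intro i
      rw [hf, UP.pow_coe, UP.mul_coe]
    rw [Finset.sum_congr rfl fun i _ => e i, UP.sum_coe, UP.pow_coe, UP.pow_coe, UP.add_coe,
      UP.add_coe, UP.zero_def, up_eq]
    exact hz.2

/-! ### residues -/

theorem resk_of_mem (O : ValuationSubring M) {x : M} (h : x ∈ O) :
    resk O x = IsLocalRing.residue O ⟨x, h⟩ := dif_pos h

theorem resk_add (O : ValuationSubring M) {x y : M} (hx : x ∈ O) (hy : y ∈ O) :
    resk O (x + y) = resk O x + resk O y := by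
  rw [resk_of_mem O hx, resk_of_mem O hy, resk_of_mem O (O.add_mem _ _ hx hy), ← map_add]
  rfl

theorem resk_mul (O : ValuationSubring M) {x y : M} (hx : x ∈ O) (hy : y ∈ O) :
    resk O (x * y) = resk O x * resk O y := by
  rw [resk_of_mem O hx, resk_of_mem O hy, resk_of_mem O (O.mul_mem _ _ hx hy), ← map_mul]
  rfl

theorem resk_neg (O : ValuationSubring M) {x : M} (hx : x ∈ O) : resk O (-x) = - resk O x := by
  rw [resk_of_mem O hx, resk_of_mem O (O.neg_mem _ hx), ← map_neg]
  rfl

theorem resk_one (O : ValuationSubring M) : resk O 1 = 1 := by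
  rw [resk_of_mem O O.one_mem]
  exact map_one _

theorem resk_zero (O : ValuationSubring M) : resk O 0 = 0 := by
  rw [resk_of_mem O O.zero_mem]
  exact map_zero _

theorem resk_eq_zero (O : ValuationSubring M) {x : M} (hx : x ∈ O) :
    resk O x = 0 ↔ O.valuation x < 1 := by
  rw [resk_of_mem O hx, IsLocalRing.residue_eq_zero_iff, ValuationSubring.valuation_lt_one_iff]

theorem resk_surj (O : ValuationSubring M) (k : IsLocalRing.ResidueField O) :
    ∃ x : M, x ∈ O ∧ resk O x = k := by
  obtain ⟨x, rfl⟩ := IsLocalRing.residue_surjective k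
  exact ⟨x, x.2, resk_of_mem O x.2⟩

theorem val_one_of_mem (O : ValuationSubring M) {x : M} (hx : x ∈ O) (h : resk O x ≠ 0) :
    O.valuation x = 1 := by
  rw [Ne, resk_eq_zero O hx, not_lt] at h
  exact le_antisymm ((O.valuation_le_one_iff x).2 hx) h

theorem mem_of_val_one (O : ValuationSubring M) {x : M} (h : O.valuation x = 1) : x ∈ O :=
  (O.valuation_le_one_iff x).1 h.le

theorem resk_ne_zero (O : ValuationSubring M) {x : M} (h : O.valuation x = 1) : resk O x ≠ 0 := by
  rw [Ne, resk_eq_zero O (mem_of_val_one O h), h]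
  exact lt_irrefl _

theorem piV_eq_one (O : ValuationSubring M) {x : M} (hx : x ≠ 0) :
    piV O (rv O x) = 1 ↔ O.valuation x = 1 := by
  rw [piV_rv, vg_of_ne O hx, vgMk_eq_one]
  rfl

theorem vg_eq_one (O : ValuationSubring M) {x : M} (hx : x ≠ 0) :
    vg O x = 1 ↔ O.valuation x = 1 := by
  rw [vg_of_ne O hx, vgMk_eq_one]
  rfl

/-- Induction on an element of the leading term group of value 1. -/
theorem rvker_ind (O : ValuationSubring M) (r : RVg O) (hr : piV O r = 1) :
    ∃ x : M, O.valuation x = 1 ∧ rv O x = r := by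
  obtain ⟨x, hx, rfl⟩ := rv_surj O r
  exact ⟨x, (piV_eq_one O hx).1 hr, rfl⟩

theorem rk_inj (O : ValuationSubring M) (r s : RVg O) (hr : piV O r = 1) (hs : piV O s = 1) :
    rk O r = rk O s ↔ r = s := by
  refine ⟨fun h => ?_, fun h => h ▸ rfl⟩
  obtain ⟨x, hx, rfl⟩ := rvker_ind O r hr
  obtain ⟨y, hy, rfl⟩ := rvker_ind O s hs
  rw [rk_rv O hx, rk_rv O hy] at h
  have hx0 : x ≠ 0 := ((veq_one_iff O x).1 hx).1
  have hy0 : y ≠ 0 := ((veq_one_iff O y).1 hy).1
  rw [rv_eq_iff O hx0 hy0]
  have hxO := mem_of_val_one O hx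
  have hyO := mem_of_val_one O hy
  have h1 : resk O (x + -y) = 0 := by
    rw [resk_add O hxO (O.neg_mem _ hyO), resk_neg O hyO, h, add_neg_cancel]
  rw [resk_eq_zero O (O.add_mem _ _ hxO (O.neg_mem _ hyO))] at h1
  have h2 : x / y - 1 = (x + -y) / y := by
    field_simp
    ring
  rw [h2, map_div₀, hy, div_one]
  exact h1

theorem rk_mul (O : ValuationSubring M) (r s : RVg O) (hr : piV O r = 1) (hs : piV O s = 1) :
    rk O (r * s) = rk O r * rk O s := by
  obtain ⟨x, hx, rfl⟩ := rvker_ind O r hr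
  obtain ⟨y, hy, rfl⟩ := rvker_ind O s hs
  have hx0 : x ≠ 0 := ((veq_one_iff O x).1 hx).1
  have hy0 : y ≠ 0 := ((veq_one_iff O y).1 hy).1
  rw [← rv_mul O hx0 hy0, rk_rv O hx, rk_rv O hy, rk_rv O (by rw [map_mul, hx, hy, mul_one]),
    resk_mul O (mem_of_val_one O hx) (mem_of_val_one O hy)]

theorem rk_ne_zero (O : ValuationSubring M) (r : RVg O) (hr : piV O r = 1) : rk O r ≠ 0 := by
  obtain ⟨x, hx, rfl⟩ := rvker_ind O r hr
  rw [rk_rv O hx]
  exact resk_ne_zero O hx

theorem rk_surj (O : ValuationSubring M) (k : IsLocalRing.ResidueField O) (hk : k ≠ 0) :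
    ∃ r : RVg O, piV O r = 1 ∧ rk O r = k := by
  obtain ⟨x, hx, rfl⟩ := resk_surj O k
  have h1 := val_one_of_mem O hx hk
  exact ⟨rv O x, (piV_eq_one O ((veq_one_iff O x).1 h1).1).2 h1, rk_rv O h1⟩

/-! ### leading terms, values and residues in the ultrapower -/

theorem up_ne_zero (f : ℕ → M) : (f : UP M) ≠ 0 ↔ evt fun k => f k ≠ 0 := by
  rw [Ne, UP.zero_def, up_eq, evt_not]

/-- A nonzero element has a representative without zeros. -/
theorem up_ind_ne {P : UP M → Prop} (h : ∀ f : ℕ → M, (∀ k, f k ≠ 0) → P (f : UP M)) (x : UP M)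
    (hx : x ≠ 0) : P x := by
  classical
  induction x using up_ind with | _ f => ?_
  rw [up_ne_zero] at hx
  have e : (f : UP M) = ((fun k => if f k = 0 then 1 else f k : ℕ → M) : UP M) := by
    rw [up_eq]
    exact hx.mono fun k hk => by simp [hk]
  rw [e]
  exact h _ fun k => by
    by_cases hk : f k = 0 <;> simp [hk]

variable (O : ValuationSubring M)

theorem uprv_eq {x y : UP M} (hx : x ≠ 0) (hy : y ≠ 0) :
    upMap (rv O) x = upMap (rv O) y ↔ (upVS O).valuation (x / y - 1) < 1 := by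
  revert hy
  refine up_ind_ne (P := fun x => y ≠ 0 → (upMap (rv O) x = upMap (rv O) y ↔
    (upVS O).valuation (x / y - 1) < 1)) (fun f hf hy => ?_) x hx
  refine up_ind_ne (P := fun y => (upMap (rv O) (f : UP M) = upMap (rv O) y ↔
    (upVS O).valuation ((f : UP M) / y - 1) < 1)) (fun g hg => ?_) y hy
  rw [upMap_coe, upMap_coe, up_eq, UP.div_coe, UP.one_def, UP.sub_coe, upVS_lt]
  refine iff_of_eq (congrArg evt (funext fun k => propext ?_))
  exact rv_eq_iff O (hf k) (hg k)

theorem upvg_eq {x y : UP M} (hx : x ≠ 0) (hy : y ≠ 0) :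
    upMap (vg O) x = upMap (vg O) y ↔ (upVS O).valuation x = (upVS O).valuation y := by
  revert hy
  refine up_ind_ne (P := fun x => y ≠ 0 → (upMap (vg O) x = upMap (vg O) y ↔
    (upVS O).valuation x = (upVS O).valuation y)) (fun f hf hy => ?_) x hx
  refine up_ind_ne (P := fun y => (upMap (vg O) (f : UP M) = upMap (vg O) y ↔
    (upVS O).valuation (f : UP M) = (upVS O).valuation y)) (fun g hg => ?_) y hy
  rw [upMap_coe, upMap_coe, up_eq, upVS_eq]
  refine iff_of_eq (congrArg evt (funext fun k => propext ?_))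
  exact vg_eq_iff O (hf k) (hg k)

theorem uprv_mul {x y : UP M} (hx : x ≠ 0) (hy : y ≠ 0) :
    upMap (rv O) (x * y) = upMap (rv O) x * upMap (rv O) y := by
  revert hy
  refine up_ind_ne (P := fun x => y ≠ 0 → upMap (rv O) (x * y) = upMap (rv O) x * upMap (rv O) y)
    (fun f hf hy => ?_) x hx
  refine up_ind_ne (P := fun y => upMap (rv O) ((f : UP M) * y) =
    upMap (rv O) (f : UP M) * upMap (rv O) y) (fun g hg => ?_) y hy
  exact (up_eq _ _).2 (Filter.Eventually.of_forall fun k => rv_mul O (hf k) (hg k))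

theorem upvg_mul {x y : UP M} (hx : x ≠ 0) (hy : y ≠ 0) :
    upMap (vg O) (x * y) = upMap (vg O) x * upMap (vg O) y := by
  revert hy
  refine up_ind_ne (P := fun x => y ≠ 0 → upMap (vg O) (x * y) = upMap (vg O) x * upMap (vg O) y)
    (fun f hf hy => ?_) x hx
  refine up_ind_ne (P := fun y => upMap (vg O) ((f : UP M) * y) =
    upMap (vg O) (f : UP M) * upMap (vg O) y) (fun g hg => ?_) y hy
  exact (up_eq _ _).2 (Filter.Eventually.of_forall fun k => vg_mul O (hf k) (hg k))

theorem uprv_inv (x : UP M) : upMap (rv O) x⁻¹ = (upMap (rv O) x)⁻¹ := by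
  induction x using up_ind with | _ f => ?_
  exact (up_eq _ _).2 (Filter.Eventually.of_forall fun k => rv_inv O (f k))

theorem upvg_inv (x : UP M) : upMap (vg O) x⁻¹ = (upMap (vg O) x)⁻¹ := by
  induction x using up_ind with | _ f => ?_
  exact (up_eq _ _).2 (Filter.Eventually.of_forall fun k => vg_inv O (f k))

theorem rv_one : rv O (1 : M) = 1 := by
  rw [rv_of_ne O one_ne_zero, rvMk_eq_one]
  simp

theorem vg_one : vg O (1 : M) = 1 := by
  rw [vg_of_ne O one_ne_zero, vgMk_eq_one]
  simp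

theorem uprv_one : upMap (rv O) (1 : UP M) = 1 := by
  exact (up_eq _ _).2 (Filter.Eventually.of_forall fun k => rv_one O)

theorem upvg_one : upMap (vg O) (1 : UP M) = 1 := by
  exact (up_eq _ _).2 (Filter.Eventually.of_forall fun k => vg_one O)

theorem upvg_eq_one {x : UP M} (hx : x ≠ 0) :
    upMap (vg O) x = 1 ↔ (upVS O).valuation x = 1 := by
  rw [← upvg_one O, upvg_eq O hx one_ne_zero, map_one]

theorem uprv_surj (r : UP (RVg O)) : ∃ x : UP M, x ≠ 0 ∧ upMap (rv O) x = r := by
  induction r using up_ind with | _ f => ?_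
  choose g hg using fun k => rv_surj O (f k)
  exact ⟨(g : UP M), (up_ne_zero g).2 (Filter.Eventually.of_forall fun k => (hg k).1),
    (up_eq _ _).2 (Filter.Eventually.of_forall fun k => (hg k).2)⟩

theorem upvg_surj (r : UP (VGg O)) : ∃ x : UP M, x ≠ 0 ∧ upMap (vg O) x = r := by
  induction r using up_ind with | _ f => ?_
  choose g hg using fun k => vg_surj O (f k)
  exact ⟨(g : UP M), (up_ne_zero g).2 (Filter.Eventually.of_forall fun k => (hg k).1),
    (up_eq _ _).2 (Filter.Eventually.of_forall fun k => (hg k).2)⟩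

theorem upHom_coe {E : Type u} {C : Type v} [CommGroup E] [CommGroup C] (f : E →* C) (g : ℕ → E) :
    upHom f (g : UP E) = ((fun k => f (g k) : ℕ → C) : UP C) := rfl

theorem upHom_eq_one {E : Type u} {C : Type v} [CommGroup E] [CommGroup C] (f : E →* C)
    (g : ℕ → E) : upHom f (g : UP E) = 1 ↔ evt fun k => f (g k) = 1 := by
  rw [upHom_coe]
  exact up_eq _ _

theorem upHom_surjective {E : Type u} {C : Type v} [CommGroup E] [CommGroup C] (f : E →* C)
    (hf : Function.Surjective f) : Function.Surjective (upHom f) := by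
  intro c
  induction c using up_ind with | _ g => ?_
  choose h hh using fun k => hf (g k)
  exact ⟨(h : UP E), (up_eq _ _).2 (Filter.Eventually.of_forall hh)⟩

theorem upHom_piV (x : UP M) : upHom (piV O) (upMap (rv O) x) = upMap (vg O) x := by
  induction x using up_ind with | _ f => ?_
  exact (up_eq _ _).2 (Filter.Eventually.of_forall fun k => piV_rv O (f k))

theorem upHom_vmap {O₁ O₂ : ValuationSubring M} (h : O₁ ≤ O₂) (x : UP M) :
    upHom (vmap h) (upMap (vg O₁) x) = upMap (vg O₂) x := by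
  induction x using up_ind with | _ f => ?_
  exact (up_eq _ _).2 (Filter.Eventually.of_forall fun k => vmap_vg h (f k))

theorem piV_surjective : Function.Surjective (piV O) := by
  intro c
  obtain ⟨x, -, rfl⟩ := vg_surj O c
  exact ⟨rv O x, piV_rv O x⟩

theorem vmap_surjective {O₁ O₂ : ValuationSubring M} (h : O₁ ≤ O₂) :
    Function.Surjective (vmap h) := by
  intro c
  obtain ⟨x, -, rfl⟩ := vg_surj O₂ c
  exact ⟨vg O₁ x, vmap_vg h x⟩

/-- The value group is torsion free. -/
theorem vg_torsion_free (c : VGg O) (n : ℕ) (hn : 0 < n) (h : c ^ n = 1) : c = 1 := by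
  obtain ⟨x, hx, rfl⟩ := vg_surj O c
  have hp : ∀ m : ℕ, vg O (x ^ m) = vg O x ^ m := by
    intro m
    induction m with
    | zero => simp [vg_one]
    | succ m ih => rw [pow_succ, pow_succ, vg_mul O (pow_ne_zero m hx) hx, ih]
  rw [← hp, vg_eq_one O (pow_ne_zero n hx), map_pow] at h
  rw [vg_eq_one O hx]
  exact (pow_eq_one_iff.1 h).resolve_right hn.ne'

theorem upvg_mem {O O' : ValuationSubring M} (h : O ≤ O') {x : UP M} (hx : x ≠ 0) :
    upMap (vg O) x ∈ upSet (vset O O') ↔ x ∈ upVS O' := by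
  refine up_ind_ne (P := fun x => upMap (vg O) x ∈ upSet (vset O O') ↔ x ∈ upVS O')
    (fun f hf => ?_) x hx
  rw [upMap_coe, mem_upSet, mem_upVS]
  refine iff_of_eq (congrArg evt (funext fun k => propext ?_))
  exact vg_mem_vset h (hf k)

theorem upresk_add {x y : UP M} (hx : x ∈ upVS O) (hy : y ∈ upVS O) :
    upMap (resk O) (x + y) = upMap (resk O) x + upMap (resk O) y := by
  induction x using up_ind with | _ f => ?_
  induction y using up_ind with | _ g => ?_
  exact (up_eq _ _).2 ((evt_and.2 ⟨hx, hy⟩).mono fun k hk => resk_add O hk.1 hk.2)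

theorem upresk_mul {x y : UP M} (hx : x ∈ upVS O) (hy : y ∈ upVS O) :
    upMap (resk O) (x * y) = upMap (resk O) x * upMap (resk O) y := by
  induction x using up_ind with | _ f => ?_
  induction y using up_ind with | _ g => ?_
  exact (up_eq _ _).2 ((evt_and.2 ⟨hx, hy⟩).mono fun k hk => resk_mul O hk.1 hk.2)

theorem upresk_neg {x : UP M} (hx : x ∈ upVS O) :
    upMap (resk O) (-x) = - upMap (resk O) x := by
  induction x using up_ind with | _ f => ?_
  exact (up_eq _ _).2 (Filter.Eventually.mono hx fun k hk => resk_neg O hk)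

theorem upresk_one : upMap (resk O) (1 : UP M) = 1 :=
  (up_eq _ _).2 (Filter.Eventually.of_forall fun _ => resk_one O)

theorem upresk_zero : upMap (resk O) (0 : UP M) = 0 :=
  (up_eq _ _).2 (Filter.Eventually.of_forall fun _ => resk_zero O)

theorem upresk_eq_zero {x : UP M} (hx : x ∈ upVS O) :
    upMap (resk O) x = 0 ↔ (upVS O).valuation x < 1 := by
  induction x using up_ind with | _ f => ?_
  rw [upMap_coe, upVS_lt]
  constructor
  · intro h
    exact (evt_and.2 ⟨hx, (up_eq _ _).1 h⟩).mono fun k hk => (resk_eq_zero O hk.1).1 hk.2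
  · intro h
    exact (up_eq _ _).2 ((evt_and.2 ⟨hx, h⟩).mono fun k hk => (resk_eq_zero O hk.1).2 hk.2)

theorem upresk_surj (k : UP (IsLocalRing.ResidueField O)) :
    ∃ x : UP M, x ∈ upVS O ∧ upMap (resk O) x = k := by
  induction k using up_ind with | _ f => ?_
  choose g hg using fun k => resk_surj O (f k)
  exact ⟨(g : UP M), Filter.Eventually.of_forall fun k => (hg k).1,
    (up_eq _ _).2 (Filter.Eventually.of_forall fun k => (hg k).2)⟩

theorem uprk_rv {x : UP M} (hx : (upVS O).valuation x = 1) :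
    upMap (rk O) (upMap (rv O) x) = upMap (resk O) x := by
  induction x using up_ind with | _ f => ?_
  rw [upVS_eq_one] at hx
  exact (up_eq _ _).2 (hx.mono fun k hk => rk_rv O hk)

theorem upker_ind (r : UP (RVg O)) (hr : upHom (piV O) r = 1) :
    ∃ x : UP M, x ≠ 0 ∧ (upVS O).valuation x = 1 ∧ upMap (rv O) x = r := by
  obtain ⟨x, hx, rfl⟩ := uprv_surj O r
  rw [upHom_piV, upvg_eq_one O hx] at hr
  exact ⟨x, hx, hr, rfl⟩

theorem uprk_inj {r s : UP (RVg O)} (hr : upHom (piV O) r = 1) (hs : upHom (piV O) s = 1) :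
    upMap (rk O) r = upMap (rk O) s ↔ r = s := by
  refine ⟨fun h => ?_, fun h => h ▸ rfl⟩
  induction r using up_ind with | _ f => ?_
  induction s using up_ind with | _ g => ?_
  rw [upHom_eq_one] at hr hs
  exact (up_eq _ _).2 ((evt_and.2 ⟨evt_and.2 ⟨hr, hs⟩, (up_eq _ _).1 h⟩).mono fun k hk =>
    (rk_inj O _ _ hk.1.1 hk.1.2).1 hk.2)

theorem uprk_mul {r s : UP (RVg O)} (hr : upHom (piV O) r = 1) (hs : upHom (piV O) s = 1) :
    upMap (rk O) (r * s) = upMap (rk O) r * upMap (rk O) s := by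
  induction r using up_ind with | _ f => ?_
  induction s using up_ind with | _ g => ?_
  rw [upHom_eq_one] at hr hs
  exact (up_eq _ _).2 ((evt_and.2 ⟨hr, hs⟩).mono fun k hk => rk_mul O _ _ hk.1 hk.2)

theorem uprk_ne_zero {r : UP (RVg O)} (hr : upHom (piV O) r = 1) : upMap (rk O) r ≠ 0 := by
  induction r using up_ind with | _ f => ?_
  rw [upHom_eq_one] at hr
  rw [upMap_coe]
  intro h
  have h2 := (up_eq _ _).1 h
  obtain ⟨k, hk⟩ := (evt_and.2 ⟨hr, h2⟩).exists
  exact rk_ne_zero O _ hk.1 hk.2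

theorem uprk_surj {k : UP (IsLocalRing.ResidueField O)} (hk : k ≠ 0) :
    ∃ r : UP (RVg O), upHom (piV O) r = 1 ∧ upMap (rk O) r = k := by
  obtain ⟨x, hx, rfl⟩ := upresk_surj O k
  have h1 : (upVS O).valuation x = 1 := by
    rw [Ne, upresk_eq_zero O hx, not_lt] at hk
    exact le_antisymm (((upVS O).valuation_le_one_iff x).2 hx) hk
  have hx0 : x ≠ 0 := by
    rintro rfl
    simp at h1
  exact ⟨upMap (rv O) x, by rw [upHom_piV, upvg_eq_one O hx0, h1], uprk_rv O h1⟩

theorem uprk_one : upMap (rk O) (1 : UP (RVg O)) = 1 := by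
  rw [← uprv_one O, uprk_rv O (by simp), upresk_one]

theorem fieldRS_up {m : ℕ} (P : Fin m → Set M) :
    (fieldRS P).up = fieldRS (fun i => upSet (P i)) := by
  have h : ∀ j (x : Fin ((fieldSig m).ar j) → UP M),
      (fieldRS P).up.R j x ↔ (fieldRS (fun i => upSet (P i))).R j x := by
    intro j x
    choose f hf using fun i => (⟨rep (x i), (rep_spec _).symm⟩ : ∃ f : ℕ → M, x i = (f : UP M))
    rw [RS.up_rep _ j x f hf]
    cases j with
    | add =>
      change _ ↔ x (0 : Fin 3) + x (1 : Fin 3) = x (2 : Fin 3)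
      rw [hf (0 : Fin 3), hf (1 : Fin 3), hf (2 : Fin 3), UP.add_coe, up_eq]
      rfl
    | mul =>
      change _ ↔ x (0 : Fin 3) * x (1 : Fin 3) = x (2 : Fin 3)
      rw [hf (0 : Fin 3), hf (1 : Fin 3), hf (2 : Fin 3), UP.mul_coe, up_eq]
      rfl
    | eq =>
      change _ ↔ x (0 : Fin 2) = x (1 : Fin 2)
      rw [hf (0 : Fin 2), hf (1 : Fin 2), up_eq]
      rfl
    | pr i =>
      change _ ↔ x (0 : Fin 1) ∈ upSet (P i)
      rw [hf (0 : Fin 1), mem_upSet]
      rfl
  have h2 : (fieldRS P).up.R = (fieldRS (fun i => upSet (P i))).R :=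
    funext fun j => funext fun x => propext (h j x)
  cases hA : (fieldRS P).up
  cases hB : (fieldRS (fun i => upSet (P i)) : RS (fieldSig m) (UP M))
  rw [hA, hB] at h2
  simpa using h2

theorem grpRS_up {G : Type u} [CommGroup G] {m : ℕ} (P : Fin m → Set G) :
    (grpRS P).up = grpRS (fun i => upSet (P i)) := by
  have h : ∀ j (x : Fin ((grpSig m).ar j) → UP G),
      (grpRS P).up.R j x ↔ (grpRS (fun i => upSet (P i))).R j x := by
    intro j x
    choose f hf using fun i => (⟨rep (x i), (rep_spec _).symm⟩ : ∃ f : ℕ → G, x i = (f : UP G))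
    rw [RS.up_rep _ j x f hf]
    cases j with
    | mul =>
      change _ ↔ x (0 : Fin 3) * x (1 : Fin 3) = x (2 : Fin 3)
      rw [hf (0 : Fin 3), hf (1 : Fin 3), hf (2 : Fin 3), ← Filter.Germ.coe_mul, up_eq]
      rfl
    | eq =>
      change _ ↔ x (0 : Fin 2) = x (1 : Fin 2)
      rw [hf (0 : Fin 2), hf (1 : Fin 2), up_eq]
      rfl
    | pr i =>
      change _ ↔ x (0 : Fin 1) ∈ upSet (P i)
      rw [hf (0 : Fin 1), mem_upSet]
      rfl
  have h2 : (grpRS P).up.R = (grpRS (fun i => upSet (P i))).R :=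
    funext fun j => funext fun x => propext (h j x)
  cases hA : (grpRS P).up
  cases hB : (grpRS (fun i => upSet (P i)) : RS (grpSig m) (UP G))
  rw [hA, hB] at h2
  simpa using h2

theorem pureRS_up : (pureRS M).up = pureRS (UP M) := by
  rw [fieldRS_up]
  refine congrArg fieldRS ?_
  funext i
  exact i.elim0

end fields

end Pool.Agent.NF44
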