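import Pool.Agent.NF44.Stmts
import Pool.Agent.NF44.UPVal

/-!
# Types in an algebraically closed residue field
-/

namespace Pool.Agent.NF44

universe u v w

open MvPolynomial

/-- An algebra of finite type over `F` inside a field has a homomorphism to an algebraically
closed field which does not kill a given nonzero element. -/
theorem pac_alg {F : Type*} {K₁ : Type*} {K₂ : Type*} [Field F] [Field K₁] [Field K₂]
    [Algebra F K₁] [Algebra F K₂] [IsAlgClosed K₂] (x : Set K₁) (hx : x.Finite) (h : K₁)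
    (hh : h ∈ Algebra.adjoin F x) (h0 : h ≠ 0) :
    ∃ ψ : Algebra.adjoin F x →ₐ[F] K₂, ψ ⟨h, hh⟩ ≠ 0 := by
  classical
  set A : Subalgebra F K₁ := Algebra.adjoin F (insert h⁻¹ x) with hA
  have hle : Algebra.adjoin F x ≤ A := Algebra.adjoin_mono (Set.subset_insert _ _)
  have hfg : A.FG := Subalgebra.fg_def.2 ⟨insert h⁻¹ x, hx.insert _, rfl⟩
  have hft : Algebra.FiniteType F A := A.fg_iff_finiteType.1 hfg
  obtain ⟨m, hm⟩ := Ideal.exists_maximal A
  let _ : Field (A ⧸ m) := Ideal.Quotient.field m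
  have hft2 : Algebra.FiniteType F (A ⧸ m) :=
    Algebra.FiniteType.of_surjective (Ideal.Quotient.mkₐ F m) (Ideal.Quotient.mkₐ_surjective F m)
  have hfin : Module.Finite F (A ⧸ m) := finite_of_finite_type_of_isJacobsonRing F (A ⧸ m)
  have halg : Algebra.IsAlgebraic F (A ⧸ m) := Algebra.IsAlgebraic.of_finite F (A ⧸ m)
  let e : (A ⧸ m) →ₐ[F] K₂ := IsAlgClosed.lift
  refine ⟨(e.comp (Ideal.Quotient.mkₐ F m)).comp (Subalgebra.inclusion hle), ?_⟩
  intro hz
  have hi : h⁻¹ ∈ A := Algebra.subset_adjoin (Set.mem_insert _ _)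
  have h1 : (⟨h, hle hh⟩ : A) * ⟨h⁻¹, hi⟩ = 1 := by
    apply Subtype.ext
    exact mul_inv_cancel₀ h0
  have h2 : (e.comp (Ideal.Quotient.mkₐ F m)) (⟨h, hle hh⟩ : A) = 0 := hz
  have h3 := congrArg (e.comp (Ideal.Quotient.mkₐ F m)) h1
  rw [map_mul, h2, zero_mul, map_one] at h3
  exact zero_ne_one h3

/-- Polynomial relations and finitely many nonrelations are realised in an algebraically closed
field. -/
theorem pac_real {F : Type*} {K₁ : Type*} {K₂ : Type*} [Field F] [Field K₁] [Field K₂]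
    [IsAlgClosed K₂] (j₁ : F →+* K₁) (j₂ : F →+* K₂) {σ : Type*} (x : σ → K₁)
    (hx : (Set.range x).Finite) (T : Finset (MvPolynomial σ F)) :
    ∃ y : σ → K₂, ∀ g ∈ T, (eval₂ j₁ x g = 0 ↔ eval₂ j₂ y g = 0) := by
  classical
  let _ : Algebra F K₁ := j₁.toAlgebra
  let _ : Algebra F K₂ := j₂.toAlgebra
  set A : Subalgebra F K₁ := Algebra.adjoin F (Set.range x) with hA
  let x' : σ → A := fun s => ⟨x s, Algebra.subset_adjoin ⟨s, rfl⟩⟩
  have key1 : ∀ g : MvPolynomial σ F, ((aeval x' g : A) : K₁) = eval₂ j₁ x g := by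
    intro g
    have : ((aeval x' g : A) : K₁) = A.val (aeval x' g) := rfl
    rw [this, MvPolynomial.comp_aeval_apply]
    rfl
  let h : A := ∏ g ∈ T.filter (fun g => aeval x' g ≠ 0), aeval x' g
  have hne : (h : K₁) ≠ 0 := by
    intro h0
    have h1 : h = 0 := Subtype.ext h0
    rw [Finset.prod_eq_zero_iff] at h1
    obtain ⟨g, hg, hg0⟩ := h1
    exact (Finset.mem_filter.1 hg).2 hg0
  obtain ⟨ψ, hψ⟩ := pac_alg (F := F) (K₂ := K₂) (Set.range x) hx (h : K₁) h.2 hne
  have hψ' : ψ h ≠ 0 := hψ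
  refine ⟨fun s => ψ (x' s), fun g hg => ?_⟩
  have key2 : eval₂ j₂ (fun s => ψ (x' s)) g = ψ (aeval x' g) := by
    rw [MvPolynomial.comp_aeval_apply]
    rfl
  rw [key2, ← key1]
  constructor
  · intro h0
    have h1 : aeval x' g = 0 := Subtype.ext h0
    rw [h1, map_zero]
  · intro h0
    by_contra hcon
    have hg0 : aeval x' g ≠ 0 := fun h1 => hcon (by rw [h1]; rfl)
    apply hψ'
    rw [map_prod]
    exact Finset.prod_eq_zero (Finset.mem_filter.2 ⟨hg, hg0⟩) h0

/-- Extension of partial isomorphisms, finite form. -/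
theorem pac_ext {κ : Type*} [Field κ] [IsAlgClosed κ] {Λ : Type*} {S : Type*} (α α' : Λ → κ)
    (hα : ∀ f : MvPolynomial Λ ℤ, aeval α f = 0 ↔ aeval α' f = 0) (β : S → κ)
    (T : Finset (MvPolynomial (Λ ⊕ S) ℤ)) :
    ∃ y : S → κ, ∀ f ∈ T, (aeval (Sum.elim α β) f = 0 ↔ aeval (Sum.elim α' y) f = 0) := by
  classical
  -- reduction to finitely many variables
  let V : Finset (Λ ⊕ S) := T.biUnion fun f => f.vars
  let β' : S → κ := fun s => if Sum.inr s ∈ V then β s else 0
  have hβ' : (Set.range β').Finite := by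
    have : Set.range β' ⊆ insert 0 ((fun v : Λ ⊕ S => Sum.elim (fun _ => 0) β v) '' (V : Set _)) := by
      rintro _ ⟨s, rfl⟩
      by_cases hs : Sum.inr s ∈ V
      · refine Or.inr ⟨Sum.inr s, hs, ?_⟩
        simp [β', hs]
      · refine Or.inl ?_
        simp [β', hs]
    exact Set.Finite.subset ((V.finite_toSet.image _).insert _) this
  have hred : ∀ f ∈ T, aeval (Sum.elim α β) f = aeval (Sum.elim α β') f := by
    intro f hf
    refine MvPolynomial.eval₂Hom_congr' rfl ?_ rfl
    intro i hi _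
    cases i with
    | inl l => rfl
    | inr s =>
      have : Sum.inr s ∈ V := Finset.mem_biUnion.2 ⟨f, hf, hi⟩
      simp [β', this]
  -- the field generated
  let a₁ : MvPolynomial Λ ℤ →+* κ := (aeval α : MvPolynomial Λ ℤ →ₐ[ℤ] κ).toRingHom
  let a₂ : MvPolynomial Λ ℤ →+* κ := (aeval α' : MvPolynomial Λ ℤ →ₐ[ℤ] κ).toRingHom
  have ha : ∀ f, a₁ f = 0 ↔ a₂ f = 0 := hα
  let I : Ideal (MvPolynomial Λ ℤ) := RingHom.ker a₁
  have hI : I.IsPrime := RingHom.ker_isPrime a₁
  let b₁ : (MvPolynomial Λ ℤ ⧸ I) →+* κ := Ideal.Quotient.lift I a₁ fun a h => h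
  let b₂ : (MvPolynomial Λ ℤ ⧸ I) →+* κ := Ideal.Quotient.lift I a₂ fun a h => (ha a).1 h
  have hb₁ : Function.Injective b₁ := by
    rw [injective_iff_map_eq_zero]
    intro z
    obtain ⟨f, rfl⟩ := Ideal.Quotient.mk_surjective z
    intro hz
    rw [Ideal.Quotient.eq_zero_iff_mem]
    exact hz
  have hb₂ : Function.Injective b₂ := by
    rw [injective_iff_map_eq_zero]
    intro z
    obtain ⟨f, rfl⟩ := Ideal.Quotient.mk_surjective z
    intro hz
    rw [Ideal.Quotient.eq_zero_iff_mem]
    exact (ha f).2 hz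
  let F := FractionRing (MvPolynomial Λ ℤ ⧸ I)
  let j₁ : F →+* κ := IsFractionRing.lift hb₁
  let j₂ : F →+* κ := IsFractionRing.lift hb₂
  let ι : Λ → F := fun l => algebraMap (MvPolynomial Λ ℤ ⧸ I) F (Ideal.Quotient.mk I (X l))
  have hj₁ : ∀ l, j₁ (ι l) = α l := by
    intro l
    have h1 : j₁ (ι l) = b₁ (Ideal.Quotient.mk I (X l)) := IsFractionRing.lift_algebraMap hb₁ _
    rw [h1]
    change (aeval α) (X l) = _
    rw [aeval_X]
  have hj₂ : ∀ l, j₂ (ι l) = α' l := by
    intro l
    have h1 : j₂ (ι l) = b₂ (Ideal.Quotient.mk I (X l)) := IsFractionRing.lift_algebraMap hb₂ _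
    rw [h1]
    change (aeval α') (X l) = _
    rw [aeval_X]
  let G : MvPolynomial (Λ ⊕ S) ℤ → MvPolynomial S F := fun f =>
    aeval (Sum.elim (fun l => C (ι l)) X : Λ ⊕ S → MvPolynomial S F) f
  have hG : ∀ (j : F →+* κ) (a : Λ → κ), (∀ l, j (ι l) = a l) → ∀ (y : S → κ)
      (f : MvPolynomial (Λ ⊕ S) ℤ), eval₂ j y (G f) = aeval (Sum.elim a y) f := by
    intro j a hj y f
    have h1 : (eval₂Hom j y) (G f) = eval₂ j y (G f) := rfl
    rw [← h1]
    induction f using MvPolynomial.induction_on with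
    | C n =>
      simp only [G]
      simp
    | add p q hp hq =>
      simp only [G, map_add] at hp hq ⊢
      rw [hp rfl, hq rfl]
    | mul_X p n hp =>
      simp only [G, map_mul] at hp ⊢
      rw [hp rfl]
      congr 1
      cases n with
      | inl l => simp [hj]
      | inr s => simp
  obtain ⟨y, hy⟩ := pac_real j₁ j₂ β' hβ' (T.image G)
  refine ⟨y, fun f hf => ?_⟩
  have := hy (G f) (Finset.mem_image_of_mem G hf)
  rw [hG j₁ α hj₁, hG j₂ α' hj₂] at this
  rw [hred f hf]
  exact this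

/-- The ultrapower of an algebraically closed field is algebraically closed. -/
theorem pac_closed (k : Type u) [Field k] [IsAlgClosed k] : IsAlgClosed (UP k) := by
  apply IsAlgClosed.of_exists_root
  intro p hp hirr
  set d := p.natDegree with hd
  have hd0 : d ≠ 0 := (hirr.natDegree_pos).ne'
  let q : ℕ → Polynomial k := fun n => Polynomial.X ^ d +
    ∑ i : Fin d, Polynomial.C (rep (p.coeff i) n) * Polynomial.X ^ (i : ℕ)
  have hq : ∀ n, (q n).degree ≠ 0 := by
    intro n
    have h1 : (∑ i : Fin d, Polynomial.C (rep (p.coeff i) n) * Polynomial.X ^ (i : ℕ)).degree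
        < ((d : ℕ) : WithBot ℕ) :=
      Polynomial.degree_sum_fin_lt fun i : Fin d => rep (p.coeff i) n
    have h2 : (q n).degree = ((d : ℕ) : WithBot ℕ) := by
      change (Polynomial.X ^ d + _ : Polynomial k).degree = _
      rw [Polynomial.degree_add_eq_left_of_degree_lt (by rwa [Polynomial.degree_X_pow]),
        Polynomial.degree_X_pow]
    rw [h2]
    exact_mod_cast hd0
  choose z hz using fun n => IsAlgClosed.exists_root (q n) (hq n)
  refine ⟨(z : UP k), ?_⟩
  rw [hp.as_sum, Polynomial.eval_add, Polynomial.eval_pow, Polynomial.eval_X,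
    Polynomial.eval_finsetSum, ← hd]
  rw [← Fin.sum_univ_eq_sum_range
    (fun i => Polynomial.eval (z : UP k) (Polynomial.C (p.coeff i) * Polynomial.X ^ i)) d]
  have h1 : ∀ i : Fin d, Polynomial.eval (z : UP k)
      (Polynomial.C (p.coeff i) * Polynomial.X ^ (i : ℕ)) =
      ((fun n => rep (p.coeff i) n * z n ^ (i : ℕ) : ℕ → k) : UP k) := by
    intro i
    rw [Polynomial.eval_mul, Polynomial.eval_C, Polynomial.eval_pow, Polynomial.eval_X,
      UP.pow_coe]
    conv_lhs => rw [← rep_spec (p.coeff i)]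
    rw [UP.mul_coe]
  rw [Finset.sum_congr rfl fun i _ => h1 i, UP.sum_coe, UP.pow_coe, UP.add_coe, UP.zero_def, up_eq]
  refine Filter.Eventually.of_forall fun n => ?_
  have h2 := hz n
  simp only [q, Polynomial.IsRoot, Polynomial.eval_add, Polynomial.eval_pow, Polynomial.eval_X,
    Polynomial.eval_finsetSum, Polynomial.eval_mul, Polynomial.eval_C] at h2
  exact h2

/-- Evaluation of polynomials in the ultrapower. -/
theorem pac_aeval {k : Type u} [Field k] {σ : Type*} (g : σ → ℕ → k) (f : MvPolynomial σ ℤ) :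
    aeval (fun i => (g i : UP k)) f = ((fun n => aeval (fun i => g i n) f : ℕ → k) : UP k) := by
  induction f using MvPolynomial.induction_on with
  | C n =>
    simp only [aeval_C]
    rfl
  | add p q hp hq =>
    simp only [map_add, hp, hq]
    rfl
  | mul_X p i hp =>
    simp only [map_mul, aeval_X, hp]
    rfl

theorem pac_countable (σ : Type*) [Countable σ] : Countable (MvPolynomial σ ℤ) := by
  have h : Function.Injective (fun f : MvPolynomial σ ℤ => (AddMonoidAlgebra.coeff f)) := by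
    intro f g hfg
    exact AddMonoidAlgebra.coeff_injective hfg
  exact h.countable

theorem pac_lin {k : Type u} [Field k] {r : ℕ} (x : Fin r → UP k) (z : Fin r → ℤ) :
    aeval x (∑ i, C (z i) * X i : MvPolynomial (Fin r) ℤ) = ∑ i, z i • x i := by
  rw [map_sum]
  refine Finset.sum_congr rfl fun i _ => ?_
  rw [map_mul, aeval_C, aeval_X, ← Algebra.smul_def]

section main

variable {M : Type u} [Field M] (O : ValuationSubring M)

theorem pac_swap (L : Set (UP (RVg O) × UP (RVg O))) (h : PAac O L) :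
    PAac O (Prod.swap ⁻¹' L) := by
  refine ⟨fun p hp => (h.1 _ hp).symm, fun r p f hp => ?_⟩
  exact (h.2 r (fun i => (p i).swap) f hp).symm

theorem pac_mul (L : Set (UP (RVg O) × UP (RVg O))) (h : PAac O L)
    (a a' b b' c' : UP (RVg O)) (ha : (a, a') ∈ L) (hb : (b, b') ∈ L) (hc : (a * b, c') ∈ L) :
    c' = a' * b' := by
  have h1 := h.2 3 ![(a, a'), (b, b'), (a * b, c')] (X 0 * X 1 - X 2) (by
    intro i
    fin_cases i
    · exact ha
    · exact hb
    · exact hc)
  simp only [map_sub, map_mul, aeval_X] at h1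
  have h2 := (h1.1 (by
    change upMap (rk O) a * upMap (rk O) b - upMap (rk O) (a * b) = 0
    rw [uprk_mul O (h.1 _ ha).1 (h.1 _ hb).1, sub_self]))
  change upMap (rk O) a' * upMap (rk O) b' - upMap (rk O) c' = 0 at h2
  rw [← uprk_mul O (h.1 _ ha).2 (h.1 _ hb).2, sub_eq_zero] at h2
  have h3 : upHom (piV O) (a' * b') = 1 := by
    rw [map_mul, (h.1 _ ha).2, (h.1 _ hb).2, one_mul]
  exact ((uprk_inj O h3 (h.1 _ hc).2).1 h2).symm

theorem pac_forth (hs : SatStmt.{u, u, u}) (hac : IsAlgClosed (IsLocalRing.ResidueField O))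
    (L : Set (UP (RVg O) × UP (RVg O))) (h : PAac O L) (hL : L.Countable)
    (S : Set (UP (RVg O))) (hS : S ⊆ {e | upHom (piV O) e = 1}) (hSc : S.Countable) :
    ∃ L', L ⊆ L' ∧ L'.Countable ∧ PAac O L' ∧ ∀ x ∈ S, ∃ y, (x, y) ∈ L' := by
  classical
  have hκ : IsAlgClosed (UP (IsLocalRing.ResidueField O)) := pac_closed _
  have hc1 : Countable L := hL.to_subtype
  have hc2 : Countable S := hSc.to_subtype
  have hc3 : Countable (MvPolynomial (L ⊕ S) ℤ) := pac_countable _
  let α : L → UP (IsLocalRing.ResidueField O) := fun l => upMap (rk O) l.1.1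
  let α' : L → UP (IsLocalRing.ResidueField O) := fun l => upMap (rk O) l.1.2
  let β : S → UP (IsLocalRing.ResidueField O) := fun s => upMap (rk O) s.1
  have hα : ∀ f : MvPolynomial L ℤ, aeval α f = 0 ↔ aeval α' f = 0 := by
    intro f
    obtain ⟨n, t, -, q, rfl⟩ := MvPolynomial.exists_fin_rename f
    rw [aeval_rename, aeval_rename]
    exact h.2 n (fun i => (t i).1) q fun i => (t i).2
  obtain ⟨y, hy⟩ := hs S (MvPolynomial (L ⊕ S) ℤ) (IsLocalRing.ResidueField O)
    (fun f y => (aeval (Sum.elim α β) f = 0 ↔ aeval (Sum.elim α' y) f = 0)) (by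
      intro f
      refine ⟨fun k y => (aeval (Sum.elim α β) f = 0 ↔
        aeval (Sum.elim (fun l => rep (α' l) k) y) f = 0), fun g => ?_⟩
      rw [evt_iff, evt_const]
      have h1 : (Sum.elim α' fun i => (g i : UP (IsLocalRing.ResidueField O))) =
          fun i => (((Sum.elim (fun l => rep (α' l)) g : L ⊕ S → ℕ → _) i : ℕ → _) :
            UP (IsLocalRing.ResidueField O)) := by
        funext i
        cases i with
        | inl l => exact (rep_spec _).symm
        | inr s => rfl
      change (_ ↔ aeval (Sum.elim α' fun i => (g i : UP (IsLocalRing.ResidueField O))) f = 0) ↔ _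
      rw [h1, pac_aeval, UP.zero_def, up_eq]
      have h2 : ∀ k, (fun i => (Sum.elim (fun l => rep (α' l)) g : L ⊕ S → ℕ → _) i k) =
          Sum.elim (fun l => rep (α' l) k) (fun i => g i k) := by
        intro k
        funext i
        cases i with
        | inl l => rfl
        | inr s => rfl
      simp only [h2]
      exact Iff.rfl)
    (fun T => pac_ext α α' hα β T)
  have hy0 : ∀ s, y s ≠ 0 := by
    intro s h0
    have h1 := hy (X (Sum.inr s))
    simp only [aeval_X, Sum.elim_inr] at h1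
    exact uprk_ne_zero O (hS s.2) (h1.2 h0)
  choose y' hy'1 hy'2 using fun s => uprk_surj O (hy0 s)
  let γ : L ⊕ S → UP (RVg O) × UP (RVg O) := Sum.elim (fun l => l.1) (fun s => (s.1, y' s))
  refine ⟨Set.range γ, fun p hp => ⟨Sum.inl ⟨p, hp⟩, rfl⟩, Set.countable_range _, ⟨?_, ?_⟩,
    fun x hx => ⟨y' ⟨x, hx⟩, Sum.inr ⟨x, hx⟩, rfl⟩⟩
  · rintro _ ⟨i, rfl⟩
    cases i with
    | inl l => exact h.1 _ l.2
    | inr s => exact ⟨hS s.2, hy'1 s⟩
  · intro r p f hp
    choose t ht using hp
    have e1 : (fun i => upMap (rk O) (p i).1) = fun i => Sum.elim α β (t i) := by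
      funext i
      rw [← ht i]
      cases t i with
      | inl l => rfl
      | inr s => rfl
    have e2 : (fun i => upMap (rk O) (p i).2) = fun i => Sum.elim α' y (t i) := by
      funext i
      rw [← ht i]
      cases t i with
      | inl l => rfl
      | inr s => exact hy'2 s
    have e3 := hy (rename t f)
    rw [aeval_rename, aeval_rename] at e3
    rw [e1, e2]
    exact e3

end main

/-- Types in an algebraically closed residue field. -/
theorem pAac (hs : SatStmt.{u, u, u}) : PAacStmt.{u} := by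
  intro M _ O _ hac
  refine ⟨⟨fun L h p hp => h.1 p hp, fun L L' h hsub => ⟨fun p hp => h.1 p (hsub hp),
    fun r p f hp => h.2 r p f fun i => hsub (hp i)⟩, pac_swap O, ?_, ?_⟩, ?_⟩
  · intro L h hL S hS hSc
    exact pac_forth O hs hac L h hL S hS hSc
  · intro L h a a' b b' c' ha hb hc
    exact pac_mul O L h a a' b b' c' ha hb hc
  · intro L h r p z hp
    rw [← pac_lin, ← pac_lin]
    exact h.2 r p _ hp

end Pool.Agent.NF44
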