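import Pool.Agent.NF44.Stmts2

/-!
# The notions of type (MP_fb46bb_lc)
-/

namespace Pool.Agent.NF44

universe u v w

section general

variable {σ : Sig} {X : Type u}

theorem ty_mem_upSet_rep (S : Set X) (x : UP X) : x ∈ upSet S ↔ evt fun k => rep x k ∈ S := by
  have h := mem_upSet S (rep x)
  rwa [rep_spec] at h

theorem ty_restr_up (A : RS σ X) (S : Set X) (j : σ.J) (x : Fin (σ.ar j) → UP X) :
    (A.restr S).up.R j x ↔ (∀ i, x i ∈ upSet S) ∧ A.up.R j x := by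
  change (evt fun k => (∀ i, rep (x i) k ∈ S) ∧ A.R j (fun i => rep (x i) k)) ↔ _
  rw [evt_and, evt_fin]
  refine and_congr (forall_congr' fun i => ?_) Iff.rfl
  rw [ty_mem_upSet_rep]

end general

section grp

variable {G : Type u} [CommGroup G] {m : ℕ} (P : Fin m → Set G)

theorem ty_grp_mul_R (x : Fin 3 → UP G) :
    (grpRS P).up.R (GJ.mul : GJ m) x ↔ x 0 * x 1 = x 2 := by
  rw [grpRS_up]
  exact Iff.rfl

theorem ty_grp_eq_R (x : Fin 2 → UP G) :
    (grpRS P).up.R (GJ.eq : GJ m) x ↔ x 0 = x 1 := by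
  rw [grpRS_up]
  exact Iff.rfl

theorem ty_fin3 {Z : Type w} {L : Set Z} {a b c : Z} (ha : a ∈ L) (hb : b ∈ L) (hc : c ∈ L) :
    ∀ i : Fin 3, (![a, b, c] : Fin 3 → Z) i ∈ L := by
  intro i
  fin_cases i
  · exact ha
  · exact hb
  · exact hc

theorem ty_fin2 {Z : Type w} {L : Set Z} {a b : Z} (ha : a ∈ L) (hb : b ∈ L) :
    ∀ i : Fin 2, (![a, b] : Fin 2 → Z) i ∈ L := by
  intro i
  fin_cases i
  · exact ha
  · exact hb

theorem grpType (hF : TpForthStmt.{u}) : GrpTypeStmt.{u} := by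
  intro G _ m P
  refine ⟨fun _ _ _ _ => ⟨trivial, trivial⟩, fun L L' h h' => h.mono h', fun L h => h.swap, ?_, ?_⟩
  · intro L hL hc S _ hS
    obtain ⟨L', h1, h2, h3, h4⟩ := hF _ _ _ _ _ L hL hc S hS
    exact ⟨L', h1, h2, h3, h4⟩
  · intro L hL a a' b b' c' ha hb hab
    have h := hL.atomic (GJ.mul : GJ m) (![(a, a'), (b, b'), (a * b, c')] : Fin 3 → UP G × UP G)
      (ty_fin3 ha hb hab)
    have h2 := h.1 ((ty_grp_mul_R P _).2 rfl)
    exact ((ty_grp_mul_R P _).1 h2).symm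

theorem pRes (hF : TpForthStmt.{u}) : PResTypeStmt.{u} := by
  intro G _ m P A
  refine ⟨fun L h => h.1, fun L L' h h' => ⟨fun p hp => h.1 p (h' hp), h.2.mono h'⟩,
    fun L h => ⟨fun p hp => ⟨(h.1 _ hp).2, (h.1 _ hp).1⟩, h.2.swap⟩, ?_, ?_⟩
  · rintro L ⟨hL1, hL2⟩ hc S hSA hS
    obtain ⟨L', h1, h2, h3, h4⟩ := hF _ _ _ _ _ L hL2 hc S hS
    refine ⟨L ∪ {p | p ∈ L' ∧ p.1 ∈ S}, Set.subset_union_left,
      hc.union (h2.mono fun p hp => hp.1), ⟨?_, ?_⟩, ?_⟩
    · rintro p (hp | ⟨hp, hpS⟩)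
      · exact hL1 p hp
      · refine ⟨hSA hpS, ?_⟩
        have h := h3.atomic (GJ.eq : GJ m) (![p, p] : Fin 2 → UP G × UP G) (ty_fin2 hp hp)
        rw [ty_restr_up, ty_restr_up] at h
        have h5 := h.1 ⟨fun i => by
          change Fin 2 at i
          fin_cases i <;> exact hSA hpS, (ty_grp_eq_R P _).2 rfl⟩
        exact h5.1 (0 : Fin 2)
    · refine h3.mono ?_
      rintro p (hp | ⟨hp, -⟩)
      · exact h1 hp
      · exact hp
    · intro x hx
      obtain ⟨y, hy⟩ := h4 x hx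
      exact ⟨y, Or.inr ⟨hy, hx⟩⟩
  · rintro L ⟨hL1, hL2⟩ a a' b b' c' ha hb hab
    have h := hL2.atomic (GJ.mul : GJ m) (![(a, a'), (b, b'), (a * b, c')] : Fin 3 → UP G × UP G)
      (ty_fin3 ha hb hab)
    rw [ty_restr_up, ty_restr_up] at h
    have h2 := h.1 ⟨fun i => by
      change Fin 3 at i
      fin_cases i
      · exact (hL1 _ ha).1
      · exact (hL1 _ hb).1
      · exact (hL1 _ hab).1, (ty_grp_mul_R P _).2 rfl⟩
    exact ((ty_grp_mul_R P _).1 h2.2).symm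

end grp

section field

variable {M : Type u} [Field M] {m : ℕ} {P : Fin m → Set M}

theorem ty_field_add {L : Set (UP M × UP M)} (h : Tp (fieldRS P).up (fieldRS P).up L)
    {a b c a' b' c' : UP M} (ha : (a, a') ∈ L) (hb : (b, b') ∈ L) (hc : (c, c') ∈ L) :
    a + b = c ↔ a' + b' = c' := by
  rw [fieldRS_up] at h
  exact h.atomic (FJ.add : FJ m) (![(a, a'), (b, b'), (c, c')] : Fin 3 → UP M × UP M)
    (ty_fin3 ha hb hc)

theorem ty_field_mul {L : Set (UP M × UP M)} (h : Tp (fieldRS P).up (fieldRS P).up L)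
    {a b c a' b' c' : UP M} (ha : (a, a') ∈ L) (hb : (b, b') ∈ L) (hc : (c, c') ∈ L) :
    a * b = c ↔ a' * b' = c' := by
  rw [fieldRS_up] at h
  exact h.atomic (FJ.mul : FJ m) (![(a, a'), (b, b'), (c, c')] : Fin 3 → UP M × UP M)
    (ty_fin3 ha hb hc)

theorem ty_field_eq {L : Set (UP M × UP M)} (h : Tp (fieldRS P).up (fieldRS P).up L)
    {a b a' b' : UP M} (ha : (a, a') ∈ L) (hb : (b, b') ∈ L) : a = b ↔ a' = b' := by
  rw [fieldRS_up] at h
  exact h.atomic (FJ.eq : FJ m) (![(a, a'), (b, b')] : Fin 2 → UP M × UP M) (ty_fin2 ha hb)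

theorem ty_field_pr {L : Set (UP M × UP M)} (h : Tp (fieldRS P).up (fieldRS P).up L)
    (i : Fin m) {a a' : UP M} (ha : (a, a') ∈ L) : a ∈ upSet (P i) ↔ a' ∈ upSet (P i) := by
  rw [fieldRS_up] at h
  exact h.atomic (FJ.pr i : FJ m) (fun _ : Fin 1 => (a, a')) fun _ => ha

theorem ty_field_zero {L : Set (UP M × UP M)} (h : Tp (fieldRS P).up (fieldRS P).up L)
    {a a' : UP M} (ha : (a, a') ∈ L) : a = 0 ↔ a' = 0 := by
  have h1 := ty_field_add h ha ha ha
  constructor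
  · intro h2
    have h3 := h1.1 (by rw [h2, add_zero])
    exact add_eq_left.1 h3
  · intro h2
    have h3 := h1.2 (by rw [h2, add_zero])
    exact add_eq_left.1 h3

/-- Partial elementary maps preserve linear relations over the integers. -/
theorem ty_lin (hF : TpForthStmt.{u}) {L : Set (UP M × UP M)}
    (h : Tp (fieldRS P).up (fieldRS P).up L) {r : ℕ} (p : Fin r → UP M × UP M) (z : Fin r → ℤ)
    (hp : ∀ i, p i ∈ L) : ∑ i, z i • (p i).1 = 0 ↔ ∑ i, z i • (p i).2 = 0 := by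
  classical
  have h0 : Tp (fieldRS P).up (fieldRS P).up (Set.range p) :=
    h.mono (by rintro _ ⟨i, rfl⟩; exact hp i)
  have hcn : (Set.range p).Countable := (Set.finite_range p).countable
  let φ : (Fin r → ℤ) →+ UP M :=
    { toFun := fun c => ∑ i, c i • (p i).1
      map_zero' := by simp
      map_add' := fun c d => by
        rw [← Finset.sum_add_distrib]
        exact Finset.sum_congr rfl fun i _ => by rw [Pi.add_apply, add_smul] }
  let S : AddSubgroup (UP M) := φ.range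
  have hS : (S : Set (UP M)).Countable := by
    have h1 : (S : Set (UP M)) = Set.range φ := AddMonoidHom.coe_range φ
    rw [h1]
    exact Set.countable_range φ
  obtain ⟨L', h1, h2, h3, h4⟩ := hF _ _ _ _ _ _ h0 hcn S hS
  choose f hf using fun x : S => h4 x x.2
  let g : S →+ UP M := AddMonoidHom.mk' f (fun x y =>
    ((ty_field_add h3 (hf x) (hf y) (hf (x + y))).1 rfl).symm)
  have hg : ∀ x : S, ((x : UP M), g x) ∈ L' := hf
  have hmem : ∀ i, (p i).1 ∈ S := by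
    intro i
    refine ⟨Pi.single i 1, ?_⟩
    change ∑ j, (Pi.single i (1 : ℤ) : Fin r → ℤ) j • (p j).1 = (p i).1
    rw [Finset.sum_eq_single i]
    · simp
    · intro j _ hj
      simp [Pi.single_eq_of_ne hj]
    · simp
  have hgi : ∀ i, g ⟨(p i).1, hmem i⟩ = (p i).2 := by
    intro i
    exact (ty_field_eq h3 (hg ⟨(p i).1, hmem i⟩) (h1 ⟨i, rfl⟩)).1 rfl
  have e1 : ((∑ i, z i • (⟨(p i).1, hmem i⟩ : S) : S) : UP M) = ∑ i, z i • (p i).1 := by
    push_cast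
    rfl
  have e2 : g (∑ i, z i • (⟨(p i).1, hmem i⟩ : S)) = ∑ i, z i • (p i).2 := by
    rw [map_sum]
    refine Finset.sum_congr rfl fun i _ => ?_
    rw [map_zsmul, hgi]
  have h5 := ty_field_zero h3 (hg (∑ i, z i • (⟨(p i).1, hmem i⟩ : S)))
  rwa [e1, e2] at h5

theorem pAk (hF : TpForthStmt.{u}) : PAkStmt.{u} := by
  intro M _ O
  refine ⟨⟨fun L h => h.1, ?_, ?_, ?_, ?_⟩, ?_⟩
  · intro L L' h h'
    exact ⟨fun p hp => h.1 p (h' hp), h.2.mono (Set.image_mono h')⟩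
  · intro L h
    refine ⟨fun p hp => ⟨(h.1 _ hp).2, (h.1 _ hp).1⟩, h.2.swap.mono ?_⟩
    rintro _ ⟨p, hp, rfl⟩
    exact ⟨p.swap, hp, rfl⟩
  · rintro L ⟨hL1, hL2⟩ hc S hSk hS
    obtain ⟨L', h1, h2, h3, h4⟩ := hF _ _ _ _ _ _ hL2 (hc.image _) (upMap (rk O) '' S)
      (hS.image _)
    have h5 : ∀ x : S, ∃ y : UP (RVg O), upHom (piV O) y = 1 ∧
        (upMap (rk O) (x : UP (RVg O)), upMap (rk O) y) ∈ L' := by
      intro x
      obtain ⟨y', hy'⟩ := h4 (upMap (rk O) (x : UP (RVg O))) ⟨x, x.2, rfl⟩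
      have h6 : y' ≠ 0 := by
        intro h7
        exact uprk_ne_zero O (hSk x.2) ((ty_field_zero h3 hy').2 h7)
      obtain ⟨y, hy, rfl⟩ := uprk_surj O h6
      exact ⟨y, hy, hy'⟩
    choose g hg using h5
    refine ⟨L ∪ Set.range (fun x : S => ((x : UP (RVg O)), g x)), Set.subset_union_left,
      hc.union ?_, ⟨?_, ?_⟩, ?_⟩
    · have : Countable S := hS.to_subtype
      exact Set.countable_range _
    · rintro p (hp | ⟨x, rfl⟩)
      · exact hL1 p hp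
      · exact ⟨hSk x.2, (hg x).1⟩
    · refine h3.mono ?_
      rintro _ ⟨p, hp | ⟨x, rfl⟩, rfl⟩
      · exact h1 ⟨p, hp, rfl⟩
      · exact (hg x).2
    · intro x hx
      exact ⟨g ⟨x, hx⟩, Or.inr ⟨⟨x, hx⟩, rfl⟩⟩
  · rintro L ⟨hL1, hL2⟩ a a' b b' c' ha hb hab
    have h := ty_field_mul hL2 (Set.mem_image_of_mem _ ha) (Set.mem_image_of_mem _ hb)
      (Set.mem_image_of_mem _ hab)
    have h2 := h.1 (uprk_mul O (hL1 _ ha).1 (hL1 _ hb).1).symm
    have h3 : upHom (piV O) (a' * b') = 1 := by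
      rw [map_mul, (hL1 _ ha).2, (hL1 _ hb).2, mul_one]
    rw [← uprk_inj O (hL1 _ hab).2 h3, uprk_mul O (hL1 _ ha).2 (hL1 _ hb).2]
    exact h2.symm
  · rintro L ⟨hL1, hL2⟩ r p z hp
    exact ty_lin hF hL2 (fun i => (upMap (rk O) (p i).1, upMap (rk O) (p i).2)) z
      (fun i => ⟨p i, hp i, rfl⟩)

end field

end Pool.Agent.NF44
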