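import Pool.Agent.NF44.Stmts
import Pool.Agent.NF44.UPVal

/-!
# Ultrapowers: Los, countable saturation, countable extension of partial elementary maps
-/

namespace Pool.Agent.NF44

universe u v w

theorem evt.exists {p : ℕ → Prop} (h : evt p) : ∃ k, p k := Filter.Eventually.exists h

theorem evt_ge (n : ℕ) : evt fun k => n ≤ k :=
  Nat.hyperfilter_le_atTop (Filter.eventually_ge_atTop n)

theorem up_R {σ : Sig} {X : Type u} (A : RS σ X) (j : σ.J) (f : Fin (σ.ar j) → ℕ → X) :
    A.up.R j (fun i => (f i : UP X)) ↔ evt fun k => A.R j (fun i => f i k) := by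
  have h : evt fun k => ∀ i, rep (f i : UP X) k = f i k :=
    (Filter.eventually_all (ι := Fin (σ.ar j))).2 fun i => rep_coe (f i)
  have h2 : evt fun k => (A.R j (fun i => rep (f i : UP X) k) ↔ A.R j (fun i => f i k)) :=
    h.mono fun k hk => by
      have : (fun i => rep (f i : UP X) k) = fun i => f i k := funext hk
      rw [this]
  exact evt_iff.1 h2

theorem cons_up {X : Type u} {r : ℕ} (c : ℕ → X) (f : Fin r → ℕ → X) :
    (fun i => ((Fin.cons c f : Fin (r + 1) → ℕ → X) i : UP X)) =
      Fin.cons (c : UP X) (fun i => (f i : UP X)) := by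
  funext i
  refine Fin.cases ?_ (fun i => ?_) i <;> simp

theorem cons_at {X : Type u} {r : ℕ} (c : ℕ → X) (f : Fin r → ℕ → X) (k : ℕ) :
    (fun i => (Fin.cons c f : Fin (r + 1) → ℕ → X) i k) =
      Fin.cons (c k) (fun i => f i k) := by
  funext i
  refine Fin.cases ?_ (fun i => ?_) i <;> simp

/-- choice along the hyperfilter -/
theorem evt_choose {X : Type u} {p : ℕ → X → Prop} (h : evt fun k => ∃ x, p k x) :
    ∃ c : ℕ → X, evt fun k => p k (c k) := by
  classical
  obtain ⟨k0, x0, -⟩ := h.exists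
  refine ⟨fun k => if hk : ∃ x, p k x then hk.choose else x0, h.mono fun k hk => ?_⟩
  show p k (if hk : ∃ x, p k x then hk.choose else x0)
  rw [dif_pos hk]
  exact hk.choose_spec

theorem los_aux {σ : Sig} {X : Type u} {Y : Type v} (A : RS σ X) (B : RS σ Y) (n : ℕ) :
    ∀ (r : ℕ) (f : Fin r → ℕ → X) (g : Fin r → ℕ → Y),
      EF A.up B.up n r (fun i => (f i : UP X)) (fun i => (g i : UP Y)) ↔
        evt fun k => EF A B n r (fun i => f i k) (fun i => g i k) := by
  induction n with
  | zero =>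
    intro r f g
    have := σ.fin
    have h1 : (evt fun k => EF A B 0 r (fun i => f i k) (fun i => g i k)) ↔
        ∀ (j : σ.J) (t : Fin (σ.ar j) → Fin r),
          evt fun k => (A.R j (fun i => f (t i) k) ↔ B.R j (fun i => g (t i) k)) := by
      have : (evt fun k => EF A B 0 r (fun i => f i k) (fun i => g i k)) ↔
          evt fun k => ∀ (j : σ.J) (t : Fin (σ.ar j) → Fin r),
            (A.R j (fun i => f (t i) k) ↔ B.R j (fun i => g (t i) k)) := Iff.rfl
      rw [this]
      refine Filter.eventually_all.trans (forall_congr' fun j => ?_)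
      exact Filter.eventually_all
    rw [h1]
    constructor
    · intro h j t
      rw [evt_iff]
      have := h j t
      rw [← up_R A j (fun i => f (t i)), ← up_R B j (fun i => g (t i))]
      exact this
    · intro h j t
      have := evt_iff.1 (h j t)
      rw [← up_R A j (fun i => f (t i)), ← up_R B j (fun i => g (t i))] at this
      exact this
  | succ n ih =>
    intro r f g
    have key : ∀ (c : ℕ → X) (d : ℕ → Y),
        EF A.up B.up n (r + 1) (Fin.cons (c : UP X) (fun i => (f i : UP X)))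
          (Fin.cons (d : UP Y) (fun i => (g i : UP Y))) ↔
        evt fun k => EF A B n (r + 1) (Fin.cons (c k) (fun i => f i k))
          (Fin.cons (d k) (fun i => g i k)) := by
      intro c d
      have := ih (r + 1) (Fin.cons c f) (Fin.cons d g)
      rw [cons_up, cons_up] at this
      rw [this]
      refine iff_of_eq (congrArg evt (funext fun k => ?_))
      rw [cons_at, cons_at]
    constructor
    · rintro ⟨h1, h2⟩
      refine evt_and.2 ⟨?_, ?_⟩
      · by_contra hcon
        have hcon' : evt fun k => ∃ c : X, ∀ d : Y,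
            ¬ EF A B n (r + 1) (Fin.cons c (fun i => f i k)) (Fin.cons d (fun i => g i k)) := by
          refine (evt_not.2 hcon).mono fun k hk => ?_
          push Not at hk
          exact hk
        obtain ⟨c, hc⟩ := evt_choose hcon'
        obtain ⟨d, hd⟩ := h1 (c : UP X)
        rw [← rep_spec d] at hd
        obtain ⟨k, hk1, hk2⟩ := (evt_and.2 ⟨hc, (key c (rep d)).1 hd⟩).exists
        exact hk1 _ hk2
      · by_contra hcon
        have hcon' : evt fun k => ∃ d : Y, ∀ c : X,
            ¬ EF A B n (r + 1) (Fin.cons c (fun i => f i k)) (Fin.cons d (fun i => g i k)) := by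
          refine (evt_not.2 hcon).mono fun k hk => ?_
          push Not at hk
          exact hk
        obtain ⟨d, hd⟩ := evt_choose hcon'
        obtain ⟨c, hc⟩ := h2 (d : UP Y)
        rw [← rep_spec c] at hc
        obtain ⟨k, hk1, hk2⟩ := (evt_and.2 ⟨hd, (key (rep c) d).1 hc⟩).exists
        exact hk1 _ hk2
    · intro h
      obtain ⟨h1, h2⟩ := evt_and.1 h
      constructor
      · intro c
        obtain ⟨d, hd⟩ := evt_choose (h1.mono fun k hk => hk (rep c k))
        refine ⟨(d : UP Y), ?_⟩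
        have := (key (rep c) d).2 hd
        rwa [rep_spec] at this
      · intro d
        obtain ⟨c, hc⟩ := evt_choose (h2.mono fun k hk => hk (rep d k))
        refine ⟨(c : UP X), ?_⟩
        have := (key c (rep d)).2 hc
        rwa [rep_spec] at this

/-- Los for EF. -/
theorem los : LosStmt.{u, v} := fun _ _ _ A B n r f g => los_aux A B n r f g

/-- Countable saturation. -/
theorem sat : SatStmt.{u, v, w} := by
  classical
  intro ι J _ X P hP hfin
  obtain ⟨y0, -⟩ := hfin ∅
  by_cases hJ : Nonempty J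
  swap
  · exact ⟨y0, fun j => (hJ ⟨j⟩).elim⟩
  obtain ⟨e, he⟩ := exists_surjective_nat J
  choose p hp using hP
  -- the sets of good indices
  have hA : ∀ m : ℕ, evt fun k => ∃ x : ι → X, ∀ i ≤ m, p (e i) k x := by
    intro m
    obtain ⟨y, hy⟩ := hfin ((Finset.range (m + 1)).image e)
    have h1 : ∀ i ≤ m, evt fun k => p (e i) k (fun a => rep (y a) k) := by
      intro i hi
      have h2 := hy (e i) (Finset.mem_image_of_mem e (Finset.mem_range.2 (by omega)))
      have h3 := hp (e i) (fun a => rep (y a))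
      have h4 : (fun a => ((rep (y a) : ℕ → X) : UP X)) = y := funext fun a => rep_spec (y a)
      rw [h4] at h3
      exact h3.1 h2
    have h5 : evt fun k => ∀ i : Fin (m + 1), p (e i) k (fun a => rep (y a) k) :=
      (Filter.eventually_all (ι := Fin (m + 1))).2 fun i => h1 i (by omega)
    exact h5.mono fun k hk => ⟨_, fun i hi => hk ⟨i, by omega⟩⟩
  have hx : ∀ k : ℕ, ∃ x : ι → X, ∀ m ≤ k, (∃ x' : ι → X, ∀ i ≤ m, p (e i) k x') →
      ∀ i ≤ m, p (e i) k x := by
    intro k
    by_cases h : ∃ m ≤ k, ∃ x' : ι → X, ∀ i ≤ m, p (e i) k x'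
    · obtain ⟨m, hm, hx'⟩ := h
      have h0 : ∃ x' : ι → X, ∀ i ≤ Nat.findGreatest
          (fun m => ∃ x' : ι → X, ∀ i ≤ m, p (e i) k x') k, p (e i) k x' :=
        Nat.findGreatest_spec (P := fun m => ∃ x' : ι → X, ∀ i ≤ m, p (e i) k x') hm hx'
      obtain ⟨x, hx0⟩ := h0
      refine ⟨x, fun m' hm' hx'' i hi => hx0 i (le_trans hi ?_)⟩
      exact Nat.le_findGreatest (P := fun m => ∃ x' : ι → X, ∀ i ≤ m, p (e i) k x') hm' hx''
    · refine ⟨fun a => rep (y0 a) k, fun m hm hx' => ?_⟩
      exact (h ⟨m, hm, hx'⟩).elim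
  choose x hx using hx
  refine ⟨fun a => ((fun k => x k a : ℕ → X) : UP X), fun j => ?_⟩
  obtain ⟨i, rfl⟩ := he j
  rw [hp (e i) (fun a k => x k a)]
  refine (evt_and.2 ⟨hA i, evt_ge i⟩).mono fun k hk => ?_
  exact hx k i hk.2 hk.1 i le_rfl

theorem exists_enum {Z : Type u} {F : Set Z} (hF : F.Finite) :
    ∃ (R : ℕ) (T : Fin R → Z), Set.range T = F := by
  classical
  refine ⟨hF.toFinset.card, fun i => (hF.toFinset.equivFin.symm i : Z), ?_⟩
  ext z
  constructor
  · rintro ⟨i, rfl⟩
    exact hF.mem_toFinset.1 (hF.toFinset.equivFin.symm i).2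
  · intro hz
    refine ⟨hF.toFinset.equivFin ⟨z, hF.mem_toFinset.2 hz⟩, ?_⟩
    simp

/-- one step of the extension of a countable partial elementary map -/
theorem tp_forth_one {σ : Sig} {X : Type u} {Y : Type u} (A : RS σ X) (B : RS σ Y)
    (L : Set (UP X × UP Y)) (hL : Tp A.up B.up L) (hLc : L.Countable) (x : UP X) :
    ∃ y, Tp A.up B.up (insert (x, y) L) := by
  classical
  have : Countable L := hLc.to_subtype
  have : Nonempty (UP X) := ⟨x⟩
  let J : Type u := Σ n : ℕ, Σ r : ℕ, (Fin r → L)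
  let P : J → (Unit → UP Y) → Prop := fun j y =>
    EF A.up B.up j.1 (j.2.1 + 1) (Fin.cons x (fun i => (j.2.2 i).1.1))
      (Fin.cons (y ()) (fun i => (j.2.2 i).1.2))
  have hint : ∀ j, Internal (P j) := by
    rintro ⟨n, r, t⟩
    refine ⟨fun k y => EF A B n (r + 1) (Fin.cons (rep x k) (fun i => rep (t i).1.1 k))
      (Fin.cons (y ()) (fun i => rep (t i).1.2 k)), fun f => ?_⟩
    have h1 := los σ X Y A B n (r + 1) (Fin.cons (rep x) (fun i => rep (t i).1.1))
      (Fin.cons (f ()) (fun i => rep (t i).1.2))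
    rw [cons_up, cons_up] at h1
    simp only [rep_spec] at h1
    refine h1.trans (iff_of_eq (congrArg evt (funext fun k => ?_)))
    rw [cons_at, cons_at]
  have hfin : ∀ s : Finset J, ∃ y, ∀ j ∈ s, P j y := by
    intro s
    obtain ⟨R, T, hT⟩ := exists_enum
      (F := ⋃ j ∈ s, Set.range (fun i => (j.2.2 i : UP X × UP Y)))
      (s.finite_toSet.biUnion fun j _ => Set.finite_range _)
    have hTL : ∀ i, T i ∈ L := by
      intro i
      have : T i ∈ ⋃ j ∈ s, Set.range (fun i => (j.2.2 i : UP X × UP Y)) := by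
        rw [← hT]; exact ⟨i, rfl⟩
      simp only [Set.mem_iUnion] at this
      obtain ⟨j, -, q, hq⟩ := this
      rw [← hq]
      exact (j.2.2 q).2
    obtain ⟨y, hy⟩ := (hL (s.sup (fun j => j.1) + 1) R T hTL).1 x
    refine ⟨fun _ => y, fun j hj => ?_⟩
    have hq : ∀ i, ∃ q, T q = (j.2.2 i : UP X × UP Y) := by
      intro i
      have : (j.2.2 i : UP X × UP Y) ∈ ⋃ j ∈ s, Set.range (fun i => (j.2.2 i : UP X × UP Y)) := by
        simp only [Set.mem_iUnion]
        exact ⟨j, hj, i, rfl⟩
      rw [← hT] at this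
      exact this
    choose q hq using hq
    have h1 := (hy.mono (Finset.le_sup (f := fun j : J => j.1) hj)).reindex
      (Fin.cons 0 (Fin.succ ∘ q) : Fin (j.2.1 + 1) → Fin (R + 1))
    rw [cons_comp_cons, cons_comp_cons] at h1
    have e1 : (fun i => (T i).1) ∘ q = fun i => (j.2.2 i).1.1 := by
      funext i; simp [hq]
    have e2 : (fun i => (T i).2) ∘ q = fun i => (j.2.2 i).1.2 := by
      funext i; simp [hq]
    rw [e1, e2] at h1
    exact h1
  obtain ⟨y, hy⟩ := sat Unit J Y P hint hfin
  refine ⟨y (), ?_⟩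
  intro n r t ht
  obtain ⟨R, T, hT⟩ := exists_enum (F := {z | z ∈ L ∧ ∃ i, t i = z})
    ((Set.finite_range t).subset fun z hz => hz.2)
  have hTL : ∀ i, T i ∈ L := by
    intro i
    have : T i ∈ {z | z ∈ L ∧ ∃ i, t i = z} := by rw [← hT]; exact ⟨i, rfl⟩
    exact this.1
  have hq : ∀ i, ∃ q : Fin (R + 1), t i =
      ((Fin.cons (x, y ()) T : Fin (R + 1) → UP X × UP Y) q) := by
    intro i
    rcases ht i with h | h
    · exact ⟨0, by simpa using h⟩
    · have : t i ∈ {z | z ∈ L ∧ ∃ i, t i = z} := ⟨h, i, rfl⟩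
      rw [← hT] at this
      obtain ⟨q, hq⟩ := this
      exact ⟨q.succ, by simp [hq]⟩
  choose q hq using hq
  have h1 := (hy ⟨n, R, fun i => ⟨T i, hTL i⟩⟩)
  have h2 := EF.reindex h1 q
  have e1 : (Fin.cons x (fun i => (T i).1) : Fin (R + 1) → UP X) ∘ q = fun i => (t i).1 := by
    funext i
    rw [Function.comp_apply, cons_fst x (y ()) T, hq i]
  have e2 : (Fin.cons (y ()) (fun i => (T i).2) : Fin (R + 1) → UP Y) ∘ q =
      fun i => (t i).2 := by
    funext i
    rw [Function.comp_apply, cons_snd x (y ()) T, hq i]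
  rw [← e1, ← e2]
  exact h2

/-- Countable extension of partial elementary maps between ultrapowers. -/
theorem tpForth : TpForthStmt.{u} := by
  classical
  intro σ X Y A B L hL hLc S hS
  rcases S.eq_empty_or_nonempty with rfl | hne
  · exact ⟨L, le_rfl, hLc, hL, fun x hx => hx.elim⟩
  obtain ⟨s, hs⟩ := hS.exists_eq_range hne
  let Q : Type u := {L' : Set (UP X × UP Y) // Tp A.up B.up L' ∧ L'.Countable}
  let step : ℕ → Q → Q := fun n q =>
    ⟨insert (s n, (tp_forth_one A B q.1 q.2.1 q.2.2 (s n)).choose) q.1,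
      (tp_forth_one A B q.1 q.2.1 q.2.2 (s n)).choose_spec, q.2.2.insert _⟩
  let seq : ℕ → Q := fun n => Nat.rec ⟨L, hL, hLc⟩ (fun n q => step n q) n
  have hseq : ∀ n, seq (n + 1) = step n (seq n) := fun n => rfl
  have hmono : Monotone fun n => (seq n).1 := by
    refine monotone_nat_of_le_succ fun n => ?_
    rw [hseq]
    exact Set.subset_insert _ _
  refine ⟨⋃ n, (seq n).1, ?_, ?_, ?_, ?_⟩
  · exact Set.subset_iUnion (fun n => (seq n).1) 0
  · exact Set.countable_iUnion fun n => (seq n).2.2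
  · intro n r t ht
    have h1 : ∀ i, ∃ m, t i ∈ (seq m).1 := fun i => Set.mem_iUnion.1 (ht i)
    choose m hm using h1
    have h2 : ∀ i, t i ∈ (seq (Finset.univ.sup m)).1 := fun i =>
      hmono (Finset.le_sup (f := m) (Finset.mem_univ i)) (hm i)
    exact (seq (Finset.univ.sup m)).2.1 n r t h2
  · intro x hx
    rw [hs] at hx
    obtain ⟨n, rfl⟩ := hx
    refine ⟨(tp_forth_one A B (seq n).1 (seq n).2.1 (seq n).2.2 (s n)).choose, ?_⟩
    refine Set.mem_iUnion.2 ⟨n + 1, ?_⟩
    rw [hseq]
    exact Set.mem_insert _ _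

end Pool.Agent.NF44
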