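import Mathlib

/-!
# The languages, and NIP_n (MP_fb46bb_lc)
-/

namespace Pool.Agent.NF44

open FirstOrder FirstOrder.Language

universe u

/-- The formula `φ(x; y_1, ..., y_n)` has the `n`-independence property in the structure `N`. -/
def FormulaIP (n : ℕ) (L : FirstOrder.Language.{0, 0}) (N : Type u) [L.Structure N] (a : ℕ) (b : Fin n → ℕ)
    (φ : L.Formula (Fin a ⊕ (Σ k : Fin n, Fin (b k)))) : Prop :=
  ∃ (y : ∀ k : Fin n, ℕ → Fin (b k) → N) (x : Set (Fin n → ℕ) → Fin a → N),
    ∀ (s : Set (Fin n → ℕ)) (i : Fin n → ℕ),
      φ.Realize (Sum.elim (x s) fun p : (Σ k : Fin n, Fin (b k)) => y p.1 (i p.1) p.2) ↔ i ∈ s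

/-- The structure `M` is NIP_n: no formula has the `n`-independence property in a model of the
complete theory of `M`. -/
def NIPn (n : ℕ) (L : FirstOrder.Language.{0, 0}) (M : Type u) [L.Structure M] : Prop :=
  ∀ (N : Type u) [L.Structure N], M ≅[L] N →
    ∀ (a : ℕ) (b : Fin n → ℕ) (φ : L.Formula (Fin a ⊕ (Σ k : Fin n, Fin (b k)))),
      ¬ FormulaIP n L N a b φ

/-- The structure of a field in the language of rings. -/
@[reducible] def ringStr (K : Type u) [Field K] : FirstOrder.Language.ring.Structure K :=
  (FirstOrder.Ring.compatibleRingOfRing K).toStructure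

/-- One unary relation symbol. -/
inductive ValRel : ℕ → Type
  | val : ValRel 1

/-- The language of rings with a unary predicate. -/
def Lval : FirstOrder.Language.{0, 0} where
  Functions := FirstOrder.ringFunc
  Relations := ValRel

/-- The valued field `(K, O)` in the language of rings with a unary predicate for `O`. -/
@[reducible] def valStr (K : Type u) [Field K] (O : ValuationSubring K) : Lval.Structure K where
  funMap := fun {n} f =>
    match n, f with
    | _, .add => fun x => x 0 + x 1
    | _, .mul => fun x => x 0 * x 1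
    | _, .neg => fun x => -x 0
    | _, .zero => fun _ => 0
    | _, .one => fun _ => 1
  RelMap := fun {n} r =>
    match n, r with
    | _, .val => fun x => x 0 ∈ O

/-- `K` is NIP_n as a pure field. -/
def FieldNIP (n : ℕ) (K : Type u) [Field K] : Prop :=
  letI := ringStr K
  NIPn n FirstOrder.Language.ring K

/-- The valued field `(K, O)` is NIP_n. -/
def ValuedNIP (n : ℕ) (K : Type u) [Field K] (O : ValuationSubring K) : Prop :=
  letI := valStr K O
  NIPn n Lval K

end Pool.Agent.NF44
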