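import Pool.Agent.NF44.Stmts
import Pool.Agent.NF44.UPVal
import Pool.Agent.NF44.NIP

/-!
# Module statements for MP_fb46bb_lc, second part (architect: helper44)
-/

namespace Pool.Agent.NF44

open Polynomial

universe u v w

/-! ## Interpretation lemmas -/

/-- The image of a set of pairs. -/
def imPair {X : Type u} {Y : Type v} (q : X → Y) (L : Set (X × X)) : Set (Y × Y) :=
  (fun p : X × X => (q p.1, q p.2)) '' L

/-- If the pullback of the relations of `B` along `q` is preserved by all countable partial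
elementary maps of the ultrapower of `A`, then partial elementary maps go to partial elementary
maps. -/
def InterpStmt : Prop := ∀ (σ τ : Sig) (X Y : Type u) (A : RS σ X) (B : RS τ Y) (q : X → Y),
  Function.Surjective q →
  (∀ L : Set (UP X × UP X), L.Countable → Tp A.up A.up L → Atomic B.up B.up (imPair (upMap q) L)) →
  ∀ L : Set (UP X × UP X), Tp A.up A.up L → Tp B.up B.up (imPair (upMap q) L)

/-- Countable partial elementary maps of fields extend to countable isomorphisms of subfields. -/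
def FieldCloseStmt : Prop := ∀ (M : Type u) [Field M] (m : ℕ) (P : Fin m → Set M)
  (L : Set (UP M × UP M)), L.Countable → Tp (fieldRS P).up (fieldRS P).up L →
  ∃ L', L ⊆ L' ∧ L'.Countable ∧ IsFieldGraph L' ∧ Tp (fieldRS P).up (fieldRS P).up L'

/-- Types in `(M, O, ...)` induce types in the residue field. -/
def ResTpStmt : Prop := ∀ (M : Type u) [Field M] (m : ℕ) (P : Fin m → Set M)
  (O : ValuationSubring M) (i : Fin m), P i = (O : Set M) →
  ∀ L : Set (UP M × UP M), Tp (fieldRS P).up (fieldRS P).up L →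
  Tp (pureRS (IsLocalRing.ResidueField O)).up (pureRS (IsLocalRing.ResidueField O)).up
    (imPair (upMap (resk O)) L)

/-- Types in `(M, O, ...)` induce types in the value group (here `O'` is one predicate on the value
group, given by another valuation ring of the structure, e.g. `O' = O`). -/
def VgTpStmt : Prop := ∀ (M : Type u) [Field M] (m : ℕ) (P : Fin m → Set M)
  (O : ValuationSubring M) (i : Fin m), P i = (O : Set M) →
  ∀ L : Set (UP M × UP M), Tp (fieldRS P).up (fieldRS P).up L →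
  Tp (vgRS O ![O]).up (vgRS O ![O]).up
    (imPair (upMap (vg O)) {p | p ∈ L ∧ p.1 ≠ 0 ∧ p.2 ≠ 0})

/-! ## Good sets as notion of type -/

/-- Contained in a good subgroup. -/
def GoodP {E C : Type u} [CommGroup E] [CommGroup C] (π : E →* C)
    (PA : Set (UP E × UP E) → Prop) (PC : Set (UP C × UP C) → Prop)
    (X : Set (UP E × UP E)) : Prop :=
  ∃ L : Subgroup (UP E × UP E), Good π PA PC L ∧ X ⊆ (L : Set _)

def GoodTypeStmt : Prop := ∀ (E C : Type u) [CommGroup E] [CommGroup C] (π : E →* C),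
  Function.Surjective π → (∀ (c : C) (n : ℕ), 0 < n → c ^ n = 1 → c = 1) →
  ∀ (PA : Set (UP E × UP E) → Prop) (PC : Set (UP C × UP C) → Prop),
  IsTypeProp {e | upHom π e = 1} PA → IsTypeProp Set.univ PC →
  IsTypeProp Set.univ (GoodP π PA PC)

/-- The predicate `O` on the value group of `O₁` is preserved by good sets for
`ker → VGg O₁ → VGg O₂`, for `O₁ ≤ O ≤ O₂`. -/
def OrdGoodStmt : Prop := ∀ (M : Type u) [Field M] (O₁ O O₂ : ValuationSubring M) (h₁ : O₁ ≤ O)
  (h₂ : O ≤ O₂) (PA : Set (UP (VGg O₁) × UP (VGg O₁)) → Prop)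
  (PC : Set (UP (VGg O₂) × UP (VGg O₂)) → Prop),
  (∀ L, PA L → ∀ p ∈ L, (p.1 ∈ upSet (vset O₁ O) ↔ p.2 ∈ upSet (vset O₁ O))) →
  PreservesOrd O₂ PC → ∀ L, Good (vmap (h₁.trans h₂)) PA PC L →
  ∀ p ∈ L, (p.1 ∈ upSet (vset O₁ O) ↔ p.2 ∈ upSet (vset O₁ O))

/-- AKE and Karp: the system `Sys` consists of partial elementary maps of `(M, O')`, `O ≤ O'`. -/
def SysTpStmt : Prop := ∀ (M : Type u) [Field M] (O O' : ValuationSubring M), O ≤ O' →
  Hens O → Res0 O →
  ∀ (PA : Set (UP (RVg O) × UP (RVg O)) → Prop) (PC : Set (UP (VGg O) × UP (VGg O)) → Prop),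
  IsTypeProp {e | upHom (piV O) e = 1} PA → IsTypeProp Set.univ PC →
  PreservesLin O PA → PreservesOrd O PC →
  (∀ L, PC L → ∀ p ∈ L, (p.1 ∈ upSet (vset O O') ↔ p.2 ∈ upSet (vset O O'))) →
  ∀ G, Sys O PA PC G → Tp (fieldRS ![(O' : Set M)]).up (fieldRS ![(O' : Set M)]).up G

/-! ## Algebra for Case 0 -/

/-- Extension of homomorphisms over a divisible kernel. -/
def DivExtStmt : Prop := ∀ (U V C : Type u) [CommGroup U] [CommGroup V] [CommGroup C]
  (π : V →* C), (∀ (v : V) (n : ℕ), 0 < n → π v = 1 → ∃ w, π w = 1 ∧ w ^ n = v) →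
  ∀ (R : Subgroup U) (φ : R →* V) (G : U →* C), (∀ u, ∃ v, π v = G u) →
  (∀ r : R, π (φ r) = G r) → ∃ ψ : U →* V, (∀ r : R, ψ r = φ r) ∧ ∀ u, π (ψ u) = G u

/-- The divisible hull of a countable partial elementary map of torsion free groups with predicates
is a partial elementary map. -/
def HullStmt : Prop := ∀ (G : Type u) [CommGroup G] (m : ℕ) (P : Fin m → Set G),
  (∀ (c : G) (n : ℕ), 0 < n → c ^ n = 1 → c = 1) →
  ∀ L : Set (UP G × UP G), L.Countable → Tp (grpRS P).up (grpRS P).up L →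
  ∀ L' : Set (UP G × UP G), L'.Countable →
    (∀ p ∈ L', ∃ n : ℕ, 0 < n ∧ (p.1 ^ n, p.2 ^ n) ∈ L) → Tp (grpRS P).up (grpRS P).up L'

/-! ## Countable closure -/

/-- Countable subfields closed under countably many functions. -/
def CountCloseStmt : Prop := ∀ (M : Type u) [Field M] (F : Subfield M) (S : Set M), S.Countable →
  S ⊆ F → ∀ c : ℕ → M → M, (∀ n, ∀ z ∈ F, c n z ∈ F) →
  ∃ F₀ : Subfield M, (F₀ : Set M).Countable ∧ S ⊆ F₀ ∧ F₀ ≤ F ∧ ∀ n, ∀ z ∈ F₀, c n z ∈ F₀

/-! ## Case 1 -/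

/-- `⋃ c^-n B` with `B = 1 / f - 1 / f`. -/
def Ball {M : Type u} [Field M] (f : M[X]) (c : M) : Set M :=
  {z | ∃ (n : ℕ) (u v : M), z * c ^ n = (f.eval u)⁻¹ - (f.eval v)⁻¹}

/-- `Ball f c` is the valuation ring `O[1/c]`. -/
def BallRingStmt : Prop := ∀ (M : Type u) [Field M] (O : ValuationSubring M) (f : M[X]),
  (∀ x, (f.eval x)⁻¹ ∈ O) →
  (∀ μ, O.valuation μ < 1 → ∃ x y, μ = (f.eval x)⁻¹ - (f.eval y)⁻¹) →
  ∀ c : M, c ≠ 0 → O.valuation c < 1 →
  ∃ O₂ : ValuationSubring M, (O₂ : Set M) = Ball f c ∧ O ≤ O₂ ∧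
    ∀ z, z ∈ O₂ ↔ ∃ n : ℕ, z * c ^ n ∈ O

/-- Partial elementary maps of the pure field preserve `Ball`. -/
def BallTpStmt : Prop := ∀ (K : Type u) [Field K] (f : (UP K)[X]) (T : Set (UP K × UP K)),
  T.Countable → Tp (pureRS K).up (pureRS K).up T → (∀ i, (f.coeff i, f.coeff i) ∈ T) →
  ∀ c c', (c, c') ∈ T → ∀ p ∈ T, (p.1 ∈ Ball f c ↔ p.2 ∈ Ball f c')

/-- Being a henselian valuation ring is transferred. -/
def BallTransferStmt : Prop := ∀ (K : Type u) [Field K] (f : (UP K)[X]) (T : Set (UP K × UP K)),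
  T.Countable → Tp (pureRS K).up (pureRS K).up T → (∀ i, (f.coeff i, f.coeff i) ∈ T) →
  ∀ c c', (c, c') ∈ T → ∀ O₂ : ValuationSubring (UP K), (O₂ : Set (UP K)) = Ball f c' → Hens O₂ →
  ∃ O₁ : ValuationSubring (UP K), (O₁ : Set (UP K)) = Ball f c ∧ Hens O₁

/-- The core of Case 1: the claim (3) of the text. -/
def Case1CoreStmt : Prop := ∀ (K : Type u) [Field K] (O : ValuationSubring K), Hens O → Res0 O →
  ∀ (f : K[X]), (∀ x, f.eval x ≠ 0) → (∀ x, (f.eval x)⁻¹ ∈ O) →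
  (∀ μ, O.valuation μ < 1 → ∃ x y, μ = (f.eval x)⁻¹ - (f.eval y)⁻¹) →
  ∀ F : Subfield K, (∀ i, f.coeff i ∈ F) →
  (∀ z ∈ F, z ≠ 0 → ∀ n : ℕ, 0 < n → ∀ w : K, O.valuation z = O.valuation (w ^ n) →
    ∃ s ∈ F, O.valuation z = O.valuation (s ^ n)) →
  ∀ c c' : K, O.valuation c = 1 → c' ≠ 0 → O.valuation c' < 1 →
  (∀ (m r : ℕ) (z : Fin r → K), (∀ i, z i ∈ F) →
    EF (pureRS K) (pureRS K) m (r + 1) (Fin.cons c z) (Fin.cons c' z)) →
  ∀ (l : ℕ) (p : Fin l → K), (∃ i, p i = c) → (∃ i, p i = c') → (∀ j, ∃ i, p i = f.coeff j) →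
  ∀ r t : ℕ, ∃ m : ℕ, ∀ x y : Fin r → K, (∀ i, x i ∈ F) → (∀ i, y i ∈ F) →
    EF (pureRS K) (pureRS K) m (r + l) (Fin.append x p) (Fin.append y p) →
    EF (fieldRS ![(O : Set K)]) (fieldRS ![(O : Set K)]) t r x y

/-- Field types with `O` definable with parameters. -/
def EFDefinableStmt : Prop := ∀ (K : Type u) [Field K] (O : Set K) (m l : ℕ) (p : Fin l → K),
  (∀ a b : K, EF (pureRS K) (pureRS K) m (l + 1) (Fin.cons a p) (Fin.cons b p) → (a ∈ O ↔ b ∈ O)) →
  ∀ (t r : ℕ) (z w : Fin r → K),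
    EF (pureRS K) (pureRS K) (t + m) (r + l) (Fin.append z p) (Fin.append w p) →
    EF (fieldRS ![O]) (fieldRS ![O]) t r z w

/-! ## Case 0 -/

/-- Partial elementary maps of the pure field preserve the rings `Oq`. -/
def OqTpStmt : Prop := ∀ (K : Type u) [Field K] (q : ℕ) (T : Set (UP K × UP K)),
  T.Countable → Tp (pureRS K).up (pureRS K).up T → ∀ p ∈ T, (p.1 ∈ Oq (UP K) q ↔ p.2 ∈ Oq (UP K) q)

/-- Patterns can be made smaller. -/
def PatternMonoStmt : Prop := ∀ (X : Type u) (n a b N N' : ℕ) (S : Set X)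
  (D : Set (Fin (a + n * b) → X)), N ≤ N' → HasPattern n a b N' S D → HasPattern n a b N S D

/-! ## Language -/

/-- Theorem A: from the definition of NIP_n for the field to the semantic form. -/
def LangAStmt : Prop := ∀ (K : Type u) [Field K] (n : ℕ), 0 < n → FieldNIP n K → SNIP (pureRS K) n

/-- Theorem B: from the semantic form to the definition of NIP_n for the valued field. -/
def LangBStmt : Prop := ∀ (K : Type u) [Field K] (O : ValuationSubring K) (n : ℕ), 0 < n →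
  SNIP (fieldRS ![(O : Set K)]) n → ValuedNIP n K O

end Pool.Agent.NF44
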