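import Pool.Agent.NF44.Ultra
import Pool.Agent.NF44.Stmts2

/-!
# Finiteness of the number of EF classes, the diagonal embedding, parameters, ultrapowers
-/

namespace Pool.Agent.NF44

universe u v w

/-- Finitely many EF classes. -/
theorem efFinite : EFFiniteStmt.{u} := by
  intro σ X A n
  induction n with
  | zero =>
    intro r
    have := σ.fin
    have hfin : Finite (∀ j : σ.J, (Fin (σ.ar j) → Fin r) → Prop) := inferInstance
    let e := Finite.equivFin (∀ j : σ.J, (Fin (σ.ar j) → Fin r) → Prop)
    refine ⟨_, fun a => e (fun j t => A.R j (a ∘ t)), fun a b h => ?_⟩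
    have h1 := e.injective h
    intro j t
    have h2 := congrFun (congrFun h1 j) t
    exact iff_of_eq h2
  | succ n ih =>
    intro r
    obtain ⟨N, cl, hcl⟩ := ih (r + 1)
    let e := Finite.equivFin (Set (Fin N))
    refine ⟨_, fun a => e {q | ∃ c, cl (Fin.cons c a) = q}, fun a b h => ?_⟩
    have h1 : {q | ∃ c, cl (Fin.cons c a) = q} = {q | ∃ c, cl (Fin.cons c b) = q} :=
      e.injective h
    constructor
    · intro c
      have h2 : cl (Fin.cons c a) ∈ {q | ∃ c, cl (Fin.cons c b) = q} := by
        rw [← h1]; exact ⟨c, rfl⟩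
      obtain ⟨d, hd⟩ := h2
      exact ⟨d, hcl _ _ hd.symm⟩
    · intro d
      have h2 : cl (Fin.cons d b) ∈ {q | ∃ c, cl (Fin.cons c a) = q} := by
        rw [h1]; exact ⟨d, rfl⟩
      obtain ⟨c, hc⟩ := h2
      exact ⟨c, hcl _ _ hc⟩

/-- A sequence of tuples is equivalent to one of its members, for almost all members. -/
theorem ef_const_up {σ : Sig} {X : Type u} (A : RS σ X) (n r : ℕ) (f : Fin r → ℕ → X) :
    evt fun k => EF A.up A.up n r (fun i => ((fun _ => f i k : ℕ → X) : UP X))
      (fun i => (f i : UP X)) := by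
  obtain ⟨N, cl, hcl⟩ := efFinite σ X A n r
  -- the popular class
  obtain ⟨q, hq⟩ : ∃ q : Fin N, evt fun k => cl (fun i => f i k) = q := by
    by_contra hcon
    have h1 : evt fun k => ∀ q : Fin N, ¬ cl (fun i => f i k) = q :=
      (Filter.eventually_all (ι := Fin N)).2 fun q => evt_not.2 fun h => hcon ⟨q, h⟩
    obtain ⟨k, hk⟩ := h1.exists
    exact hk _ rfl
  refine hq.mono fun k hk => ?_
  rw [los σ X X A A n r]
  refine hq.mono fun k' hk' => ?_
  exact hcl _ _ (hk.trans hk'.symm)

/-- The diagonal embedding is elementary. -/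
theorem diag : DiagStmt.{u} := by
  intro σ X A n
  induction n with
  | zero =>
    intro r a j t
    have h := up_R A j (fun i => (fun _ => a (t i) : ℕ → X))
    have h2 : (evt fun _ => A.R j (fun i => a (t i))) ↔ A.R j (a ∘ t) :=
      ⟨fun h => h.exists.elim fun _ h => h, fun h => Filter.Eventually.of_forall fun _ => h⟩
    exact (h.trans h2).symm
  | succ n ih =>
    intro r a
    have hcons : ∀ c : X, (fun i => ((fun _ => (Fin.cons c a : Fin (r + 1) → X) i : ℕ → X) : UP X)) =
        Fin.cons ((fun _ => c : ℕ → X) : UP X) (fun i => ((fun _ => a i : ℕ → X) : UP X)) := by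
      intro c
      funext i
      refine Fin.cases ?_ (fun i => ?_) i <;> simp
    constructor
    · intro c
      refine ⟨((fun _ => c : ℕ → X) : UP X), ?_⟩
      have := ih (r + 1) (Fin.cons c a)
      rwa [hcons] at this
    · intro d
      have h1 := ef_const_up A n (r + 1) (Fin.cons (rep d) (fun i _ => a i))
      obtain ⟨k, hk⟩ := h1.exists
      refine ⟨rep d k, ?_⟩
      have h2 := ih (r + 1) (Fin.cons (rep d k) a)
      refine h2.trans ?_
      have e1 : (fun i => ((fun _ => (Fin.cons (rep d) (fun i _ => a i) : Fin (r + 1) → ℕ → X) i k :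
          ℕ → X) : UP X)) =
          fun i => ((fun _ => (Fin.cons (rep d k) a : Fin (r + 1) → X) i : ℕ → X) : UP X) := by
        funext i
        refine Fin.cases ?_ (fun i => ?_) i <;> simp
      have e2 : (fun i => (((Fin.cons (rep d) (fun i _ => a i) : Fin (r + 1) → ℕ → X) i : ℕ → X) :
          UP X)) = Fin.cons d (fun i => ((fun _ => a i : ℕ → X) : UP X)) := by
        rw [cons_up, rep_spec]
      rw [e1, e2] at hk
      exact hk

/-- Reordering: parameters at the end of a longer `x`-tuple. -/
theorem tup_append_comp {X : Type u} {a b l n : ℕ} (x : Fin a → X) (p : Fin l → X)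
    (y : Fin n → Fin b → X) :
    (tup (Fin.append x p) y : Fin (a + l + n * b) → X) ∘
      (Fin.append (Fin.append (Fin.castAdd (n * b) ∘ Fin.castAdd l) (Fin.natAdd (a + l)))
        (Fin.castAdd (n * b) ∘ Fin.natAdd a) : Fin (a + n * b + l) → Fin (a + l + n * b)) =
      Fin.append (tup x y) p := by
  funext i
  refine Fin.addCases (fun i => ?_) (fun i => ?_) i
  · rw [Function.comp_apply, Fin.append_left, Fin.append_left]
    refine Fin.addCases (fun i => ?_) (fun i => ?_) i
    · rw [Fin.append_left]
      simp [tup]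
    · rw [Fin.append_right]
      simp [tup]
  · rw [Function.comp_apply, Fin.append_right, Fin.append_right]
    simp [tup]

/-- Parameters, and relations which are only invariant on a subset `S`. -/
theorem snipParam : SNIPParamStmt.{u} := by
  intro σ X A n hA a b t l p S D hD
  let ρ : Fin (a + n * b + l) → Fin (a + l + n * b) :=
    Fin.append (Fin.append (Fin.castAdd (n * b) ∘ Fin.castAdd l) (Fin.natAdd (a + l)))
        (Fin.castAdd (n * b) ∘ Fin.natAdd a)
  let D' : Set (Fin (a + l + n * b) → X) :=
    {z | ∃ w, w ∈ D ∧ (∀ i, w i ∈ S) ∧ EF A A t (a + n * b + l) (Fin.append w p) (z ∘ ρ)}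
  obtain ⟨N, hN⟩ := hA (a + l) b t D' (by
    intro z w hzw
    constructor
    · rintro ⟨q, hq, hqS, hqz⟩
      exact ⟨q, hq, hqS, hqz.trans (hzw.reindex ρ)⟩
    · rintro ⟨q, hq, hqS, hqz⟩
      exact ⟨q, hq, hqS, hqz.trans (hzw.symm.reindex ρ)⟩)
  refine ⟨N, fun ⟨y, x, hy, hx, hyx⟩ => hN ⟨y, fun s => Fin.append (x s) p, fun _ _ _ => trivial,
    fun _ _ => trivial, fun s i => ?_⟩⟩
  have htupS : ∀ j, tup (x s) (fun k => y k (i k)) j ∈ S := by
    intro j
    refine Fin.addCases (fun j => ?_) (fun j => ?_) j
    · simp only [tup, Fin.append_left]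
      exact hx _ _
    · simp only [tup, Fin.append_right]
      exact hy _ _ _
  rw [← hyx s i]
  constructor
  · rintro ⟨w, hw, hwS, hEF⟩
    rw [show (tup (Fin.append (x s) p) (fun k => y k (i k))) ∘ ρ =
      Fin.append (tup (x s) (fun k => y k (i k))) p from tup_append_comp _ _ _] at hEF
    exact (hD _ _ hwS htupS hEF).1 hw
  · intro h
    refine ⟨_, h, htupS, ?_⟩
    rw [show (tup (Fin.append (x s) p) (fun k => y k (i k))) ∘ ρ =
      Fin.append (tup (x s) (fun k => y k (i k))) p from tup_append_comp _ _ _]
    exact EF.refl _ _ _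

/-- Semantic NIP_n passes to ultrapowers. -/
theorem snipUp : SNIPUpStmt.{u} := by
  intro σ X A n hA a b t D hD
  let D0 : Set (Fin (a + n * b) → X) :=
    {z | (fun i => ((fun _ => z i : ℕ → X) : UP X)) ∈ D}
  obtain ⟨N, hN⟩ := hA a b t D0 (by
    intro z w hzw
    refine hD _ _ ?_
    rw [los σ X X A A t (a + n * b)]
    exact Filter.Eventually.of_forall fun _ => hzw)
  refine ⟨N, fun ⟨y, x, _, _, hyx⟩ => ?_⟩
  -- for almost all indices the components form a pattern
  have key : ∀ (s : Set (Fin n → Fin N)) (i : Fin n → Fin N), evt fun k =>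
      ((tup (fun j => rep (x s j) k) (fun m j => rep (y m (i m) j) k) ∈ D0) ↔ i ∈ s) := by
    intro s i
    have h1 := ef_const_up A t (a + n * b)
      (fun j => rep (tup (x s) (fun m => y m (i m)) j))
    refine h1.mono fun k hk => ?_
    have e1 : (fun j => ((rep (tup (x s) (fun m => y m (i m)) j) : ℕ → X) : UP X)) =
        tup (x s) (fun m => y m (i m)) := by
      funext j; exact rep_spec _
    rw [e1] at hk
    have h2 := hD _ _ hk
    rw [hyx s i] at h2
    rw [← h2]
    have e2 : (tup (fun j => rep (x s j) k) (fun m j => rep (y m (i m) j) k)) =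
        fun j => rep (tup (x s) (fun m => y m (i m)) j) k := by
      funext j
      refine Fin.addCases (fun j => ?_) (fun j => ?_) j
      · simp only [tup, Fin.append_left]
      · simp only [tup, Fin.append_right]
    rw [e2]
    rfl
  have hall : evt fun k => ∀ (s : Set (Fin n → Fin N)) (i : Fin n → Fin N),
      ((tup (fun j => rep (x s j) k) (fun m j => rep (y m (i m) j) k) ∈ D0) ↔ i ∈ s) := by
    refine Filter.eventually_all.2 fun s => ?_
    exact Filter.eventually_all.2 fun i => key s i
  obtain ⟨k, hk⟩ := hall.exists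
  exact hN ⟨fun m i j => rep (y m i j) k, fun s j => rep (x s j) k, fun _ _ _ => trivial,
    fun _ _ => trivial, hk⟩

/-- Patterns can be made smaller. -/
theorem patternMono : PatternMonoStmt.{u} := by
  rintro X n a b N N' S D hNN ⟨y, x, hy, hx, hyx⟩
  let e : Fin N → Fin N' := Fin.castLE hNN
  have he : Function.Injective e := Fin.castLE_injective hNN
  have he' : Function.Injective (fun (i : Fin n → Fin N) (k : Fin n) => e (i k)) :=
    fun i i' h => funext fun k => he (congrFun h k)
  refine ⟨fun k i => y k (e i), fun s => x ((fun (i : Fin n → Fin N) (k : Fin n) => e (i k)) '' s),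
    fun _ _ _ => hy _ _ _, fun _ _ => hx _ _, fun s i => ?_⟩
  rw [hyx _ (fun k => e (i k))]
  exact he'.mem_set_image

/-- Field types with `O` definable with parameters. -/
theorem efDefinable : EFDefinableStmt.{u} := by
  intro K _ O m l p hO t
  induction t with
  | zero =>
    intro r z w h
    rw [zero_add] at h
    have h0 : EF (pureRS K) (pureRS K) 0 r z w := by
      have h1 := (h.mono (Nat.zero_le m)).reindex (Fin.castAdd l : Fin r → Fin (r + l))
      have e1 : Fin.append z p ∘ Fin.castAdd l = z := by
        funext i; simp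
      have e2 : Fin.append w p ∘ Fin.castAdd l = w := by
        funext i; simp
      rwa [e1, e2] at h1
    intro j q
    cases j with
    | add => exact h0 FJ.add q
    | mul => exact h0 FJ.mul q
    | eq => exact h0 FJ.eq q
    | pr i =>
      let q1 : Fin 1 → Fin r := q
      let q0 : Fin r := q1 0
      have h1 := h.reindex (Fin.cons (Fin.castAdd l q0) (Fin.natAdd r) :
        Fin (l + 1) → Fin (r + l))
      have e : ∀ z : Fin r → K, Fin.append z p ∘ (Fin.cons (Fin.castAdd l q0) (Fin.natAdd r) :
          Fin (l + 1) → Fin (r + l)) = Fin.cons (z q0) p := by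
        intro z
        funext i
        refine Fin.cases ?_ (fun i => ?_) i <;> simp
      rw [e, e] at h1
      have h2 := hO _ _ h1
      have h3 : i = 0 := Subsingleton.elim _ _
      subst h3
      exact h2
  | succ t ih =>
    intro r z w h
    rw [Nat.add_right_comm] at h
    let ρ : Fin (r + 1 + l) → Fin (r + l + 1) :=
      Fin.append (Fin.cons 0 (Fin.succ ∘ Fin.castAdd l)) (Fin.succ ∘ Fin.natAdd r)
    have hρ : ∀ (c : K) (z : Fin r → K),
        (Fin.cons c (Fin.append z p) : Fin (r + l + 1) → K) ∘ ρ =
          Fin.append (Fin.cons c z : Fin (r + 1) → K) p := by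
      intro c z
      funext i
      refine Fin.addCases (fun i => ?_) (fun i => ?_) i
      · simp only [ρ, Function.comp_apply, Fin.append_left]
        refine Fin.cases ?_ (fun i => ?_) i
        · simp
        · simp
      · simp only [ρ, Function.comp_apply, Fin.append_right, Fin.cons_succ]
    constructor
    · intro c
      obtain ⟨d, hd⟩ := h.1 c
      refine ⟨d, ih (r + 1) _ _ ?_⟩
      have h1 := hd.reindex ρ
      rwa [hρ, hρ] at h1
    · intro d
      obtain ⟨c, hc⟩ := h.2 d
      refine ⟨c, ih (r + 1) _ _ ?_⟩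
      have h1 := hc.reindex ρ
      rwa [hρ, hρ] at h1

end Pool.Agent.NF44
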