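import Pool.Agent.NF44.Assemble
import Pool.Agent.NF44.HensStmts
import Pool.Agent.NF44.FieldStep
import Pool.Agent.NF44.Ultra
import Pool.Agent.NF44.UltraFin
import Pool.Agent.NF44.Exact
import Pool.Agent.NF44.AKE
import Pool.Agent.NF44.SysTp
import Pool.Agent.NF44.Types
import Pool.Agent.NF44.Interp
import Pool.Agent.NF44.DivExt
import Pool.Agent.NF44.OrdGood
import Pool.Agent.NF44.CountClose
import Pool.Agent.NF44.MainLemma
import Pool.Agent.NF44.BSand
import Pool.Agent.NF44.Ball
import Pool.Agent.NF44.Case1
import Pool.Agent.NF44.Oinf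
import Pool.Agent.NF44.PAac
import Pool.Agent.NF44.PAdiv
import Pool.Agent.NF44.Case0Lemma
import Pool.Agent.NF44.Decomp
import Pool.Agent.NF44.Case0
import Pool.Agent.NF44.LangA
import Pool.Agent.NF44.LangB

/-!
# All modules of MP_fb46bb_lc except Case1Core put together
-/

namespace Pool.Agent.NF44

universe u

theorem glue_close : FieldCloseStmt.{u} := fieldClose tpForth

theorem glue_interp : InterpStmt.{u} := interp tpForth

theorem glue_exact : ExactStmt.{u} := exact sat

theorem glue_goodType : GoodTypeStmt.{u} := goodType glue_exact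

theorem glue_ake : AKEStmt.{u} := ake sat (fieldStep hensLift) glue_exact

theorem glue_sysTp : SysTpStmt.{u} := sysTp glue_ake sysSwap

theorem glue_main : MainLemmaStmt.{u} :=
  mainLemma los tpForth glue_close (vgTp glue_interp glue_close) (resTp glue_interp glue_close)
    (pRes tpForth) (grpType tpForth) (pAk tpForth) glue_goodType glue_sysTp

theorem glue_case0Lemma : Case0LemmaStmt.{u} :=
  case0Lemma los tpForth glue_close glue_goodType ordGood glue_sysTp (pAac sat) (pAdiv sat)
    (grpType tpForth) (vgTp glue_interp glue_close) (hull tpForth) hensLift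

theorem glue_case0 : Case0Stmt.{u} :=
  case0 (decomp los tpForth glue_close (oinf hensLift) glue_case0Lemma)

theorem glue_case1 (hCore : Case1CoreStmt.{u}) : Case1Stmt.{u} :=
  case1 los glue_close countClose (bSand hensLift) efDefinable snipParam snipUp hCore

theorem glue_all (hCore : Case1CoreStmt.{u}) (n : ℕ) (hn : 1 ≤ n) (K : Type u) [Field K]
    (O : ValuationSubring K) [HenselianLocalRing O] [CharZero (IsLocalRing.ResidueField O)]
    (h : FieldNIP n K) : ValuedNIP n K O :=
  assemble (langA efFinite) langB glue_case0 (glue_case1 hCore) hensOf n hn K O h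

end Pool.Agent.NF44
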