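import Pool.Agent.NF44.Stmts

/-!
Comparison patterns of linear forms over a valued field: polynomially many.
-/

namespace Pool.Agent.NF44.H40

open Set

universe u v

variable {G : Type v} [LinearOrder G]

/-- comparison pattern of a family of values -/
def pat {ι : Type*} (w : ι → G) : Set (ι × ι) := {p | w p.1 ≤ w p.2}

/-- lower cut decoded from the pattern -/
def lowCut {ι : Type*} (P : Set (ι × ι)) : Option ι → Set ι
  | none => ∅
  | some q => {r | (r, q) ∈ P}

/-- upper cut decoded from the pattern -/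
def upCut {ι : Type*} (P : Set (ι × ι)) : Option ι → Set ι
  | none => ∅
  | some q => {r | (q, r) ∈ P}

theorem exists_lowCut {ι : Type*} [Finite ι] (w : ι → G) (τ : G) :
    ∃ o, {q | w q ≤ τ} = lowCut (pat w) o := by
  classical
  by_cases h : ∃ q, w q ≤ τ
  · obtain ⟨q0, hq0⟩ := h
    obtain ⟨q, hq, hmax⟩ := Set.Finite.exists_maximalFor w {q | w q ≤ τ} (Set.toFinite _) ⟨q0, hq0⟩
    refine ⟨some q, ?_⟩
    ext r
    simp only [lowCut, pat, mem_ofPred_eq]
    constructor
    · intro hr
      rcases le_total (w r) (w q) with h1 | h1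
      · exact h1
      · exact hmax hr h1
    · intro hr
      exact hr.trans hq
  · refine ⟨none, ?_⟩
    ext r
    simp only [lowCut, mem_ofPred_eq, mem_empty_iff_false, iff_false]
    exact fun hr => h ⟨r, hr⟩

theorem exists_upCut {ι : Type*} [Finite ι] (w : ι → G) (τ : G) :
    ∃ o, {q | τ ≤ w q} = upCut (pat w) o := by
  classical
  by_cases h : ∃ q, τ ≤ w q
  · obtain ⟨q0, hq0⟩ := h
    obtain ⟨q, hq, hmin⟩ := Set.Finite.exists_minimalFor w {q | τ ≤ w q} (Set.toFinite _) ⟨q0, hq0⟩
    refine ⟨some q, ?_⟩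
    ext r
    simp only [upCut, pat, mem_ofPred_eq]
    constructor
    · intro hr
      rcases le_total (w q) (w r) with h1 | h1
      · exact h1
      · exact hmin hr h1
    · intro hr
      exact le_trans hq hr
  · refine ⟨none, ?_⟩
    ext r
    simp only [upCut, mem_ofPred_eq, mem_empty_iff_false, iff_false]
    exact fun hr => h ⟨r, hr⟩

section step

variable {K : Type u} [Field K] {Γ : Type v} [LinearOrderedCommGroupWithZero Γ] (v : Valuation K Γ)

/-- the set of comparison patterns of a family of linear forms -/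
def patterns {ι : Type} {M : ℕ} (l : ι → Fin M → K) : Set (Set (ι × ι)) :=
  Set.range fun X : Fin M → K => pat fun i => v (∑ j, l i j * X j)

open Classical in
/-- the decoded pattern -/
noncomputable def decode {ι : Type} (c : ι → K) (z : Bool) (P : Set ((ι × Option ι) × (ι × Option ι)))
    (Lo Up : Set (ι × Option ι)) : Set (ι × ι) :=
  {p | ((z = true ∨ v (c p.1) ≤ v (c p.2)) ∨ (c p.1 = 0 ∨ (p.2, some p.1) ∈ Up)) ∧
    ((if c p.2 = 0 then ((p.1, none), (p.1, some p.2)) ∈ P else (p.1, some p.2) ∈ Lo) ∨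
      ((p.1, none), (p.2, none)) ∈ P)}

/-- denominators -/
def den {ι : Type} (c : ι → K) : Option ι → K
  | none => 1
  | some i => c i

open Classical in
theorem decode_eq {ι : Type} (c : ι → K) (b : ι → K) (t : K) :
    (pat fun i => max (v (c i * t)) (v (b i))) =
      decode v c (decide (t = 0)) (pat fun q : ι × Option ι => v (b q.1 / den c q.2))
        {q | v (b q.1 / den c q.2) ≤ v t} {q | v t ≤ v (b q.1 / den c q.2)} := by
  ext ⟨i, i'⟩
  have h0 : (i, i') ∈ (pat fun i => max (v (c i * t)) (v (b i))) ↔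
      ((v (c i * t) ≤ v (c i' * t) ∨ v (c i * t) ≤ v (b i')) ∧
      (v (b i) ≤ v (c i' * t) ∨ v (b i) ≤ v (b i'))) := by
    show max _ _ ≤ max _ _ ↔ _
    rw [max_le_iff, le_max_iff, le_max_iff]
  rw [h0]
  simp only [pat, decode, mem_ofPred_eq, decide_eq_true_eq, den, div_one]
  have h1 : v (c i * t) ≤ v (c i' * t) ↔ (t = 0 ∨ v (c i) ≤ v (c i')) := by
    by_cases ht : t = 0
    · simp [ht]
    · simp only [map_mul, ht, false_or]
      exact mul_le_mul_iff_left₀ (by simpa [zero_lt_iff] using ht)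
  have h2 : v (c i * t) ≤ v (b i') ↔ (c i = 0 ∨ v t ≤ v (b i' / c i)) := by
    by_cases hc : c i = 0
    · simp [hc]
    · simp only [map_mul, hc, false_or, map_div₀]
      rw [le_div_iff₀ (by simpa [zero_lt_iff] using hc), mul_comm]
  have h3 : v (b i) ≤ v (c i' * t) ↔
      (if c i' = 0 then v (b i) ≤ v (b i / c i') else v (b i / c i') ≤ v t) := by
    by_cases hc : c i' = 0
    · simp [hc]
    · simp only [map_mul, hc, if_false, map_div₀]
      rw [div_le_iff₀ (by simpa [zero_lt_iff] using hc), mul_comm]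
  rw [h1, h2, h3]

theorem val_split {a b : K} {m : Γ} (h : v b ≤ v (a + b)) (hm : v b = m) :
    v (a + b) = max m (v a) := by
  subst hm
  apply le_antisymm
  · have := v.map_add a b
    rwa [max_comm] at this
  · refine max_le h ?_
    have : a = (a + b) - b := by ring
    rw [this]
    exact (v.map_sub _ _).trans (by simp [h])

/-- the linear form `lambda_o` -/
def lam {ι : Type} {M : ℕ} (l : ι → Fin (M + 1) → K) : Option ι → Fin M → K
  | none => 0
  | some j => fun k => - l j k.succ / l j 0

/-- the linear form `b_i` -/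
def bfm {ι : Type} {M : ℕ} (l : ι → Fin (M + 1) → K) (o : Option ι) (i : ι) : Fin M → K :=
  fun k => l i 0 * lam l o k + l i k.succ

/-- the new family -/
def newFam {ι : Type} {M : ℕ} (l : ι → Fin (M + 1) → K) (o : Option ι) :
    ι × Option ι → Fin M → K :=
  fun q k => bfm l o q.1 k / den (fun i => l i 0) q.2

theorem sum_newFam {ι : Type} {M : ℕ} (l : ι → Fin (M + 1) → K) (o : Option ι)
    (q : ι × Option ι) (X : Fin M → K) :
    ∑ k, newFam l o q k * X k = (∑ k, bfm l o q.1 k * X k) / den (fun i => l i 0) q.2 := by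
  rw [Finset.sum_div]
  refine Finset.sum_congr rfl fun k _ => ?_
  simp only [newFam]
  ring

theorem sum_bfm {ι : Type} {M : ℕ} (l : ι → Fin (M + 1) → K) (o : Option ι)
    (i : ι) (X : Fin M → K) :
    ∑ k, bfm l o i k * X k = l i 0 * (∑ k, lam l o k * X k) + ∑ k, l i k.succ * X k := by
  rw [Finset.mul_sum, ← Finset.sum_add_distrib]
  refine Finset.sum_congr rfl fun k _ => ?_
  simp only [bfm]
  ring

theorem exists_split {ι : Type} [Finite ι] {M : ℕ} (l : ι → Fin (M + 1) → K)
    (X : Fin (M + 1) → K) :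
    ∃ o t, ∀ i, v (∑ j, l i j * X j) =
      max (v (l i 0 * t)) (v (∑ k, bfm l o i k * X k.succ)) := by
  classical
  by_cases h : ∃ j, l j 0 ≠ 0
  · obtain ⟨j0, hj0⟩ := h
    obtain ⟨j, hj, hmin⟩ := Set.Finite.exists_minimalFor
      (fun j => v (X 0 - ∑ k, lam l (some j) k * X k.succ)) {j | l j 0 ≠ 0} (Set.toFinite _)
      ⟨j0, hj0⟩
    refine ⟨some j, X 0 - ∑ k, lam l (some j) k * X k.succ, fun i => ?_⟩
    rw [sum_bfm, Fin.sum_univ_succ]
    by_cases hi : l i 0 = 0
    · simp [hi]
    · have hle : v (X 0 - ∑ k, lam l (some j) k * X k.succ) ≤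
          v (X 0 - ∑ k, lam l (some i) k * X k.succ) := by
        rcases le_total (v (X 0 - ∑ k, lam l (some j) k * X k.succ))
          (v (X 0 - ∑ k, lam l (some i) k * X k.succ)) with h1 | h1
        · exact h1
        · exact hmin hi h1
      have e1 : l i 0 * X 0 + ∑ k : Fin M, l i k.succ * X k.succ =
          l i 0 * (X 0 - ∑ k, lam l (some i) k * X k.succ) := by
        have : ∑ k, lam l (some i) k * X k.succ = - (∑ k : Fin M, l i k.succ * X k.succ) / l i 0 := by
          rw [neg_div, Finset.sum_div, ← Finset.sum_neg_distrib]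
          refine Finset.sum_congr rfl fun k _ => ?_
          simp only [lam]
          ring
        rw [this]
        field_simp
        ring
      have e2 : l i 0 * X 0 + ∑ k : Fin M, l i k.succ * X k.succ =
          (l i 0 * (∑ k, lam l (some j) k * X k.succ) + ∑ k : Fin M, l i k.succ * X k.succ) +
          l i 0 * (X 0 - ∑ k, lam l (some j) k * X k.succ) := by ring
      rw [e2]
      refine val_split v ?_ rfl
      rw [← e2, e1, map_mul, map_mul]
      exact mul_le_mul_right hle _
  · push Not at h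
    refine ⟨none, X 0, fun i => ?_⟩
    rw [sum_bfm, Fin.sum_univ_succ]
    simp [h i]

theorem patterns_sub {ι : Type} [Finite ι] {M : ℕ} (l : ι → Fin (M + 1) → K) :
    patterns v l ⊆ (fun c : Bool × Set ((ι × Option ι) × (ι × Option ι)) ×
        Option (ι × Option ι) × Option (ι × Option ι) =>
        decode v (fun i => l i 0) c.1 c.2.1 (lowCut c.2.1 c.2.2.1) (upCut c.2.1 c.2.2.2)) ''
      (univ ×ˢ ((⋃ o, patterns v (newFam l o)) ×ˢ (univ ×ˢ univ))) := by
  classical
  rintro _ ⟨X, rfl⟩
  obtain ⟨o, t, h⟩ := exists_split v l X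
  set w : ι × Option ι → Γ := fun q => v ((∑ k, bfm l o q.1 k * X k.succ) /
    den (fun i => l i 0) q.2) with hw
  obtain ⟨o1, h1⟩ := exists_lowCut w (v t)
  obtain ⟨o2, h2⟩ := exists_upCut w (v t)
  refine ⟨(decide (t = 0), pat w, o1, o2), ?_, ?_⟩
  · simp only [mem_prod, mem_univ, true_and, and_true, mem_iUnion]
    refine ⟨o, fun k => X k.succ, ?_⟩
    simp only [sum_newFam, hw]
  · simp only
    rw [← h1, ← h2]
    have := decode_eq v (fun i => l i 0) (fun i => ∑ k, bfm l o i k * X k.succ) t
    rw [← this]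
    simp only [h]

theorem patterns_card (M : ℕ) : ∀ {ι : Type} [Fintype ι] (l : ι → Fin M → K),
    (patterns v l).ncard ≤ 2 ^ M * (Fintype.card ι + 1) ^ (2 ^ M * 10 - 10) := by
  induction M with
  | zero =>
    intro ι _ l
    have : (patterns v l).ncard ≤ 1 := by
      refine (Set.ncard_le_one_iff (Set.toFinite _)).2 ?_
      rintro a b ⟨X, rfl⟩ ⟨Y, rfl⟩
      simp
    simpa using this
  | succ M ih =>
    intro ι _ l
    classical
    set R := Fintype.card ι with hR
    have hfin : (⋃ o, patterns v (newFam l o)).Finite := Set.toFinite _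
    have h1 : (⋃ o, patterns v (newFam l o)).ncard ≤
        (R + 1) * (2 ^ M * ((R + 1) ^ 2) ^ (2 ^ M * 10 - 10)) := by
      refine (Set.ncard_iUnion_le_of_fintype _).trans ?_
      refine (Finset.sum_le_card_nsmul _ _ (2 ^ M * ((R + 1) ^ 2) ^ (2 ^ M * 10 - 10)) ?_).trans ?_
      · intro o _
        refine (ih _).trans ?_
        refine Nat.mul_le_mul_left _ (Nat.pow_le_pow_left ?_ _)
        simp only [Fintype.card_prod, Fintype.card_option, ← hR]
        nlinarith
      · simp [← hR]
    refine (Set.ncard_le_ncard (patterns_sub v l) (Set.toFinite _)).trans ?_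
    refine (Set.ncard_image_le (Set.toFinite _)).trans ?_
    rw [Set.ncard_prod, Set.ncard_prod, Set.ncard_prod, Set.ncard_univ, Set.ncard_univ,
      Nat.card_eq_fintype_card, Nat.card_eq_fintype_card]
    simp only [Fintype.card_bool, Fintype.card_option, Fintype.card_prod, ← hR]
    have h2 : R * (R + 1) + 1 ≤ (R + 1) ^ 2 := by nlinarith
    calc 2 * ((⋃ o, patterns v (newFam l o)).ncard * ((R * (R + 1) + 1) * (R * (R + 1) + 1)))
        ≤ 2 * (((R + 1) * (2 ^ M * ((R + 1) ^ 2) ^ (2 ^ M * 10 - 10))) *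
          ((R + 1) ^ 2 * (R + 1) ^ 2)) := by gcongr
      _ = 2 ^ (M + 1) * ((R + 1) ^ (1 + 2 * (2 ^ M * 10 - 10) + 4)) := by
        rw [← pow_mul, pow_add, pow_add]
        ring
      _ ≤ 2 ^ (M + 1) * ((R + 1) ^ (2 ^ (M + 1) * 10 - 10)) := by
        gcongr
        · omega
        · have : 1 ≤ 2 ^ M := Nat.one_le_two_pow
          rw [pow_succ]
          omega

end step

end Pool.Agent.NF44.H40

namespace Pool.Agent.NF44

universe u

theorem linForms : LinFormsStmt.{u} := by
  intro m
  refine ⟨2 ^ m, 2 ^ m * 10 - 10, ?_⟩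
  intro K _ O N l
  have h := H40.patterns_card O.valuation m l
  rw [Fintype.card_fin] at h
  convert h using 2
  ext S
  constructor
  · rintro ⟨x, rfl⟩
    exact ⟨x, rfl⟩
  · rintro ⟨x, rfl⟩
    exact ⟨x, rfl⟩

end Pool.Agent.NF44
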