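import Pool.Agent.NF44.Defs

/-!
# Module statements for MP_fb46bb_lc (architect: helper44)

Every module proves `theorem xxx : XxxStmt` (or takes the statements of other modules as
hypotheses). See BLUEPRINT.md.
-/

namespace Pool.Agent.NF44

open Polynomial

universe u v w

/-! ## Ultrapowers -/

/-- Los for EF. -/
def LosStmt : Prop := ∀ (σ : Sig) (X : Type u) (Y : Type v) (A : RS σ X) (B : RS σ Y) (n r : ℕ)
  (f : Fin r → ℕ → X) (g : Fin r → ℕ → Y),
  EF A.up B.up n r (fun i => (f i : UP X)) (fun i => (g i : UP Y)) ↔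
    evt fun k => EF A B n r (fun i => f i k) (fun i => g i k)

/-- Countable saturation. -/
def SatStmt : Prop := ∀ (ι : Type v) (J : Type w) [Countable J] (X : Type u)
  (P : J → (ι → UP X) → Prop), (∀ j, Internal (P j)) →
  (∀ s : Finset J, ∃ y, ∀ j ∈ s, P j y) → ∃ y, ∀ j, P j y

/-- Countable extension of partial elementary maps between ultrapowers. -/
def TpForthStmt : Prop := ∀ (σ : Sig) (X : Type u) (Y : Type u) (A : RS σ X) (B : RS σ Y)
  (L : Set (UP X × UP Y)), Tp A.up B.up L → L.Countable → ∀ S : Set (UP X), S.Countable →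
  ∃ L', L ⊆ L' ∧ L'.Countable ∧ Tp A.up B.up L' ∧ ∀ x ∈ S, ∃ y, (x, y) ∈ L'

/-- Finitely many EF classes. -/
def EFFiniteStmt : Prop := ∀ (σ : Sig) (X : Type u) (A : RS σ X) (n r : ℕ),
  ∃ (N : ℕ) (cl : (Fin r → X) → Fin N), ∀ a b, cl a = cl b → EF A A n r a b

/-- The diagonal embedding is elementary. -/
def DiagStmt : Prop := ∀ (σ : Sig) (X : Type u) (A : RS σ X) (n r : ℕ) (a : Fin r → X),
  EF A A.up n r a (fun i => ((fun _ => a i : ℕ → X) : UP X))

/-! ## Exact sequences -/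

/-- EXACT. -/
def ExactStmt : Prop := ∀ (E C : Type u) [CommGroup E] [CommGroup C] (π : E →* C),
  Function.Surjective π → (∀ (c : C) (n : ℕ), 0 < n → c ^ n = 1 → c = 1) →
  ∀ (PA : Set (UP E × UP E) → Prop) (PC : Set (UP C × UP C) → Prop),
  IsTypeProp {e | upHom π e = 1} PA → IsTypeProp Set.univ PC →
  ∀ L : Subgroup (UP E × UP E), Good π PA PC L → ∀ S : Set (UP E), S.Countable →
  ∃ L' : Subgroup (UP E × UP E), L ≤ L' ∧ Good π PA PC L' ∧ ∀ x ∈ S, ∃ y, (x, y) ∈ L'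

/-- Types in the ultrapower of a group with predicates, restricted to a subgroup `A`. -/
def PRes {G : Type u} [CommGroup G] {m : ℕ} (P : Fin m → Set G) (A : Subgroup G)
    (L : Set (UP G × UP G)) : Prop :=
  (∀ p ∈ L, p.1 ∈ upSet (A : Set G) ∧ p.2 ∈ upSet (A : Set G)) ∧
    Tp ((grpRS P).restr A).up ((grpRS P).restr A).up L

def PResTypeStmt : Prop := ∀ (G : Type u) [CommGroup G] (m : ℕ) (P : Fin m → Set G)
  (A : Subgroup G), IsTypeProp (upSet (A : Set G)) (PRes P A)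

def GrpTypeStmt : Prop := ∀ (G : Type u) [CommGroup G] (m : ℕ) (P : Fin m → Set G),
  IsTypeProp Set.univ (fun L => Tp (grpRS P).up (grpRS P).up L)

/-- Types in the residue field, on leading terms of value 0. -/
def PAk {M : Type u} [Field M] (O : ValuationSubring M) (L : Set (UP (RVg O) × UP (RVg O))) : Prop :=
  (∀ p ∈ L, upHom (piV O) p.1 = 1 ∧ upHom (piV O) p.2 = 1) ∧
    Tp (pureRS (IsLocalRing.ResidueField O)).up (pureRS (IsLocalRing.ResidueField O)).up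
      ((fun p : UP (RVg O) × UP (RVg O) => (upMap (rk O) p.1, upMap (rk O) p.2)) '' L)

/-- The linear relations of residues are preserved. -/
def PreservesLin {M : Type u} [Field M] (O : ValuationSubring M)
    (PA : Set (UP (RVg O) × UP (RVg O)) → Prop) : Prop :=
  ∀ L, PA L → ∀ (r : ℕ) (p : Fin r → UP (RVg O) × UP (RVg O)) (z : Fin r → ℤ), (∀ i, p i ∈ L) →
    (∑ i, z i • upMap (rk O) (p i).1 = 0 ↔ ∑ i, z i • upMap (rk O) (p i).2 = 0)

/-- The order of the value group is preserved. -/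
def PreservesOrd {M : Type u} [Field M] (O : ValuationSubring M)
    (PC : Set (UP (VGg O) × UP (VGg O)) → Prop) : Prop :=
  ∀ L, PC L → ∀ p ∈ L, (p.1 ∈ upSet (vset O O) ↔ p.2 ∈ upSet (vset O O))

def PAkStmt : Prop := ∀ (M : Type u) [Field M] (O : ValuationSubring M),
  IsTypeProp {e | upHom (piV O) e = 1} (PAk O) ∧ PreservesLin O (PAk O)

/-! ## Henselian valuation rings -/

def HensOfStmt : Prop := ∀ (M : Type u) [Field M] (O : ValuationSubring M),
  HenselianLocalRing O → Hens O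

def HensLiftStmt : Prop := ∀ (M : Type u) [Field M] (O : ValuationSubring M), Hens O →
  ∀ (p : M[X]) (z₀ : M), (∀ i, p.coeff i ∈ O) → z₀ ∈ O → O.valuation (p.eval z₀) < 1 →
    O.valuation (p.derivative.eval z₀) = 1 → ∃ z, O.valuation (z - z₀) < 1 ∧ p.eval z = 0

def HensCoarsenStmt : Prop := ∀ (M : Type u) [Field M] (O O' : ValuationSubring M), O ≤ O' →
  Hens O → Hens O'

/-- The field lemma (finite approximation). -/
def FieldStepStmt : Prop := ∀ (M : Type u) [Field M] (O : ValuationSubring M), Hens O → Res0 O →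
  ∀ (ρ : M → M → Prop), RvRel O ρ → ∀ (A : Subfield M) (f : A →+* M),
  (∀ a : A, (a : M) ≠ 0 → ρ a (f a)) → ∀ x : M, x ∉ A →
  ∀ H : Finset A[X], (∀ h ∈ H, h ≠ 0) →
  (∀ h ∈ H, ∀ (j : ℕ) (z : M), derivative^[j] h ≠ 0 → aeval z (derivative^[j] h) = 0 → z ∈ A) →
  (∀ h ∈ H, ∃ w, ρ (aeval x h) w) → (∀ a ∈ A, ∃ w, ρ (x - a) w) →
  ∀ g : A[X], (g = 0 ∨ (g ≠ 0 ∧ aeval x g = 0 ∧
    ∀ (j : ℕ) (z : M), 0 < j → derivative^[j] g ≠ 0 → aeval z (derivative^[j] g) = 0 → z ∈ A)) →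
  ∃ y : M, eval₂ f y g = 0 ∧ ∀ h ∈ H, ρ (aeval x h) (eval₂ f y h)

/-- AKE: the system `Sys` has forth (and back, by symmetry). -/
def AKEStmt : Prop := ∀ (M : Type u) [Field M] (O : ValuationSubring M), Hens O → Res0 O →
  ∀ (PA : Set (UP (RVg O) × UP (RVg O)) → Prop) (PC : Set (UP (VGg O) × UP (VGg O)) → Prop),
  IsTypeProp {e | upHom (piV O) e = 1} PA → IsTypeProp Set.univ PC →
  PreservesLin O PA → PreservesOrd O PC →
  ∀ G, Sys O PA PC G → ∀ x : UP M, ∃ G', G ⊆ G' ∧ Sys O PA PC G' ∧ ∃ y, (x, y) ∈ G'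

/-- `Sys` is symmetric. -/
def SysSwapStmt : Prop := ∀ (M : Type u) [Field M] (O : ValuationSubring M)
  (PA : Set (UP (RVg O) × UP (RVg O)) → Prop) (PC : Set (UP (VGg O) × UP (VGg O)) → Prop),
  IsTypeProp {e | upHom (piV O) e = 1} PA → IsTypeProp Set.univ PC →
  ∀ G, Sys O PA PC G → Sys O PA PC (Prod.swap ⁻¹' G)

/-- The order part of the main lemma: EXACT for `P → Γ₁ → Γ₂` gives types in `Γ₁` with the
intermediate ring `O`. -/
def OrdLemmaStmt : Prop := ∀ (M : Type u) [Field M] (O₁ O O₂ : ValuationSubring M) (h₁ : O₁ ≤ O)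
  (h₂ : O ≤ O₂) (L : Subgroup (UP (VGg O₁) × UP (VGg O₁))),
  Good (vmap (h₁.trans h₂)) (PRes ![vset O₁ O₁, vset O₁ O] (vmap (h₁.trans h₂)).ker)
    (fun L => Tp (vgRS O₂ ![O₂]).up (vgRS O₂ ![O₂]).up L) L →
  Tp (vgRS O₁ ![O₁, O, O₂]).up (vgRS O₁ ![O₁, O, O₂]).up (L : Set _)

/-- The main lemma of Case 1. -/
def MainLemmaStmt : Prop := ∀ (M : Type u) [Field M] (O₁ O O₂ : ValuationSubring M), O₁ ≤ O →
  O ≤ O₂ → Hens O₁ → Res0 O₁ → ∀ F : Subfield M, (∀ z ∈ F, z ∈ O₂ → z ∈ O₁) →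
  (∀ z ∈ F, z ≠ 0 → ∀ n : ℕ, 0 < n → ∀ w : M, O₂.valuation z = O₂.valuation (w ^ n) →
    ∃ s ∈ F, O₂.valuation z = O₂.valuation (s ^ n)) →
  ∀ (r : ℕ) (x y : Fin r → M), (∀ i, x i ∈ F) →
  (∀ n, EF (fieldRS ![(O₁ : Set M), (O₂ : Set M)]) (fieldRS ![(O₁ : Set M), (O₂ : Set M)]) n r x y) →
  ∀ n, EF (fieldRS ![(O : Set M)]) (fieldRS ![(O : Set M)]) n r x y

/-! ## Case 1: the residue field is not algebraically closed -/

def BSandStmt : Prop := ∀ (K : Type u) [Field K] (O : ValuationSubring K), Hens O → Res0 O →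
  ¬ IsAlgClosed (IsLocalRing.ResidueField O) → ∃ f : K[X], (∀ x, f.eval x ≠ 0) ∧
    (∀ x, (f.eval x)⁻¹ ∈ O) ∧
    ∀ μ, O.valuation μ < 1 → ∃ x y, μ = (f.eval x)⁻¹ - (f.eval y)⁻¹

/-- Parameters, and relations which are only invariant on a subset `S`. -/
def SNIPParamStmt : Prop := ∀ (σ : Sig) (X : Type u) (A : RS σ X) (n : ℕ), SNIP A n →
  ∀ (a b t l : ℕ) (p : Fin l → X) (S : Set X) (D : Set (Fin (a + n * b) → X)),
  (∀ z w : Fin (a + n * b) → X, (∀ i, z i ∈ S) → (∀ i, w i ∈ S) →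
    EF A A t (a + n * b + l) (Fin.append z p) (Fin.append w p) → (z ∈ D ↔ w ∈ D)) →
  ∃ N, ¬ HasPattern n a b N S D

def SNIPUpStmt : Prop := ∀ (σ : Sig) (X : Type u) (A : RS σ X) (n : ℕ), SNIP A n → SNIP A.up n

def Case1Stmt : Prop := ∀ (K : Type u) [Field K] (O : ValuationSubring K), Hens O → Res0 O →
  ¬ IsAlgClosed (IsLocalRing.ResidueField O) → ∀ n, 0 < n → SNIP (pureRS K) n →
  SNIP (fieldRS ![(O : Set K)]) n

/-! ## Case 0: the residue field is algebraically closed -/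

/-- The pure definable coarsening `O_q`. -/
def Oq (M : Type u) [Field M] (q : ℕ) : Set M :=
  {y | ∀ a : M, (¬ ∃ w, a = w ^ q) → ∀ x : M, (∃ w, (x ^ q - a) / a = w ^ q) →
    ∃ w, ((y * x) ^ q - a) / a = w ^ q}

/-- The intersection of the `O_q` is the coarsening by a divisible convex subgroup. -/
def OinfStmt : Prop := ∀ (M : Type u) [Field M] (O : ValuationSubring M), Hens O → Res0 O →
  IsAlgClosed (IsLocalRing.ResidueField O) →
  ∃ O' : ValuationSubring M, (O' : Set M) = {y | ∀ q : ℕ, q.Prime → y ∈ Oq M q} ∧ O ≤ O' ∧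
    ∀ (z : M) (n : ℕ), 0 < n → O'.valuation z = 1 →
      ∃ w, O'.valuation w = 1 ∧ O.valuation z = O.valuation (w ^ n)

/-- Types in an algebraically closed residue field: polynomial relations over ℤ. -/
def PAac {M : Type u} [Field M] (O : ValuationSubring M) (L : Set (UP (RVg O) × UP (RVg O))) :
    Prop :=
  (∀ p ∈ L, upHom (piV O) p.1 = 1 ∧ upHom (piV O) p.2 = 1) ∧
    ∀ (r : ℕ) (p : Fin r → UP (RVg O) × UP (RVg O)) (f : MvPolynomial (Fin r) ℤ),
      (∀ i, p i ∈ L) → (MvPolynomial.aeval (fun i => upMap (rk O) (p i).1) f = 0 ↔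
        MvPolynomial.aeval (fun i => upMap (rk O) (p i).2) f = 0)

def PAacStmt : Prop := ∀ (M : Type u) [Field M] (O : ValuationSubring M), Res0 O →
  IsAlgClosed (IsLocalRing.ResidueField O) →
  IsTypeProp {e | upHom (piV O) e = 1} (PAac O) ∧ PreservesLin O (PAac O)

/-- Types in a divisible convex subgroup `ker (VGg O → VGg O')`: order and multiplicative
relations. -/
def PAdiv {M : Type u} [Field M] {O O' : ValuationSubring M} (h : O ≤ O')
    (L : Set (UP (VGg O) × UP (VGg O))) : Prop :=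
  (∀ p ∈ L, upHom (vmap h) p.1 = 1 ∧ upHom (vmap h) p.2 = 1) ∧
    ∀ (r : ℕ) (p : Fin r → UP (VGg O) × UP (VGg O)) (z : Fin r → ℤ), (∀ i, p i ∈ L) →
      ((∏ i, (p i).1 ^ z i) ∈ upSet (vset O O) ↔ (∏ i, (p i).2 ^ z i) ∈ upSet (vset O O))

def PAdivStmt : Prop := ∀ (M : Type u) [Field M] (O O' : ValuationSubring M) (h : O ≤ O'),
  (∀ (z : M) (n : ℕ), 0 < n → O'.valuation z = 1 →
      ∃ w, O'.valuation w = 1 ∧ O.valuation z = O.valuation (w ^ n)) →
  IsTypeProp {e | upHom (vmap h) e = 1} (PAdiv h)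

/-- Case 0, final back and forth: if `f` (given by the tuples `x`, `y`) has the same type in
`(M, O')` and the same quantifier free valuation type, then the same type in `(M, O)`. -/
def Case0LemmaStmt : Prop := ∀ (M : Type u) [Field M] (O O' : ValuationSubring M), O ≤ O' →
  Hens O → Res0 O → IsAlgClosed (IsLocalRing.ResidueField O) →
  (∀ (z : M) (n : ℕ), 0 < n → O'.valuation z = 1 →
      ∃ w, O'.valuation w = 1 ∧ O.valuation z = O.valuation (w ^ n)) →
  ∀ (r : ℕ) (x y : Fin r → M),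
  (∀ n, EF (fieldRS ![(O' : Set M)]) (fieldRS ![(O' : Set M)]) n r x y) →
  (∀ g h : MvPolynomial (Fin r) ℤ,
    (O.valuation (MvPolynomial.aeval x g) ≤ O.valuation (MvPolynomial.aeval x h) ↔
      O.valuation (MvPolynomial.aeval y g) ≤ O.valuation (MvPolynomial.aeval y h))) →
  ∀ n, EF (fieldRS ![(O : Set M)]) (fieldRS ![(O : Set M)]) n r x y

/-- Decomposition in Case 0. -/
def DecompStmt : Prop := ∀ (K : Type u) [Field K] (O : ValuationSubring K), Hens O → Res0 O →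
  IsAlgClosed (IsLocalRing.ResidueField O) → ∀ (r t : ℕ) (D : Set (Fin r → K)),
  (∀ z w, EF (fieldRS ![(O : Set K)]) (fieldRS ![(O : Set K)]) t r z w → (z ∈ D ↔ w ∈ D)) →
  ∃ (m : ℕ) (L : Finset (MvPolynomial (Fin r) ℤ × MvPolynomial (Fin r) ℤ)), ∀ z w,
    EF (pureRS K) (pureRS K) m r z w →
    (∀ gh ∈ L, (O.valuation (MvPolynomial.aeval z gh.1) ≤ O.valuation (MvPolynomial.aeval z gh.2) ↔
      O.valuation (MvPolynomial.aeval w gh.1) ≤ O.valuation (MvPolynomial.aeval w gh.2))) →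
    (z ∈ D ↔ w ∈ D)

/-- Comparison patterns of linear forms: polynomially many. -/
def LinFormsStmt : Prop := ∀ m : ℕ, ∃ C E : ℕ, ∀ (K : Type u) [Field K] (O : ValuationSubring K)
  (N : ℕ) (l : Fin N → Fin m → K),
  {S : Set (Fin N × Fin N) | ∃ x : Fin m → K, S = {p | O.valuation (∑ j, l p.1 j * x j) ≤
    O.valuation (∑ j, l p.2 j * x j)}}.ncard ≤ C * (N + 1) ^ E

/-- Traces of finitely many quantifier free valuation relations on a box: polynomially many. -/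
def TraceStmt : Prop := ∀ (a b n : ℕ)
  (L : Finset (MvPolynomial (Fin (a + n * b)) ℤ × MvPolynomial (Fin (a + n * b)) ℤ)),
  ∃ C E : ℕ, ∀ (K : Type u) [Field K] (O : ValuationSubring K) (N : ℕ)
  (y : Fin n → Fin N → Fin b → K),
  {S : Set (L × (Fin n → Fin N)) | ∃ x : Fin a → K, S = {p |
    O.valuation (MvPolynomial.aeval (tup x (fun k => y k (p.2 k))) p.1.1.1) ≤
    O.valuation (MvPolynomial.aeval (tup x (fun k => y k (p.2 k))) p.1.1.2)}}.ncard ≤
      C * (N + 1) ^ E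

/-- Erdos' box lemma. -/
def BoxStmt : Prop := ∀ n k c : ℕ, ∃ N₀, ∀ N ≥ N₀, ∀ S : Finset (Fin n → Fin N),
  N ^ n ≤ c * S.card → ∃ B : Fin n → Finset (Fin N), (∀ i, (B i).card = k) ∧
    ∀ p : Fin n → Fin N, (∀ i, p i ∈ B i) → p ∈ S

/-- Sauer-Shelah and boxes. -/
def ShatterStmt : Prop := ∀ C E n l k : ℕ, 0 < n → 0 < l → ∃ N₀, ∀ N ≥ N₀,
  ∀ F : Finset (Finset (Fin n → Fin N)), 2 ^ (N ^ n) ≤ C * (N + 1) ^ E * F.card →
  ∀ cls : (Fin n → Fin N) → Fin l, ∃ (B : Fin n → Finset (Fin N)) (c : Fin l),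
    (∀ i, (B i).card = k) ∧ (∀ p : Fin n → Fin N, (∀ i, p i ∈ B i) → cls p = c) ∧
    ∀ T : Set (Fin n → Fin N), ∃ s ∈ F, ∀ p : Fin n → Fin N, (∀ i, p i ∈ B i) → (p ∈ s ↔ p ∈ T)

def Case0Stmt : Prop := ∀ (K : Type u) [Field K] (O : ValuationSubring K), Hens O → Res0 O →
  IsAlgClosed (IsLocalRing.ResidueField O) → ∀ n, 0 < n → SNIP (pureRS K) n →
  SNIP (fieldRS ![(O : Set K)]) n

end Pool.Agent.NF44
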