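import Pool.Agent.NF44.Hensel

/-!
The lemma on tame expansions.
-/

set_option autoImplicit false

namespace Pool.Agent.NF44

open Polynomial

section

variable {M : Type*} [Field M] {Γ : Type*} [LinearOrderedCommGroupWithZero Γ]

theorem taylor_scale (e c y : M) (q : M[X]) :
    taylor y (C e * q.comp (C c * X)) = C e * (taylor (c * y) q).comp (C c * X) := by
  rw [taylor_apply, mul_comp, C_comp, comp_assoc, taylor_apply, comp_assoc]
  congr 2
  simp only [mul_comp, C_comp, X_comp, add_comp, map_mul]
  ring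

theorem coeff_taylor_scale (e c y : M) (q : M[X]) (j : ℕ) :
    (taylor y (C e * q.comp (C c * X))).coeff j = e * ((taylor (c * y) q).coeff j * c ^ j) := by
  rw [taylor_scale, coeff_C_mul, comp_C_mul_X_coeff]

theorem derivative_hasse (p : M[X]) (j : ℕ) :
    derivative (hasseDeriv j p) = (j + 1) • hasseDeriv (j + 1) p := by
  have h := congrArg (fun l => l p) (hasseDeriv_comp (R := M) 1 j)
  simp only [LinearMap.comp_apply, LinearMap.smul_apply] at h
  rw [hasseDeriv_one] at h
  rw [h, add_comm 1 j]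
  simp

theorem hasse_derivative (p : M[X]) (j : ℕ) :
    hasseDeriv j (derivative p) = (j + 1) • hasseDeriv (j + 1) p := by
  have h := congrArg (fun l => l p) (hasseDeriv_comp (R := M) j 1)
  simp only [LinearMap.comp_apply, LinearMap.smul_apply] at h
  rw [hasseDeriv_one] at h
  rw [h]
  simp

theorem v_taylor_coeff_lt (v : Valuation M Γ) {p : M[X]} (hp : ∀ i, v (p.coeff i) < 1) {a : M}
    (ha : v a ≤ 1) (j : ℕ) : v ((taylor a p).coeff j) < 1 := by
  rw [taylor_coeff, hasseDeriv_apply, sum_def, eval_finsetSum]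
  apply v_sum_lt v zero_lt_one
  intro i _
  rw [eval_monomial, map_mul, map_mul, map_pow]
  have h1 := v_natCast_le_one v (i.choose j)
  have h2 := hp i
  have h3 : v a ^ (i - j) ≤ 1 := pow_le_one' ha _
  calc v ((i.choose j : ℕ) : M) * v (p.coeff i) * v a ^ (i - j) ≤ 1 * v (p.coeff i) * 1 :=
        mul_le_mul' (mul_le_mul' h1 le_rfl) h3
    _ = v (p.coeff i) := by simp
    _ < 1 := h2

/-- If no zero of a Hasse derivative of `p` is closer to `a + c` than `a`, then no cancellation
occurs in the expansion of `p` at `a`. -/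
theorem tame {v : Valuation M Γ} (hH : HensV v) (h0 : ∀ n : ℕ, n ≠ 0 → v (n : M) = 1) {p : M[X]}
    {a c : M} (hc : c ≠ 0)
    (hno : ∀ j z, hasseDeriv j p ≠ 0 → (hasseDeriv j p).eval z = 0 → v c ≤ v (a + c - z))
    (j : ℕ) : v ((taylor a p).coeff j * c ^ j) ≤ v (p.eval (a + c)) := by
  by_contra hcon
  push Not at hcon
  have hj : j ∈ Finset.range (p.natDegree + 1) := by
    rw [Finset.mem_range]
    by_contra h
    have : (taylor a p).coeff j = 0 := by
      apply coeff_eq_zero_of_natDegree_lt
      rw [natDegree_taylor]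
      omega
    rw [this] at hcon
    simp at hcon
  obtain ⟨i, hi, hmax⟩ := Finset.exists_max_image (Finset.range (p.natDegree + 1))
    (fun k => v ((taylor a p).coeff k * c ^ k)) ⟨j, hj⟩
  set e := (taylor a p).coeff i * c ^ i with he
  have hlt : v (p.eval (a + c)) < v e := lt_of_lt_of_le hcon (hmax j hj)
  have hve : v e ≠ 0 := (lt_of_le_of_lt zero_le hlt).ne'
  have he0 : e ≠ 0 := (Valuation.ne_zero_iff v).mp hve
  set P : M[X] := C e⁻¹ * (taylor a p).comp (C c * X) with hP
  have hcoef : ∀ k, P.coeff k = e⁻¹ * ((taylor a p).coeff k * c ^ k) := by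
    intro k
    rw [hP, coeff_C_mul, comp_C_mul_X_coeff]
  have hle : ∀ k, v (P.coeff k) ≤ 1 := by
    intro k
    rw [hcoef, map_mul, map_inv₀]
    by_cases hk : k ∈ Finset.range (p.natDegree + 1)
    · have := hmax k hk
      calc (v e)⁻¹ * v ((taylor a p).coeff k * c ^ k) ≤ (v e)⁻¹ * v e :=
            mul_le_mul' le_rfl this
        _ = 1 := inv_mul_cancel₀ hve
    · have : (taylor a p).coeff k = 0 := by
        apply coeff_eq_zero_of_natDegree_lt
        rw [natDegree_taylor]
        rw [Finset.mem_range] at hk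
        omega
      rw [this]
      simp
  have hPi : P.coeff i = 1 := by
    rw [hcoef, ← he, inv_mul_cancel₀ he0]
  have hQle : ∀ k, v ((taylor 1 P).coeff k) ≤ 1 := fun k =>
    v_taylor_coeff_le v hle (by simp) k
  have hex : ∃ k, v ((taylor 1 P).coeff k) = 1 := by
    by_contra hno
    push Not at hno
    have h1 : ∀ k, v ((taylor 1 P).coeff k) < 1 := fun k => lt_of_le_of_ne (hQle k) (hno k)
    have h2 := v_taylor_coeff_lt v h1 (a := -1) (by rw [Valuation.map_neg]; simp) i
    rw [taylor_taylor] at h2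
    simp only [neg_add_cancel, taylor_zero, hPi, map_one, lt_self_iff_false] at h2
  classical
  set J := Nat.find hex with hJ
  have hJ1 : v ((taylor 1 P).coeff J) = 1 := Nat.find_spec hex
  have hJmin : ∀ k, k < J → v ((taylor 1 P).coeff k) < 1 := fun k hk =>
    lt_of_le_of_ne (hQle k) (Nat.find_min hex hk)
  have hPeval : ∀ y k, (taylor y P).coeff k = e⁻¹ * ((taylor (a + c * y) p).coeff k * c ^ k) := by
    intro y k
    rw [hP, coeff_taylor_scale, taylor_taylor, add_comm (c * y) a]
  have hJ0 : J ≠ 0 := by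
    intro h
    rw [h, hPeval 1 0, mul_one, taylor_coeff_zero, pow_zero, mul_one, map_mul, map_inv₀] at hJ1
    have h2 : v (p.eval (a + c)) = v e := by
      calc v (p.eval (a + c)) = v e * ((v e)⁻¹ * v (p.eval (a + c))) := by
            rw [← mul_assoc, mul_inv_cancel₀ hve, one_mul]
        _ = v e := by rw [hJ1, mul_one]
    exact hlt.ne h2
  obtain ⟨K, hK⟩ := Nat.exists_eq_succ_of_ne_zero hJ0
  set Q : M[X] := hasseDeriv K P with hQ
  have hQc : ∀ k, v (Q.coeff k) ≤ 1 := by
    intro k
    rw [hQ, hasseDeriv_coeff, map_mul]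
    calc v (((k + K).choose K : ℕ) : M) * v (P.coeff (k + K)) ≤ 1 * 1 :=
          mul_le_mul' (v_natCast_le_one v _) (hle _)
      _ = 1 := by simp
  have hQ1 : v (Q.eval 1) < 1 := by
    rw [hQ, ← taylor_coeff]
    exact hJmin K (by omega)
  have hder : Q.derivative = (K + 1) • hasseDeriv (K + 1) P := derivative_hasse P K
  have hQd : v (Q.derivative.eval 1) = 1 := by
    rw [hder, nsmul_eq_mul, eval_mul, map_mul]
    have h1 : v (((K + 1 : ℕ) : M[X]).eval 1) = 1 := by
      rw [eval_natCast]
      exact h0 _ (Nat.succ_ne_zero _)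
    rw [h1, one_mul, ← taylor_coeff]
    rw [hK] at hJ1
    exact hJ1
  obtain ⟨η, hη0, hη1⟩ := hH Q hQc 1 (by simp) hQ1 hQd
  have hz : (hasseDeriv K p).eval (a + c * η) = 0 := by
    rw [hQ, ← taylor_coeff, hPeval] at hη0
    rw [← taylor_coeff]
    have := pow_ne_zero K hc
    have h3 := inv_ne_zero he0
    simpa [this, h3, hc, he0] using hη0
  have hne : hasseDeriv K p ≠ 0 := by
    intro h
    have h1 : (K + 1) • hasseDeriv (K + 1) p = 0 := by
      rw [← derivative_hasse, h, derivative_zero]
    have h2 : v ((taylor 1 P).coeff (K + 1)) = 1 := by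
      rw [hK] at hJ1
      exact hJ1
    have h3 : (taylor 1 P).coeff (K + 1) ≠ 0 := by
      intro h
      rw [h] at h2
      simp at h2
    rw [hPeval, taylor_coeff] at h3
    have h4 : (((K + 1 : ℕ) : M)) * (hasseDeriv (K + 1) p).eval (a + c * 1) = 0 := by
      have := congrArg (fun q => q.eval (a + c * 1)) h1
      simpa [nsmul_eq_mul] using this
    have h5 : ((K + 1 : ℕ) : M) ≠ 0 := by
      intro h
      have := h0 (K + 1) (Nat.succ_ne_zero _)
      rw [h] at this
      simp at this
    rcases mul_eq_zero.mp h4 with h6 | h6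
    · exact h5 h6
    · rw [h6] at h3
      simp at h3
  have h7 := hno K (a + c * η) hne hz
  have h8 : a + c - (a + c * η) = c * (1 - η) := by ring
  rw [h8, map_mul] at h7
  have h9 : v (1 - η) < 1 := by
    rw [← Valuation.map_neg]
    simpa using hη1
  have hvc : 0 < v c := zero_lt_iff.mpr ((Valuation.ne_zero_iff v).mpr hc)
  have h10 : v c * v (1 - η) < v c * 1 := mul_lt_mul_of_pos_left h9 hvc
  rw [mul_one] at h10
  exact absurd h7 (not_le.mpr h10)

end

end Pool.Agent.NF44
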