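import Pool.Agent.NF44.LinForms

/-!
Traces of finitely many quantifier free valuation relations on a box: polynomially many.
-/

namespace Pool.Agent.NF44.H40

open Finset

universe u

/-- coefficient of the generalized monomial `d` of the polynomial `f` at the point `z`. -/
noncomputable def lco {K : Type u} [Field K] {a c : ℕ} (f : MvPolynomial (Fin (a + c)) ℤ)
    (z : Fin c → K) (d : Fin (a + c) →₀ ℕ) : K :=
  ((MvPolynomial.coeff d f : ℤ) : K) * ∏ j : Fin c, z j ^ d (Fin.natAdd a j)

theorem aeval_append {K : Type u} [Field K] {a c : ℕ} (f : MvPolynomial (Fin (a + c)) ℤ)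
    (x : Fin a → K) (z : Fin c → K) (D : Finset (Fin (a + c) →₀ ℕ)) (hD : f.support ⊆ D) :
    MvPolynomial.aeval (Fin.append x z) f =
      ∑ j : Fin D.card, lco f z (D.equivFin.symm j).1 *
        ∏ i : Fin a, x i ^ (D.equivFin.symm j).1 (Fin.castAdd c i) := by
  have h1 : MvPolynomial.aeval (Fin.append x z) f =
      ∑ d ∈ D, lco f z d * ∏ i : Fin a, x i ^ d (Fin.castAdd c i) := by
    rw [MvPolynomial.aeval_def, MvPolynomial.eval₂_eq']
    rw [← Finset.sum_subset hD]
    · refine Finset.sum_congr rfl fun d _ => ?_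
      rw [Fin.prod_univ_add]
      simp only [lco, Fin.append_left, Fin.append_right]
      rw [show (algebraMap ℤ K) (MvPolynomial.coeff d f) = ((MvPolynomial.coeff d f : ℤ) : K) from rfl]
      ring
    · intro d _ hd
      rw [MvPolynomial.notMem_support_iff] at hd
      simp [lco, hd]
  rw [h1, ← Finset.sum_coe_sort D, ← Equiv.sum_comp D.equivFin.symm]

theorem tup_eq {X : Type u} {a b n : ℕ} (x : Fin a → X) (y : Fin n → Fin b → X) :
    tup x y = Fin.append x (fun i => y (finProdFinEquiv.symm i).1 (finProdFinEquiv.symm i).2) := rfl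

end Pool.Agent.NF44.H40

namespace Pool.Agent.NF44

open Finset

universe u

theorem trace : TraceStmt.{u} := by
  classical
  intro a b n L
  set D : Finset (Fin (a + n * b) →₀ ℕ) := L.biUnion fun gh => gh.1.support ∪ gh.2.support with hD
  set m := D.card with hm
  set E' := 2 ^ m * 10 - 10 with hE'
  refine ⟨2 ^ m * (2 * L.card + 1) ^ E', n * E', ?_⟩
  intro K _ O N y
  let zz : (Fin n → Fin N) → Fin (n * b) → K := fun p i =>
    y (finProdFinEquiv.symm i).1 (p (finProdFinEquiv.symm i).1) (finProdFinEquiv.symm i).2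
  let l : (L × Bool) × (Fin n → Fin N) → Fin m → K := fun q j =>
    H40.lco (if q.1.2 = true then q.1.1.1.2 else q.1.1.1.1) (zz q.2) (D.equivFin.symm j).1
  have hcard := H40.patterns_card O.valuation m l
  have hev : ∀ (x : Fin a → K) (q : L × (Fin n → Fin N)) (c : Bool),
      MvPolynomial.aeval (tup x (fun k => y k (q.2 k)))
        (if c = true then q.1.1.2 else q.1.1.1) =
      ∑ j : Fin m, l ((q.1, c), q.2) j *
        ∏ i : Fin a, x i ^ (D.equivFin.symm j).1 (Fin.castAdd (n * b) i) := by
    intro x q c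
    rw [H40.tup_eq]
    refine H40.aeval_append _ x (zz q.2) D ?_
    intro d hd
    rw [hD, mem_biUnion]
    refine ⟨q.1.1, q.1.2, ?_⟩
    rw [mem_union]
    cases c
    · left; simpa using hd
    · right; simpa using hd
  have hsub : {S : Set (L × (Fin n → Fin N)) | ∃ x : Fin a → K, S = {p |
      O.valuation (MvPolynomial.aeval (tup x (fun k => y k (p.2 k))) p.1.1.1) ≤
      O.valuation (MvPolynomial.aeval (tup x (fun k => y k (p.2 k))) p.1.1.2)}} ⊆
      (fun P : Set (((L × Bool) × (Fin n → Fin N)) × ((L × Bool) × (Fin n → Fin N))) =>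
        {p : L × (Fin n → Fin N) | (((p.1, false), p.2), ((p.1, true), p.2)) ∈ P}) ''
        (H40.patterns O.valuation l) := by
    rintro S ⟨x, rfl⟩
    refine ⟨_, ⟨fun j => ∏ i : Fin a, x i ^ (D.equivFin.symm j).1 (Fin.castAdd (n * b) i), rfl⟩, ?_⟩
    ext p
    have h1 := hev x p false
    have h2 := hev x p true
    simp only [Bool.false_eq_true, if_false, if_true] at h1 h2
    simp only [H40.pat, Set.mem_ofPred_eq]
    rw [h1, h2]
  refine (Set.ncard_le_ncard hsub (Set.toFinite _)).trans ?_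
  refine (Set.ncard_image_le (Set.toFinite _)).trans ?_
  refine hcard.trans ?_
  have hc : Fintype.card ((L × Bool) × (Fin n → Fin N)) + 1 ≤ (2 * L.card + 1) * (N + 1) ^ n := by
    have h1 : Fintype.card ((L × Bool) × (Fin n → Fin N)) = L.card * 2 * N ^ n := by simp
    rw [h1]
    have h2 : N ^ n ≤ (N + 1) ^ n := Nat.pow_le_pow_left (Nat.le_succ _) _
    have h3 : 1 ≤ (N + 1) ^ n := Nat.one_le_pow _ _ (Nat.succ_pos _)
    nlinarith [Nat.mul_le_mul_left (L.card * 2) h2]
  calc 2 ^ m * (Fintype.card ((L × Bool) × (Fin n → Fin N)) + 1) ^ E'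
      ≤ 2 ^ m * ((2 * L.card + 1) * (N + 1) ^ n) ^ E' :=
        Nat.mul_le_mul_left _ (Nat.pow_le_pow_left hc _)
    _ = 2 ^ m * (2 * L.card + 1) ^ E' * (N + 1) ^ (n * E') := by
        rw [mul_pow, ← pow_mul, mul_assoc]

end Pool.Agent.NF44
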